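import Pool.Agent.Lib.MP_7f581e_Z.Types.SpecB

/-!
# Lang's theorem for type I with a constant idempotent
-/

set_option autoImplicit false

namespace MP7Z

open TensorProduct MP7fS MP7fU Matrix

theorem tyL1E (h1 : UeStmt) (h2 : ScStmt) (h3 : DetUStmt) : L1EStmt := by
  intro p _ ι n F _ _ _ _ α hα s hs hSL hc hII k _ _ _ _ g hg
  obtain ⟨c, hcc, hcs⟩ := hc
  obtain ⟨hg1, hg2⟩ := hg
  obtain ⟨y', hy'1, hy'2⟩ := hII k g hg2
  obtain ⟨s1, s2, s3, -, -, -⟩ := h2 p ι n F α hα s hs k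
  -- the idempotent
  have hcc' : ((1 : k) ⊗ₜ[ZMod p] c) * (1 ⊗ₜ c) = 1 ⊗ₜ c := by
    rw [Algebra.TensorProduct.tmul_mul_tmul, mul_one, hcc]
  have hcs' : tmap (p := p) (RingHom.id k) (sgC ι F α s) ((1 : k) ⊗ₜ[ZMod p] c) =
      1 - 1 ⊗ₜ c := by
    rw [tmap_tmul, hcs, TensorProduct.tmul_sub]
    rfl
  have hJε : jR (JI p ι n F α hα s hs) k (scR p ι n F k ((1 : k) ⊗ₜ[ZMod p] c)) =
      1 - scR p ι n F k ((1 : k) ⊗ₜ[ZMod p] c) := by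
    rw [s2, hcs', map_sub, map_one]
  obtain ⟨U, hU1, hU2, hU3, -, hU5⟩ := h1 (k ⊗[ZMod p] (ι → Matrix (Fin n) (Fin n) F))
    ((jR (JI p ι n F α hα s hs) k).toAddMonoidHom) (jR_one _) (jR_mul _) (jR_jR _)
    (scR p ι n F k ((1 : k) ⊗ₜ[ZMod p] c)) (by rw [← map_mul, hcc']) (s1 _) hJε
  have hUF : U (fru 1 k y') = fru 1 k (U y') := by
    refine hU5 (tmap (p := p) (iterateFrobenius k p 1)
      (RingHom.id (ι → Matrix (Fin n) (Fin n) F))) ?_ ?_ y'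
    · rw [s3, tmap_tmul, map_one]
      rfl
    · intro a
      exact (jR_tmap _ _ (RingHom.id _) (fun _ => rfl) a).symm
  obtain ⟨w', hw', hv⟩ := hU1 y'
  refine ⟨U y', ⟨hU2 y', ?_⟩, ?_⟩
  · exact h3 p ι n F α hα s hs k _ hcc' y' (U y') w' hy'1 hw' hv
  · rw [← hUF, hy'2, map_mul, hU3 g hg1]

end MP7Z
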