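import Pool.Agent.Lib.MP_7f581e_Z.Types.TD
import Pool.Agent.Lib.MP_7f581e_ntG.SplitSLn
import Pool.Agent.Lib.MP_7f581e_ntG.SplitSLnB

/-!
# The type `SL_n`, `n ≥ 3`
-/

namespace MP7Z

open Matrix Matrix.SpecialLinearGroup MP7fW MP7fY MP7fG MP7fE

section rev

variable {n : ℕ} {F : Type*} [Field F]

/-- The permutation matrix of `Fin.rev`. -/
def wM (n : ℕ) (F : Type*) [Field F] : Matrix (Fin n) (Fin n) F :=
  (1 : Matrix (Fin n) (Fin n) F).submatrix id Fin.rev

theorem wM_apply (i j : Fin n) : wM n F i j = if i = Fin.rev j then 1 else 0 := by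
  rw [wM, submatrix_apply, one_apply]
  rfl

theorem mul_wM (M : Matrix (Fin n) (Fin n) F) (i j : Fin n) :
    (M * wM n F) i j = M i (Fin.rev j) := by
  rw [mul_apply, Finset.sum_eq_single (Fin.rev j)]
  · rw [wM_apply, if_pos rfl, mul_one]
  · intro b _ hb
    rw [wM_apply, if_neg hb, mul_zero]
  · intro h
    exact absurd (Finset.mem_univ _) h

theorem wM_mul (M : Matrix (Fin n) (Fin n) F) (i j : Fin n) :
    (wM n F * M) i j = M (Fin.rev i) j := by
  rw [mul_apply, Finset.sum_eq_single (Fin.rev i)]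
  · rw [wM_apply, if_pos (Fin.rev_rev i).symm, one_mul]
  · intro b _ hb
    rw [wM_apply, if_neg, zero_mul]
    intro h
    apply hb
    rw [h, Fin.rev_rev]
  · intro h
    exact absurd (Finset.mem_univ _) h

theorem wM_wM : wM n F * wM n F = 1 := by
  ext i j
  rw [mul_wM, wM_apply, Fin.rev_rev, one_apply]

theorem wM_transpose : (wM n F)ᵀ = wM n F := by
  ext i j
  rw [transpose_apply, wM_apply, wM_apply]
  congr 1
  rw [eq_iff_iff]
  constructor
  · rintro rfl
    rw [Fin.rev_rev]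
  · rintro rfl
    rw [Fin.rev_rev]

/-- The invertible matrix. -/
def wG (n : ℕ) (F : Type*) [Field F] : GL (Fin n) F := ⟨wM n F, wM n F, wM_wM, wM_wM⟩

theorem wG_wG : wG n F * wG n F = 1 := Units.ext wM_wM

/-- The powers. -/
def wP (n : ℕ) (F : Type*) [Field F] (ε : Bool) : GL (Fin n) F := if ε then wG n F else 1

theorem wP_mul (ε δ : Bool) : wP n F ε * wP n F δ = wP n F (xor ε δ) := by
  cases ε <;> cases δ
  · exact mul_one _
  · exact one_mul _
  · exact mul_one _
  · exact wG_wG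

theorem gI_wG : gI (wG n F) = wG n F := Units.ext wM_transpose

theorem gT_wP (b ε : Bool) : gT b (wP n F ε) = wP n F ε := by
  cases b
  · rfl
  · cases ε
    · exact gT_one true
    · exact gI_wG

theorem glMap_wP (σ : F ≃+* F) (ε : Bool) : glMap σ (wP n F ε) = wP n F ε := by
  cases ε
  · exact map_one _
  · apply Units.ext
    change (wM n F).map σ = wM n F
    ext i j
    rw [map_apply, wM_apply]
    split_ifs
    · exact map_one σ
    · exact map_zero σ

theorem wP_conj (ε : Bool) {d : GL (Fin n) F} (hd : d ∈ Dg (Fin n) F) :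
    wP n F ε * d * wP n F ε ∈ Dg (Fin n) F := by
  cases ε
  · change 1 * d * 1 ∈ _
    rwa [one_mul, mul_one]
  · obtain ⟨e, he⟩ := hd
    refine ⟨fun i => e (Fin.rev i), ?_⟩
    change wM n F * d.1 * wM n F = _
    rw [he]
    ext i j
    rw [mul_wM, wM_mul, diagonal_apply, diagonal_apply]
    by_cases h : i = j
    · rw [if_pos h, if_pos (congrArg Fin.rev h)]
    · rw [if_neg h, if_neg (fun h' => h (Fin.rev_injective h'))]

theorem gT_Dg (b : Bool) {d : GL (Fin n) F} (hd : d ∈ Dg (Fin n) F) :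
    gT b d ∈ Dg (Fin n) F := by
  cases b
  · exact hd
  · obtain ⟨e, he⟩ := (Dg (Fin n) F).inv_mem hd
    refine ⟨e, ?_⟩
    change ((d⁻¹).1)ᵀ = _
    rw [he, diagonal_transpose]

/-- The standard ring automorphisms. -/
def D1' (n : ℕ) (F : Type*) [Field F] : Subgroup (RingAut (Bool → Matrix (Fin n) (Fin n) F)) where
  carrier := {R | ∃ d ∈ Dg (Fin n) F, ∃ (σ : F ≃+* F) (ε : Bool), R = aR (d * wP n F ε) σ ε}
  one_mem' := ⟨1, one_mem _, RingEquiv.refl F, false, by
    change 1 = aR (1 * 1) _ _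
    rw [mul_one, aR_one]⟩
  mul_mem' := by
    rintro _ _ ⟨d, hd, σ, ε, rfl⟩ ⟨e, he, τ, δ, rfl⟩
    refine ⟨d * (wP n F ε * glMap σ (gT ε e) * wP n F ε),
      mul_mem hd (wP_conj ε (glMap_Dg σ (gT_Dg ε he))), τ.trans σ, xor ε δ, ?_⟩
    rw [aR_mul, gT_mul, map_mul, gT_wP, glMap_wP, ← wP_mul]
    congr 1
    calc d * wP n F ε * (glMap σ (gT ε e) * wP n F δ) =
        d * (wP n F ε * glMap σ (gT ε e) * 1) * wP n F δ := by group
      _ = d * (wP n F ε * glMap σ (gT ε e) * (wP n F ε * wP n F ε)) * wP n F δ := by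
          rw [wP_mul, Bool.xor_self]
          rfl
      _ = _ := by group
  inv_mem' := by
    rintro _ ⟨d, hd, σ, ε, rfl⟩
    have h1 : wP n F ε * wP n F ε = 1 := by
      rw [wP_mul, Bool.xor_self]
      rfl
    have h2 : (wP n F ε)⁻¹ = wP n F ε := inv_eq_of_mul_eq_one_left h1
    refine ⟨gT ε (glMap σ.symm (wP n F ε * d⁻¹ * wP n F ε)),
      gT_Dg ε (glMap_Dg σ.symm (wP_conj ε ((Dg (Fin n) F).inv_mem hd))), σ.symm, ε, ?_⟩
    rw [inv_eq_iff_mul_eq_one, aR_mul, gT_mul, gT_gT, Bool.xor_self, gT_false, gT_wP]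
    have h3 : ∀ g : GL (Fin n) F, glMap σ (glMap σ.symm g) = g := by
      intro g
      apply Units.ext
      rw [glMap_coe, glMap_coe]
      exact map_map_symm σ _
    rw [map_mul (glMap σ), h3, glMap_wP]
    have h4 : d * wP n F ε * (wP n F ε * d⁻¹ * wP n F ε * wP n F ε) = 1 := by
      calc d * wP n F ε * (wP n F ε * d⁻¹ * wP n F ε * wP n F ε) =
          d * (wP n F ε * wP n F ε) * d⁻¹ * (wP n F ε * wP n F ε) := by group
        _ = 1 := by rw [h1, mul_one, mul_one, mul_inv_cancel]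
    have h5 : σ.symm.trans σ = RingEquiv.refl F := by
      ext x
      exact RingEquiv.apply_symm_apply σ x
    rw [h4, h5, aR_one]

/-- The standard group for `SL_n`. -/
def D1 (n : ℕ) (F : Type*) [Field F] : Subgroup (A1 n F) := (D1' n F).subgroupOf (A1 n F)

end rev

section type

variable {n : ℕ} {F : Type} [Field F] [Finite F]

/-- **The type `SL_n`, `n ≥ 3`.** -/
theorem typeD_SLn (h3 : 3 ≤ n) : TypeD (inc1 n F) inc1_inj (A1 n F).subtype hex1 (D1 n F) where
  perf := perf1 h3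
  simple := simple_PSLn h3
  cent := center_psl h3
  sur := sur1 h3
  fix := fix1 h3
  std := by
    have hn0 : 0 < n := by omega
    rintro ⟨R, g, σ, ε, rfl⟩
    have hdet : ∀ g : GL (Fin n) F, IsUnit g.1.det := fun g =>
      (Matrix.isUnit_iff_isUnit_det _).1 g.isUnit
    let o : Fin n := ⟨0, hn0⟩
    let c : Fˣ := (hdet (g * wP n F ε)).unit * (((hdet (wP n F ε)).unit)⁻¹ *
      ((hdet (wP n F ε)).unit)⁻¹)
    let d : GL (Fin n) F := dgl (Function.update (fun _ => (1 : Fˣ)) o c)
    have hd : d.1.det = c := by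
      change (diagonal fun i => ((Function.update (fun _ => (1 : Fˣ)) o c i : Fˣ) : F)).det = _
      rw [det_diagonal, Finset.prod_eq_single o]
      · rw [Function.update_self]
      · intro b _ hb
        rw [Function.update_of_ne hb, Units.val_one]
      · intro h
        exact absurd (Finset.mem_univ _) h
    have hdet1 : (d.1 * (wP n F ε).1 * (g⁻¹).1).det = 1 := by
      have h1 : (g⁻¹).1.det * g.1.det = 1 := by rw [← det_mul, gl_inv_mul, det_one]
      have h2 : ((hdet (g * wP n F ε)).unit : F) = g.1.det * (wP n F ε).1.det := by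
        change (g.1 * (wP n F ε).1).det = _
        rw [det_mul]
      have h3 : ((hdet (wP n F ε)).unit : F) = (wP n F ε).1.det := rfl
      have h4 : (wP n F ε).1.det ≠ 0 := (hdet (wP n F ε)).ne_zero
      have h5 : (c : F) = g.1.det * (wP n F ε).1.det * ((wP n F ε).1.det⁻¹ *
          (wP n F ε).1.det⁻¹) := by
        change ((hdet (g * wP n F ε)).unit : F) * (((hdet (wP n F ε)).unit⁻¹ : Fˣ) *
          ((hdet (wP n F ε)).unit⁻¹ : Fˣ)) = _
        rw [Units.val_inv_eq_inv_val, h2, h3]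
      rw [det_mul, det_mul, hd, h5]
      field_simp
      linear_combination h1
    let h : SpecialLinearGroup (Fin n) F := ⟨d.1 * (wP n F ε).1 * (g⁻¹).1, hdet1⟩
    refine ⟨(h : SpecialLinearGroup (Fin n) F ⧸ Subgroup.center _),
      ⟨aR (d * wP n F ε) σ ε, _, σ, ε, rfl⟩, ⟨d, dgl_mem _, σ, ε, rfl⟩, ?_⟩
    intro a
    obtain ⟨A, rfl⟩ := mkP_surj a
    rw [c1_mk, c1_mk]
    change mkP n F _ = mkP n F h * mkP n F _ * (mkP n F h)⁻¹
    rw [← map_inv, ← map_mul, ← map_mul]
    congr 1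
    apply Subtype.ext
    set B := SpecialLinearGroup.map (σ : F →+* F) (iT ε A)
    have hh : h⁻¹.1 = g.1 * ((d * wP n F ε)⁻¹).1 := by
      have e1 : h.1 = (d * wP n F ε).1 * (g⁻¹).1 := rfl
      have e2 : h⁻¹.1 * h.1 = 1 := congrArg Subtype.val (inv_mul_cancel h)
      have e3 : h.1 * (g.1 * ((d * wP n F ε)⁻¹).1) = 1 := by
        rw [e1]
        calc (d * wP n F ε).1 * (g⁻¹).1 * (g.1 * ((d * wP n F ε)⁻¹).1) =
            (d * wP n F ε).1 * ((g⁻¹).1 * g.1) * ((d * wP n F ε)⁻¹).1 := by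
              simp only [Matrix.mul_assoc]
          _ = 1 := by rw [gl_inv_mul, Matrix.mul_one, gl_mul_inv]
      calc h⁻¹.1 = h⁻¹.1 * (h.1 * (g.1 * ((d * wP n F ε)⁻¹).1)) := by rw [e3, Matrix.mul_one]
        _ = _ := by rw [← Matrix.mul_assoc, e2, Matrix.one_mul]
    change (conjSL (d * wP n F ε) B).1 = h.1 * (conjSL g B).1 * h⁻¹.1
    rw [conjSL_coe, conjSL_coe, hh]
    change (d * wP n F ε).1 * B.1 * ((d * wP n F ε)⁻¹).1 = (d * wP n F ε).1 * (g⁻¹).1 *
      (g.1 * B.1 * (g⁻¹).1) * (g.1 * ((d * wP n F ε)⁻¹).1)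
    calc (d * wP n F ε).1 * B.1 * ((d * wP n F ε)⁻¹).1 =
        (d * wP n F ε).1 * 1 * B.1 * 1 * ((d * wP n F ε)⁻¹).1 := by
          rw [Matrix.mul_one, Matrix.mul_one]
      _ = (d * wP n F ε).1 * ((g⁻¹).1 * g.1) * B.1 * ((g⁻¹).1 * g.1) *
          ((d * wP n F ε)⁻¹).1 := by rw [gl_inv_mul]
      _ = _ := by simp only [Matrix.mul_assoc]
  solv := by
    have hn0 : 0 < n := by omega
    let toG : SpecialLinearGroup (Fin n) F →* GL (Fin n) F := SpecialLinearGroup.toGL
    let T₀ : Subgroup (SpecialLinearGroup (Fin n) F) := (Dg (Fin n) F).comap toG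
    have hT₀ : ∀ a ∈ T₀, ∀ b ∈ T₀, a * b = b * a := by
      rintro a ⟨d, hd⟩ b ⟨e, he⟩
      have hd' : a.1 = diagonal d := hd
      have he' : b.1 = diagonal e := he
      apply Subtype.ext
      change a.1 * b.1 = b.1 * a.1
      rw [hd', he', diagonal_mul_diagonal, diagonal_mul_diagonal]
      congr 1
      funext i
      exact mul_comm _ _
    refine ⟨T₀.map (QuotientGroup.mk' (Subgroup.center _)), ?_, ?_⟩
    · refine Group.isSolvable_of_comm ?_
      rintro ⟨_, a, ha, rfl⟩ ⟨_, b, hb, rfl⟩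
      apply Subtype.ext
      change QuotientGroup.mk' _ a * QuotientGroup.mk' _ b =
        QuotientGroup.mk' _ b * QuotientGroup.mk' _ a
      rw [← map_mul, ← map_mul, hT₀ a ha b hb]
    · rintro s ⟨y, hy, hs⟩
      obtain ⟨h, rfl⟩ := QuotientGroup.mk_surjective s
      obtain ⟨d, hd, σ, ε, hyt⟩ := hy
      refine ⟨h, ?_, rfl⟩
      change toG h ∈ Dg (Fin n) F
      let z : A1 n F := ⟨aR (toG h) (RingEquiv.refl F) false, toG h, RingEquiv.refl F, false, rfl⟩
      have hzy : y = z := by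
        apply cQ_injective (fix1 h3)
        intro a
        obtain ⟨A, rfl⟩ := mkP_surj a
        rw [hs, c1_mk]
        change mkP n F h * mkP n F A * (mkP n F h)⁻¹ = mkP n F _
        rw [← map_inv, ← map_mul, ← map_mul]
        congr 1
      have h2 : aR (d * wP n F ε) σ ε = aR (toG h) (RingEquiv.refl F) false := by
        have h4 := congrArg Subtype.val hzy
        rw [← hyt]
        exact h4
      have h5 : ∀ M : Matrix (Fin n) (Fin n) F, cjR (d * wP n F ε) σ (if ε then 0 else M) =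
          cjR (toG h) (RingEquiv.refl F) M := by
        intro M
        have h6 := congrArg (fun R : RingAut (Bool → Matrix (Fin n) (Fin n) F) =>
          R (fun b => if b then 0 else M) false) h2
        cases ε <;> exact h6
      cases ε
      · have h7 : cjR (d * wP n F false) σ = cjR (toG h) (RingEquiv.refl F) :=
          RingEquiv.ext h5
        refine diag_of_cjR ?_ h7
        change d * 1 ∈ _
        rwa [mul_one]
      · exfalso
        have h8 := h5 1
        have h9 : cjR (d * wP n F true) σ (0 : Matrix (Fin n) (Fin n) F) = 0 := map_zero _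
        have h10 : cjR (toG h) (RingEquiv.refl F) (1 : Matrix (Fin n) (Fin n) F) = 1 := map_one _
        change cjR (d * wP n F true) σ 0 = _ at h8
        rw [h9, h10] at h8
        have h11 := congrFun (congrFun h8 ⟨0, hn0⟩) ⟨0, hn0⟩
        rw [Matrix.zero_apply, one_apply_eq] at h11
        exact zero_ne_one h11

end type

end MP7Z
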