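import Pool.Agent.Lib.MP_7f581e_Z.Types.SpecB
import Pool.Agent.Lib.MP_7f581e_Z.Types.TDSL

/-!
# Types: the Lang groups of the special linear groups, `n ≥ 2`, with the exchange involution
-/

set_option autoImplicit false
set_option linter.unusedSectionVars false

namespace MP7Z

open TensorProduct MP7fS MP7fU Matrix Matrix.SpecialLinearGroup MP7fW MP7fY MP7fG MP7fE

namespace SLX

section

variable {n : ℕ} {F : Type} [Field F]

/-- Conjugation by the permutation matrix of `Fin.rev` (`true`) or the identity. -/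
def wC (n : ℕ) (F : Type) [Field F] (b : Bool) : RingAut (Matrix (Fin n) (Fin n) F) :=
  cjR (wP n F b) (RingEquiv.refl F)

theorem wC_false (M : Matrix (Fin n) (Fin n) F) : wC n F false M = M := by
  change cjR 1 (RingEquiv.refl F) M = M
  rw [cjR_one]
  rfl

theorem wC_true (M : Matrix (Fin n) (Fin n) F) : wC n F true M = wM n F * M * wM n F := rfl

theorem flipT_wM (M : Matrix (Fin n) (Fin n) F) : flipT M = wM n F * Mᵀ * wM n F := by
  ext a b
  rw [mul_wM, wM_mul, flipT_apply, transpose_apply]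

theorem wC_wC (b : Bool) (M : Matrix (Fin n) (Fin n) F) : wC n F b (wC n F b M) = M := by
  cases b
  · rw [wC_false, wC_false]
  · rw [wC_true, wC_true]
    calc wM n F * (wM n F * M * wM n F) * wM n F =
        (wM n F * wM n F) * M * (wM n F * wM n F) := by simp only [Matrix.mul_assoc]
      _ = M := by rw [wM_wM, Matrix.one_mul, Matrix.mul_one]

variable {κ : Type}

/-- The change of coordinates. -/
def Xi (n : ℕ) (F : Type) [Field F] (κ : Type) :
    (κ → Bool → Matrix (Fin n) (Fin n) F) ≃+* (κ × Bool → Matrix (Fin n) (Fin n) F) where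
  toFun z := fun y => wC n F y.2 (z y.1 y.2)
  invFun z := fun k b => wC n F b (z (k, b))
  left_inv z := by
    funext k b
    exact wC_wC b _
  right_inv z := by
    funext y
    exact wC_wC y.2 _
  map_mul' z w := by
    funext y
    exact map_mul (wC n F y.2) _ _
  map_add' z w := by
    funext y
    exact map_add (wC n F y.2) _ _

theorem Xi_apply (z : κ → Bool → Matrix (Fin n) (Fin n) F) (k : κ) (b : Bool) :
    Xi n F κ z (k, b) = wC n F b (z k b) := rfl

/-- The exchange of the index set. -/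
def ax (κ : Type) : Equiv.Perm (κ × Bool) where
  toFun y := (y.1, !y.2)
  invFun y := (y.1, !y.2)
  left_inv y := by
    rcases y with ⟨k, b⟩
    cases b <;> rfl
  right_inv y := by
    rcases y with ⟨k, b⟩
    cases b <;> rfl

theorem ax_ax (y : κ × Bool) : ax κ (ax κ y) = y := (ax κ).left_inv y

/-- The exchange with transposition. -/
def ex (z : κ → Bool → Matrix (Fin n) (Fin n) F) : κ → Bool → Matrix (Fin n) (Fin n) F :=
  fun k b => (z k (!b))ᵀ

end

section

variable {p : ℕ} [Fact p.Prime] {n : ℕ} {F : Type} [Field F] [Finite F] [Algebra (ZMod p) F]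
  {κ : Type} [Finite κ]

theorem hs0 : ∀ c : F, RingHom.id F (RingHom.id F c) = c := fun _ => rfl

/-- The involution in the coordinates. -/
theorem J_Xi (z : κ → Bool → Matrix (Fin n) (Fin n) F) :
    (JI p (κ × Bool) n F (ax κ) ax_ax (RingHom.id F) hs0).j (Xi n F κ z) = Xi n F κ (ex z) := by
  funext ⟨k, b⟩
  rw [JI_apply]
  change flipT (wC n F (!b) (z k (!b))) = wC n F b ((z k (!b))ᵀ)
  cases b
  · rw [wC_false, Bool.not_false, wC_true, flipT_wM, transpose_mul, transpose_mul, wM_transpose]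
    calc wM n F * (wM n F * ((z k true)ᵀ * wM n F)) * wM n F =
        (wM n F * wM n F) * (z k true)ᵀ * (wM n F * wM n F) := by simp only [Matrix.mul_assoc]
      _ = (z k true)ᵀ := by rw [wM_wM, Matrix.one_mul, Matrix.mul_one]
  · rw [wC_true, Bool.not_true, wC_false, flipT_wM]

end

section

variable {n : ℕ} {F : Type} [Field F]

theorem inc1_iff (z : Bool → Matrix (Fin n) (Fin n) F) :
    (∃ h, inc1 n F h = z) ↔ (z true)ᵀ * z false = 1 ∧ (z false).det = 1 := by
  constructor
  · rintro ⟨h, rfl⟩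
    refine ⟨?_, h.2⟩
    change ((h⁻¹).1) * h.1 = 1
    exact congrArg Subtype.val (inv_mul_cancel h)
  · rintro ⟨h1, h2⟩
    let h : SpecialLinearGroup (Fin n) F := ⟨z false, h2⟩
    refine ⟨h, ?_⟩
    funext b
    cases b
    · rfl
    · change ((h⁻¹).1)ᵀ = z true
      have h3 : h.1 * (h⁻¹).1 = 1 := congrArg Subtype.val (mul_inv_cancel h)
      have h4 : (h⁻¹).1 = (z true)ᵀ := by
        calc (h⁻¹).1 = ((z true)ᵀ * h.1) * (h⁻¹).1 := by
              change _ = ((z true)ᵀ * z false) * (h⁻¹).1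
              rw [h1, Matrix.one_mul]
          _ = (z true)ᵀ := by rw [Matrix.mul_assoc, h3, Matrix.mul_one]
      rw [h4, transpose_transpose]

/-- The shape of the automorphisms in the coordinates. -/
theorem wC_aR (d : GL (Fin n) F) (σ : F ≃+* F) (ε : Bool) (c : Bool)
    (M : Matrix (Fin n) (Fin n) F) :
    wC n F (xor c ε) (cjR (gT (xor c ε) (d * wP n F ε)) σ (wC n F c M)) =
      cjR (wP n F (xor c ε) * gT (xor c ε) d * wP n F (xor c ε)) σ M := by
  have h1 : ∀ (b : Bool) (N : Matrix (Fin n) (Fin n) F),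
      wC n F b N = cjR (wP n F b) (RingEquiv.refl F) N := fun _ _ => rfl
  rw [h1, h1, ← RingAut.mul_apply, ← RingAut.mul_apply, cjR_mul, cjR_mul, gT_mul, gT_wP]
  have h2 : ∀ g : GL (Fin n) F, glMap (RingEquiv.refl F) g = g := fun g => Units.ext rfl
  have h3 : ((RingEquiv.refl F).trans σ).trans (RingEquiv.refl F) = σ := by
    ext x
    rfl
  congr 2
  · rw [h2, glMap_wP]
    have h4 : wP n F ε * wP n F c = wP n F (xor c ε) := by
      rw [wP_mul, Bool.xor_comm]
    rw [← h4]
    group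
end

end SLX

open SLX in
/-- **The Lang groups of `SL_n(F)` with the exchange.** -/
theorem langOf_SLn (hFn : FnStmt) (hLGL : LGLStmt) (hLSL : LSLStmt) (hGSL : GSLStmt)
    (hL1II : L1IIStmt) (hLMII : LMIIStmt) (hGII : GIIStmt) (hL1E : L1EStmt) (hLMI : LMIStmt)
    (hGnI : GnIStmt) (hZI1 : ZI1Stmt) (hPI : PIStmt) (hStI : StIStmt) (hPtI : PtIStmt)
    (hTrp : TrpStmt) {p : ℕ} [Fact p.Prime] {n : ℕ} {F : Type}
    [Field F] [Finite F] [Algebra (ZMod p) F] (h2 : 2 ≤ n) :
    LangOf p (inc1 n F) (A1 n F).subtype (D1 n F) := by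
  intro κ _
  obtain ⟨hSL, -, -⟩ := hFn (Fin n)
  have hsgC : ∀ (c : κ × Bool → F) (k : κ) (b : Bool),
      sgC (κ × Bool) F (ax κ) (RingHom.id F) c (k, b) = c (k, !b) := fun _ _ _ => rfl
  let c : κ × Bool → F := fun y => if y.2 then 0 else 1
  have hc : c * c = c := by
    funext ⟨k, b⟩
    cases b
    · exact mul_one _
    · exact mul_zero _
  have hc' : sgC (κ × Bool) F (ax κ) (RingHom.id F) c = 1 - c := by
    funext ⟨k, b⟩
    rw [hsgC]
    cases b
    · exact (sub_self (1 : F)).symm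
    · exact (sub_zero (1 : F)).symm
  have hEps : HasEps p (κ × Bool) F (ax κ) (RingHom.id F) (Module.finrank (ZMod p) F) := by
    intro k _ _ _ _ _ m _ _
    have h3 : (RingHom.id k : k →+* k) (1 : k) = 1 := rfl
    have h4 : tmap (p := p) (RingHom.id k) (sgC (κ × Bool) F (ax κ) (RingHom.id F))
        ((1 : k) ⊗ₜ c) = (1 : k) ⊗ₜ[ZMod p] (sgC (κ × Bool) F (ax κ) (RingHom.id F) c) := rfl
    have h5 : tmap (p := p) (iterateFrobenius k p m) (RingHom.id (κ × Bool → F))
        ((1 : k) ⊗ₜ c) = (iterateFrobenius k p m 1) ⊗ₜ[ZMod p] c := rfl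
    refine ⟨(1 : k) ⊗ₜ c, ?_, ?_, ?_⟩
    · rw [Algebra.TensorProduct.tmul_mul_tmul, one_mul, hc]
    · rw [h4, hc', tmul_sub, Algebra.TensorProduct.one_def]
    · rw [h5, map_one]
  have hθ : ∃ θ : κ × Bool → F, θ + sgC (κ × Bool) F (ax κ) (RingHom.id F) θ = 1 :=
    ⟨c, by rw [hc', add_sub_cancel]⟩
  obtain ⟨𝒢, hpts, hL1, hLM, hGen, hSt, hPar⟩ := hTrp p (κ → Bool → Matrix (Fin n) (Fin n) F)
    (κ × Bool → Matrix (Fin n) (Fin n) F) (Xi n F κ)
    (GI p (κ × Bool) n F (ax κ) ax_ax (RingHom.id F) hs0 hSL)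
  refine ⟨𝒢, ?_, ?_, ?_⟩
  · intro b
    rw [hpts, hPtI]
    have h3 : ((Units.map (Xi n F κ : (κ → Bool → Matrix (Fin n) (Fin n) F) →*
        (κ × Bool → Matrix (Fin n) (Fin n) F)) b : (κ × Bool → Matrix (Fin n) (Fin n) F)ˣ) :
          κ × Bool → Matrix (Fin n) (Fin n) F) =
        Xi n F κ (b : κ → Bool → Matrix (Fin n) (Fin n) F) := rfl
    rw [h3, J_Xi, ← map_mul]
    set z := (b : κ → Bool → Matrix (Fin n) (Fin n) F) with hz
    have h4 : ∀ k, (∃ h, inc1 n F h = z k) ↔ (z k true)ᵀ * z k false = 1 ∧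
        (z k false).det = 1 := fun k => inc1_iff _
    simp only [h4]
    constructor
    · rintro ⟨h5, h6⟩ k
      have h7 : ex z * z = 1 := (Xi n F κ).injective (by rw [h5, map_one])
      refine ⟨congrFun (congrFun h7 k) false, ?_⟩
      have h8 := h6 (k, false)
      rw [Xi_apply, wC_false] at h8
      exact h8
    · intro h5
      have h6 : ex z * z = 1 := by
        funext k b
        change (z k (!b))ᵀ * z k b = 1
        cases b
        · exact (h5 k).1
        · have h7 : z k false * (z k true)ᵀ = 1 := mul_eq_one_comm.1 (h5 k).1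
          have h8 := congrArg Matrix.transpose h7
          rw [transpose_mul, transpose_transpose, transpose_one] at h8
          exact mul_eq_one_comm.1 h8
      refine ⟨by rw [h6, map_one], ?_⟩
      rintro ⟨k, b⟩
      rw [Xi_apply]
      cases b
      · rw [wC_false]
        exact (h5 k).2
      · have h7 := congrArg Matrix.det (h5 k).1
        rw [det_mul, det_transpose, (h5 k).2, mul_one, det_one] at h7
        have h8 := congrArg Matrix.det (wM_wM (n := n) (F := F))
        rw [det_mul, det_one] at h8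
        rw [wC_true, det_mul, det_mul, h7, mul_one, h8]
  · exact hL1 (hL1E p (κ × Bool) n F (ax κ) ax_ax (RingHom.id F) hs0 hSL ⟨c, hc, hc'⟩
      (hL1II p (κ × Bool) (Fin n) F (SLf (Fin n)) hSL (hLSL p (Fin n) (hLGL p (Fin n)))))
  · intro Q _ _ ρ hρ
    let ρ' : Q →* ((κ × Bool → Matrix (Fin n) (Fin n) F) ≃+*
        (κ × Bool → Matrix (Fin n) (Fin n) F)) :=
      { toFun := fun q => ((Xi n F κ).symm.trans (ρ q)).trans (Xi n F κ)
        map_one' := by
          ext1 z
          rw [map_one]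
          change Xi n F κ ((Xi n F κ).symm z) = z
          exact RingEquiv.apply_symm_apply _ _
        map_mul' := by
          intro q q'
          ext1 z
          rw [map_mul]
          change Xi n F κ (ρ q (ρ q' ((Xi n F κ).symm z))) =
            Xi n F κ (ρ q ((Xi n F κ).symm (Xi n F κ (ρ q' ((Xi n F κ).symm z)))))
          rw [RingEquiv.symm_apply_apply] }
    have hρ' : ∀ q b, Xi n F κ (ρ q b) = ρ' q (Xi n F κ b) := by
      intro q b
      change _ = Xi n F κ (ρ q ((Xi n F κ).symm (Xi n F κ b)))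
      rw [RingEquiv.symm_apply_apply]
    have hform : ∀ q, FormG (DG (Fin n) F) (ρ' q) := by
      intro q
      obtain ⟨π, x, hx, hx'⟩ := hρ q
      have h3 : ∀ k, ∃ (d : GL (Fin n) F) (σ : F ≃+* F) (ε : Bool), d ∈ Dg (Fin n) F ∧
          ((x k : A1 n F) : RingAut (Bool → Matrix (Fin n) (Fin n) F)) =
            aR (d * wP n F ε) σ ε := by
        intro k
        obtain ⟨d, hd, σ, ε, h⟩ := hx k
        exact ⟨d, σ, ε, hd, h⟩
      choose d σ ε hd hxd using h3
      let π' : Equiv.Perm (κ × Bool) :=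
        { toFun := fun y => (π y.1, xor y.2 (ε y.1))
          invFun := fun y => (π.symm y.1, xor y.2 (ε (π.symm y.1)))
          left_inv := by
            rintro ⟨k, b⟩
            change (π.symm (π k), xor (xor b (ε k)) (ε (π.symm (π k)))) = _
            rw [Equiv.symm_apply_apply, xor_xor_self]
          right_inv := by
            rintro ⟨k, b⟩
            change (π (π.symm k), xor (xor b (ε (π.symm k))) (ε (π.symm k))) = _
            rw [Equiv.apply_symm_apply, xor_xor_self] }
      refine ⟨π', fun y => wP n F (xor y.2 (ε y.1)) * gT (xor y.2 (ε y.1)) (d y.1) *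
        wP n F (xor y.2 (ε y.1)), fun y => σ y.1, ?_, ?_⟩
      · rintro ⟨k, b⟩
        exact wP_conj _ (gT_Dg _ (hd k))
      · rintro z ⟨k, b⟩
        have h4 : ρ' q z (π' (k, b)) = wC n F (xor b (ε k))
            (ρ q ((Xi n F κ).symm z) (π k) (xor b (ε k))) := rfl
        have h5 : ρ q ((Xi n F κ).symm z) (π k) =
            aR (d k * wP n F (ε k)) (σ k) (ε k) ((Xi n F κ).symm z k) := by
          rw [hx']
          change ((x k : A1 n F) : RingAut (Bool → Matrix (Fin n) (Fin n) F)) _ = _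
          rw [hxd]
        rw [h4, h5, aR_apply, xor_xor_self]
        exact wC_aR (d k) (σ k) (ε k) b (z (k, b))
    have hform' : ∀ q, FormG Set.univ (ρ' q) := by
      intro q
      obtain ⟨π, t, σ, -, h⟩ := hform q
      exact ⟨π, t, σ, fun _ => Set.mem_univ _, h⟩
    have hcomm0 : ∀ q z, ρ q (ex z) = ex (ρ q z) := by
      intro q z
      obtain ⟨π, x, hx, hx'⟩ := hρ q
      funext y
      obtain ⟨k, rfl⟩ := π.surjective y
      rw [hx']
      have h3 := A1_exch (x k).2 (z k)
      funext b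
      have h4 := congrFun h3 b
      change ((x k : A1 n F) : RingAut (Bool → Matrix (Fin n) (Fin n) F))
        (fun b => (z k (!b))ᵀ) b = (ρ q z (π k) (!b))ᵀ
      rw [h4, hx']
      rfl
    have hcomm : ∀ q z, ρ' q ((JI p (κ × Bool) n F (ax κ) ax_ax (RingHom.id F) hs0).j z) =
        (JI p (κ × Bool) n F (ax κ) ax_ax (RingHom.id F) hs0).j (ρ' q z) := by
      intro q z
      obtain ⟨w, rfl⟩ := (Xi n F κ).surjective z
      rw [J_Xi, ← hρ', ← hρ', hcomm0, J_Xi]
    let Z' : Bool → Submodule (ZMod p) (κ → Bool → Matrix (Fin n) (Fin n) F) := fun t =>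
      (ZI p (κ × Bool) n F (ax κ) ax_ax (RingHom.id F) hs0 t).comap
        ((toAlg (p := p) (Xi n F κ : (κ → Bool → Matrix (Fin n) (Fin n) F) →+*
          (κ × Bool → Matrix (Fin n) (Fin n) F))).toLinearMap)
    have hZ' : ∀ t b, b ∈ Z' t ↔ Xi n F κ b ∈
        ZI p (κ × Bool) n F (ax κ) ax_ax (RingHom.id F) hs0 t := fun _ _ => Iff.rfl
    refine ⟨hSt Q ρ ρ' hρ' (hStI p (κ × Bool) n F (ax κ) ax_ax (RingHom.id F) hs0 hSL Q ρ' hform'
      hcomm), Module.finrank (ZMod p) F, Bool, Z', Module.finrank_pos, ?_, ?_, ?_, ?_⟩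
    · exact hLM _ (hLMI p (κ × Bool) n F (ax κ) ax_ax (RingHom.id F) hs0 hSL _ hEps
        (hLMII p (κ × Bool) (Fin n) F (SLf (Fin n)) hSL (hLSL p (Fin n) (hLGL p (Fin n)))))
    · exact hGen _ Bool _ Z' hZ' (hGnI p (κ × Bool) n F (ax κ) ax_ax (RingHom.id F) hs0 hSL _ hEps
        (hGII p (κ × Bool) (Fin n) F (SLf (Fin n)) hSL (NSL p n) (hGSL p n h2)))
    · intro t q b hb
      rw [hZ'] at hb ⊢
      rw [hρ']
      exact (hZI1 p (κ × Bool) n F (ax κ) ax_ax (RingHom.id F) hs0 t).2 (ρ' q) (hform q)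
        (hcomm q) _ hb
    · intro t
      exact hPar Q ρ ρ' _ (Z' t) hρ' (hZ' t)
        (hPI p (κ × Bool) n F (ax κ) ax_ax (RingHom.id F) hs0 hSL t hθ Q ρ' hform hcomm)

end MP7Z
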