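import Pool.Agent.Lib.MP_7f581e_Z.Lie.L1
import Pool.Agent.Lib.MP_7f581e_ntG.SplitSU

/-!
# Types: the special unitary groups of the antidiagonal form

`H = SG s J`, `B = M_N(F)`, `A` = semilinear conjugations by elements of `UG s J`, `D` = semilinear
conjugations by diagonal elements of `UG s J`.
-/

set_option autoImplicit false

namespace MP7Z

open Matrix MP7fY MP7fW MP7fH

namespace SUJ

section defs

variable {F : Type} [Field F] {s : F →+* F} {N : ℕ}

variable (s N) in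
/-- The inclusion. -/
def incJ : SG s (Jm N F) →* Matrix (Fin N) (Fin N) F :=
  (Units.coeHom _).comp (SG s (Jm N F)).subtype

theorem incJ_apply (h : SG s (Jm N F)) : incJ s N h = h.1.1 := rfl

theorem incJ_inj : Function.Injective (incJ s N) := fun _ _ h => Subtype.ext (Units.ext h)

theorem UGJ_map (hσ : ∀ (σ : F ≃+* F) x, σ (s x) = s (σ x)) (σ : F ≃+* F) :
    ∀ g ∈ UG s (Jm N F), glMap σ g ∈ UG s (Jm N F) := by
  intro g hg
  have h1 := conj_mem_UG (one_mem (UG s (Jm N F))) (hσ σ) (Jm_map σ) hg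
  rwa [one_mul, inv_one, mul_one] at h1

/-- The group of semilinear conjugations by unitary matrices. -/
abbrev AJ (hσ : ∀ (σ : F ≃+* F) x, σ (s x) = s (σ x)) :
    Subgroup (RingAut (Matrix (Fin N) (Fin N) F)) :=
  AD (UG s (Jm N F)) (UGJ_map hσ)

theorem hexJ (hσ : ∀ (σ : F ≃+* F) x, σ (s x) = s (σ x)) (x : AJ (s := s) (N := N) hσ)
    (h : SG s (Jm N F)) : ∃ h', incJ s N h' = (AJ hσ).subtype x (incJ s N h) := by
  obtain ⟨R, g, hg, σ, rfl⟩ := x
  exact ⟨⟨_, conj_mem_SG hg (hσ σ) (Jm_map σ) h.2⟩, rfl⟩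

variable (F N) in
/-- The diagonal invertible matrices. -/
def diagGL : Subgroup (GL (Fin N) F) where
  carrier := {g | ∀ i j, i ≠ j → g.1 i j = 0}
  mul_mem' := by
    intro a b ha hb i j hij
    change (a.1 * b.1) i j = 0
    rw [Matrix.mul_apply]
    apply Finset.sum_eq_zero
    intro k _
    by_cases h : i = k
    · rw [hb k j (by rintro rfl; exact hij h), mul_zero]
    · rw [ha i k h, zero_mul]
  one_mem' := by
    intro i j hij
    exact Matrix.one_apply_ne hij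
  inv_mem' := by
    intro a ha i j hij
    have ha0 : ∀ k, a.1 k k ≠ 0 := by
      intro k hk
      have h1 : (a.1 * (a⁻¹).1) k k = 1 := by
        rw [gl_mul_inv, Matrix.one_apply_eq]
      rw [Matrix.mul_apply, Finset.sum_eq_zero] at h1
      · exact zero_ne_one h1
      · intro l _
        by_cases h : k = l
        · rw [← h, hk, zero_mul]
        · rw [ha k l h, zero_mul]
    have h1 : (a.1 * (a⁻¹).1) i j = 0 := by
      rw [gl_mul_inv, Matrix.one_apply_ne hij]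
    rw [Matrix.mul_apply, Finset.sum_eq_single i] at h1
    · rcases mul_eq_zero.1 h1 with h2 | h2
      · exact absurd h2 (ha0 i)
      · exact h2
    · intro l _ hl
      rw [ha i l (Ne.symm hl), zero_mul]
    · intro h
      exact absurd (Finset.mem_univ i) h

theorem mem_diagGL {g : GL (Fin N) F} : g ∈ diagGL F N ↔ ∀ i j, i ≠ j → g.1 i j = 0 := Iff.rfl

theorem diag_comm {a b : GL (Fin N) F} (ha : a ∈ diagGL F N) (hb : b ∈ diagGL F N) :
    a * b = b * a := by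
  apply Units.ext
  ext i j
  change (a.1 * b.1) i j = (b.1 * a.1) i j
  rw [Matrix.mul_apply, Matrix.mul_apply, Finset.sum_eq_single i, Finset.sum_eq_single i]
  · by_cases h : i = j
    · subst h
      exact mul_comm _ _
    · rw [ha i j h, hb i j h, mul_zero, mul_zero]
  · intro k _ hk
    rw [hb i k (Ne.symm hk), zero_mul]
  · intro h
    exact absurd (Finset.mem_univ i) h
  · intro k _ hk
    rw [ha i k (Ne.symm hk), zero_mul]
  · intro h
    exact absurd (Finset.mem_univ i) h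

theorem diagU_map (hσ : ∀ (σ : F ≃+* F) x, σ (s x) = s (σ x)) (σ : F ≃+* F) :
    ∀ g ∈ UG s (Jm N F) ⊓ diagGL F N, glMap σ g ∈ UG s (Jm N F) ⊓ diagGL F N := by
  rintro g ⟨hg, hg'⟩
  refine ⟨UGJ_map hσ σ g hg, ?_⟩
  intro i j hij
  change σ (g.1 i j) = 0
  rw [hg' i j hij, map_zero]

/-- The standard elements: semilinear conjugations by diagonal unitary matrices. -/
def DJ (hσ : ∀ (σ : F ≃+* F) x, σ (s x) = s (σ x)) : Subgroup (AJ (s := s) (N := N) hσ) :=
  (AD (UG s (Jm N F) ⊓ diagGL F N) (diagU_map hσ)).comap (AJ hσ).subtype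

theorem mem_DJ {hσ : ∀ (σ : F ≃+* F) x, σ (s x) = s (σ x)} {x : AJ (s := s) (N := N) hσ} :
    x ∈ DJ hσ ↔ ∃ g : GL (Fin N) F, g ∈ UG s (Jm N F) ∧ (∀ i j, i ≠ j → g.1 i j = 0) ∧
      ∃ σ : F ≃+* F, (x : RingAut (Matrix (Fin N) (Fin N) F)) = cjR g σ := by
  constructor
  · rintro ⟨g, ⟨hg, hg'⟩, σ, h⟩
    exact ⟨g, hg, hg', σ, h⟩
  · rintro ⟨g, hg, hg', σ, h⟩
    exact ⟨g, ⟨hg, hg'⟩, σ, h⟩

/-- The action on the quotient. -/
noncomputable abbrev cJ (hσ : ∀ (σ : F ≃+* F) x, σ (s x) = s (σ x)) :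
    AJ (s := s) (N := N) hσ →* MulAut (PSG s (Jm N F)) :=
  cQ (incJ s N) incJ_inj (AJ hσ).subtype (hexJ hσ)

theorem cJ_mk (hσ : ∀ (σ : F ≃+* F) x, σ (s x) = s (σ x)) (g : GL (Fin N) F)
    (hg : g ∈ UG s (Jm N F)) (σ : F ≃+* F) (A B : SG s (Jm N F))
    (hB : B.1.1 = g.1 * A.1.1.map σ * (g⁻¹).1) :
    cJ hσ ⟨cjR g σ, g, hg, σ, rfl⟩ (mk s (Jm N F) A) = mk s (Jm N F) B :=
  cQ_mk' _ _ _ _ _ hB

theorem surJ (hσ : ∀ (σ : F ≃+* F) x, σ (s x) = s (σ x)) (hA : AutP s (Jm N F))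
    (φ : PSG s (Jm N F) ≃* PSG s (Jm N F)) : ∃ x : AJ hσ, ∀ t, φ t = cJ hσ x t := by
  obtain ⟨M, hM, σ, hφ⟩ := hA φ
  refine ⟨⟨cjR M σ, M, hM, σ, rfl⟩, ?_⟩
  intro t
  obtain ⟨A, rfl⟩ := mk_surj s (Jm N F) t
  obtain ⟨B, hB⟩ := hexJ hσ ⟨cjR M σ, M, hM, σ, rfl⟩ A
  rw [cJ_mk hσ M hM σ A B hB]
  exact hφ A B hB

theorem fixJ (hσ : ∀ (σ : F ≃+* F) x, σ (s x) = s (σ x)) (hR : RigP s (Jm N F))
    (x : AJ (s := s) (N := N) hσ) (hx : ∀ t, cJ hσ x t = t) : x = 1 := by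
  obtain ⟨R, g, hg, σ, rfl⟩ := x
  obtain ⟨rfl, k, hk⟩ := hR g hg 1 σ (by
    intro A B hB
    rw [← cJ_mk hσ g hg σ A B hB, hx, one_mul, inv_one, mul_one])
  apply Subtype.ext
  exact cjR_scalar (k := k) hk

end defs

section std

variable {F : Type} [Field F] {s : F →+* F} {N : ℕ}

/-- The diagonal matrix `diag(a, 1, ..., 1, s(a)⁻¹)`. -/
theorem exists_diag (hs : ∀ x, s (s x) = x) (h2 : 2 ≤ N) (a : F) (ha : a ≠ 0) :
    ∃ t : GL (Fin N) F, t ∈ UG s (Jm N F) ∧ (∀ i j, i ≠ j → t.1 i j = 0) ∧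
      t.1.det = a * (s a)⁻¹ := by
  classical
  have hsa : s a ≠ 0 := (map_ne_zero s).2 ha
  let i₀ : Fin N := ⟨0, by omega⟩
  let i₁ : Fin N := ⟨N - 1, by omega⟩
  have h01 : i₀ ≠ i₁ := by
    intro h
    have := congrArg Fin.val h
    simp only [i₀, i₁] at this
    omega
  have hr0 : Fin.rev i₀ = i₁ := by
    apply Fin.ext
    rw [Fin.val_rev]
  have hr1 : Fin.rev i₁ = i₀ := by rw [← hr0, Fin.rev_rev]
  let d : Fin N → F := fun i => if i = i₀ then a else if i = i₁ then (s a)⁻¹ else 1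
  have hd0 : d i₀ = a := if_pos rfl
  have hd1 : d i₁ = (s a)⁻¹ := by
    change (if i₁ = i₀ then a else if i₁ = i₁ then (s a)⁻¹ else 1) = _
    rw [if_neg (Ne.symm h01), if_pos rfl]
  have hd2 : ∀ i, i ≠ i₀ → i ≠ i₁ → d i = 1 := by
    intro i h0 h1
    change (if i = i₀ then a else if i = i₁ then (s a)⁻¹ else 1) = _
    rw [if_neg h0, if_neg h1]
  have hdet : (Matrix.diagonal d).det = a * (s a)⁻¹ := by
    rw [Matrix.det_diagonal, ← Finset.mul_prod_erase Finset.univ d (Finset.mem_univ i₀), hd0,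
      ← Finset.mul_prod_erase _ d (Finset.mem_erase.2 ⟨Ne.symm h01, Finset.mem_univ i₁⟩), hd1,
      Finset.prod_eq_one, mul_one]
    intro i hi
    rw [Finset.mem_erase, Finset.mem_erase] at hi
    exact hd2 i hi.2.1 hi.1
  have hne : (Matrix.diagonal d).det ≠ 0 := by
    rw [hdet]
    exact mul_ne_zero ha (inv_ne_zero hsa)
  let t : GL (Fin N) F := Matrix.GeneralLinearGroup.mkOfDetNeZero (Matrix.diagonal d) hne
  have ht : t.1 = Matrix.diagonal d := rfl
  have hsd : ∀ i, s (d i) * d (Fin.rev i) = 1 := by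
    intro i
    by_cases h0 : i = i₀
    · rw [h0, hr0, hd0, hd1, mul_inv_cancel₀ hsa]
    · by_cases h1 : i = i₁
      · rw [h1, hr1, hd0, hd1, map_inv₀, hs, inv_mul_cancel₀ ha]
      · rw [hd2 i h0 h1, hd2 (Fin.rev i), map_one, one_mul]
        · intro h
          apply h1
          rw [← hr0, ← h, Fin.rev_rev]
        · intro h
          apply h0
          rw [← hr1, ← h, Fin.rev_rev]
  refine ⟨t, ?_, ?_, by rw [ht, hdet]⟩
  · change (t.1.map s)ᵀ * Jm N F * t.1 = Jm N F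
    rw [ht]
    have h1 : ((Matrix.diagonal d).map s)ᵀ = Matrix.diagonal fun i => s (d i) := by
      rw [Matrix.diagonal_map (map_zero s), Matrix.diagonal_transpose]
    rw [h1]
    ext i j
    rw [Matrix.mul_diagonal, Matrix.diagonal_mul, Jm_apply]
    by_cases h : j = Fin.rev i
    · rw [if_pos h, h, mul_one, hsd]
    · rw [if_neg h, mul_zero, zero_mul]
  · intro i j hij
    rw [ht]
    exact Matrix.diagonal_apply_ne _ hij

theorem det_norm {g : GL (Fin N) F} (hg : g ∈ UG s (Jm N F)) : g.1.det * s g.1.det = 1 := by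
  have h1 : ((g.1.map s)ᵀ * Jm N F * g.1).det = (Jm N F).det := congrArg Matrix.det hg
  rw [Matrix.det_mul, Matrix.det_mul, Matrix.det_transpose] at h1
  have h2 : (g.1.map s).det = s g.1.det := (RingHom.map_det s g.1).symm
  rw [h2] at h1
  have h3 := Jm_det (N := N) (F := F)
  apply mul_right_cancel₀ h3
  rw [one_mul]
  linear_combination h1

end std

end SUJ

open SUJ in
/-- **The type `SU_N(F)`.** -/
theorem typeD_SU {F : Type} [Field F] [Finite F] {N : ℕ} (s : F →+* F) (hs : ∀ x, s (s x) = x)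
    (hne : ∃ x, s x ≠ x) (hσ : ∀ (σ : F ≃+* F) x, σ (s x) = s (σ x))
    [hsim : IsSimpleGroup (PSG s (Jm N F))] (h3 : 3 ≤ N)
    (hq : N = 3 → ∃ t : F, s t = t ∧ t ≠ 0 ∧ t ≠ 1) :
    TypeD (incJ s N) incJ_inj (AJ hσ).subtype (hexJ hσ) (DJ hσ) where
  perf := perf_J s hs hne h3
  simple := hsim
  cent := by
    obtain ⟨a, b, hab⟩ := noncomm_J (N := N) s hs hne h3
    exact center_eq_bot hab
  sur := fun φ => surJ hσ (autP_J' s hs hne h3 hq) φ
  fix := fun x hx => fixJ hσ (rigP_J s hs hne h3 hσ) x hx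
  std := by
    rintro ⟨R, g, hg, σ, rfl⟩
    let : HInv F := ⟨s, hs, hne⟩
    have hdet := det_norm hg
    obtain ⟨a, ha, ha'⟩ := hilbert90 (F := F) (x := g.1.det) hdet
    have ha1 : a = g.1.det * s a := ha'
    have hsa : s a ≠ 0 := (map_ne_zero s).2 ha
    obtain ⟨t, ht, htd, htdet⟩ := exists_diag (N := N) hs (by omega) a ha
    have hth : t * g⁻¹ ∈ SG s (Jm N F) := by
      refine ⟨mul_mem ht (inv_mem hg), ?_⟩
      have h1 : (g.1 * (g⁻¹).1).det = 1 := by rw [gl_mul_inv, Matrix.det_one]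
      rw [Matrix.det_mul] at h1
      have h2 : g.1.det ≠ 0 := left_ne_zero_of_mul_eq_one h1
      change (t.1 * (g⁻¹).1).det = 1
      rw [Matrix.det_mul, htdet]
      have h4 : g.1.det = a * (s a)⁻¹ := by
        rw [eq_mul_inv_iff_mul_eq₀ hsa]
        exact ha1.symm
      rw [← h4, h1]
    refine ⟨mk s (Jm N F) ⟨_, hth⟩, ⟨cjR t σ, t, ht, σ, rfl⟩, mem_DJ.2 ⟨t, ht, htd, σ, rfl⟩, ?_⟩
    intro u
    obtain ⟨A, rfl⟩ := mk_surj s (Jm N F) u
    obtain ⟨B, hB⟩ := hexJ hσ ⟨cjR g σ, g, hg, σ, rfl⟩ A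
    rw [cJ_mk hσ g hg σ A B hB, ← map_inv, ← map_mul, ← map_mul]
    apply cJ_mk hσ t ht σ A
    change (t.1 * (g⁻¹).1) * B.1.1 * ((t * g⁻¹)⁻¹).1 = t.1 * A.1.1.map σ * (t⁻¹).1
    have hB' : B.1.1 = g.1 * A.1.1.map σ * (g⁻¹).1 := hB
    rw [hB', _root_.mul_inv_rev, inv_inv]
    change (t.1 * (g⁻¹).1) * (g.1 * A.1.1.map σ * (g⁻¹).1) * (g.1 * (t⁻¹).1) = _
    calc _ = t.1 * ((g⁻¹).1 * g.1) * A.1.1.map σ * ((g⁻¹).1 * g.1) * (t⁻¹).1 := by
          simp only [Matrix.mul_assoc]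
      _ = _ := by rw [gl_inv_mul, Matrix.mul_one, Matrix.mul_one]
  solv := by
    let T₀ : Subgroup (SG s (Jm N F)) := (diagGL F N).comap (SG s (Jm N F)).subtype
    refine ⟨T₀.map (mk s (Jm N F)), ?_, ?_⟩
    · have hcomm : ∀ a b : T₀.map (mk s (Jm N F)), a * b = b * a := by
        rintro ⟨_, a, ha, rfl⟩ ⟨_, b, hb, rfl⟩
        apply Subtype.ext
        change mk s (Jm N F) a * mk s (Jm N F) b = mk s (Jm N F) b * mk s (Jm N F) a
        rw [← map_mul, ← map_mul]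
        congr 1
        exact Subtype.ext (diag_comm ha hb)
      exact Group.isSolvable_of_comm hcomm
    · rintro u ⟨⟨R, hR⟩, hy, hu⟩
      obtain ⟨d, hd, hdd, σ, hdR⟩ := mem_DJ.1 hy
      obtain rfl : R = cjR d σ := hdR
      obtain ⟨h, rfl⟩ := mk_surj s (Jm N F) u
      obtain ⟨-, k, hk⟩ := rigP_J s hs hne h3 hσ d hd h σ (by
        intro A B hB
        rw [← cJ_mk hσ d hd σ A B hB, map_mul, map_mul, map_inv]
        exact hu (mk s (Jm N F) A))
      refine ⟨h, ?_, rfl⟩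
      intro i j hij
      change h.1.1 i j = 0
      have hk0 : k ≠ 0 := by
        rintro rfl
        have h1 := gl_mul_inv d
        rw [hk, zero_smul, Matrix.zero_mul] at h1
        have h2 := congrFun (congrFun h1 i) i
        rw [Matrix.zero_apply, Matrix.one_apply_eq] at h2
        exact zero_ne_one h2
      have h1 := hdd i j hij
      rw [hk, Matrix.smul_apply, smul_eq_mul] at h1
      exact (mul_eq_zero.1 h1).resolve_left hk0

open SUJ in
/-- **Step Lie for `SU_N(F)`** from the Lang groups. -/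
theorem lie_SU (hL3 : L3Stmt) {p : ℕ} [Fact p.Prime] (hS : SolvStmt p) {m N : ℕ} {F : Type}
    [Field F] [CharP F p] [Finite F] [Algebra (ZMod p) F] (hm : 0 < m)
    (hcard : Nat.card F = p ^ (2 * m)) (h3 : 3 ≤ N) (hq : N = 3 → 2 < p ^ m)
    [IsSimpleGroup (PSG (sF p m F) (Jm N F))]
    (hG : LangOf p (incJ (sF p m F) N)
      (AJ (s := sF p m F) (N := N) (sF_comm (p := p) (m := m))).subtype
      (DJ (s := sF p m F) (N := N) (sF_comm (p := p) (m := m)))) :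
    LieStep p (fun S [Group S] => Nonempty (S ≃* PSG (sF p m F) (Jm N F))) :=
  lie_of_type hL3 hS (typeD_SU (N := N) (sF p m F) (sF_sF (p := p) (m := m) hcard)
    (sF_ne' hm hcard) sF_comm h3 fun h => exists_t hm hcard (hq h)) hG

open SUJ in
/-- The same for the form with the identity matrix. -/
theorem lie_SU_one (hL3 : L3Stmt) {p : ℕ} [Fact p.Prime] (hS : SolvStmt p) {m N : ℕ} {F : Type}
    [Field F] [CharP F p] [Finite F] [Algebra (ZMod p) F] (hm : 0 < m)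
    (hcard : Nat.card F = p ^ (2 * m)) (h3 : 3 ≤ N) (hq : N = 3 → 2 < p ^ m)
    [IsSimpleGroup (PSG (sF p m F) (1 : Matrix (Fin N) (Fin N) F))]
    (hG : LangOf p (incJ (sF p m F) N)
      (AJ (s := sF p m F) (N := N) (sF_comm (p := p) (m := m))).subtype
      (DJ (s := sF p m F) (N := N) (sF_comm (p := p) (m := m)))) :
    LieStep p (fun S [Group S] =>
      Nonempty (S ≃* PSG (sF p m F) (1 : Matrix (Fin N) (Fin N) F))) := by
  obtain ⟨P, hP⟩ := exists_PJ (F := F) hm hcard N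
  have : IsSimpleGroup (PSG (sF p m F) (Jm N F)) := (ptr hP).isSimpleGroup
  have h1 := lie_SU hL3 hS hm hcard h3 hq hG
  intro Ω _ _ x G _ _ ψ hψ E _ _ f hf S _ _ κ _ hSS hθ hmin
  obtain ⟨e⟩ := hSS
  exact h1 Ω x G ψ hψ E f hf S κ ⟨e.trans (ptr hP).symm⟩ hθ hmin

end MP7Z
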