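import Pool.Agent.Lib.MP_7f581e_Z.Types.TD
import Pool.Agent.Lib.MP_7f581e_Z.Types.TDSL
import Pool.Agent.Lib.MP_7f581e_Z.Types.TDSU
import Pool.Agent.Lib.MP_7f581e_ntE.Final

/-!
# Step Lie for the classical simple groups, from the Lang groups of the four types
-/

namespace MP7Z

open MP7fW MP7fY MP7fE

/-- The Lang groups of the four types. -/
structure LangAll (p : ℕ) [Fact p.Prime] : Prop where
  sl2 : ∀ (F : Type) [Field F] [Finite F] [Algebra (ZMod p) F],
    LangOf p (inc2 F) (A2 F).subtype (D2 F)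
  sp : ∀ (F : Type) [Field F] [Finite F] [Algebra (ZMod p) F] (n : ℕ), 2 ≤ n →
    LangOf p (incS n F) (AG n F).subtype (DSp n F)
  sln : ∀ (F : Type) [Field F] [Finite F] [Algebra (ZMod p) F] (n : ℕ), 3 ≤ n →
    LangOf p (inc1 n F) (A1 n F).subtype (D1 n F)
  su : ∀ (F : Type) [Field F] [Finite F] [CharP F p] [Algebra (ZMod p) F] (m N : ℕ), 0 < m →
    Nat.card F = p ^ (2 * m) → 3 ≤ N →
    LangOf p (SUJ.incJ (sF p m F) N)
      (SUJ.AJ (s := sF p m F) (N := N) (sF_comm (p := p) (m := m))).subtype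
      (SUJ.DJ (s := sF p m F) (N := N) (sF_comm (p := p) (m := m)))

/-- **Step Lie for the classical groups.** -/
theorem lie_classical {p : ℕ} [Fact p.Prime] (hL3 : L3Stmt) (hS : SolvStmt p)
    (hA : LangAll p) : LieStep p (fun S [Group S] => IsClassical p S) := by
  intro Ω _ _ x G _ _ ψ hψ E _ _ f hf S _ _ κ _ hSS hθ hmin
  obtain ⟨hsim, H, _, hH, ⟨eS⟩⟩ := hSS
  have hS' : IsSimpleGroup (H ⧸ Subgroup.center H) := MulEquiv.isSimpleGroup eS.symm
  obtain ⟨F, _, n, m, ⟨hF, hn, hq, ⟨e⟩⟩ | ⟨hF, hn, hp, ⟨e⟩⟩ |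
    ⟨hF, hm, hn, hq, σ, hσ, ⟨e⟩⟩⟩ := hH
  · have := finite_of_card hF
    have := charP_of_card hF
    let _ : Algebra (ZMod p) F := ZMod.algebra F p
    rcases Nat.lt_or_ge 2 n with h3 | h3
    · exact lie_of_type hL3 hS (typeD_SLn (F := F) h3) (hA.sln F n h3) Ω x G ψ hψ E f hf S κ
        ⟨eS.trans (centerQuot e)⟩ hθ hmin
    · obtain rfl : n = 2 := le_antisymm h3 hn
      exact lie_of_type hL3 hS (typeD_SL2 (F := F) (by rw [hF]; exact hq rfl)) (hA.sl2 F)
        Ω x G ψ hψ E f hf S κ ⟨eS.trans (centerQuot e)⟩ hθ hmin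
  · have := finite_of_card hF
    have := charP_of_card hF
    let _ : Algebra (ZMod p) F := ZMod.algebra F p
    have e' : H ≃* MP7fP.Sp n F := e
    have h1 : IsSimpleGroup (MP7fP.PSp n F) := MulEquiv.isSimpleGroup (centerQuot e').symm
    exact lie_of_type hL3 hS (typeD_Sp (F := F) (p := p) hn (two_zero hn hp)) (hA.sp F n hn)
      Ω x G ψ hψ E f hf S κ ⟨eS.trans (centerQuot e')⟩ hθ hmin
  · have := finite_of_card hF
    have := charP_of_card hF
    let _ : Algebra (ZMod p) F := ZMod.algebra F p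
    obtain rfl : σ = MP7fY.sF p m F := RingHom.ext fun x => (hσ x).trans
      (MP7fY.sF_apply x).symm
    have e' : H ≃* MP7fY.SG (MP7fY.sF p m F) (1 : Matrix (Fin n) (Fin n) F) := e.trans suEquiv
    have h1 : IsSimpleGroup (MP7fY.PSG (MP7fY.sF p m F) (1 : Matrix (Fin n) (Fin n) F)) :=
      MulEquiv.isSimpleGroup (centerQuot e').symm
    exact lie_SU_one hL3 hS hm hF hn hq (hA.su F m n hm hF hn) Ω x G ψ hψ E f hf S κ
      ⟨eS.trans (centerQuot e')⟩ hθ hmin

end MP7Z
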