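import Pool.Agent.Lib.MP_7f581e_Z.Types.SpecB

/-! # Step Lie, types: the points of type I (PtI) -/

set_option autoImplicit false

namespace MP7Z

open TensorProduct MP7fS MP7fU Matrix

theorem tyPtI (h : PtIIStmt) : PtIStmt := by
  intro p _ ι n F _ _ _ _ α hα s hs hSL b
  have h0 : b ∈ (GI p ι n F α hα s hs hSL).pts ↔
      jR (JI p ι n F α hα s hs) (ZMod p) ((1 : ZMod p) ⊗ₜ (b : ι → Matrix (Fin n) (Fin n) F)) *
        ((1 : ZMod p) ⊗ₜ (b : ι → Matrix (Fin n) (Fin n) F)) = 1 ∧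
        b ∈ (GII p ι (Fin n) F (SLf (Fin n)) hSL).pts := Iff.rfl
  rw [h0, h p ι (Fin n) F (SLf (Fin n)) hSL b]
  refine and_congr ?_ ?_
  · rw [jR_tmul, Algebra.TensorProduct.tmul_mul_tmul, one_mul,
      Algebra.TensorProduct.one_def]
    constructor
    · intro h1
      exact one_tmul_inj (p := p) (R := ZMod p) h1
    · intro h1
      rw [h1]
  · refine forall_congr' fun i => ?_
    rw [mem_SLf]
    rfl

end MP7Z
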