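import Pool.Agent.Lib.MP_7f581e_Z.Types.SpecB

/-!
# Transport of a group functor along a ring isomorphism
-/

set_option autoImplicit false
set_option linter.unusedSectionVars false

namespace MP7Z

open TensorProduct MP7fS MP7fU Matrix

section trp

variable {p : ℕ} [Fact p.Prime] {B B' : Type} [Ring B] [Finite B] [Algebra (ZMod p) B]
    [Ring B'] [Finite B'] [Algebra (ZMod p) B']

/-- A ring isomorphism is an isomorphism of `ZMod p`-algebras. -/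
def xiA (Ξ : B ≃+* B') : B ≃ₐ[ZMod p] B' :=
  AlgEquiv.ofRingEquiv (f := Ξ) (fun c => by
    have h : (Ξ : B →+* B').comp (algebraMap (ZMod p) B) = algebraMap (ZMod p) B' :=
      RingHom.ext_zmod _ _
    exact congrArg (fun g : ZMod p →+* B' => g c) h)

theorem xiA_apply (Ξ : B ≃+* B') (b : B) : xiA (p := p) Ξ b = Ξ b := rfl

/-- The isomorphism `R ⊗ B → R ⊗ B'`. -/
noncomputable def xiR (Ξ : B ≃+* B') (R : Type) [CommRing R] [Algebra (ZMod p) R] :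
    R ⊗[ZMod p] B ≃ₐ[R] R ⊗[ZMod p] B' :=
  Algebra.TensorProduct.congr AlgEquiv.refl (xiA (p := p) Ξ)

theorem xiR_tmul (Ξ : B ≃+* B') (R : Type) [CommRing R] [Algebra (ZMod p) R] (r : R) (b : B) :
    xiR (p := p) Ξ R (r ⊗ₜ b) = r ⊗ₜ Ξ b := rfl

theorem xiR_symm (Ξ : B ≃+* B') (R : Type) [CommRing R] [Algebra (ZMod p) R]
    (z : R ⊗[ZMod p] B) : xiR (p := p) Ξ.symm R (xiR Ξ R z) = z := by
  induction z using TensorProduct.induction_on with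
  | zero => rw [map_zero, map_zero]
  | add x y hx hy => rw [map_add, map_add, hx, hy]
  | tmul r b => rw [xiR_tmul, xiR_tmul, RingEquiv.symm_apply_apply]

theorem xiR_tmap (Ξ : B ≃+* B') {R S : Type} [CommRing R] [Algebra (ZMod p) R] [CommRing S]
    [Algebra (ZMod p) S] (f : R →+* S) (g : B →+* B) (g' : B' →+* B')
    (h : ∀ b, Ξ (g b) = g' (Ξ b)) (z : R ⊗[ZMod p] B) :
    xiR (p := p) Ξ S (tmap f g z) = tmap f g' (xiR Ξ R z) := by
  induction z using TensorProduct.induction_on with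
  | zero => simp only [map_zero]
  | add x y hx hy => rw [map_add, map_add, hx, hy, map_add, map_add]
  | tmul r b => rw [tmap_tmul, xiR_tmul, xiR_tmul, tmap_tmul, h]

/-- On units. -/
noncomputable def xiU (Ξ : B ≃+* B') (R : Type) [CommRing R] [Algebra (ZMod p) R] :
    (R ⊗[ZMod p] B)ˣ ≃* (R ⊗[ZMod p] B')ˣ :=
  Units.mapEquiv ((xiR (p := p) Ξ R : R ⊗[ZMod p] B ≃* R ⊗[ZMod p] B'))

theorem coe_xiU (Ξ : B ≃+* B') (R : Type) [CommRing R] [Algebra (ZMod p) R]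
    (u : (R ⊗[ZMod p] B)ˣ) :
    ((xiU (p := p) Ξ R u : (R ⊗[ZMod p] B')ˣ) : R ⊗[ZMod p] B') =
      xiR Ξ R (u : R ⊗[ZMod p] B) := rfl

theorem xiU_tu (Ξ : B ≃+* B') {R S : Type} [CommRing R] [Algebra (ZMod p) R] [CommRing S]
    [Algebra (ZMod p) S] (f : R →+* S) (g : B →+* B) (g' : B' →+* B')
    (h : ∀ b, Ξ (g b) = g' (Ξ b)) (u : (R ⊗[ZMod p] B)ˣ) :
    xiU (p := p) Ξ S (tu f g u) = tu f g' (xiU Ξ R u) :=
  Units.ext (xiR_tmap Ξ f g g' h (u : R ⊗[ZMod p] B))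

theorem xiU_cstu (Ξ : B ≃+* B') (R : Type) [CommRing R] [Algebra (ZMod p) R] (b : Bˣ) :
    xiU (p := p) Ξ R (cstu R b) = cstu R (Units.map (Ξ : B →* B') b) := Units.ext rfl

theorem xiU_fru (Ξ : B ≃+* B') (d : ℕ) (R : Type) [CommRing R] [CharP R p]
    [Algebra (ZMod p) R] (u : (R ⊗[ZMod p] B)ˣ) :
    xiU (p := p) Ξ R (fru d R u) = fru d R (xiU Ξ R u) :=
  xiU_tu Ξ _ _ _ (fun _ => rfl) u

theorem xi_bc (Ξ : B ≃+* B') (Z : Submodule (ZMod p) B') (Z' : Submodule (ZMod p) B)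
    (h : ∀ b ∈ Z', Ξ b ∈ Z) (R : Type) [CommRing R] [Algebra (ZMod p) R]
    (z : R ⊗[ZMod p] B) (hz : z ∈ Z'.baseChange R) :
    xiR (p := p) Ξ R z ∈ Z.baseChange R := by
  have h1 : Z'.baseChange R ≤ (Z.baseChange R).comap (xiR (p := p) Ξ R).toLinearMap := by
    rw [Submodule.baseChange_eq_span, Submodule.span_le]
    rintro _ ⟨b, hb, rfl⟩
    exact Submodule.tmul_mem_baseChange_of_mem 1 (h b hb)
  exact h1 hz

/-- The transported functor. -/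
noncomputable def trG (Ξ : B ≃+* B') (𝒢 : LangGp p B') : LangGp p B where
  H R _ _ := (𝒢.H R).comap ((xiU (p := p) Ξ R : (R ⊗[ZMod p] B)ˣ ≃* (R ⊗[ZMod p] B')ˣ) :
    (R ⊗[ZMod p] B)ˣ →* (R ⊗[ZMod p] B')ˣ)
  map R R' _ _ _ _ f x hx := by
    have h1 := 𝒢.map R R' f _ hx
    change xiU (p := p) Ξ R' (tu f (RingHom.id B) x) ∈ 𝒢.H R'
    rw [xiU_tu Ξ f (RingHom.id B) (RingHom.id B') (fun _ => rfl)]
    exact h1
  inj R R' _ _ _ _ f hf x hx := by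
    change xiU (p := p) Ξ R' (tu f (RingHom.id B) x) ∈ 𝒢.H R' at hx
    rw [xiU_tu Ξ f (RingHom.id B) (RingHom.id B') (fun _ => rfl)] at hx
    exact 𝒢.inj R R' f hf _ hx

theorem mem_trG {Ξ : B ≃+* B'} {𝒢 : LangGp p B'} {R : Type} [CommRing R]
    [Algebra (ZMod p) R] {u : (R ⊗[ZMod p] B)ˣ} :
    u ∈ (trG Ξ 𝒢).H R ↔ xiU Ξ R u ∈ 𝒢.H R := Iff.rfl

end trp

theorem tyTrp : TrpStmt := by
  intro p _ B B' _ _ _ _ _ _ Ξ 𝒢
  have hpts : ∀ b : Bˣ, b ∈ (trG Ξ 𝒢).pts ↔ Units.map (Ξ : B →* B') b ∈ 𝒢.pts := by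
    intro b
    change xiU (p := p) Ξ (ZMod p) (cstu (ZMod p) b) ∈ 𝒢.H (ZMod p) ↔ _
    rw [xiU_cstu]
    rfl
  refine ⟨trG Ξ 𝒢, hpts, ?_, ?_, ?_, ?_, ?_⟩
  · intro h k _ _ _ _ g hg
    obtain ⟨y, hy, hy'⟩ := h k (xiU Ξ k g) hg
    refine ⟨(xiU Ξ k).symm y, ?_, ?_⟩
    · rw [mem_trG, MulEquiv.apply_symm_apply]
      exact hy
    · apply (xiU Ξ k).injective
      rw [xiU_fru, map_mul, MulEquiv.apply_symm_apply]
      exact hy'
  · intro m₀ h k _ _ _ _ _ d hd hmd c hc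
    obtain ⟨y, hy, hy'⟩ := h k d hd hmd _ ((hpts c).mp hc)
    refine ⟨(xiU Ξ k).symm y, ?_, ?_⟩
    · rw [mem_trG, MulEquiv.apply_symm_apply]
      exact hy
    · apply (xiU Ξ k).injective
      rw [xiU_fru, map_mul, MulEquiv.apply_symm_apply, xiU_cstu]
      exact hy'
  · intro m₀ ι Z Z' hZ h k _ _ _ _ _ d hd hmd x hx hfx
    have h1 := h k d hd hmd (xiU Ξ k x) hx (by rw [← xiU_fru, hfx])
    have h2 : x ∈ (Subgroup.closure {w : (k ⊗[ZMod p] B')ˣ | fru d k w = w ∧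
        ((w : k ⊗[ZMod p] B') - 1) * ((w : k ⊗[ZMod p] B') - 1) = 0 ∧
        ∃ i, (w : k ⊗[ZMod p] B') - 1 ∈ (Z i).baseChange k}).map
          ((xiU (p := p) Ξ k).symm : (k ⊗[ZMod p] B')ˣ →* (k ⊗[ZMod p] B)ˣ) :=
      ⟨xiU Ξ k x, h1, MulEquiv.symm_apply_apply _ _⟩
    rw [MonoidHom.map_closure] at h2
    refine Subgroup.closure_mono ?_ h2
    rintro _ ⟨w, ⟨hw1, hw2, i, hw3⟩, rfl⟩
    have h3 : xiR (p := p) Ξ k (((xiU (p := p) Ξ k).symm w : (k ⊗[ZMod p] B)ˣ) :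
        k ⊗[ZMod p] B) = (w : k ⊗[ZMod p] B') := by
      rw [← coe_xiU, MulEquiv.apply_symm_apply]
    refine ⟨?_, ?_, i, ?_⟩
    · apply (xiU Ξ k).injective
      rw [xiU_fru]
      change fru d k (xiU Ξ k ((xiU Ξ k).symm w)) = xiU Ξ k ((xiU Ξ k).symm w)
      rw [MulEquiv.apply_symm_apply]
      exact hw1
    · apply (xiR (p := p) Ξ k).injective
      rw [map_mul, map_sub, map_one, map_zero]
      change (xiR (p := p) Ξ k (((xiU (p := p) Ξ k).symm w : (k ⊗[ZMod p] B)ˣ) :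
        k ⊗[ZMod p] B) - 1) * (xiR (p := p) Ξ k (((xiU (p := p) Ξ k).symm w :
          (k ⊗[ZMod p] B)ˣ) : k ⊗[ZMod p] B) - 1) = 0
      rw [h3]
      exact hw2
    · have h4 := xi_bc (p := p) Ξ.symm (Z' i) (Z i) (fun b hb => (hZ i _).mpr (by
        rw [RingEquiv.apply_symm_apply]
        exact hb)) k _ hw3
      rw [← h3, ← map_one (xiR (p := p) Ξ k), ← map_sub, xiR_symm] at h4
      exact h4
  · intro Q _ ρ ρ' hρ h R _ _ q x hx
    rw [mem_trG, xiU_tu Ξ (RingHom.id R) (ρ q : B →+* B) (ρ' q : B' →+* B') (hρ q)]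
    exact h R q _ hx
  · intro Q _ _ ρ ρ' Z Z' hρ hZ h R _ _ a c₀ z hz hzi
    have hρ' : ∀ q b, Ξ ((ρ q : B →+* B) b) = (ρ' q : B' →+* B') (Ξ b) := hρ
    obtain ⟨g, hg, hgi, hgk⟩ := h R a c₀ (xiR Ξ R z)
      (xi_bc Ξ Z Z' (fun b hb => (hZ b).mp hb) R z hz)
      (fun q => by rw [← xiR_tmap Ξ _ _ _ (hρ' q), hzi])
    refine ⟨(xiU Ξ R).symm g, ?_, ?_, ?_⟩
    · rw [mem_trG, MulEquiv.apply_symm_apply]
      exact hg
    · intro q
      apply (xiU Ξ R).injective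
      rw [xiU_tu Ξ _ _ _ (hρ' q), MulEquiv.apply_symm_apply]
      exact hgi q
    · intro k _ _ π hπ hz2
      have h3 : xiR (p := p) Ξ R (((xiU (p := p) Ξ R).symm g : (R ⊗[ZMod p] B)ˣ) :
          R ⊗[ZMod p] B) = (g : R ⊗[ZMod p] B') := by
        rw [← coe_xiU, MulEquiv.apply_symm_apply]
      have h4 : tmap (p := p) π (RingHom.id B') (xiR Ξ R z) =
          xiR Ξ k (tmap π (RingHom.id B) z) :=
        (xiR_tmap Ξ π (RingHom.id B) (RingHom.id B') (fun _ => rfl) z).symm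
      have h5 := hgk k π hπ (by rw [h4, ← map_mul, hz2, map_zero])
      apply (xiR (p := p) Ξ k).injective
      rw [xiR_tmap Ξ π (RingHom.id B) (RingHom.id B') (fun _ => rfl), h3, h5, h4, map_add,
        map_one]

end MP7Z
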