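import Pool.Agent.Lib.MP_7f581e_Z.Types.AllU
import Pool.Agent.Lib.MP_7f581e_Z.Types.L1E
import Pool.Agent.Lib.MP_7f581e_Z.Types.LSLn
import Pool.Agent.Lib.MP_7f581e_Z.Types.LieC
import Pool.Agent.Lib.MP_7f581e_Z.Types.PtI
import Pool.Agent.Lib.MP_7f581e_Z.Types.Trp
import Pool.Agent.Lib.MP_7f581e_Z.Lie.All
import Pool.Agent.Lib.MP_7f581e_Z.Fin.Solv
import Pool.Agent.Lib.MP_7f581e_Z.EPP.Main
import Pool.Agent.Lib.MP_7f581e_Z.EPL.Main

/-!
# Step Lie for the classical simple groups of characteristic `p`, unconditionally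
-/

namespace MP7Z

open MP7fW MP7fY MP7fP MP7fE

theorem lang_SLn {p : ℕ} [Fact p.Prime] {n : ℕ} {F : Type} [Field F] [Finite F]
    [Algebra (ZMod p) F] (h2 : 2 ≤ n) : LangOf p (inc1 n F) (A1 n F).subtype (D1 n F) :=
  langOf_SLn tyFn ty_lgl tyLSL tyGSL ty_II.l1 ty_II.lm ty_II.g
    (tyL1E tyUe tySc (tyDetU tySc)) (tyLMI tyUe tySc (tyDetU tySc)) (tyGnI tyUe tySc) tyZI1
    (tyPI tySc tyZI1 (tyUT tyTHb tySc)) (tyStI ty_II.st tyZSt) (tyPtI ty_II.pt) tyTrp h2

/-- The Lang groups of the four types. -/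
theorem langAll (p : ℕ) [Fact p.Prime] : LangAll p where
  sl2 := fun _ _ _ _ => lang_SL2
  sp := fun _ _ _ _ _ hn => lang_Sp hn
  sln := fun _ _ _ _ _ hn => lang_SLn (by omega)
  su := fun _ _ _ _ _ _ _ hm hcard hN => lang_SU_of (tyPtI ty_II.pt) hm hcard (by omega)

/-- All embedding problems with solvable kernel (in the weak sense needed by step Lie). -/
theorem solvStmt (p : ℕ) [Fact p.Prime] : SolvStmt p := solv (ep_lStep p) (ep_pStep p)

/-- **Step Lie for the classical simple groups of characteristic `p`.** -/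
theorem lieStep_classical (p : ℕ) [Fact p.Prime] :
    LieStep p (fun S [Group S] => IsClassical p S) :=
  lie_classical lie_l3 (solvStmt p) (langAll p)

end MP7Z
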