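import Pool.Agent.Lib.MP_7f581e_Z.Types.SpecA

/-!
# Lang's theorem for the general linear group
-/

set_option autoImplicit false

namespace MP7Z

open TensorProduct MP7fS MP7fU Matrix

/-- The semilinear map `v ↦ A (φ ∘ v)`. -/
noncomputable def lglMap {l k : Type} [Fintype l] [Field k] (φ : k →+* k)
    (A : Matrix l l k) : (l → k) →ₛₗ[φ] (l → k) where
  toFun v := A.mulVec (fun i => φ (v i))
  map_add' v w := by
    rw [← Matrix.mulVec_add]
    congr 1
    funext i
    exact map_add φ _ _
  map_smul' c v := by
    rw [← Matrix.mulVec_smul]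
    congr 1
    funext i
    exact map_mul φ _ _

theorem lglMap_apply {l k : Type} [Fintype l] [Field k] (φ : k →+* k) (A : Matrix l l k)
    (v : l → k) : lglMap φ A v = A.mulVec (fun i => φ (v i)) := rfl

theorem tyLGL (h : Sem2Stmt) : LGLStmt := by
  intro p _ l _ _ k _ _ _ m hm g _
  -- the images span
  have hspan : Submodule.span k (Set.range (lglMap (iterateFrobenius k p m)
      ((g⁻¹ : GL l k) : Matrix l l k))) = ⊤ := by
    rw [eq_top_iff]
    intro w _
    have h1 : w = ∑ i, ((g : Matrix l l k).mulVec w) i •
        (((g⁻¹ : GL l k) : Matrix l l k).mulVec (Pi.single i 1)) := by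
      have h2 : ((g⁻¹ : GL l k) : Matrix l l k).mulVec ((g : Matrix l l k).mulVec w) = w := by
        rw [Matrix.mulVec_mulVec, Units.inv_mul, Matrix.one_mulVec]
      have h3 : ((g : Matrix l l k).mulVec w) =
          ∑ i, ((g : Matrix l l k).mulVec w) i • (Pi.single i (1 : k) : l → k) := by
        funext a
        rw [Finset.sum_apply, Finset.sum_eq_single a]
        · rw [Pi.smul_apply, Pi.single_eq_same, smul_eq_mul, mul_one]
        · intro b _ hb
          rw [Pi.smul_apply, Pi.single_eq_of_ne (Ne.symm hb), smul_zero]
        · intro ha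
          exact absurd (Finset.mem_univ a) ha
      calc w = ((g⁻¹ : GL l k) : Matrix l l k).mulVec ((g : Matrix l l k).mulVec w) := h2.symm
        _ = ((g⁻¹ : GL l k) : Matrix l l k).mulVec
            (∑ i, ((g : Matrix l l k).mulVec w) i • (Pi.single i (1 : k) : l → k)) :=
            congrArg _ h3
        _ = _ := by
            rw [Matrix.mulVec_sum]
            refine Finset.sum_congr rfl (fun i _ => ?_)
            rw [Matrix.mulVec_smul]
    rw [h1]
    refine Submodule.sum_mem _ (fun i _ => Submodule.smul_mem _ _ (Submodule.subset_span ?_))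
    refine ⟨Pi.single i 1, ?_⟩
    rw [lglMap_apply]
    congr 1
    funext a
    by_cases ha : a = i
    · subst ha
      rw [Pi.single_eq_same, map_one]
    · rw [Pi.single_eq_of_ne ha, map_zero]
  have hfix := h p k m hm (l → k) (lglMap (iterateFrobenius k p m)
      ((g⁻¹ : GL l k) : Matrix l l k)) hspan
  obtain ⟨b, hb, hbs, hbl⟩ := exists_linearIndependent k
    {v : l → k | lglMap (iterateFrobenius k p m) ((g⁻¹ : GL l k) : Matrix l l k) v = v}
  rw [hfix] at hbs
  let B0 : Module.Basis b k (l → k) := Module.Basis.mk hbl (by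
    rw [Subtype.range_coe_subtype]
    exact hbs.ge)
  let e : b ≃ l := B0.indexEquiv (Pi.basisFun k l)
  let B : Module.Basis l k (l → k) := B0.reindex e
  have hB : ∀ i, ((g⁻¹ : GL l k) : Matrix l l k).mulVec
      (fun a => iterateFrobenius k p m (B i a)) = B i := by
    intro i
    have h1 : B i = (e.symm i : l → k) := by
      change (B0.reindex e) i = _
      rw [Module.Basis.reindex_apply, Module.Basis.mk_apply]
    have h2 := hb (e.symm i).2
    rw [h1]
    exact h2
  let Y : Matrix l l k := Matrix.of (fun a i => B i a)
  have hYu : IsUnit Y := by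
    have h1 : LinearIndependent k Y.col := by
      have h2 : Y.col = B := by
        funext i a
        rfl
      rw [h2]
      exact B.linearIndependent
    exact Matrix.linearIndependent_cols_iff_isUnit.mp h1
  obtain ⟨y, hy⟩ := hYu
  refine ⟨y, Subgroup.mem_top _, ?_⟩
  have h3 : ((g⁻¹ : GL l k) : Matrix l l k) * (y : Matrix l l k).map (iterateFrobenius k p m) =
      (y : Matrix l l k) := by
    rw [hy]
    ext a i
    exact congrFun (hB i) a
  apply Units.ext
  change (y : Matrix l l k).map (iterateFrobenius k p m) = (g : Matrix l l k) * (y : Matrix l l k)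
  calc (y : Matrix l l k).map (iterateFrobenius k p m) =
      (g : Matrix l l k) * (((g⁻¹ : GL l k) : Matrix l l k) *
        (y : Matrix l l k).map (iterateFrobenius k p m)) := by
        rw [← Matrix.mul_assoc, Units.mul_inv, Matrix.one_mul]
    _ = _ := by rw [h3]

end MP7Z
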