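import Pool.Agent.Lib.MP_7f581e_Z.Types.SpecA

/-!
# Types/Sem1: a nonzero vector fixed by a semilinear map
-/

set_option autoImplicit false

namespace MP7Z

namespace Sem1M

open Polynomial

variable {p : ℕ} [Fact p.Prime] {k : Type} [Field k] [CharP k p] {m : ℕ}

/-- The images of linearly independent vectors are linearly independent. -/
lemma ind {V : Type} [AddCommGroup V] [Module k V] [FiniteDimensional k V]
    (Φ : V →ₛₗ[iterateFrobenius k p m] V) (hΦ : Submodule.span k (Set.range Φ) = ⊤)
    {ι : Type} (u : ι → V) (hu : LinearIndependent k u) :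
    LinearIndependent k (fun i => Φ (u i)) := by
  classical
  let b := Module.Basis.extend hu.linearIndepOn_id
  have hfin : Finite (hu.linearIndepOn_id.extend (Set.subset_univ (Set.range u))) :=
    Module.Finite.finite_basis b
  have : Fintype (hu.linearIndepOn_id.extend (Set.subset_univ (Set.range u))) :=
    Fintype.ofFinite _
  have hspan : ⊤ ≤ Submodule.span k (Set.range fun i => Φ (b i)) := by
    rw [← hΦ, Submodule.span_le]
    rintro _ ⟨x, rfl⟩
    rw [← b.sum_repr x, map_sum]
    refine Submodule.sum_mem _ fun i _ => ?_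
    rw [map_smulₛₗ]
    exact Submodule.smul_mem _ _ (Submodule.subset_span ⟨i, rfl⟩)
  have hli : LinearIndependent k fun i => Φ (b i) :=
    linearIndependent_of_top_le_span_of_card_eq_finrank hspan
      (Module.finrank_eq_card_basis b).symm
  let e : ι → hu.linearIndepOn_id.extend (Set.subset_univ (Set.range u)) := fun i =>
    ⟨u i, hu.linearIndepOn_id.subset_extend _ (Set.mem_range_self i)⟩
  have he : Function.Injective e := fun i j h => hu.injective (congrArg Subtype.val h)
  have h1 := hli.comp e he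
  have h2 : ((fun i => Φ (b i)) ∘ e) = fun i => Φ (u i) := by
    funext i
    change Φ (b (e i)) = Φ (u i)
    rw [show b (e i) = u i from Module.Basis.extend_apply_self _ _]
  rwa [h2] at h1

/-- A nonzero root of the polynomial of the docstring. -/
lemma root [IsSepClosed k] (hm : 0 < m) (s : ℕ) (b : ℕ → k) (hb : ∃ j, j ≤ s ∧ b j ≠ 0) :
    ∃ t : k, t ≠ 0 ∧ ∑ j ∈ Finset.range (s + 1), b j * t ^ (p ^ m) ^ (j + 1) = t := by
  have hp := Fact.out (p := p.Prime)
  have hq : 2 ≤ p ^ m := by
    calc 2 ≤ p := hp.two_le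
      _ = p ^ 1 := (pow_one p).symm
      _ ≤ p ^ m := Nat.pow_le_pow_right hp.pos hm
  set q := p ^ m with hqdef
  set P : k[X] := ∑ j ∈ Finset.range (s + 1), C (b j) * X ^ q ^ (j + 1) - X with hP
  have hqk : (q : k) = 0 := by
    rw [hqdef, Nat.cast_pow, CharP.cast_eq_zero k p, zero_pow hm.ne']
  have hder : derivative P = -1 := by
    rw [hP, derivative_sub, derivative_X, derivative_sum]
    rw [Finset.sum_eq_zero, zero_sub]
    intro j _
    rw [derivative_C_mul, derivative_X_pow, pow_succ, Nat.cast_mul, hqk, mul_zero, C_0, zero_mul,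
      mul_zero]
  have hsep : P.Separable := by
    rw [Polynomial.Separable, hder]
    exact isCoprime_one_right.neg_right
  have hcoef : ∀ j, j ≤ s → P.coeff (q ^ (j + 1)) = b j := by
    intro j hj
    have hne : q ^ (j + 1) ≠ 1 := by
      have : 1 < q ^ (j + 1) := Nat.one_lt_pow (by omega) (by omega)
      omega
    rw [hP, coeff_sub, finsetSum_coeff, coeff_X, if_neg hne.symm, sub_zero,
      Finset.sum_eq_single j]
    · rw [coeff_C_mul, coeff_X_pow, if_pos rfl, mul_one]
    · intro i _ hij
      rw [coeff_C_mul, coeff_X_pow, if_neg, mul_zero]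
      intro h
      apply hij
      have := Nat.pow_right_injective hq h
      omega
    · intro h
      exact absurd (Finset.mem_range.2 (by omega)) h
  obtain ⟨j₀, hj₀, hbj⟩ := hb
  have hdeg : 2 ≤ P.natDegree := by
    have h1 : P.coeff (q ^ (j₀ + 1)) ≠ 0 := by rw [hcoef j₀ hj₀]; exact hbj
    refine le_trans ?_ (le_natDegree_of_ne_zero h1)
    calc 2 ≤ q := hq
      _ = q ^ 1 := (pow_one q).symm
      _ ≤ q ^ (j₀ + 1) := Nat.pow_le_pow_right (by omega) (by omega)
  have hP0 : P ≠ 0 := by
    rintro h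
    rw [h, natDegree_zero] at hdeg
    omega
  have hcard : Multiset.card P.roots = P.natDegree :=
    (splits_iff_card_roots.1 (IsSepClosed.splits_of_separable P hsep))
  have hnd := nodup_roots hsep
  have hex : ∃ t ∈ P.roots, t ≠ 0 := by
    by_contra hcon
    push Not at hcon
    have h1 : P.roots ≤ {0} := (Multiset.le_iff_subset hnd).2 fun t ht =>
      Multiset.mem_singleton.2 (hcon t ht)
    have h2 := Multiset.card_le_card h1
    rw [hcard, Multiset.card_singleton] at h2
    omega
  obtain ⟨t, ht, ht0⟩ := hex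
  refine ⟨t, ht0, ?_⟩
  have h3 := (mem_roots hP0).1 ht
  rw [IsRoot, hP, eval_sub, eval_X, eval_finsetSum, sub_eq_zero] at h3
  refine Eq.trans (Finset.sum_congr rfl fun j _ => ?_) h3
  rw [eval_mul, eval_C, eval_pow, eval_X]

/-- The coefficients of the fixed vector. -/
lemma coefs (s : ℕ) (a : ℕ → k) (t : k)
    (ht : ∑ j ∈ Finset.range (s + 1), a (s - j) ^ (p ^ m) ^ j * t ^ (p ^ m) ^ (j + 1) = t) :
    ∃ c : ℕ → k, c 0 = a 0 * t ^ p ^ m ∧
      (∀ i, c (i + 1) = c i ^ p ^ m + a (i + 1) * t ^ p ^ m) ∧ c s = t := by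
  have hadd : ∀ (f : ℕ → k) (n : ℕ), (∑ j ∈ Finset.range n, f j) ^ p ^ m =
      ∑ j ∈ Finset.range n, f j ^ p ^ m := by
    intro f n
    have h := map_sum (iterateFrobenius k p m) f (Finset.range n)
    simpa only [iterateFrobenius_def] using h
  refine ⟨fun i => ∑ j ∈ Finset.range (i + 1), a (i - j) ^ (p ^ m) ^ j * t ^ (p ^ m) ^ (j + 1),
    ?_, ?_, ht⟩
  · simp
  · intro i
    change ∑ j ∈ Finset.range (i + 1 + 1), _ = (∑ j ∈ Finset.range (i + 1), _) ^ p ^ m + _
    rw [Finset.sum_range_succ', hadd]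
    congr 1
    · refine Finset.sum_congr rfl fun j hj => ?_
      have e1 : ∀ (x : k) (n : ℕ), (x ^ (p ^ m) ^ n) ^ p ^ m = x ^ (p ^ m) ^ (n + 1) :=
        fun x n => by rw [← pow_mul, ← pow_succ]
      have e2 : i + 1 - (j + 1) = i - j := by omega
      rw [mul_pow, e1, e1, e2]
    · simp

end Sem1M

open Sem1M in
theorem tySem1 : Sem1Stmt := by
  intro p _ k _ _ _ m hm V _ _ _ _ Φ hΦ
  classical
  obtain ⟨v, hv⟩ := exists_ne (0 : V)
  let F : ℕ → V := fun i => Φ^[i] v
  have hF : ∀ i, F (i + 1) = Φ (F i) := fun i => Function.iterate_succ_apply' _ _ _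
  let Dep : ℕ → Prop := fun r => F r ∈ Submodule.span k (Set.range fun i : Fin r => F i)
  have hind : ∀ r, (∀ j, j < r → ¬ Dep j) → LinearIndependent k (fun i : Fin r => F i) := by
    intro r
    induction r with
    | zero => intro _; exact linearIndependent_empty_type
    | succ r ih =>
      intro h
      have h1 := ih fun j hj => h j (by omega)
      have h2 := linearIndependent_finSnoc.2 ⟨h1, h r (by omega)⟩
      have h3 : (fun i : Fin (r + 1) => F i) = Fin.snoc (fun i : Fin r => F i) (F r) := by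
        funext i
        refine Fin.lastCases ?_ (fun i => ?_) i
        · rw [Fin.snoc_last, Fin.val_last]
        · rw [Fin.snoc_castSucc, Fin.val_castSucc]
      rw [h3]
      exact h2
  have hex : ∃ r, Dep r := by
    by_contra hcon
    push Not at hcon
    have h1 := (hind (Module.finrank k V + 1) fun j _ => hcon j).fintype_card_le_finrank
    rw [Fintype.card_fin] at h1
    omega
  obtain ⟨s, hs⟩ : ∃ s, Nat.find hex = s + 1 := by
    refine Nat.exists_eq_succ_of_ne_zero fun h0 => ?_
    have h1 : Dep (Nat.find hex) := Nat.find_spec hex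
    rw [h0] at h1
    have h2 : v ∈ Submodule.span k (Set.range fun i : Fin 0 => F i) := h1
    rw [Set.range_eq_empty, Submodule.span_empty, Submodule.mem_bot] at h2
    exact hv h2
  have hdep : Dep (s + 1) := hs ▸ Nat.find_spec hex
  have hli := hind (s + 1) fun j hj => Nat.find_min hex (by omega)
  obtain ⟨c₀, hc₀⟩ := (Submodule.mem_span_range_iff_exists_fun k).1 hdep
  let a : ℕ → k := fun i => if h : i < s + 1 then c₀ ⟨i, h⟩ else 0
  have ha : ∑ i ∈ Finset.range (s + 1), a i • F i = F (s + 1) := by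
    rw [← hc₀, ← Fin.sum_univ_eq_sum_range (fun i => a i • F i) (s + 1)]
    refine Finset.sum_congr rfl fun i _ => ?_
    have h1 : a i = c₀ i := dif_pos i.2
    rw [h1]
  have hF0 : F (s + 1) ≠ 0 := by
    have h1 := (ind Φ hΦ _ hli).ne_zero (Fin.last s)
    rw [hF]
    exact h1
  have hane : ∃ j, j ≤ s ∧ a (s - j) ^ (p ^ m) ^ j ≠ 0 := by
    by_contra hcon
    push Not at hcon
    apply hF0
    rw [← ha]
    refine Finset.sum_eq_zero fun i hi => ?_
    rw [Finset.mem_range] at hi
    have h1 := hcon (s - i) (by omega)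
    have h2 : s - (s - i) = i := by omega
    rw [h2] at h1
    have h3 : a i = 0 := by
      by_contra h4
      exact pow_ne_zero _ h4 h1
    rw [h3, zero_smul]
  obtain ⟨t, ht0, ht⟩ := root (p := p) hm s _ hane
  obtain ⟨c, hc0, hc, hcs⟩ := coefs (p := p) (m := m) s a t ht
  refine ⟨∑ i ∈ Finset.range (s + 1), c i • F i, ?_, ?_⟩
  · intro h0
    rw [← Fin.sum_univ_eq_sum_range (fun i => c i • F i) (s + 1)] at h0
    have h1 := Fintype.linearIndependent_iff.1 hli (fun i => c i) h0 (Fin.last s)
    rw [Fin.val_last, hcs] at h1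
    exact ht0 h1
  · rw [map_sum]
    have h1 : ∀ i, Φ (c i • F i) = c i ^ p ^ m • F (i + 1) := by
      intro i
      rw [map_smulₛₗ, iterateFrobenius_def, hF]
    simp only [h1]
    rw [Finset.sum_range_succ, hcs, ← ha, Finset.smul_sum, Finset.sum_range_succ' _ s,
      Finset.sum_range_succ' (fun i => c i • F i) s, ← add_assoc, ← Finset.sum_add_distrib]
    congr 1
    · refine Finset.sum_congr rfl fun i _ => ?_
      rw [hc, add_smul, smul_smul, mul_comm (t ^ p ^ m)]
    · rw [hc0, smul_smul, mul_comm]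

end MP7Z
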