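import Pool.Agent.Lib.MP_7f581e_Z.Types.SpecA

/-!
# Types: the fixed vectors of a semilinear map span
-/

set_option autoImplicit false

namespace MP7Z

open TensorProduct MP7fS MP7fU Matrix

/-- Artin-Schreier type equations over separably closed fields. -/
theorem sem2_root (p : ℕ) [Fact p.Prime] (k : Type) [Field k] [CharP k p] [IsSepClosed k]
    (m : ℕ) (hm : 0 < m) (b : k) : ∃ c : k, c ^ p ^ m - c + b = 0 := by
  have hp := (Fact.out : p.Prime)
  have hq : 1 < p ^ m := Nat.one_lt_pow hm.ne' hp.one_lt
  have hq0 : ((p ^ m : ℕ) : k) = 0 := by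
    rw [Nat.cast_pow, CharP.cast_eq_zero, zero_pow hm.ne']
  have hdeg : ((Polynomial.X ^ (p ^ m) - Polynomial.X + Polynomial.C b : Polynomial k)).natDegree =
      p ^ m := by
    have h1 : (Polynomial.X ^ (p ^ m) - Polynomial.X + Polynomial.C b : Polynomial k) =
        Polynomial.X ^ (p ^ m) - (Polynomial.X - Polynomial.C b) := by ring
    rw [h1, Polynomial.natDegree_sub_eq_left_of_natDegree_lt]
    · exact Polynomial.natDegree_X_pow _
    · rw [Polynomial.natDegree_X_pow, Polynomial.natDegree_X_sub_C]
      exact hq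
  have hder : Polynomial.derivative
      (Polynomial.X ^ (p ^ m) - Polynomial.X + Polynomial.C b : Polynomial k) = -1 := by
    rw [Polynomial.derivative_add, Polynomial.derivative_sub, Polynomial.derivative_X_pow,
      Polynomial.derivative_X, Polynomial.derivative_C, hq0, map_zero, zero_mul, zero_sub, add_zero]
  obtain ⟨c, hc⟩ := IsSepClosed.exists_root
    (Polynomial.X ^ (p ^ m) - Polynomial.X + Polynomial.C b : Polynomial k) (by
      intro h
      have h2 := Polynomial.natDegree_eq_zero_iff_degree_le_zero.2 h.le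
      rw [hdeg] at h2
      omega) (by
      rw [Polynomial.Separable, hder]
      exact ⟨0, -1, by ring⟩)
  refine ⟨c, ?_⟩
  have h3 := hc
  rw [Polynomial.IsRoot.def] at h3
  simpa using h3

theorem tySem2 (h1 : Sem1Stmt) : Sem2Stmt := by
  intro p _ k _ _ _ m hm V _ _ _ Φ hΦ
  by_contra hne
  set V₀ : Submodule k V := Submodule.span k {v : V | Φ v = v} with hV₀
  have hinv : V₀ ≤ V₀.comap Φ := by
    intro v hv
    rw [Submodule.mem_comap]
    induction hv using Submodule.span_induction with
    | mem x hx =>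
      have hx' : Φ x = x := hx
      rw [hx']
      exact Submodule.subset_span hx
    | zero =>
      rw [map_zero]
      exact zero_mem _
    | add x y _ _ hx hy =>
      rw [map_add]
      exact add_mem hx hy
    | smul a x _ hx =>
      rw [map_smulₛₗ]
      exact Submodule.smul_mem _ _ hx
  have hP : ∀ x ∈ V₀, ∀ c : k, ∃ y ∈ V₀, Φ y + c • x = y := by
    intro x hx
    induction hx using Submodule.span_induction with
    | mem x hx =>
      intro c
      obtain ⟨a, ha⟩ := sem2_root p k m hm c
      refine ⟨a • x, Submodule.smul_mem _ _ (Submodule.subset_span hx), ?_⟩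
      have hx' : Φ x = x := hx
      rw [map_smulₛₗ, hx', ← add_smul, iterateFrobenius_def]
      congr 1
      linear_combination ha
    | zero =>
      intro c
      exact ⟨0, zero_mem _, by rw [map_zero, smul_zero, add_zero]⟩
    | add x y _ _ hx hy =>
      intro c
      obtain ⟨u, hu, hu'⟩ := hx c
      obtain ⟨v, hv, hv'⟩ := hy c
      refine ⟨u + v, add_mem hu hv, ?_⟩
      rw [map_add, smul_add, add_add_add_comm, hu', hv']
    | smul a x _ hx =>
      intro c
      obtain ⟨u, hu, hu'⟩ := hx (c * a)
      exact ⟨u, hu, by rw [smul_smul, hu']⟩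
  have : Nontrivial (V ⧸ V₀) := Submodule.Quotient.nontrivial_iff.2 hne
  have hrange : Submodule.span k (Set.range (V₀.mapQ V₀ Φ hinv)) = ⊤ := by
    rw [eq_top_iff]
    rintro x -
    obtain ⟨v, rfl⟩ := V₀.mkQ_surjective x
    have hv : v ∈ Submodule.span k (Set.range Φ) := by
      rw [hΦ]
      exact Submodule.mem_top
    induction hv using Submodule.span_induction with
    | mem y hy =>
      obtain ⟨z, rfl⟩ := hy
      exact Submodule.subset_span ⟨V₀.mkQ z, rfl⟩
    | zero =>
      rw [map_zero]
      exact zero_mem _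
    | add x y _ _ hx hy =>
      rw [map_add]
      exact add_mem hx hy
    | smul a x _ hx =>
      rw [map_smul]
      exact Submodule.smul_mem _ _ hx
  obtain ⟨x, hx0, hx⟩ := h1 p k m hm (V ⧸ V₀) (V₀.mapQ V₀ Φ hinv) hrange
  obtain ⟨v, rfl⟩ := V₀.mkQ_surjective x
  have hv : Φ v - v ∈ V₀ := by
    rw [← Submodule.Quotient.eq]
    exact hx
  obtain ⟨y, hy, hy'⟩ := hP _ hv 1
  rw [one_smul] at hy'
  have hfix : Φ (v + y) = v + y := by
    rw [map_add]
    calc Φ v + Φ y = v + (Φ y + (Φ v - v)) := by abel
      _ = v + y := by rw [hy']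
  have hvy : v + y ∈ V₀ := Submodule.subset_span hfix
  have hvV : v ∈ V₀ := by
    have h3 := sub_mem hvy hy
    rwa [add_sub_cancel_right] at h3
  exact hx0 ((Submodule.Quotient.mk_eq_zero _).2 hvV)

end MP7Z
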