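import Pool.Agent.Lib.MP_7f581e_Z.Types.SpecA

/-!
# Types/Evj: the homomorphisms `evj τ j`
-/

set_option autoImplicit false

namespace MP7Z

open TensorProduct MP7fS MP7fU Matrix

namespace EvjM

variable {p : ℕ} [Fact p.Prime] {F : Type} [Field F] [Finite F] [Algebra (ZMod p) F]
  {k : Type} [Field k] [Algebra (ZMod p) k] [CharP k p] (τ : F →+* k)

lemma pow_card_pow (c : F) : c ^ p ^ Module.finrank (ZMod p) F = c := by
  have : Fintype F := Fintype.ofFinite F
  have h1 := FiniteField.pow_card c
  have h2 : Fintype.card F = p ^ Module.finrank (ZMod p) F := by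
    rw [Module.card_eq_pow_finrank (K := ZMod p), ZMod.card]
  rwa [h2] at h1

/-- The `j`-th embedding. -/
noncomputable def emb (j : ℕ) : F →ₐ[ZMod p] k := toAlg (p := p) ((iterateFrobenius k p j).comp τ)

omit [Finite F] in
lemma emb_apply (j : ℕ) (c : F) : emb (p := p) τ j c = τ c ^ p ^ j := rfl

lemma emb_inj : Function.Injective fun j : Fin (Module.finrank (ZMod p) F) =>
    emb (p := p) τ j := by
  intro i j hij
  apply (FiniteField.bijective_frobeniusAlgHom_pow (ZMod p) F).1
  apply AlgHom.ext
  intro c
  have h1 : τ c ^ p ^ (i : ℕ) = τ c ^ p ^ (j : ℕ) := by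
    rw [← emb_apply, ← emb_apply]
    exact DFunLike.congr_fun hij c
  rw [← map_pow, ← map_pow] at h1
  have h2 := τ.injective h1
  simp only [AlgHom.coe_pow, FiniteField.coe_frobeniusAlgHom, pow_iterate, ZMod.card]
  exact h2

lemma rows {ι : Type} [Fintype ι] [DecidableEq ι] (e : Module.Basis ι (ZMod p) F) :
    LinearIndependent k fun (j : Fin (Module.finrank (ZMod p) F)) (a : ι) =>
      τ (e a) ^ p ^ (j : ℕ) := by
  have h1 := (linearIndependent_algHom_toLinearMap (ZMod p) F k).comp _ (emb_inj (p := p) τ)
  have h2 := h1.map' (e.constr k).symm.toLinearMap (LinearEquiv.ker _)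
  exact h2

lemma inj (z : k ⊗[ZMod p] F)
    (hz : ∀ j : Fin (Module.finrank (ZMod p) F), evj (p := p) τ j z = 0) : z = 0 := by
  classical
  let e := Module.finBasis (ZMod p) F
  have h1 := rows (p := p) τ e
  have h2 : IsUnit (Matrix.of fun (j : Fin (Module.finrank (ZMod p) F))
      (a : Fin (Module.finrank (ZMod p) F)) => τ (e a) ^ p ^ (j : ℕ)) :=
    Matrix.linearIndependent_rows_iff_isUnit.1 h1
  have h3 := Matrix.mulVec_injective_iff_isUnit.2 h2
  have h4 : (fun i => (eb e k).repr z i) = 0 := by
    apply h3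
    rw [Matrix.mulVec_zero]
    funext j
    have h5 := hz j
    rw [← vec_repr e z, MP7fS.vec, map_sum] at h5
    rw [Pi.zero_apply, ← h5, Matrix.mulVec, dotProduct]
    refine Finset.sum_congr rfl fun a _ => ?_
    rw [eb_apply, TensorProduct.smul_tmul', smul_eq_mul, mul_one, evj_tmul, Matrix.of_apply,
      mul_comm]
  rw [← vec_repr e z, h4, MP7fS.vec]
  simp

end EvjM

open EvjM in
theorem tyEvj : EvjStmt := by
  intro p _ F _ _ _ k _ _ _ τ
  have add_pow : ∀ (m : ℕ) (x y : k), (x + y) ^ p ^ m = x ^ p ^ m + y ^ p ^ m :=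
    fun m x y => add_pow_char_pow x y p m
  have h5 : Function.Bijective (fun (z : k ⊗[ZMod p] F) (j : Fin (Module.finrank (ZMod p) F)) =>
      evj (p := p) τ j z) := by
    let G : k ⊗[ZMod p] F →ₗ[k] (Fin (Module.finrank (ZMod p) F) → k) :=
      LinearMap.pi fun j => (evja (p := p) τ j).toLinearMap
    have hG : Function.Injective G := by
      rw [injective_iff_map_eq_zero]
      intro z hz
      exact inj τ z fun j => congrFun hz j
    have hd : Module.finrank k (k ⊗[ZMod p] F) =
        Module.finrank k (Fin (Module.finrank (ZMod p) F) → k) := by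
      rw [Module.finrank_baseChange, Module.finrank_fin_fun]
    exact ⟨hG, (LinearMap.injective_iff_surjective_of_finrank_eq_finrank hd).1 hG⟩
  refine ⟨?_, ?_, ?_, ?_, h5⟩
  · intro j z
    induction z using TensorProduct.induction_on with
    | zero => rw [map_zero, map_zero]
    | add x y hx hy => rw [map_add, map_add, hx, hy]
    | tmul a c =>
      rw [evj_tmul, evj_tmul, add_comm j, pow_add, pow_mul, ← map_pow, pow_card_pow]
  · intro m j z
    induction z using TensorProduct.induction_on with
    | zero => rw [map_zero, map_zero, map_zero, zero_pow (pow_ne_zero _ (Fact.out (p := p.Prime)).ne_zero)]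
    | add x y hx hy => rw [map_add, map_add, hx, hy, map_add, add_pow]
    | tmul a c =>
      rw [tmap_tmul, evj_tmul, evj_tmul, iterateFrobenius_def, mul_pow, pow_add, pow_mul]
      rfl
  · intro j c
    rw [evj_tmul, one_mul]
  · intro s e hs j z
    induction z using TensorProduct.induction_on with
    | zero => rw [map_zero, map_zero, map_zero]
    | add x y hx hy => rw [map_add, map_add, hx, hy, map_add]
    | tmul a c =>
      rw [tmap_tmul, evj_tmul, evj_tmul, hs, map_pow, ← pow_mul, ← pow_add, add_comm e]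
      rfl

end MP7Z
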