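import Pool.Agent.Lib.MP_7f581e_Z.Types.SpecA

/-!
# Types: the components give a bijection
-/

set_option autoImplicit false
set_option linter.unusedSectionVars false

namespace MP7Z

open TensorProduct MP7fS MP7fU Matrix

section THb

variable {p : ℕ} [Fact p.Prime] {ι l F : Type} [Fintype ι] [DecidableEq ι] [Fintype l]
  [DecidableEq l] [Field F] [Algebra (ZMod p) F]

/-- The family with one entry `c`. -/
def thbK (i : ι) (a b : l) : F →ₗ[ZMod p] (ι → Matrix l l F) :=
  (LinearMap.single (ZMod p) (fun _ : ι => Matrix l l F) i).comp
    (Matrix.singleLinearMap (ZMod p) a b)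

theorem thbK_apply (i : ι) (a b : l) (c : F) :
    thbK (p := p) i a b c = Pi.single i (Matrix.single a b c) := rfl

/-- The family with one entry `t`, in `R ⊗ B`. -/
theorem thb_TH (R : Type) [CommRing R] [Algebra (ZMod p) R] (i : ι) (a b : l)
    (t : R ⊗[ZMod p] F) :
    TH (p := p) (ι := ι) (l := l) R (LinearMap.lTensor R (thbK (p := p) i a b) t) =
      Pi.single i (Matrix.single a b t) := by
  induction t using TensorProduct.induction_on with
  | zero =>
    rw [map_zero, map_zero, Matrix.single_zero, Pi.single_zero]
  | add x y hx hy =>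
    rw [map_add, map_add, hx, hy, ← Pi.single_add, ← Matrix.single_add]
  | tmul r c =>
    rw [LinearMap.lTensor_tmul, TH_tmul, thbK_apply]
    funext i'
    by_cases hi : i' = i
    · subst hi
      rw [Pi.single_eq_same, Pi.single_eq_same]
      ext a' b'
      rw [Matrix.map_apply, Matrix.single_apply, Matrix.single_apply]
      split_ifs with h
      · rfl
      · exact TensorProduct.tmul_zero _ _
    · rw [Pi.single_eq_of_ne hi, Pi.single_eq_of_ne hi]
      ext a' b'
      exact TensorProduct.tmul_zero _ _

/-- A family of matrices is the sum of its entries. -/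
theorem thb_sum {T : Type} [AddCommMonoid T] (w : ι → Matrix l l T) :
    ∑ i, ∑ a, ∑ b, (Pi.single i (Matrix.single a b (w i a b)) : ι → Matrix l l T) = w := by
  have h1 : ∀ i, ∑ a, ∑ b, (Pi.single i (Matrix.single a b (w i a b)) : ι → Matrix l l T) =
      Pi.single i (w i) := by
    intro i
    funext i'
    by_cases hi : i' = i
    · subst hi
      rw [Pi.single_eq_same, Finset.sum_apply]
      conv_rhs => rw [Matrix.matrix_eq_sum_single (w i')]
      refine Finset.sum_congr rfl fun a _ => ?_
      rw [Finset.sum_apply]
      refine Finset.sum_congr rfl fun b _ => ?_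
      rw [Pi.single_eq_same]
    · rw [Pi.single_eq_of_ne hi, Finset.sum_apply]
      refine Finset.sum_eq_zero fun a _ => ?_
      rw [Finset.sum_apply]
      refine Finset.sum_eq_zero fun b _ => ?_
      rw [Pi.single_eq_of_ne hi]
  rw [Finset.sum_congr rfl (fun i _ => h1 i)]
  exact Finset.univ_sum_single w

end THb

theorem tyTHb : THbStmt := by
  intro p _ ι l F _ _ _ _ _ _ R _ _
  classical
  have := Fintype.ofFinite ι
  refine ⟨?_, ?_⟩
  · refine Function.LeftInverse.injective (g := fun w : ι → Matrix l l (R ⊗[ZMod p] F) =>
      ∑ i, ∑ a, ∑ b, LinearMap.lTensor R (thbK (p := p) i a b) (w i a b)) ?_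
    intro x
    induction x using TensorProduct.induction_on with
    | zero =>
      rw [map_zero]
      refine Finset.sum_eq_zero fun i _ => Finset.sum_eq_zero fun a _ =>
        Finset.sum_eq_zero fun b _ => ?_
      exact map_zero _
    | add x y hx hy =>
      conv_rhs => rw [← hx, ← hy]
      rw [map_add, ← Finset.sum_add_distrib]
      refine Finset.sum_congr rfl fun i _ => ?_
      rw [← Finset.sum_add_distrib]
      refine Finset.sum_congr rfl fun a _ => ?_
      rw [← Finset.sum_add_distrib]
      refine Finset.sum_congr rfl fun b _ => ?_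
      exact map_add _ _ _
    | tmul r z =>
      conv_rhs => rw [← thb_sum z]
      rw [TH_tmul, TensorProduct.tmul_sum]
      refine Finset.sum_congr rfl fun i _ => ?_
      rw [TensorProduct.tmul_sum]
      refine Finset.sum_congr rfl fun a _ => ?_
      rw [TensorProduct.tmul_sum]
      refine Finset.sum_congr rfl fun b _ => ?_
      rfl
  · intro w
    refine ⟨∑ i, ∑ a, ∑ b, LinearMap.lTensor R (thbK (p := p) i a b) (w i a b), ?_⟩
    rw [map_sum]
    conv_rhs => rw [← thb_sum w]
    refine Finset.sum_congr rfl fun i _ => ?_
    rw [map_sum]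
    refine Finset.sum_congr rfl fun a _ => ?_
    rw [map_sum]
    refine Finset.sum_congr rfl fun b _ => ?_
    exact thb_TH R i a b (w i a b)

end MP7Z
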