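import Pool.Agent.Lib.MP_7f581e_Z.Types.Defs

/-!
# Step Lie, types, part A: matrices and type II

Each `def XStmt : Prop` is one Lean task: file `Types/X.lean`, import this file (and files named in
the task), `theorem tyX : XStmt`; statements listed under *Uses* are hypotheses `(h : YStmt)`.

Notation: `φ = ` Frobenius of the field `k` (`frobenius k p`), `F = fru 1 k = φ ⊗ 1`,
`d = finrank (ZMod p) F`, `|F| = p ^ d`; `B = ι → Matrix l l F`; for `u ∈ (k ⊗ B)ˣ`, `cmp k i u` is the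
`i`-th component in `GL_l(k ⊗ F)` and `co τ i j u` its image in `GL_l(k)` under
`evj τ j : a ⊗ c ↦ a τ(c) ^ (p ^ j)`.
-/

set_option autoImplicit false

namespace MP7Z

open TensorProduct MP7fS MP7fU Matrix

/-- **Fn.** Functoriality of `SL`, `GL`, `Sp`.

*Proof.*  `SL`: `det (f u) = f (det u)`; if `f_i (det u) = 1 = f_i 1` for all `i` then `det u = 1`.  `GL`:
trivial.  `Sp`: `symplecticGroup l T` is `{A | A * J * Aᵀ = J}` and ring homomorphisms map `J` to `J`; if all
`f_i (A J Aᵀ) = f_i J` entrywise then `A J Aᵀ = J` (apply the joint injectivity entrywise). -/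
def FnStmt : Prop :=
  ∀ (l : Type) [Fintype l] [DecidableEq l],
    SFunc (SLf l) ∧ SFunc (GLf l) ∧ SFunc (Spf l)

/-- **Sem1.** A nonzero vector fixed by a semilinear map.

*Proof.*  `q = p ^ m`, `Φ(c v) = c^q Φ(v)`.  (0) `Φ` maps linearly independent families to linearly
independent families: extend `u_1..u_r` to a basis `u_1..u_n` of `V`; `Φ(V)` is contained in the span of
`Φ u_1, .., Φ u_n`, so (hypothesis) these `n` vectors span `V` and are a basis.  (1) Choose `v ≠ 0` and the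
least `r ≥ 1` such that `Φ^r v` is in the span of `v, .., Φ^{r-1} v`; these `r` vectors are linearly
independent (by minimality, induction), `Φ^r v = Σ_{i<r} a_i Φ^i v`, and `Φ^r v ≠ 0` by (0), so some
`a_i ≠ 0`.  (2) `P(T) = Σ_{j=0}^{r-1} a_{r-1-j}^{q^j} T^{q^{j+1}} - T ∈ k[T]`; its derivative is `-1`, so `P` is
separable; its degree is at least `q ≥ 2` (the monomials `T^{q^{j+1}}`, `j = 0, 1, ..` and `T` are different
and some coefficient is not zero).  `P = T P₁`, `P₁` is separable (divides `P`), not constant, `P₁(0) = -1`.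
So `P₁` has a root `t ∈ k` (`IsSepClosed.exists_root`), `t ≠ 0`, `P(t) = 0`.  (3) Put
`c_i = Σ_{j=0}^{i} a_{i-j}^{q^j} t^{q^{j+1}}`, `i < r`: then `c_0 = a_0 t^q`, `c_i = c_{i-1}^q + a_i t^q`, and
`c_{r-1} = P(t) + t = t ≠ 0`.  `w = Σ_{i<r} c_i Φ^i v ≠ 0` (independence) and
`Φ w = Σ c_i^q Φ^{i+1} v = Σ_{1 ≤ i < r} c_{i-1}^q Φ^i v + t^q Σ_i a_i Φ^i v = Σ_i c_i Φ^i v = w`. -/
def Sem1Stmt : Prop :=
  ∀ (p : ℕ) [Fact p.Prime] (k : Type) [Field k] [CharP k p] [IsSepClosed k] (m : ℕ), 0 < m →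
    ∀ (V : Type) [AddCommGroup V] [Module k V] [FiniteDimensional k V] [Nontrivial V]
      (Φ : V →ₛₗ[iterateFrobenius k p m] V), Submodule.span k (Set.range Φ) = ⊤ →
      ∃ v : V, v ≠ 0 ∧ Φ v = v

/-- **Sem2.** The fixed vectors span.

*Proof.*  Let `V₀` be the span of the vectors `w` with `Φ w = w`; `Φ(V₀) ⊆ V₀`.  Suppose `V₀ ≠ V`.  `Φ`
induces a semilinear map `Φ'` of `V / V₀ ≠ 0` (`Submodule.mapQ` for semilinear maps), whose image spans.
By *Sem1* there is `v ∈ V`, `v ∉ V₀`, with `Φ v - v ∈ V₀`: `Φ v = v + Σ_j b_j w_j`, a finite sum with fixed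
vectors `w_j`.  Choose `c_j ∈ k` with `c_j^q - c_j + b_j = 0` (the polynomial `T^q - T + b_j` has
derivative `-1`, so it is separable, of degree `q ≥ 2`: `IsSepClosed.exists_root`).  Then
`v' = v + Σ c_j w_j` is fixed and not in `V₀`, contradiction.
*Uses*: Sem1. -/
def Sem2Stmt : Prop :=
  ∀ (p : ℕ) [Fact p.Prime] (k : Type) [Field k] [CharP k p] [IsSepClosed k] (m : ℕ), 0 < m →
    ∀ (V : Type) [AddCommGroup V] [Module k V] [FiniteDimensional k V]
      (Φ : V →ₛₗ[iterateFrobenius k p m] V), Submodule.span k (Set.range Φ) = ⊤ →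
      Submodule.span k {v : V | Φ v = v} = ⊤

/-- **LGL.** Lang's theorem for `GL`.

*Proof.*  `V = l → k`, `Φ(v) = g⁻¹ (φ_q ∘ v)`, `φ_q = iterateFrobenius k p m`.  `Φ` is semilinear, and
`Φ(e_i)` are the columns of `g⁻¹`, which span.  By *Sem2* the fixed vectors span `V`, so there is a basis of
`V` indexed by `l` consisting of fixed vectors `y_i`: `φ_q ∘ y_i = g y_i` (a spanning set contains a basis,
`Module.Basis.ofSpan`/`exists_linearIndependent`, reindexed by `l` because the dimension is `|l|`).  Let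
`y` be the matrix with columns `y_i`; it is invertible, `y.map φ_q = g y`.
*Uses*: Sem2. -/
def LGLStmt : Prop :=
  ∀ (p : ℕ) [Fact p.Prime] (l : Type) [Fintype l] [DecidableEq l], LangS p (GLf l)

/-- **LSL.** Lang's theorem for `SL`.

*Proof.*  `y ∈ GL_l(k)` with `y^{(q)} = g y` (*LGL*); `δ = det y` satisfies `δ^q = det g · δ = δ`.  If `l` is
empty everything is trivial.  Otherwise fix `i₀ : l` and let `D` be the diagonal matrix with entry `δ⁻¹`
at `i₀` and `1` elsewhere: `D^{(q)} = D`.  `y D`: `(y D)^{(q)} = g y D`, `det (y D) = 1`.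
*Uses*: LGL. -/
def LSLStmt : Prop :=
  ∀ (p : ℕ) [Fact p.Prime] (l : Type) [Fintype l] [DecidableEq l], LangS p (GLf l) →
    LangS p (SLf l)

/-- **GSL.** Generation of `SL_n` by strictly upper and strictly lower elementary matrices.

*Proof.*  Library `MP_7f581e_ntG/Gen`: `transvection_induction` (or Mathlib): for `n ≥ 2` every element of
`SL_n(k)` is a product of transvections `1 + t E_{ij}`, `i ≠ j`.  `(t E_{ij})^2 = 0`, and `t E_{ij}` is in `ZN` of
`NSL p n false` if `i < j`, of `NSL p n true` if `j < i`.  An element of `SLf (Fin n) k ≤ GL` is the image of an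
element of `SpecialLinearGroup`. -/
def GSLStmt : Prop :=
  ∀ (p : ℕ) [Fact p.Prime] (n : ℕ), 2 ≤ n → GenS p (SLf (Fin n)) (NSL p n)

/-- **Sq2.** For `n = 2` the strictly triangular matrices have square zero.

*Proof.*  `z ∈ ZN (NSL p 2 false) T` is `z = t E_{01}` (span induction; `i < j` in `Fin 2` forces `(0,1)`), so
`z z = 0`, `det (1 + z) = 1` (`Matrix.det_fin_two`).  Same for `true` and `E_{10}`. -/
def Sq2Stmt : Prop :=
  ∀ (p : ℕ) [Fact p.Prime] (b : Bool), SqZ p (SLf (Fin 2)) (NSL p 2 b)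

/-- **THb.** The components give a bijection.

*Proof.*  Inverse map: `Σ_{i,a,b} κ_{iab}(w i a b)`, where `κ_{iab} : R ⊗ F → R ⊗ (ι → Matrix l l F)` is
`id ⊗ (c ↦ Pi.single i (Matrix.single a b c))` (`LinearMap.lTensor`).  Both compositions are the identity:
check on pure tensors (`TH_tmul`), `r ⊗ z ↦ Σ r ⊗ Pi.single i (single a b (z i a b)) = r ⊗ z`. -/
def THbStmt : Prop :=
  ∀ (p : ℕ) [Fact p.Prime] (ι l F : Type) [Finite ι] [Fintype l] [DecidableEq l] [Field F]
    [Finite F] [Algebra (ZMod p) F] (R : Type) [CommRing R] [Algebra (ZMod p) R],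
    Function.Bijective (TH (p := p) (ι := ι) (l := l) (F := F) R)

/-- **Evj.** The homomorphisms `evj τ j : k ⊗ F → k`.

*Proof.*  All statements except the last are checked on pure tensors `a ⊗ c`: (1) `c ^ (p ^ d) = c` for
`c ∈ F` (`FiniteField.pow_card`, `Nat.card F = p ^ d`, `Module.card_eq_pow_finrank`), so
`τ(c)^{p^{j+d}} = τ(c)^{p^j}`.  (2) `(a ⊗ c)` is mapped to `a^{p^m} ⊗ c`, and `a^{p^m} τ(c)^{p^{j+m}} =
(a τ(c)^{p^j})^{p^m}`; both sides are additive in the argument (`add_pow_char_pow`).  (3) clear.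
(4) `s(c) = c^{p^e}`.  (5) Bijectivity: `z ↦ (evj τ j z)_{j<d}` is `k`-linear between spaces of dimension
`d`.  Injective: let `z = Σ_a r_a ⊗ e_a` for a basis `e_a` of `F` over `ZMod p`, with
`Σ_a r_a τ(e_a)^{p^j} = 0` for `j < d`.  The `d` maps `c ↦ τ(c)^{p^j}`, `j < d`, from `F` to `k` are different
(if `c^{p^i} = c^{p^j}` for all `c ∈ F`, `i < j < d`, then `c^{p^{j-i}} = c` for all `c`, and the polynomial
`T^{p^{j-i}} - T` would have `p^d` roots), so linearly independent over `k` (Dedekind,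
`linearIndependent_monoidHom`).  So the rows of the square matrix `(τ(e_a)^{p^j})_{j,a}` are linearly
independent (a relation between the rows is a relation between the maps, by linearity over `ZMod p`), it
is invertible and `r = 0`. -/
def EvjStmt : Prop :=
  ∀ (p : ℕ) [Fact p.Prime] (F : Type) [Field F] [Finite F] [Algebra (ZMod p) F]
    (k : Type) [Field k] [Algebra (ZMod p) k] [CharP k p] (τ : F →+* k),
    (∀ (j : ℕ) (z : k ⊗[ZMod p] F), evj (p := p) τ (j + Module.finrank (ZMod p) F) z =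
      evj τ j z) ∧
    (∀ (m j : ℕ) (z : k ⊗[ZMod p] F),
      evj (p := p) τ (j + m) (tmap (iterateFrobenius k p m) (RingHom.id F) z) =
        (evj τ j z) ^ p ^ m) ∧
    (∀ (j : ℕ) (c : F), evj (p := p) τ j (1 ⊗ₜ c) = τ c ^ p ^ j) ∧
    (∀ (s : F →+* F) (e : ℕ), (∀ c, s c = c ^ p ^ e) → ∀ (j : ℕ) (z : k ⊗[ZMod p] F),
      evj (p := p) τ j (tmap (RingHom.id k) s z) = evj τ (j + e) z) ∧
    Function.Bijective (fun (z : k ⊗[ZMod p] F) (j : Fin (Module.finrank (ZMod p) F)) =>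
      evj (p := p) τ j z)

/-- **Co.** Coordinates of the units of `k ⊗ B`, `τ : F → k`.

*Proof.*  (1), (2), (4): from *Evj* (1), (2), (3) applied to the entries (`cmp_tu` for (2);
`cmp k i (cstu b)` has the entries `1 ⊗ (b i a c)`, `TH_tmul`).  (3) existence: the ring homomorphism
`(evj τ j)_{j<d} : k ⊗ F → (Fin d → k)` is bijective (*Evj* (5)), so it induces an isomorphism
`GL_l(k ⊗ F) ≃ GL_l(Fin d → k) ≃ (Fin d → GL_l(k))`; and `TH k` is a bijective ring homomorphism (*THb*), so it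
induces an isomorphism of unit groups `(k ⊗ B)ˣ ≃ (ι → GL_l(k ⊗ F))`.  Uniqueness: the same.  (5) `SFunc.inj`
with the family `evj τ j`, `j : Fin d` (jointly injective by *Evj* (5)), and `SFunc.map`.  (6): the entries of
`TH k z i` are determined by the `evj τ j`.
*Uses*: THb, Evj. -/
def CoStmt : Prop :=
  ∀ (p : ℕ) [Fact p.Prime] (ι l F : Type) [Finite ι] [Fintype l] [DecidableEq l] [Field F]
    [Finite F] [Algebra (ZMod p) F] (k : Type) [Field k] [Algebra (ZMod p) k] [CharP k p]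
    (τ : F →+* k),
    (∀ (u : (k ⊗[ZMod p] (ι → Matrix l l F))ˣ) (i : ι) (j : ℕ),
      co (p := p) τ i (j + Module.finrank (ZMod p) F) u = co τ i j u) ∧
    (∀ (u : (k ⊗[ZMod p] (ι → Matrix l l F))ˣ) (i : ι) (j m : ℕ),
      co (p := p) τ i (j + m) (fru m k u) =
        GeneralLinearGroup.map (iterateFrobenius k p m) (co τ i j u)) ∧
    (∀ w : ι → Fin (Module.finrank (ZMod p) F) → GL l k,
      ∃! u : (k ⊗[ZMod p] (ι → Matrix l l F))ˣ, ∀ i (j : Fin (Module.finrank (ZMod p) F)),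
        co (p := p) τ i j u = w i j) ∧
    (∀ (b : (ι → Matrix l l F)ˣ) (i : ι) (j : ℕ),
      ((co (p := p) τ i j (cstu k b) : GL l k) : Matrix l l k) =
        ((b : ι → Matrix l l F) i).map (fun c => τ c ^ p ^ j)) ∧
    (∀ (S : SFam l) (hS : SFunc S) (u : (k ⊗[ZMod p] (ι → Matrix l l F))ˣ),
      u ∈ (GII p ι l F S hS).H k ↔
        ∀ i (j : Fin (Module.finrank (ZMod p) F)), co (p := p) τ i j u ∈ S k) ∧
    (∀ z z' : k ⊗[ZMod p] (ι → Matrix l l F),
      (∀ i (j : Fin (Module.finrank (ZMod p) F)), (TH (p := p) k z i).map (evj (p := p) τ j) =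
        (TH (p := p) k z' i).map (evj (p := p) τ j)) → z = z')

/-- **L1II.** Lang's theorem for type II.

*Proof.*  `k` separably closed; `F` is finite, so separable over `ZMod p`: there is `τ : F →ₐ[ZMod p] k`
(`IsSepClosed.lift`).  Let `g ∈ H(k)`, `g_{i,j} = co τ i j g ∈ S(k)` (for all `j : ℕ`, by `SFunc.map`).  Fix `i`.
Put `h_0 = 1`, `h_{j+1} = g_{i,j+1}⁻¹ φ(h_j)` in `S(k)` (`SFunc.map` for the Frobenius).  By `LangS` for
`m = d = finrank F > 0` and the element `h_d⁻¹` there is `y_0 ∈ S(k)` with `φ^d(y_0) = h_d⁻¹ y_0`, that is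
`h_d φ^d(y_0) = y_0`.  Put `y_j = h_j φ^j(y_0)`: `y_{j+1} = g_{i,j+1}⁻¹ φ(y_j)`, `y_d = y_0`.  By *Co* (3) there is
`y` with `co τ i j y = y_{i,j}` for all `i` and `j < d`; `y ∈ H(k)` by *Co* (5).  `F y = g y`: by uniqueness
in *Co* (3) it is enough to compare `co τ i j'` for `j' = 1, .., d` (`j' = d` has the same value as `0` by
*Co* (1)): `co τ i (j+1) (F y) = φ(co τ i j y) = φ(y_j) = g_{i,j+1} y_{j+1}`, and for `j + 1 < d` this is
`co τ i (j+1) (g y)`; for `j + 1 = d` it is `g_{i,d} y_0 = co τ i d g · co τ i d y`.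
*Uses*: Co. -/
def L1IIStmt : Prop :=
  ∀ (p : ℕ) [Fact p.Prime] (ι l F : Type) [Finite ι] [Fintype l] [DecidableEq l] [Field F]
    [Finite F] [Algebra (ZMod p) F] (S : SFam l) (hS : SFunc S), LangS p S →
    (GII p ι l F S hS).Lang1

/-- **LMII.** Lang's theorem for the powers of the Frobenius, type II, `m₀ = d`.

*Proof.*  `τ : F → k` as in *L1II*.  Let `d ∣ m`, `c ∈ pts`, `c' = cstu k c ∈ H(k)` (`𝒢.map` for
`algebraMap (ZMod p) k`).  For all `i`, `j < d` take `x ∈ S(k)` with `φ^m(x) = (co τ i j c')⁻¹ x` (`LangS`), and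
`y_{i,j} = x⁻¹`: `φ^m(y_{i,j}) = y_{i,j} co τ i j c'`.  Let `y` have these coordinates (*Co* (3)), `y ∈ H(k)`.
`co τ i j (fru m y) = φ^m(co τ i j y)` because `co τ i (j + m) = co τ i j` for `d ∣ m` (*Co* (1), (2)).  So
`fru m k y = y c'` by uniqueness.
*Uses*: Co. -/
def LMIIStmt : Prop :=
  ∀ (p : ℕ) [Fact p.Prime] (ι l F : Type) [Finite ι] [Fintype l] [DecidableEq l] [Field F]
    [Finite F] [Algebra (ZMod p) F] (S : SFam l) (hS : SFunc S), LangS p S →
    (GII p ι l F S hS).LangM (Module.finrank (ZMod p) F)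

/-- **GII.** Generation for type II, `m₀ = d`.

*Proof.*  `τ : F → k`, `d ∣ m`, `x ∈ H(k)`, `fru m k x = x`.  (1) Let `k_m = {c ∈ k : c ^ (p ^ m) = c}`, a
subfield (`Algebra (ZMod p) k_m`).  The entries of `x_{i,j} = co τ i j x` are in `k_m` (*Co* (1), (2)), so `x_{i,j}`
comes from an element of `S(k_m)` (`SFunc.inj` for `k_m → k`), which is by `GenS` a product of elements and
inverses of elements `w` with `(w - 1)^2 = 0`, `w - 1 ∈ ZN (N b) k_m`.  So `x_{i,j}` is in the subgroup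
generated by the `w ∈ GL_l(k)` with `w^{(p^m)} = w`, `(w-1)^2 = 0`, `w - 1 ∈ ZN (N b) k` for some `b`.
(2) For `i₀ : ι`, `j₀ < d` let `e_{i₀j₀} : GL_l(k) →* (k ⊗ B)ˣ` be the homomorphism with
`co τ i j (e_{i₀j₀} w) = w` if `(i,j) = (i₀,j₀)` and `1` otherwise (*Co* (3)).  `x` is the product of the
`e_{i j}(x_{i,j})`; more precisely a subgroup containing all `e_{ij}(x_{i,j})` contains `x`
(`Subgroup.pi_mem_of_mulSingle_mem` for the group `ι × Fin d → GL_l(k)`, isomorphic to `(k ⊗ B)ˣ`).  So it is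
enough that `u = e_{i₀j₀}(w)` is one of the generators in `Gen` for every `w` as in (1):
`fru m u = u` and `(u - 1)^2 = 0` by coordinates (*Co* (1), (2), (6)).  (3) `u - 1 ∈ (ZII b).baseChange k`: let
`ε ∈ k ⊗ F` with `evj τ j ε = 1` for `j = j₀`, `0` for the other `j < d` (*Evj* (5)); `ε = Σ_a r_a ⊗ c_a`.
For `M ∈ N b` (over `ZMod p`, mapped to `F`) and `t ∈ k` the element
`Σ_a (t r_a) ⊗ Pi.single i₀ (c_a • M)` is in `(ZII b).baseChange k` (`Submodule.tmul_mem_baseChange_of_mem`,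
`mem_ZII`) and its image under `(TH · i).map (evj τ j)` is `t M` for `(i,j) = (i₀,j₀)` and `0` otherwise.
`w - 1 = Σ t_M M`, so `u - 1` is the sum of these elements by *Co* (6).
*Uses*: Evj, Co. -/
def GIIStmt : Prop :=
  ∀ (p : ℕ) [Fact p.Prime] (ι l F : Type) [Finite ι] [Fintype l] [DecidableEq l] [Field F]
    [Finite F] [Algebra (ZMod p) F] (S : SFam l) (hS : SFunc S)
    (N : Bool → Set (Matrix l l (ZMod p))), GenS p S N →
    (GII p ι l F S hS).Gen (Module.finrank (ZMod p) F) (ZII p ι l F N)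

/-- **ZTH.** Components of elements of `R ⊗ ZII`.

*Proof.*  `Submodule.baseChange` is spanned by the `1 ⊗ z`, `z ∈ ZII b` (`Submodule.span_induction`, or
`TensorProduct` induction on `Submodule.baseChange_eq_span`); `TH R (r ⊗ z) i` has the entries `r ⊗ (z i a c)`;
`z i ∈ ZN (N b) F`, so `z i = Σ t_M M`, and `TH R (r ⊗ z) i = Σ (r ⊗ t_M) • M`. -/
def ZTHStmt : Prop :=
  ∀ (p : ℕ) [Fact p.Prime] (ι l F : Type) [Finite ι] [Fintype l] [DecidableEq l] [Field F]
    [Finite F] [Algebra (ZMod p) F] (N : Bool → Set (Matrix l l (ZMod p))) (b : Bool) (R : Type)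
    [CommRing R] [Algebra (ZMod p) R] (z : R ⊗[ZMod p] (ι → Matrix l l F)),
    z ∈ (ZII p ι l F N b).baseChange R → ∀ i, TH (p := p) R z i ∈ ZN (N b) (R ⊗[ZMod p] F)

/-- **PII.** Parametrization for type II.

*Proof.*  `z ∈ (ZII b).baseChange R`: by *ZTH* and `SqZ` all components have square zero, so `z z = 0` (*THb*).
`g = 1 + z` is a unit with inverse `1 - z`.  Its components are `1 + TH R z i`, in `S(R ⊗ F)` by `SqZ`.
Invariance: `tmap (a q) (ρ q) (1 + z) = 1 + z`.  Last claim: `tmap π id (1 + z) = 1 + tmap π id z`.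
*Uses*: THb, ZTH. -/
def PIIStmt : Prop :=
  ∀ (p : ℕ) [Fact p.Prime] (ι l F : Type) [Finite ι] [Fintype l] [DecidableEq l] [Field F]
    [Finite F] [Algebra (ZMod p) F] (S : SFam l) (hS : SFunc S)
    (N : Bool → Set (Matrix l l (ZMod p))) (b : Bool), SqZ p S (N b) →
    ∀ (Q : Type) [Group Q] [Fintype Q] (ρ : Q →* ((ι → Matrix l l F) ≃+* (ι → Matrix l l F))),
      (GII p ι l F S hS).Par ρ (ZII p ι l F N b)

/-- **FTH.** Components of the image under an automorphism of the given shape.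

*Proof.*  Induction on `x`; for `x = r ⊗ z` both sides are `(1 ⊗ t_i)(r ⊗ σ_i(z i))(1 ⊗ t_i⁻¹)`, entrywise
(`TH_tmul`); both sides are additive. -/
def FTHStmt : Prop :=
  ∀ (p : ℕ) [Fact p.Prime] (ι l F : Type) [Finite ι] [Fintype l] [DecidableEq l] [Field F]
    [Finite F] [Algebra (ZMod p) F] (R : (ι → Matrix l l F) ≃+* (ι → Matrix l l F))
    (π : Equiv.Perm ι) (t : ι → GL l F) (σ : ι → (F ≃+* F)),
    (∀ z i, R z (π i) = (t i : Matrix l l F) * (z i).map (σ i) *
      (((t i)⁻¹ : GL l F) : Matrix l l F)) →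
    ∀ (A A' : Type) [CommRing A] [Algebra (ZMod p) A] [CommRing A'] [Algebra (ZMod p) A']
      (f : A →+* A') (x : A ⊗[ZMod p] (ι → Matrix l l F)) (i : ι),
      TH (p := p) A' (tmap f (R : (ι → Matrix l l F) →+* (ι → Matrix l l F)) x) (π i) =
        ((t i : Matrix l l F).map
            (Algebra.TensorProduct.includeRight : F →ₐ[ZMod p] A' ⊗[ZMod p] F)) *
          (TH (p := p) A x i).map (tmap (p := p) f (σ i : F →+* F)) *
          (((t i)⁻¹ : GL l F) : Matrix l l F).map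
            (Algebra.TensorProduct.includeRight : F →ₐ[ZMod p] A' ⊗[ZMod p] F)

/-- **StII.** Stability for type II.

*Proof.*  Let `x ∈ H(R)`, `ρ q` of the shape `(π, t, σ)`, `t i ∈ D`.  By *FTH* the `π i`-th component of
`tu id (ρ q) x` is `T v T⁻¹`, `T = GL.map (F → R ⊗ F) (t i)`, `v = GL.map (tmap id σ_i) (cmp R i x) ∈ S(R ⊗ F)`
(`SFunc.map`); use the hypothesis on `D` for `f = includeRight`.
*Uses*: FTH. -/
def StIIStmt : Prop :=
  ∀ (p : ℕ) [Fact p.Prime] (ι l F : Type) [Finite ι] [Fintype l] [DecidableEq l] [Field F]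
    [Finite F] [Algebra (ZMod p) F] (S : SFam l) (hS : SFunc S) (D : Set (GL l F)),
    (∀ t ∈ D, ∀ (T : Type) [CommRing T] (f : F →+* T), ∀ u ∈ S T,
      GeneralLinearGroup.map f t * u * (GeneralLinearGroup.map f t)⁻¹ ∈ S T) →
    ∀ (Q : Type) [Group Q] (ρ : Q →* ((ι → Matrix l l F) ≃+* (ι → Matrix l l F))),
      (∀ q, FormG D (ρ q)) → (GII p ι l F S hS).Stable ρ

/-- **ZSt.** Stability of the subspaces: diagonal conjugations preserve triangular matrices and
(for similitudes) the Siegel blocks.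

*Proof.*  (1) `ZN (NSL p n false) F` is the set of the strictly upper triangular matrices (combinations of
`E_{ij}`, `i < j`), `true`: strictly lower.  `t = diag(v)`, `t⁻¹ = diag(v⁻¹)` (all `v i ≠ 0`):
`(t M^σ t⁻¹)_{ab} = v_a σ(M_{ab}) v_b⁻¹`, zero where `M_{ab}` is zero.  (2) `ZN (NSp p l false) F` is the set of
the `(0 X; 0 0)` with `Xᵀ = X` (a symmetric matrix over `F` is a combination of the symmetric matrices
`E_{aa}` and `E_{ab} + E_{ba}` over the prime field); `t = diag(v, w)`, `v_i w_i = c`: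
`t (0 X; 0 0)^σ t⁻¹ = (0 Y; 0 0)`, `Y_{ab} = v_a σ(X_{ab}) w_b⁻¹ = v_a v_b σ(X_{ab}) / c`, symmetric; for `true`:
`w_a σ(X_{ab}) v_b⁻¹ = w_a w_b σ(X_{ab}) / c`.  (3) diagonal similitudes normalize `Sp(T)`:
`A J Aᵀ = c J` for `A = diag(v, w)` (with the images of `v, w, c` in `T`), so for `u ∈ Sp(T)`:
`(A u A⁻¹) J (A u A⁻¹)ᵀ = A u (c⁻¹ J) uᵀ Aᵀ = c⁻¹ A J Aᵀ = J`.  (4) `SL` is normal in `GL`. -/
def ZStStmt : Prop :=
  ∀ (p : ℕ) [Fact p.Prime] (F : Type) [Field F] [Finite F] [Algebra (ZMod p) F],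
    (∀ (ι : Type) [Finite ι] (n : ℕ) (b : Bool) (R : (ι → Matrix (Fin n) (Fin n) F) ≃+*
      (ι → Matrix (Fin n) (Fin n) F)), FormG (DG (Fin n) F) R →
        ∀ z ∈ ZII p ι (Fin n) F (NSL p n) b, R z ∈ ZII p ι (Fin n) F (NSL p n) b) ∧
    (∀ (ι l : Type) [Finite ι] [Fintype l] [DecidableEq l] (b : Bool)
      (R : (ι → Matrix (l ⊕ l) (l ⊕ l) F) ≃+* (ι → Matrix (l ⊕ l) (l ⊕ l) F)),
      FormG (DGSp l F) R →
        ∀ z ∈ ZII p ι (l ⊕ l) F (NSp p l) b, R z ∈ ZII p ι (l ⊕ l) F (NSp p l) b) ∧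
    (∀ (l : Type) [Fintype l] [DecidableEq l], ∀ t ∈ DGSp l F, ∀ (T : Type) [CommRing T]
      (f : F →+* T), ∀ u ∈ Spf l T,
        GeneralLinearGroup.map f t * u * (GeneralLinearGroup.map f t)⁻¹ ∈ Spf l T) ∧
    (∀ (l : Type) [Fintype l] [DecidableEq l] (t : GL l F) (T : Type) [CommRing T]
      (f : F →+* T), ∀ u ∈ SLf l T,
        GeneralLinearGroup.map f t * u * (GeneralLinearGroup.map f t)⁻¹ ∈ SLf l T)

/-- **PtII.** The points of type II.

*Proof.*  `b ∈ pts` iff `cstu (ZMod p) b ∈ H(ZMod p)` iff all `cmp (ZMod p) i (cstu b) ∈ S(ZMod p ⊗ F)`; this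
component is `GL.map f (b_i)`, `f = includeRight : F → ZMod p ⊗ F`, an injective ring homomorphism
(`SFunc.map` and `SFunc.inj`). -/
def PtIIStmt : Prop :=
  ∀ (p : ℕ) [Fact p.Prime] (ι l F : Type) [Finite ι] [Fintype l] [DecidableEq l] [Field F]
    [Finite F] [Algebra (ZMod p) F] (S : SFam l) (hS : SFunc S) (b : (ι → Matrix l l F)ˣ),
    b ∈ (GII p ι l F S hS).pts ↔
      ∀ i, (Units.map (Pi.evalRingHom (fun _ : ι => Matrix l l F) i :
        (ι → Matrix l l F) →* Matrix l l F) b : GL l F) ∈ S F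

end MP7Z
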