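import Pool.Agent.Lib.MP_7f581e_Z.Types.SpecA

/-! # Step Lie, types: components of the image under an automorphism of the given shape (FTH) -/

set_option autoImplicit false

namespace MP7Z

open TensorProduct MP7fS MP7fU Matrix

theorem fth_map_smul {p : ℕ} [Fact p.Prime] {l F : Type} [Fintype l] [DecidableEq l] [Field F]
    [Algebra (ZMod p) F] {A : Type} [CommRing A] [Algebra (ZMod p) A] (r : A) (M : Matrix l l F) :
    M.map (fun c => r ⊗ₜ[ZMod p] c) =
      r • M.map (Algebra.TensorProduct.includeRight : F →ₐ[ZMod p] A ⊗[ZMod p] F) := by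
  ext a b
  change r ⊗ₜ[ZMod p] (M a b) = r • ((1 : A) ⊗ₜ[ZMod p] (M a b))
  rw [smul_tmul', smul_eq_mul, mul_one]

theorem tyFTH : FTHStmt := by
  intro p _ ι l F _ _ _ _ _ _ R π t σ hR A A' _ _ _ _ f x i
  induction x using TensorProduct.induction_on with
  | zero =>
    rw [map_zero, map_zero, map_zero]
    change (0 : Matrix l l (A' ⊗[ZMod p] F)) = _ * (Matrix.map 0 _) * _
    rw [Matrix.map_zero _ (map_zero _), Matrix.mul_zero, Matrix.zero_mul]
  | add x y hx hy =>
    rw [map_add, map_add, map_add, Pi.add_apply, Pi.add_apply, hx, hy,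
      Matrix.map_add _ (map_add _), Matrix.mul_add, Matrix.add_mul]
  | tmul r z =>
    have h1 : tmap (p := p) f (R : (ι → Matrix l l F) →+* (ι → Matrix l l F)) (r ⊗ₜ z) =
        f r ⊗ₜ R z := rfl
    rw [h1, TH_tmul, TH_tmul]
    have h2 : ((z i).map (fun c => r ⊗ₜ[ZMod p] c)).map (tmap (p := p) f (σ i : F →+* F)) =
        ((z i).map (σ i)).map (fun c => f r ⊗ₜ[ZMod p] c) := rfl
    change (R z (π i)).map (fun c => f r ⊗ₜ[ZMod p] c) =
      _ * ((z i).map (fun c => r ⊗ₜ[ZMod p] c)).map (tmap (p := p) f (σ i : F →+* F)) * _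
    rw [h2, hR, fth_map_smul, fth_map_smul, Matrix.map_mul, Matrix.map_mul, Matrix.mul_smul,
      Matrix.smul_mul]

end MP7Z
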