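import Pool.Agent.Lib.MP_7f581e_Z.Types.SpecA

/-!
# Functoriality of the special linear, general linear and symplectic groups
-/

set_option autoImplicit false

namespace MP7Z

open TensorProduct MP7fS MP7fU Matrix

theorem Fn_coe_map {l : Type} [Fintype l] [DecidableEq l] {T T' : Type} [CommRing T]
    [CommRing T'] (f : T →+* T') (u : GL l T) :
    ((GeneralLinearGroup.map f u : GL l T') : Matrix l l T') = (u : Matrix l l T).map f := rfl

theorem Fn_det_map {l : Type} [Fintype l] [DecidableEq l] {T T' : Type} [CommRing T]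
    [CommRing T'] (f : T →+* T') (u : GL l T) :
    ((GeneralLinearGroup.map f u : GL l T') : Matrix l l T').det = f (u : Matrix l l T).det := by
  rw [Fn_coe_map, RingHom.map_det]
  rfl

theorem Fn_J_map (l : Type) [DecidableEq l] {T T' : Type} [CommRing T]
    [CommRing T'] (f : T →+* T') : (Matrix.J l T).map f = Matrix.J l T' := by
  ext a b
  rcases a with a | a <;> rcases b with b | b
  · simp [Matrix.J]
  · by_cases h : a = b
    · simp [Matrix.J, h]
    · simp [Matrix.J, h]
  · by_cases h : a = b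
    · simp [Matrix.J, h]
    · simp [Matrix.J, h]
  · simp [Matrix.J]

theorem Fn_sp_map {l : Type} [Fintype l] [DecidableEq l] {T T' : Type} [CommRing T]
    [CommRing T'] (f : T →+* T') (A : Matrix (l ⊕ l) (l ⊕ l) T) :
    A.map f * Matrix.J l T' * (A.map f)ᵀ = (A * Matrix.J l T * Aᵀ).map f := by
  rw [Matrix.map_mul, Matrix.map_mul, Fn_J_map, Matrix.transpose_map]

theorem tyFn : FnStmt := by
  intro l _ _
  refine ⟨⟨?_, ?_⟩, ⟨?_, ?_⟩, ⟨?_, ?_⟩⟩
  · intro T T' _ _ f u hu
    rw [mem_SLf] at hu ⊢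
    rw [Fn_det_map, hu, map_one]
  · intro T I T' _ _ f hf u hu
    rw [mem_SLf]
    refine hf _ _ fun i => ?_
    have h1 := hu i
    rw [mem_SLf, Fn_det_map] at h1
    rw [h1, map_one]
  · intro T T' _ _ f u _
    exact Subgroup.mem_top _
  · intro T I T' _ _ f _ u _
    exact Subgroup.mem_top _
  · intro T T' _ _ f u hu
    rw [mem_Spf, SymplecticGroup.mem_iff] at hu ⊢
    rw [Fn_coe_map, Fn_sp_map, hu, Fn_J_map]
  · intro T I T' _ _ f hf u hu
    rw [mem_Spf, SymplecticGroup.mem_iff]
    ext a b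
    refine hf _ _ fun i => ?_
    have h1 := hu i
    rw [mem_Spf, SymplecticGroup.mem_iff, Fn_coe_map, Fn_sp_map, ← Fn_J_map l (f i)] at h1
    exact congrFun (congrFun h1 a) b

end MP7Z
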