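import Pool.Agent.Lib.MP_7f581e_Z.Types.SpecA

/-!
# Types/GII: generation for type II
-/

set_option autoImplicit false

namespace MP7Z

open TensorProduct MP7fS MP7fU Matrix

namespace GIIM

section fld

variable {p : ℕ} [Fact p.Prime] {l : Type} [Fintype l] [DecidableEq l]

omit [Fintype l] [DecidableEq l] in
lemma ZN_map {N : Set (Matrix l l (ZMod p))} {T T' : Type} [CommRing T] [Algebra (ZMod p) T]
    [CommRing T'] [Algebra (ZMod p) T'] (f : T →+* T') {A : Matrix l l T} (hA : A ∈ ZN N T) :
    A.map f ∈ ZN N T' := by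
  unfold ZN at hA
  induction hA using Submodule.span_induction with
  | mem A h =>
    obtain ⟨M, hM, rfl⟩ := h
    have h1 : (M.map (algebraMap (ZMod p) T)).map f = M.map (algebraMap (ZMod p) T') := by
      ext a b
      simp only [Matrix.map_apply]
      have h2 : f.comp (algebraMap (ZMod p) T) = algebraMap (ZMod p) T' := RingHom.ext_zmod _ _
      exact congrArg (fun g : ZMod p →+* T' => g (M a b)) h2
    rw [h1]
    exact Submodule.subset_span ⟨M, hM, rfl⟩
  | zero =>
    rw [Matrix.map_zero _ (map_zero f)]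
    exact Submodule.zero_mem _
  | add A B _ _ hA hB =>
    rw [Matrix.map_add _ (map_add f)]
    exact Submodule.add_mem _ hA hB
  | smul c A _ hA =>
    have h1 : (c • A).map f = f c • A.map f := by
      ext a b
      simp only [Matrix.map_apply, Matrix.smul_apply, smul_eq_mul, map_mul]
    rw [h1]
    exact Submodule.smul_mem _ _ hA

/-- Step (1): the generation over the fixed field of the Frobenius. -/
lemma closed {S : SFam l} (hS : SFunc S) {N : Bool → Set (Matrix l l (ZMod p))}
    (hG : GenS p S N) (k : Type) [Field k] [Algebra (ZMod p) k] [CharP k p] (m : ℕ)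
    (y : GL l k) (hy : y ∈ S k)
    (hf : GeneralLinearGroup.map (iterateFrobenius k p m) y = y) :
    y ∈ Subgroup.closure {w : GL l k |
      GeneralLinearGroup.map (iterateFrobenius k p m) w = w ∧
      ((w : Matrix l l k) - 1) * ((w : Matrix l l k) - 1) = 0 ∧
      ∃ b, (w : Matrix l l k) - 1 ∈ ZN (N b) k} := by
  classical
  let K₀ : Subfield k := (iterateFrobenius k p m).eqLocusField (RingHom.id k)
  have hmem : ∀ c : k, c ∈ K₀ ↔ iterateFrobenius k p m c = c := fun c => Iff.rfl
  have : CharP K₀ p := (RingHom.charP_iff K₀.subtype K₀.subtype.injective p).2 inferInstance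
  let : Algebra (ZMod p) K₀ := ZMod.algebra K₀ p
  have hent : ∀ a b, (y : Matrix l l k) a b ∈ K₀ := by
    intro a b
    rw [hmem]
    exact congrFun (congrFun (congrArg (fun g : GL l k => (g : Matrix l l k)) hf) a) b
  have hf' : GeneralLinearGroup.map (iterateFrobenius k p m) y⁻¹ = y⁻¹ := by
    rw [map_inv, hf]
  have hent' : ∀ a b, ((y⁻¹ : GL l k) : Matrix l l k) a b ∈ K₀ := by
    intro a b
    rw [hmem]
    exact congrFun (congrFun (congrArg (fun g : GL l k => (g : Matrix l l k)) hf') a) b
  have hinj : Function.Injective fun A : Matrix l l K₀ => A.map K₀.subtype :=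
    Matrix.map_injective K₀.subtype.injective
  let A : Matrix l l K₀ := Matrix.of fun a b => ⟨(y : Matrix l l k) a b, hent a b⟩
  let A' : Matrix l l K₀ := Matrix.of fun a b => ⟨((y⁻¹ : GL l k) : Matrix l l k) a b, hent' a b⟩
  have hA : A.map K₀.subtype = (y : Matrix l l k) := rfl
  have hA' : A'.map K₀.subtype = ((y⁻¹ : GL l k) : Matrix l l k) := rfl
  let y₀ : GL l K₀ :=
    { val := A
      inv := A'
      val_inv := hinj (by
        change (A * A').map K₀.subtype = (1 : Matrix l l K₀).map K₀.subtype
        rw [Matrix.map_mul, hA, hA', Matrix.map_one _ (map_zero _) (map_one _), Units.mul_inv])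
      inv_val := hinj (by
        change (A' * A).map K₀.subtype = (1 : Matrix l l K₀).map K₀.subtype
        rw [Matrix.map_mul, hA, hA', Matrix.map_one _ (map_zero _) (map_one _), Units.inv_mul]) }
  have hy₀ : GeneralLinearGroup.map K₀.subtype y₀ = y := Units.ext hA
  have hyS : y₀ ∈ S K₀ := by
    refine hS.inj K₀ Unit (fun _ => k) (fun _ => K₀.subtype)
      (fun a b h => K₀.subtype.injective (h ())) y₀ fun _ => ?_
    rw [hy₀]
    exact hy
  have h1 := hG K₀ hyS
  have h2 : Subgroup.closure {w : GL l K₀ |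
      ((w : Matrix l l K₀) - 1) * ((w : Matrix l l K₀) - 1) = 0 ∧
        ∃ b, (w : Matrix l l K₀) - 1 ∈ ZN (N b) K₀} ≤
      (Subgroup.closure {w : GL l k |
      GeneralLinearGroup.map (iterateFrobenius k p m) w = w ∧
      ((w : Matrix l l k) - 1) * ((w : Matrix l l k) - 1) = 0 ∧
      ∃ b, (w : Matrix l l k) - 1 ∈ ZN (N b) k}).comap (GeneralLinearGroup.map K₀.subtype) := by
    rw [Subgroup.closure_le]
    rintro w ⟨hw, b, hb⟩
    have hsub : ((GeneralLinearGroup.map K₀.subtype w : GL l k) : Matrix l l k) - 1 =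
        ((w : Matrix l l K₀) - 1).map K₀.subtype := by
      rw [Matrix.map_sub _ (map_sub _), Matrix.map_one _ (map_zero _) (map_one _)]
      rfl
    refine Subgroup.subset_closure ⟨?_, ?_, b, ?_⟩
    · apply Units.ext
      ext a c
      exact ((w : Matrix l l K₀) a c).2
    · rw [hsub, ← Matrix.map_mul, hw, Matrix.map_zero _ (map_zero _)]
    · rw [hsub]
      exact ZN_map K₀.subtype hb
  have h3 := h2 h1
  rw [Subgroup.mem_comap, hy₀] at h3
  exact h3

end fld

section co

variable {p : ℕ} [Fact p.Prime] {ι l F : Type} [Finite ι] [Fintype l] [DecidableEq l] [Field F]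
  [Finite F] [Algebra (ZMod p) F] {k : Type} [Field k] [Algebra (ZMod p) k] [CharP k p]
  (τ : F →+* k)

/-- The coordinates of the elements of `k ⊗ B`. -/
noncomputable def Psi (i : ι) (j : ℕ) : k ⊗[ZMod p] (ι → Matrix l l F) →+* Matrix l l k :=
  (evj (p := p) τ j).mapMatrix.comp
    ((Pi.evalRingHom (fun _ : ι => Matrix l l (k ⊗[ZMod p] F)) i).comp (TH (p := p) k))

omit [Finite ι] [Finite F] in
lemma Psi_apply (i : ι) (j : ℕ) (z : k ⊗[ZMod p] (ι → Matrix l l F)) :
    Psi (p := p) τ i j z = (TH (p := p) k z i).map (evj (p := p) τ j) := rfl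

omit [Finite ι] [Finite F] in
lemma Psi_unit (i : ι) (j : ℕ) (u : (k ⊗[ZMod p] (ι → Matrix l l F))ˣ) :
    Psi (p := p) τ i j (u : k ⊗[ZMod p] (ι → Matrix l l F)) =
      ((co (p := p) τ i j u : GL l k) : Matrix l l k) := rfl

omit [Finite ι] [Finite F] in
lemma Psi_tmul (i : ι) (j : ℕ) (a : k) (z : ι → Matrix l l F) :
    Psi (p := p) τ i j (a ⊗ₜ z) = Matrix.of fun x y => a * τ (z i x y) ^ p ^ j := by
  rw [Psi_apply, TH_tmul]
  ext x y
  exact evj_tmul τ j a (z i x y)

lemma Psi_smul (i : ι) (j : ℕ) (t : k) (z : k ⊗[ZMod p] (ι → Matrix l l F)) :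
    Psi (p := p) τ i j (t • z) = t • Psi (p := p) τ i j z := by
  induction z using TensorProduct.induction_on with
  | zero => rw [smul_zero, map_zero, smul_zero]
  | add x y hx hy => rw [smul_add, map_add, hx, hy, map_add, smul_add]
  | tmul a z =>
    rw [TensorProduct.smul_tmul', Psi_tmul, Psi_tmul]
    ext x y
    simp only [Matrix.of_apply, Matrix.smul_apply, smul_eq_mul, mul_assoc]

/-- Step (3): elements with prescribed coordinates. -/
lemma exists_mem (h1 : EvjStmt) [DecidableEq ι] {N : Bool → Set (Matrix l l (ZMod p))} (b : Bool)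
    (i₀ : ι) (j₀ : Fin (Module.finrank (ZMod p) F)) {A : Matrix l l k} (hA : A ∈ ZN (N b) k) :
    ∃ z ∈ (ZII p ι l F N b).baseChange k, ∀ i (j : Fin (Module.finrank (ZMod p) F)),
      Psi (p := p) τ i j z = if i = i₀ ∧ j = j₀ then A else 0 := by
  unfold ZN at hA
  induction hA using Submodule.span_induction with
  | mem A h =>
    obtain ⟨M, hM, rfl⟩ := h
    obtain ⟨ε, hε⟩ := (h1 p F k τ).2.2.2.2.2 (Pi.single j₀ 1)
    let f : F →ₗ[ZMod p] (ι → Matrix l l F) :=
      { toFun := fun c => Pi.single i₀ (c • M.map (algebraMap (ZMod p) F))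
        map_add' := fun c d => by rw [add_smul, Pi.single_add]
        map_smul' := fun r c => by
          rw [RingHom.id_apply, smul_assoc, Pi.single_smul] }
    have hf1 : ∀ c, f c i₀ = c • M.map (algebraMap (ZMod p) F) := fun c => Pi.single_eq_same _ _
    have hf2 : ∀ c i, i ≠ i₀ → f c i = 0 := fun c i hi => Pi.single_eq_of_ne hi _
    have hf : ∀ c, f c ∈ ZII p ι l F N b := by
      intro c
      rw [mem_ZII]
      intro i
      by_cases hi : i = i₀
      · rw [hi, hf1]
        exact Submodule.smul_mem _ _ (Submodule.subset_span ⟨M, hM, rfl⟩)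
      · rw [hf2 c i hi]
        exact Submodule.zero_mem _
    have hmem : ∀ z : k ⊗[ZMod p] F, f.baseChange k z ∈ (ZII p ι l F N b).baseChange k := by
      intro z
      induction z using TensorProduct.induction_on with
      | zero => rw [map_zero]; exact Submodule.zero_mem _
      | add x y hx hy => rw [map_add]; exact Submodule.add_mem _ hx hy
      | tmul a c =>
        rw [LinearMap.baseChange_tmul]
        exact Submodule.tmul_mem_baseChange_of_mem _ (hf c)
    have hval : ∀ (z : k ⊗[ZMod p] F) (i : ι) (j : ℕ), Psi (p := p) τ i j (f.baseChange k z) =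
        if i = i₀ then evj (p := p) τ j z • M.map (algebraMap (ZMod p) k) else 0 := by
      intro z i j
      induction z using TensorProduct.induction_on with
      | zero => 
        rw [map_zero, map_zero, map_zero, zero_smul, ite_self]
      | add x y hx hy =>
        rw [map_add, map_add, hx, hy, map_add]
        split_ifs
        · rw [add_smul]
        · rw [add_zero]
      | tmul a c =>
        rw [LinearMap.baseChange_tmul, Psi_tmul, evj_tmul]
        have hpj : ∀ r : ZMod p, (τ (algebraMap (ZMod p) F r)) ^ p ^ j = algebraMap (ZMod p) k r := by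
          intro r
          have h2 : ((iterateFrobenius k p j).comp τ).comp (algebraMap (ZMod p) F) =
            algebraMap (ZMod p) k := RingHom.ext_zmod _ _
          exact congrArg (fun g : ZMod p →+* k => g r) h2
        by_cases hi : i = i₀
        · subst hi
          rw [if_pos rfl]
          ext x y
          have h2 : f c i x y = c * algebraMap (ZMod p) F (M x y) := by
            rw [hf1]
            rfl
          rw [Matrix.of_apply, h2, map_mul, mul_pow, hpj, Matrix.smul_apply, Matrix.map_apply,
            smul_eq_mul, mul_assoc]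
        · rw [if_neg hi]
          ext x y
          have h2 : f c i x y = 0 := by
            rw [hf2 c i hi]
            rfl
          rw [Matrix.of_apply, h2, map_zero, zero_pow (pow_ne_zero _ (Fact.out (p := p.Prime)).ne_zero),
            mul_zero, Matrix.zero_apply]
    refine ⟨f.baseChange k ε, hmem ε, fun i j => ?_⟩
    rw [hval]
    have hεj : evj (p := p) τ j ε = (Pi.single j₀ 1 : Fin (Module.finrank (ZMod p) F) → k) j :=
      congrFun hε j
    rw [hεj]
    by_cases hi : i = i₀
    · by_cases hj : j = j₀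
      · rw [if_pos hi, if_pos ⟨hi, hj⟩, hj, Pi.single_eq_same, one_smul]
      · rw [if_pos hi, if_neg (fun h => hj h.2), Pi.single_eq_of_ne hj, zero_smul]
    · rw [if_neg hi, if_neg (fun h => hi h.1)]
  | zero =>
    refine ⟨0, Submodule.zero_mem _, fun i j => ?_⟩
    rw [map_zero, ite_self]
  | add A B _ _ hA hB =>
    obtain ⟨z, hz, hz'⟩ := hA
    obtain ⟨w, hw, hw'⟩ := hB
    refine ⟨z + w, Submodule.add_mem _ hz hw, fun i j => ?_⟩
    rw [map_add, hz', hw']
    split_ifs
    · rfl
    · rw [add_zero]
  | smul c A _ hA =>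
    obtain ⟨z, hz, hz'⟩ := hA
    refine ⟨c • z, Submodule.smul_mem _ _ hz, fun i j => ?_⟩
    rw [Psi_smul, hz']
    split_ifs
    · rfl
    · rw [smul_zero]

end co

end GIIM

open GIIM in
theorem tyGII (h1 : EvjStmt) (h2 : CoStmt) : GIIStmt := by
  intro p _ ι l F _ _ _ _ _ _ S hS N hG k _ _ _ _ _ m hm hdm x hx hfx
  classical
  let d := Module.finrank (ZMod p) F
  let τ : F →+* k := (IsAlgClosed.lift (R := ZMod p) (S := F) (M := k) : F →ₐ[ZMod p] k)
  obtain ⟨c1, c2, c3, -, c5, c6⟩ := h2 p ι l F k τ
  have c1' : ∀ (u : (k ⊗[ZMod p] (ι → Matrix l l F))ˣ) (i : ι) (j n : ℕ),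
      co (p := p) τ i (j + n * d) u = co τ i j u := by
    intro u i j n
    induction n with
    | zero => rw [Nat.zero_mul, Nat.add_zero]
    | succ n ih => rw [Nat.succ_mul, ← add_assoc, c1, ih]
  obtain ⟨n, hn⟩ := hdm
  have hper : ∀ (u : (k ⊗[ZMod p] (ι → Matrix l l F))ˣ) (i : ι) (j : ℕ),
      co (p := p) τ i (j + m) u = co τ i j u := by
    intro u i j
    rw [hn, mul_comm]
    exact c1' u i j n
  have hfr : ∀ (u : (k ⊗[ZMod p] (ι → Matrix l l F))ˣ) (i : ι) (j : ℕ),
      co (p := p) τ i j (fru m k u) =
        GeneralLinearGroup.map (iterateFrobenius k p m) (co τ i j u) := by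
    intro u i j
    rw [← hper (fru m k u), c2]
  let ce : (k ⊗[ZMod p] (ι → Matrix l l F))ˣ →* (ι → Fin d → GL l k) :=
    MonoidHom.pi fun i => MonoidHom.pi fun j : Fin d => co (p := p) τ i j
  have hce : ∀ u i (j : Fin d), ce u i j = co (p := p) τ i j u := fun _ _ _ => rfl
  have hbij : Function.Bijective ce := by
    constructor
    · intro u v huv
      obtain ⟨w, -, hw⟩ := c3 (ce u)
      rw [hw u fun i j => rfl, hw v fun i j => by rw [huv]; rfl]
    · intro w
      obtain ⟨u, hu, -⟩ := c3 w
      exact ⟨u, funext fun i => funext fun j => hu i j⟩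
  let e := MulEquiv.ofBijective ce hbij
  set Gc := Subgroup.closure {w : (k ⊗[ZMod p] (ι → Matrix l l F))ˣ | fru m k w = w ∧
        ((w : k ⊗[ZMod p] (ι → Matrix l l F)) - 1) * ((w : k ⊗[ZMod p] (ι → Matrix l l F)) - 1) =
          0 ∧ ∃ i, (w : k ⊗[ZMod p] (ι → Matrix l l F)) - 1 ∈ (ZII p ι l F N i).baseChange k}
    with hGc
  let G' : Subgroup (ι → Fin d → GL l k) := Gc.comap e.symm.toMonoidHom
  have hmain : e x ∈ G' := by
    refine Subgroup.pi_mem_of_mulSingle_mem (e x) fun i₀ => ?_
    have h3 : e x i₀ ∈ G'.comap (MonoidHom.mulSingle (fun _ : ι => Fin d → GL l k) i₀) := by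
      refine Subgroup.pi_mem_of_mulSingle_mem (e x i₀) fun j₀ => ?_
      have hx1 := closed hS hG k m (e x i₀ j₀) ((c5 S hS x).1 hx i₀ j₀) (by
        have h4 := hfr x i₀ j₀
        rw [hfx] at h4
        exact h4.symm)
      have hle : Subgroup.closure {w : GL l k |
          GeneralLinearGroup.map (iterateFrobenius k p m) w = w ∧
          ((w : Matrix l l k) - 1) * ((w : Matrix l l k) - 1) = 0 ∧
          ∃ b, (w : Matrix l l k) - 1 ∈ ZN (N b) k} ≤
          (G'.comap (MonoidHom.mulSingle (fun _ : ι => Fin d → GL l k) i₀)).comap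
            (MonoidHom.mulSingle (fun _ : Fin d => GL l k) j₀) := by
        rw [Subgroup.closure_le]
        rintro w ⟨hw1, hw2, b, hb⟩
        change e.symm (Pi.mulSingle i₀ (Pi.mulSingle j₀ w)) ∈ Gc
        set u := e.symm (Pi.mulSingle i₀ (Pi.mulSingle j₀ w)) with hu
        have hcu : ∀ i (j : Fin d), co (p := p) τ i j u = if i = i₀ ∧ j = j₀ then w else 1 := by
          intro i j
          have h5 : e u = Pi.mulSingle i₀ (Pi.mulSingle j₀ w) := e.apply_symm_apply _
          have h6 : co (p := p) τ i j u = e u i j := rfl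
          rw [h6, h5]
          by_cases hi : i = i₀
          · subst hi
            rw [Pi.mulSingle_eq_same]
            by_cases hj : j = j₀
            · subst hj
              rw [Pi.mulSingle_eq_same, if_pos ⟨rfl, rfl⟩]
            · rw [Pi.mulSingle_eq_of_ne hj, if_neg fun h => hj h.2]
          · rw [Pi.mulSingle_eq_of_ne hi, if_neg fun h => hi h.1]
            rfl
        have hPsi : ∀ i (j : Fin d), Psi (p := p) τ i j
            ((u : k ⊗[ZMod p] (ι → Matrix l l F)) - 1) =
            if i = i₀ ∧ j = j₀ then (w : Matrix l l k) - 1 else 0 := by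
          intro i j
          rw [map_sub, map_one, Psi_unit, hcu]
          split_ifs
          · rfl
          · rw [Units.val_one, sub_self]
        refine Subgroup.subset_closure ⟨?_, ?_, b, ?_⟩
        · apply hbij.1
          funext i
          funext j
          rw [hce, hce, hfr, hcu]
          split_ifs
          · exact hw1
          · exact map_one _
        · apply c6
          intro i j
          rw [← Psi_apply, ← Psi_apply, map_mul, hPsi, map_zero]
          split_ifs
          · exact hw2
          · rw [mul_zero]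
        · obtain ⟨z, hz, hz'⟩ := exists_mem (p := p) τ h1 b i₀ j₀ hb
          have h7 : (u : k ⊗[ZMod p] (ι → Matrix l l F)) - 1 = z := by
            apply c6
            intro i j
            rw [← Psi_apply, ← Psi_apply, hPsi, hz']
          rw [h7]
          exact hz
      exact hle hx1
    exact h3
  have h8 : e.symm (e x) ∈ Gc := hmain
  rwa [e.symm_apply_apply] at h8

end MP7Z
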