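import Pool.Agent.Lib.MP_7f581e_Z.Types.SpecA
import Pool.Agent.Lib.MP_7f581e_ntG.Gen

/-!
# Types, `GSL`: generation of the special linear groups
-/

set_option autoImplicit false

namespace MP7Z

open TensorProduct MP7fS MP7fU Matrix

theorem tyGSL : GSLStmt := by
  intro p _ n hn k _ _ g hg
  have : Nontrivial (Fin n) := Fin.nontrivial_iff_two_le.mpr hn
  have hg1 : (g : Matrix (Fin n) (Fin n) k).det = 1 := mem_SLf.mp hg
  have hgen : ∀ A : SpecialLinearGroup (Fin n) k,
      (A : GL (Fin n) k) ∈ Subgroup.closure {w : GL (Fin n) k |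
        ((w : Matrix (Fin n) (Fin n) k) - 1) * ((w : Matrix (Fin n) (Fin n) k) - 1) = 0 ∧
          ∃ b, (w : Matrix (Fin n) (Fin n) k) - 1 ∈ ZN (NSL p n b) k} := by
    intro A
    refine MP7fG.transvection_induction (fun A : SpecialLinearGroup (Fin n) k =>
      (A : GL (Fin n) k) ∈ Subgroup.closure {w : GL (Fin n) k |
        ((w : Matrix (Fin n) (Fin n) k) - 1) * ((w : Matrix (Fin n) (Fin n) k) - 1) = 0 ∧
          ∃ b, (w : Matrix (Fin n) (Fin n) k) - 1 ∈ ZN (NSL p n b) k}) ?_ ?_ A
    · intro i j hij c
      apply Subgroup.subset_closure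
      have h1 : (((SpecialLinearGroup.transvection hij c : SpecialLinearGroup (Fin n) k) :
          GL (Fin n) k) : Matrix (Fin n) (Fin n) k) - 1 = Matrix.single i j c := by
        change ((SpecialLinearGroup.transvection hij c : SpecialLinearGroup (Fin n) k) :
          Matrix (Fin n) (Fin n) k) - 1 = _
        rw [SpecialLinearGroup.transvection_coe]
        simp
      refine ⟨?_, decide (j < i), ?_⟩
      · rw [h1]
        exact Matrix.single_mul_single_of_ne _ _ _ _ hij.symm _
      · rw [h1]
        have h2 : Matrix.single i j c =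
            c • (Matrix.single i j (1 : ZMod p)).map (algebraMap (ZMod p) k) := by
          ext a b
          simp [Matrix.single, Matrix.map_apply, apply_ite (algebraMap (ZMod p) k)]
        rw [h2]
        apply Submodule.smul_mem
        apply Submodule.subset_span
        refine ⟨_, ⟨i, j, ?_, rfl⟩, rfl⟩
        by_cases h : j < i
        · simp [h]
        · have h3 : i < j := lt_of_le_of_ne (not_lt.mp h) hij
          simp [h, h3]
    · intro A B hA hB
      change (((A * B : SpecialLinearGroup (Fin n) k)) : GL (Fin n) k) ∈ _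
      rw [show (((A * B : SpecialLinearGroup (Fin n) k)) : GL (Fin n) k) =
        (A : GL (Fin n) k) * (B : GL (Fin n) k) from map_mul SpecialLinearGroup.toGL A B]
      exact mul_mem hA hB
  obtain ⟨A, hA⟩ : ∃ A : SpecialLinearGroup (Fin n) k, (A : GL (Fin n) k) = g :=
    ⟨⟨(g : Matrix (Fin n) (Fin n) k), hg1⟩, Units.ext rfl⟩
  rw [← hA]
  exact hgen A

end MP7Z
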