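import Pool.Agent.Lib.MP_7f581e_Z.Lie.L1
import Pool.Agent.Lib.MP_7f581e_ntG.SplitSL2
import Pool.Agent.Lib.MP_7f581e_ntL.Y7

/-!
# The types whose automorphisms are semilinear conjugations: `SL_2`, `Sp_2n` (and `SU_n`)

`Dg`: invertible diagonal matrices; `stdD S`: semilinear conjugations by diagonal elements of `S`.
-/

namespace MP7Z

open Matrix MP7fW MP7fY MP7fP MP7fE

section dg

variable {F : Type*} [Field F] {l : Type*} [Fintype l] [DecidableEq l]

/-- The invertible diagonal matrices. -/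
def Dg (l : Type*) [Fintype l] [DecidableEq l] (F : Type*) [Field F] : Subgroup (GL l F) where
  carrier := {g | ∃ d : l → F, g.1 = diagonal d}
  one_mem' := ⟨fun _ => 1, diagonal_one.symm⟩
  mul_mem' := by
    rintro a b ⟨d, hd⟩ ⟨e, he⟩
    refine ⟨fun i => d i * e i, ?_⟩
    change a.1 * b.1 = _
    rw [hd, he, diagonal_mul_diagonal]
  inv_mem' := by
    rintro a ⟨d, hd⟩
    refine ⟨fun i => (d i)⁻¹, ?_⟩
    have h1 : ∀ i, d i ≠ 0 := by
      intro i h
      have h2 := gl_mul_inv a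
      rw [hd] at h2
      have h3 := congrFun (congrFun h2 i) i
      rw [diagonal_mul, h, zero_mul, one_apply_eq] at h3
      exact zero_ne_one h3
    have h4 : a.1 * diagonal (fun i => (d i)⁻¹) = 1 := by
      rw [hd, diagonal_mul_diagonal, ← diagonal_one]
      congr 1
      funext i
      exact mul_inv_cancel₀ (h1 i)
    calc (a⁻¹).1 = (a⁻¹).1 * (a.1 * diagonal (fun i => (d i)⁻¹)) := by rw [h4, Matrix.mul_one]
      _ = _ := by rw [← Matrix.mul_assoc, gl_inv_mul, Matrix.one_mul]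

theorem mem_Dg {g : GL l F} : g ∈ Dg l F ↔ ∃ d : l → F, g.1 = diagonal d := Iff.rfl

theorem glMap_Dg (σ : F ≃+* F) {g : GL l F} (hg : g ∈ Dg l F) : glMap σ g ∈ Dg l F := by
  obtain ⟨d, hd⟩ := hg
  refine ⟨fun i => σ (d i), ?_⟩
  rw [glMap_coe, hd, diagonal_map (map_zero σ)]

/-- The diagonal elements of a group stable under field automorphisms. -/
theorem glMap_inf {S : Subgroup (GL l F)} (hS : ∀ (σ : F ≃+* F), ∀ g ∈ S, glMap σ g ∈ S)
    (σ : F ≃+* F) : ∀ g ∈ S ⊓ Dg l F, glMap σ g ∈ S ⊓ Dg l F :=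
  fun g hg => ⟨hS σ g hg.1, glMap_Dg σ hg.2⟩

/-- The standard semilinear conjugations: by diagonal elements of `S`. -/
def stdD {S : Subgroup (GL l F)} (hS : ∀ (σ : F ≃+* F), ∀ g ∈ S, glMap σ g ∈ S) :
    Subgroup (AD S hS) :=
  (AD (S ⊓ Dg l F) (glMap_inf hS)).subgroupOf (AD S hS)

/-- An invertible matrix whose conjugation is a semilinear conjugation by a diagonal matrix is
diagonal. -/
theorem diag_of_cjR {t h : GL l F} (ht : t ∈ Dg l F) {σ : F ≃+* F}
    (hth : cjR t σ = cjR h (RingEquiv.refl F)) : h ∈ Dg l F := by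
  obtain ⟨d, hd⟩ := ht
  have key : ∀ i, h.1 * single i i 1 = single i i 1 * h.1 := by
    intro i
    have h1 := congrArg (fun R : RingAut (Matrix l l F) => R (single i i 1)) hth
    change t.1 * (single i i (1 : F)).map σ * (t⁻¹).1 =
      h.1 * (single i i (1 : F)).map (RingEquiv.refl F) * (h⁻¹).1 at h1
    have h2 : (single i i (1 : F)).map σ = single i i 1 := by
      ext a b
      rw [map_apply, single_apply]
      split_ifs
      · exact map_one σ
      · exact map_zero σ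
    have h3 : (single i i (1 : F)).map (RingEquiv.refl F) = single i i 1 := by
      ext a b
      rfl
    have h4 : t.1 * single i i 1 * (t⁻¹).1 = single i i 1 := by
      have h5 : t.1 * single i i 1 = single i i 1 * t.1 := by
        rw [hd]
        ext a b
        rw [diagonal_mul, mul_diagonal, single_apply]
        split_ifs with h6
        · rw [← h6.1, ← h6.2, mul_one, one_mul]
        · rw [mul_zero, zero_mul]
      rw [h5, Matrix.mul_assoc, gl_mul_inv, Matrix.mul_one]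
    rw [h2, h3, h4] at h1
    calc h.1 * single i i 1 = h.1 * single i i 1 * ((h⁻¹).1 * h.1) := by
          rw [gl_inv_mul, Matrix.mul_one]
      _ = (h.1 * single i i 1 * (h⁻¹).1) * h.1 := by simp only [Matrix.mul_assoc]
      _ = _ := by rw [← h1]
  refine ⟨fun i => h.1 i i, ?_⟩
  ext i j
  rw [diagonal_apply]
  split_ifs with hij
  · rw [hij]
  · have h1 := congrFun (congrFun (key j) i) j
    rw [mul_single_apply_same, mul_one, single_mul_apply_of_ne _ _ _ _ _ hij] at h1
    exact h1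

end dg

section ad

variable {F : Type} [Field F] {l : Type} [Fintype l] [DecidableEq l] {H : Type} [Group H]

theorem units_inc (inc : H →* Matrix l l F) (h : H) : inc h * inc h⁻¹ = 1 := by
  rw [← map_mul, mul_inv_cancel, map_one]

/-- **The types with semilinear conjugations.** -/
theorem typeD_AD {S : Subgroup (GL l F)} (hS : ∀ (σ : F ≃+* F), ∀ g ∈ S, glMap σ g ∈ S)
    (inc : H →* Matrix l l F) (hinj : Function.Injective inc)
    (hex : ∀ (x : AD S hS) h, ∃ h', inc h' = (AD S hS).subtype x (inc h))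
    (hperf : commutator H = ⊤) (hsim : IsSimpleGroup (H ⧸ Subgroup.center H))
    (hcent : Subgroup.center (H ⧸ Subgroup.center H) = ⊥)
    (hsur : ∀ φ : (H ⧸ Subgroup.center H) ≃* (H ⧸ Subgroup.center H),
      ∃ x : AD S hS, ∀ t, φ t = cQ inc hinj (AD S hS).subtype hex x t)
    (hfix : ∀ x : AD S hS, (∀ t, cQ inc hinj (AD S hS).subtype hex x t = t) → x = 1)
    (hHS : ∀ h : H, ∃ g ∈ S, g.1 = inc h)
    (hstd : ∀ g ∈ S, ∃ t ∈ S ⊓ Dg l F, ∃ h : H, inc h = t.1 * (g⁻¹).1) :
    TypeD inc hinj (AD S hS).subtype hex (stdD hS) where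
  perf := hperf
  simple := hsim
  cent := hcent
  sur := hsur
  fix := hfix
  std := by
    rintro ⟨R, g, hg, σ, rfl⟩
    obtain ⟨t, ht, h, hh⟩ := hstd g hg
    refine ⟨(h : H ⧸ Subgroup.center H), ⟨cjR t σ, t, ht.1, σ, rfl⟩, ⟨t, ht, σ, rfl⟩, ?_⟩
    intro a
    obtain ⟨A, rfl⟩ := QuotientGroup.mk_surjective a
    obtain ⟨A', hA'⟩ := hex ⟨cjR g σ, g, hg, σ, rfl⟩ A
    rw [cQ_mk' inc hinj (AD S hS).subtype hex _ hA', ← QuotientGroup.mk_inv,
      ← QuotientGroup.mk_mul, ← QuotientGroup.mk_mul]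
    apply cQ_mk'
    change inc (h * A' * h⁻¹) = t.1 * (inc A).map σ * (t⁻¹).1
    have h1 : inc A' = g.1 * (inc A).map σ * (g⁻¹).1 := hA'
    have h2 : inc h⁻¹ = g.1 * (t⁻¹).1 := by
      have h3 : inc h * (g.1 * (t⁻¹).1) = 1 := by
        rw [hh]
        calc t.1 * (g⁻¹).1 * (g.1 * (t⁻¹).1) = t.1 * ((g⁻¹).1 * g.1) * (t⁻¹).1 := by
              simp only [Matrix.mul_assoc]
          _ = 1 := by rw [gl_inv_mul, Matrix.mul_one, gl_mul_inv]
      have h4 : inc h⁻¹ * inc h = 1 := by rw [← map_mul, inv_mul_cancel, map_one]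
      calc inc h⁻¹ = inc h⁻¹ * (inc h * (g.1 * (t⁻¹).1)) := by rw [h3, Matrix.mul_one]
        _ = _ := by rw [← Matrix.mul_assoc, h4, Matrix.one_mul]
    rw [map_mul, map_mul, h1, h2, hh]
    calc t.1 * (g⁻¹).1 * (g.1 * (inc A).map σ * (g⁻¹).1) * (g.1 * (t⁻¹).1) =
        t.1 * ((g⁻¹).1 * g.1) * (inc A).map σ * ((g⁻¹).1 * g.1) * (t⁻¹).1 := by
          simp only [Matrix.mul_assoc]
      _ = _ := by rw [gl_inv_mul, Matrix.mul_one, Matrix.mul_one]
  solv := by
    let T₀ : Subgroup H := (Dg l F).comap inc.toHomUnits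
    have hT₀ : ∀ a ∈ T₀, ∀ b ∈ T₀, a * b = b * a := by
      rintro a ⟨d, hd⟩ b ⟨e, he⟩
      have hd' : inc a = diagonal d := hd
      have he' : inc b = diagonal e := he
      apply hinj
      rw [map_mul, map_mul, hd', he', diagonal_mul_diagonal, diagonal_mul_diagonal]
      congr 1
      funext i
      exact mul_comm _ _
    refine ⟨T₀.map (QuotientGroup.mk' (Subgroup.center H)), ?_, ?_⟩
    · refine Group.isSolvable_of_comm ?_
      rintro ⟨_, a, ha, rfl⟩ ⟨_, b, hb, rfl⟩
      apply Subtype.ext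
      change QuotientGroup.mk' _ a * QuotientGroup.mk' _ b =
        QuotientGroup.mk' _ b * QuotientGroup.mk' _ a
      rw [← map_mul, ← map_mul, hT₀ a ha b hb]
    · rintro s ⟨y, hy, hs⟩
      obtain ⟨h, rfl⟩ := QuotientGroup.mk_surjective s
      obtain ⟨g, hg, hgh⟩ := hHS h
      obtain ⟨t, ht, σ, hyt⟩ := hy
      refine ⟨h, ?_, rfl⟩
      have hgu : inc.toHomUnits h = g := Units.ext hgh.symm
      change inc.toHomUnits h ∈ Dg l F
      rw [hgu]
      let z : AD S hS := ⟨cjR g (RingEquiv.refl F), g, hg, RingEquiv.refl F, rfl⟩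
      have hzy : y = z := by
        apply cQ_injective hfix
        intro a
        obtain ⟨A, rfl⟩ := QuotientGroup.mk_surjective a
        rw [hs, ← QuotientGroup.mk_inv, ← QuotientGroup.mk_mul, ← QuotientGroup.mk_mul]
        symm
        apply cQ_mk'
        change inc (h * A * h⁻¹) = g.1 * (inc A).map (RingEquiv.refl F) * (g⁻¹).1
        rw [map_mul, map_mul, ← hgu]
        rfl
      have h2 : cjR t σ = cjR g (RingEquiv.refl F) := by
        rw [← hyt]
        exact congrArg Subtype.val hzy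
      exact diag_of_cjR ht.2 h2

/-- Invertible diagonal matrices. -/
def dgl (d : l → Fˣ) : GL l F where
  val := diagonal fun i => (d i : F)
  inv := diagonal fun i => ((d i)⁻¹ : Fˣ)
  val_inv := by
    rw [diagonal_mul_diagonal, ← diagonal_one]
    congr 1
    funext i
    exact Units.mul_inv _
  inv_val := by
    rw [diagonal_mul_diagonal, ← diagonal_one]
    congr 1
    funext i
    exact Units.inv_mul _

theorem dgl_mem (d : l → Fˣ) : dgl d ∈ Dg l F := ⟨_, rfl⟩

end ad

section two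

variable {F : Type} [Field F] [Finite F]

/-- The standard group for `SL_2`. -/
abbrev D2 (F : Type) [Field F] : Subgroup (A2 F) :=
  stdD (S := (⊤ : Subgroup (GL (Fin 2) F))) (fun _ _ _ => Subgroup.mem_top _)

/-- **The type `SL_2`.** -/
theorem typeD_SL2 (hF : 4 ≤ Nat.card F) :
    TypeD (inc2 F) inc2_inj (A2 F).subtype hex2 (D2 F) := by
  refine typeD_AD _ (inc2 F) inc2_inj hex2 (perf2 hF) (MP7fS.psl2_simple hF)
    (MP7fS.psl2_center hF) sur2 fix2 ?_ ?_
  · intro h
    exact ⟨(inc2 F).toHomUnits h, Subgroup.mem_top _, rfl⟩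
  · intro g _
    have hdet : IsUnit g.1.det := (Matrix.isUnit_iff_isUnit_det _).1 g.isUnit
    let t : GL (Fin 2) F := dgl ![hdet.unit, 1]
    refine ⟨t, ⟨Subgroup.mem_top _, dgl_mem _⟩, ⟨t.1 * (g⁻¹).1, ?_⟩, rfl⟩
    have h1 : t.1.det = g.1.det := by
      change (diagonal fun i => ((![hdet.unit, 1] i : Fˣ) : F)).det = _
      rw [det_diagonal, Fin.prod_univ_two]
      change (hdet.unit : F) * ((1 : Fˣ) : F) = _
      rw [Units.val_one, mul_one]
      rfl
    rw [det_mul, h1, ← det_mul, gl_mul_inv, det_one]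

end two

section sp

variable {F : Type} [Field F] [Finite F] {n : ℕ}

/-- The standard group for `Sp_2n`. -/
abbrev DSp (n : ℕ) (F : Type) [Field F] : Subgroup (AG n F) := stdD (S := GSp n F) glMap_GSp

/-- **The type `Sp_2n`.** -/
theorem typeD_Sp {p : ℕ} [Fact p.Prime] [CharP F p] (h2 : 2 ≤ n) (h3 : (2 : F) = 0 → 3 ≤ n)
    [IsSimpleGroup (PSp n F)] :
    TypeD (incS n F) incS_inj (AG n F).subtype hexG (DSp n F) := by
  refine typeD_AD _ (incS n F) incS_inj hexG (perfG (p := p) h2) ‹_› (center_psp h2)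
    (surG h2 h3) (fixG h2) ?_ ?_
  · intro h
    refine ⟨(incS n F).toHomUnits h, ⟨1, one_ne_zero, fun x y => ?_⟩, rfl⟩
    rw [one_mul]
    exact om_mulVec h.2 x y
  · rintro g ⟨c, hc, hg⟩
    let t : GL (Fin n ⊕ Fin n) F := dgl (Sum.elim (fun _ => Units.mk0 c hc) fun _ => 1)
    have ht : ∀ x y, om (t.1 *ᵥ x) (t.1 *ᵥ y) = c * om x y := by
      intro x y
      rw [om_eq, om_eq, Finset.mul_sum]
      refine Finset.sum_congr rfl fun i _ => ?_
      have h4 : ∀ (z : Fin n ⊕ Fin n → F) (a : Fin n ⊕ Fin n), (t.1 *ᵥ z) a =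
          ((Sum.elim (fun _ => Units.mk0 c hc) (fun _ => 1) a : Fˣ) : F) * z a :=
        fun z a => mulVec_diagonal _ _ _
      rw [h4, h4, h4, h4]
      change (c * x (Sum.inl i)) * ((1 : Fˣ) * y (Sum.inr i)) -
        ((1 : Fˣ) * x (Sum.inr i)) * (c * y (Sum.inl i)) = _
      rw [Units.val_one]
      ring
    refine ⟨t, ⟨⟨c, hc, ht⟩, dgl_mem _⟩, ⟨t.1 * (g⁻¹).1, mem_of_om ?_⟩, rfl⟩
    intro x y
    rw [← Matrix.mulVec_mulVec, ← Matrix.mulVec_mulVec, ht, ← hg, Matrix.mulVec_mulVec,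
      Matrix.mulVec_mulVec, gl_mul_inv, Matrix.one_mulVec, Matrix.one_mulVec]

end sp

end MP7Z
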