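import Pool.Agent.Lib.MP_7f581e_Z.Types.SpecA
import Pool.Agent.Lib.MP_7f581e_Z.Types.TD

/-!
# The Lang groups of the types `SL_2` and `Sp_2n`
-/

namespace MP7Z

open TensorProduct Matrix MP7fW MP7fY MP7fP MP7fE

/-- The statements about type II used in the assembly. -/
structure StmtsII : Prop where
  l1 : L1IIStmt
  lm : LMIIStmt
  g : GIIStmt
  p : PIIStmt
  st : StIIStmt
  pt : PtIIStmt

section

variable {p : ℕ} [Fact p.Prime] {F : Type} [Field F] [Finite F] [Algebra (ZMod p) F] {l : Type}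
  [Fintype l] [DecidableEq l] {H : Type} [Group H]

/-- The Lang groups of a type with semilinear conjugations. -/
theorem langOf_AD (h2 : StmtsII) (S : SFam l) (hS : SFunc S)
    (N : Bool → Set (Matrix l l (ZMod p))) (hLang : LangS p S) (hGen : GenS p S N)
    (hSq : ∀ b, SqZ p S (N b)) {S' : Subgroup (GL l F)}
    (hS' : ∀ (σ : F ≃+* F), ∀ g ∈ S', glMap σ g ∈ S') (inc : H →* Matrix l l F)
    (hinc : ∀ u : GL l F, u ∈ S F ↔ ∃ h, inc h = u.1) (D : Set (GL l F))
    (hD : ∀ t ∈ S' ⊓ Dg l F, t ∈ D)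
    (hDn : ∀ t ∈ D, ∀ (T : Type) [CommRing T] (f : F →+* T), ∀ u ∈ S T,
      GeneralLinearGroup.map f t * u * (GeneralLinearGroup.map f t)⁻¹ ∈ S T)
    (hZ : ∀ (ι : Type) [Finite ι] (b : Bool) (R : (ι → Matrix l l F) ≃+* (ι → Matrix l l F)),
      FormG D R → ∀ z ∈ ZII p ι l F N b, R z ∈ ZII p ι l F N b) :
    LangOf p inc (AD S' hS').subtype (stdD hS') := by
  intro κ _
  refine ⟨GII p κ l F S hS, ?_, h2.l1 p κ l F S hS hLang, ?_⟩
  · intro b
    rw [h2.pt p κ l F S hS b]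
    refine forall_congr' fun k => ?_
    rw [hinc]
    rfl
  · intro Q _ _ ρ hρ
    have hform : ∀ q, FormG D (ρ q) := by
      intro q
      obtain ⟨π, x, hx, h⟩ := hρ q
      choose t ht σ hσ using fun k => Subgroup.mem_subgroupOf.1 (hx k)
      refine ⟨π, t, σ, fun k => hD _ (ht k), ?_⟩
      intro z k
      rw [h]
      change (x k).1 (z k) = _
      have h3 : ((x k).1 : RingAut (Matrix l l F)) = cjR (t k) (σ k) := hσ k
      rw [h3]
      rfl
    refine ⟨h2.st p κ l F S hS D hDn Q ρ hform, Module.finrank (ZMod p) F, Bool, ZII p κ l F N,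
      Module.finrank_pos, h2.lm p κ l F S hS hLang, h2.g p κ l F S hS N hGen, ?_, ?_⟩
    · intro b q z hz
      exact hZ κ b (ρ q) (hform q) z hz
    · intro b
      exact h2.p p κ l F S hS N b (hSq b) Q ρ

/-- **`SL_2`.** -/
theorem langOf_SL2 (h2 : StmtsII) (hFn : FnStmt) (hLSL : LangS p (SLf (Fin 2)))
    (hG : GSLStmt) (hSq : Sq2Stmt) (hZSt : ZStStmt) :
    LangOf p (inc2 F) (A2 F).subtype (D2 F) := by
  obtain ⟨z1, -, -, z4⟩ := hZSt p F
  refine langOf_AD h2 (SLf (Fin 2)) (hFn (Fin 2)).1 (NSL p 2) hLSL (hG p 2 le_rfl) (hSq p) _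
    (inc2 F) ?_ (DG (Fin 2) F) ?_ (fun t _ T _ f u hu => z4 (Fin 2) t T f u hu)
    (fun ι _ b R hR z hz => z1 ι 2 b R hR z hz)
  · intro u
    rw [mem_SLf]
    constructor
    · intro h
      exact ⟨⟨u.1, h⟩, rfl⟩
    · rintro ⟨h, hh⟩
      rw [← hh]
      exact h.2
  · rintro t ⟨-, d, hd⟩
    exact ⟨d, hd⟩

/-- **`Sp_2n`.** -/
theorem langOf_Sp (h2 : StmtsII) (hFn : FnStmt) {n : ℕ} (hLang : LangS p (Spf (Fin n)))
    (hG : GenS p (Spf (Fin n)) (NSp p (Fin n)))
    (hSq : ∀ b, SqZ p (Spf (Fin n)) (NSp p (Fin n) b)) (hZSt : ZStStmt) (hn : 0 < n) :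
    LangOf p (incS n F) (AG n F).subtype (DSp n F) := by
  obtain ⟨-, z2, z3, -⟩ := hZSt p F
  refine langOf_AD h2 (Spf (Fin n)) (hFn (Fin n)).2.2 (NSp p (Fin n)) hLang hG hSq _
    (incS n F) ?_ (DGSp (Fin n) F) ?_ (fun t ht T _ f u hu => z3 (Fin n) t ht T f u hu)
    (fun ι _ b R hR z hz => z2 ι (Fin n) b R hR z hz)
  · intro u
    rw [mem_Spf]
    constructor
    · intro h
      exact ⟨⟨u.1, h⟩, rfl⟩
    · rintro ⟨h, hh⟩
      rw [← hh]
      exact h.2
  · rintro t ⟨⟨c, hc, hg⟩, d, hd⟩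
    refine ⟨fun i => d (Sum.inl i), fun i => d (Sum.inr i), c, hc, ?_, ?_⟩
    · intro i
      have h4 : ∀ (z : Fin n ⊕ Fin n → F) (a : Fin n ⊕ Fin n), (t.1 *ᵥ z) a = d a * z a := by
        intro z a
        rw [hd]
        exact mulVec_diagonal _ _ _
      have h5 := hg (Pi.single (Sum.inl i) 1) (Pi.single (Sum.inr i) 1)
      have h6 : ∀ x y : Fin n ⊕ Fin n → F, om (t.1 *ᵥ x) (t.1 *ᵥ y) =
          ∑ i, (d (Sum.inl i) * x (Sum.inl i) * (d (Sum.inr i) * y (Sum.inr i)) -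
            d (Sum.inr i) * x (Sum.inr i) * (d (Sum.inl i) * y (Sum.inl i))) := by
        intro x y
        rw [om_eq]
        refine Finset.sum_congr rfl fun j _ => ?_
        rw [h4, h4, h4, h4]
      rw [h6, om_eq, Finset.sum_eq_single i, Finset.sum_eq_single i] at h5
      · rw [Pi.single_eq_same, Pi.single_eq_same,
          Pi.single_eq_of_ne (Sum.inr_ne_inl : (Sum.inr i : Fin n ⊕ Fin n) ≠ Sum.inl i),
          mul_zero, zero_mul, sub_zero, mul_one, mul_one, zero_mul, sub_zero, mul_one,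
          mul_one] at h5
        exact h5
      · intro b _ hb
        rw [Pi.single_eq_of_ne (fun h => hb (Sum.inl_injective h)),
          Pi.single_eq_of_ne (Sum.inr_ne_inl : (Sum.inr b : Fin n ⊕ Fin n) ≠ Sum.inl i)]
        ring
      · intro h
        exact absurd (Finset.mem_univ _) h
      · intro b _ hb
        rw [Pi.single_eq_of_ne (fun h => hb (Sum.inl_injective h)),
          Pi.single_eq_of_ne (Sum.inr_ne_inl : (Sum.inr b : Fin n ⊕ Fin n) ≠ Sum.inl i)]
        ring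
      · intro h
        exact absurd (Finset.mem_univ _) h
    · rw [hd]
      congr 1
      funext a
      cases a <;> rfl

end

end MP7Z
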