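import Pool.Agent.Lib.MP_7f581e_Z.Types.SpecA

/-! # Step Lie, types: Lang's theorem for the powers of the Frobenius, type II (`LMIIStmt`) -/

set_option autoImplicit false

namespace MP7Z

open TensorProduct MP7fS MP7fU Matrix

theorem tyLMII (h : CoStmt) : LMIIStmt := by
  intro p _ ι l F _ _ _ _ _ _ S hS hL k _ _ _ _ _ m hm hdm c hc
  obtain ⟨τ⟩ : Nonempty (F →ₐ[ZMod p] k) := by
    haveI : Algebra.IsAlgebraic (ZMod p) F := Algebra.IsAlgebraic.of_finite (ZMod p) F
    exact ⟨IsAlgClosed.lift⟩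
  obtain ⟨c1, c2, c3, c4, c5, c6⟩ := h p ι l F k (τ : F →+* k)
  have hper : ∀ (u : (k ⊗[ZMod p] (ι → Matrix l l F))ˣ) (i : ι) (j t : ℕ),
      co (p := p) (τ : F →+* k) i (j + Module.finrank (ZMod p) F * t) u =
        co (p := p) (τ : F →+* k) i j u := by
    intro u i j t
    induction t with
    | zero => rw [Nat.mul_zero, Nat.add_zero]
    | succ t ih =>
      rw [Nat.mul_succ, ← Nat.add_assoc, c1, ih]
  have hc' : cstu k c ∈ (GII p ι l F S hS).H k := by
    have h1 := (GII p ι l F S hS).map (ZMod p) k (algebraMap (ZMod p) k) _ hc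
    have h2 : tu (p := p) (algebraMap (ZMod p) k) (RingHom.id (ι → Matrix l l F))
        (cstu (ZMod p) c) = cstu k c := by
      apply Units.ext
      change (algebraMap (ZMod p) k 1) ⊗ₜ[ZMod p] (c : ι → Matrix l l F) =
        (1 : k) ⊗ₜ[ZMod p] (c : ι → Matrix l l F)
      rw [map_one]
    rw [h2] at h1
    exact h1
  have hex : ∀ (i : ι) (j : Fin (Module.finrank (ZMod p) F)), ∃ x ∈ S k,
      GeneralLinearGroup.map (iterateFrobenius k p m) x =
        (co (p := p) (τ : F →+* k) i j (cstu k c))⁻¹ * x := fun i j =>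
    hL k m hm _ (inv_mem ((c5 S hS _).1 hc' i j))
  choose x hxS hx using hex
  obtain ⟨y, hy, -⟩ := c3 (fun i j => (x i j)⁻¹)
  refine ⟨y, ?_, ?_⟩
  · refine (c5 S hS y).2 fun i j => ?_
    rw [hy i j]
    exact inv_mem (hxS i j)
  · refine (c3 (fun i j => co (p := p) (τ : F →+* k) i j (fru m k y))).unique (fun i j => rfl) ?_
    intro i j
    obtain ⟨t, ht⟩ := hdm
    have h1 : co (p := p) (τ : F →+* k) i (j : ℕ) (fru m k y) =
        GeneralLinearGroup.map (iterateFrobenius k p m) (co (p := p) (τ : F →+* k) i j y) := by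
      rw [← c2 y i j m, ht, hper]
    rw [h1, hy i j, map_mul, hy i j, map_inv, hx i j, _root_.mul_inv_rev, inv_inv]

end MP7Z
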