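import Pool.Agent.Lib.MP_7f581e_Z.Types.SpecA

/-!
# Types, task PII: parametrization for type II
-/

set_option autoImplicit false

namespace MP7Z

open TensorProduct MP7fS MP7fU Matrix

theorem tyPII (h1 : THbStmt) (h2 : ZTHStmt) : PIIStmt := by
  intro p _ ι l F _ _ _ _ _ _ S hS N b hSq Q _ _ ρ R _ _ a c₀ z hz hinv
  have hcomp := h2 p ι l F N b R z hz
  have hzz : z * z = 0 := by
    apply (h1 p ι l F R).1
    rw [map_mul, map_zero]
    funext i
    exact (hSq (R ⊗[ZMod p] F) _ (hcomp i)).1
  let g : (R ⊗[ZMod p] (ι → Matrix l l F))ˣ :=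
    { val := 1 + z
      inv := 1 - z
      val_inv := by
        have h3 : (1 + z) * (1 - z) = 1 - z * z := by noncomm_ring
        rw [h3, hzz, sub_zero]
      inv_val := by
        have h3 : (1 - z) * (1 + z) = 1 - z * z := by noncomm_ring
        rw [h3, hzz, sub_zero] }
  refine ⟨g, ?_, fun q => ?_, fun k _ _ π _ _ => ?_⟩
  · intro i
    refine (hSq (R ⊗[ZMod p] F) _ (hcomp i)).2 _ ?_
    rw [coe_cmp]
    change TH (p := p) R (1 + z) i = 1 + TH (p := p) R z i
    rw [map_add, map_one]
    rfl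
  · apply Units.ext
    rw [coe_tu]
    change tmap (p := p) (a q : R →+* R) _ (1 + z) = 1 + z
    rw [map_add, map_one, hinv q]
  · change tmap (p := p) π _ (1 + z) = 1 + tmap π _ z
    rw [map_add, map_one]

end MP7Z
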