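import Pool.Agent.Lib.MP_7f581e_Z.Types.SpecA

/-! # Step Lie, types: the points of type II (PtII) -/

set_option autoImplicit false

namespace MP7Z

open TensorProduct MP7fS MP7fU Matrix

theorem ptII_cmp {p : ℕ} [Fact p.Prime] {ι l F : Type} [Finite ι] [Fintype l] [DecidableEq l]
    [Field F] [Finite F] [Algebra (ZMod p) F] (b : (ι → Matrix l l F)ˣ) (i : ι) :
    cmp (p := p) (ZMod p) i (cstu (ZMod p) b) =
      GeneralLinearGroup.map
        ((Algebra.TensorProduct.includeRight : F →ₐ[ZMod p] ZMod p ⊗[ZMod p] F) :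
          F →+* ZMod p ⊗[ZMod p] F)
        (Units.map (Pi.evalRingHom (fun _ : ι => Matrix l l F) i :
          (ι → Matrix l l F) →* Matrix l l F) b : GL l F) := by
  apply Units.ext
  rw [coe_cmp, coe_cstu, TH_tmul]
  rfl

theorem tyPtII : PtIIStmt := by
  intro p _ ι l F _ _ _ _ _ _ S hS b
  have hinj : Function.Injective
      (Algebra.TensorProduct.includeRight : F →ₐ[ZMod p] ZMod p ⊗[ZMod p] F) :=
    Algebra.TensorProduct.includeRight_injective (algebraMap (ZMod p) (ZMod p)).injective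
  have h0 : b ∈ (GII p ι l F S hS).pts ↔ ∀ i, cmp (p := p) (ZMod p) i (cstu (ZMod p) b) ∈
      S (ZMod p ⊗[ZMod p] F) := Iff.rfl
  rw [h0]
  constructor
  · intro h i
    have h1 := h i
    rw [ptII_cmp] at h1
    refine hS.inj F Unit (fun _ => ZMod p ⊗[ZMod p] F)
      (fun _ => ((Algebra.TensorProduct.includeRight : F →ₐ[ZMod p] ZMod p ⊗[ZMod p] F) :
          F →+* ZMod p ⊗[ZMod p] F)) ?_ _ (fun _ => h1)
    intro a c hac
    exact hinj (hac ())
  · intro h i
    rw [ptII_cmp]
    exact hS.map _ _ _ _ (h i)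

end MP7Z
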