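import Pool.Agent.Lib.MP_7f581e_Z.Types.Defs
import Pool.Agent.Lib.MP_7f581e_ntP.Gen
import Pool.Agent.Lib.MP_640417_ag.Four.Darboux

/-!
# The symplectic group at matrix level: normal form of alternating matrices, unipotent generators
-/

namespace MP7Z

open Matrix

/-! ### Siegel blocks over commutative rings -/

section ring

variable {n : ℕ} {T : Type*} [CommRing T]

/-- The upper block. -/
def upB (X : Matrix (Fin n) (Fin n) T) : Matrix (Fin n ⊕ Fin n) (Fin n ⊕ Fin n) T :=
  fromBlocks 0 X 0 0

/-- The lower block. -/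
def loB (X : Matrix (Fin n) (Fin n) T) : Matrix (Fin n ⊕ Fin n) (Fin n ⊕ Fin n) T :=
  fromBlocks 0 0 X 0

theorem upB_mul (X Y : Matrix (Fin n) (Fin n) T) : upB X * upB Y = 0 := by
  simp [upB, fromBlocks_multiply]

theorem loB_mul (X Y : Matrix (Fin n) (Fin n) T) : loB X * loB Y = 0 := by
  simp [loB, fromBlocks_multiply]

theorem upB_mem (X : Matrix (Fin n) (Fin n) T) (hX : Xᵀ = X) :
    1 + upB X ∈ symplecticGroup (Fin n) T := by
  have h : 1 + upB X = fromBlocks 1 X 0 1 := by
    rw [upB, ← fromBlocks_one, fromBlocks_add]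
    simp
  rw [h, SymplecticGroup.fromBlocks_mem_iff]
  refine ⟨?_, ?_, ?_⟩
  · rw [mul_zero, transpose_zero, zero_mul]
  · rw [mul_one, transpose_one, one_mul, hX]
  · rw [transpose_one, one_mul, transpose_zero, zero_mul, sub_zero]

theorem loB_mem (X : Matrix (Fin n) (Fin n) T) (hX : Xᵀ = X) :
    1 + loB X ∈ symplecticGroup (Fin n) T := by
  have h : 1 + loB X = fromBlocks 1 0 X 1 := by
    rw [loB, ← fromBlocks_one, fromBlocks_add]
    simp
  rw [h, SymplecticGroup.fromBlocks_mem_iff]
  refine ⟨?_, ?_, ?_⟩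
  · rw [mul_one, transpose_one, one_mul, hX]
  · rw [transpose_zero, zero_mul, mul_zero]
  · rw [transpose_one, one_mul, mul_zero, sub_zero]

end ring

/-! ### Generators -/

section gen

variable {n : ℕ} {k : Type*} [Field k]

theorem tm_up (a : Fin n → k) (t : k) :
    MP7fP.tm (Sum.elim a 0) t = 1 + upB (-(t • vecMulVec a a)) := by
  ext i j
  rcases i with i | i <;> rcases j with j | j <;>
    simp [MP7fP.tm, MP7fP.dv, upB, vecMulVec_apply, one_apply]

theorem tm_lo (b : Fin n → k) (t : k) :
    MP7fP.tm (Sum.elim 0 b) t = 1 + loB (t • vecMulVec b b) := by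
  ext i j
  rcases i with i | i <;> rcases j with j | j <;>
    simp [MP7fP.tm, MP7fP.dv, loB, vecMulVec_apply, one_apply]

theorem vecMulVec_symm (a : Fin n → k) (t : k) : (t • vecMulVec a a)ᵀ = t • vecMulVec a a := by
  ext i j
  simp [vecMulVec_apply, mul_comm]

/-- The symplectic group over a field is generated by the Siegel unipotents. -/
theorem genSp (hn : 0 < n) : Subgroup.closure {g : symplecticGroup (Fin n) k |
    (∃ X : Matrix (Fin n) (Fin n) k, Xᵀ = X ∧ g.1 = 1 + upB X) ∨
      ∃ X : Matrix (Fin n) (Fin n) k, Xᵀ = X ∧ g.1 = 1 + loB X} = ⊤ := by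
  have hup : ∀ (a : Fin n → k) (t : k), MP7fP.T (Sum.elim a 0) t ∈
      Subgroup.closure {g : symplecticGroup (Fin n) k |
    (∃ X : Matrix (Fin n) (Fin n) k, Xᵀ = X ∧ g.1 = 1 + upB X) ∨
      ∃ X : Matrix (Fin n) (Fin n) k, Xᵀ = X ∧ g.1 = 1 + loB X} := by
    intro a t
    apply Subgroup.subset_closure
    left
    refine ⟨-(t • vecMulVec a a), ?_, tm_up a t⟩
    rw [transpose_neg, vecMulVec_symm]
  have hlo : ∀ (a : Fin n → k) (t : k), MP7fP.T (Sum.elim 0 a) t ∈
      Subgroup.closure {g : symplecticGroup (Fin n) k |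
    (∃ X : Matrix (Fin n) (Fin n) k, Xᵀ = X ∧ g.1 = 1 + upB X) ∨
      ∃ X : Matrix (Fin n) (Fin n) k, Xᵀ = X ∧ g.1 = 1 + loB X} := by
    intro a t
    apply Subgroup.subset_closure
    right
    exact ⟨t • vecMulVec a a, vecMulVec_symm a t, tm_lo a t⟩
  have he : ∀ i, (MP7fP.eb i : Fin n ⊕ Fin n → k) = Sum.elim (Pi.single i 1) (0 : Fin n → k) := by
    intro i
    ext j
    rcases j with j | j <;> simp [MP7fP.eb, Pi.single_apply]
  have hf : ∀ i, (MP7fP.fb i : Fin n ⊕ Fin n → k) = Sum.elim (0 : Fin n → k) (Pi.single i 1) := by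
    intro i
    ext j
    rcases j with j | j <;> simp [MP7fP.fb, Pi.single_apply]
  refine MP7fP.gen (o := ⟨0, hn⟩) ?_ ?_ ?_
  · intro i t
    rw [he]; exact hup _ _
  · intro i t
    rw [hf]; exact hlo _ _
  · intro i _ t
    have h1 : (MP7fP.eb ⟨0, hn⟩ + MP7fP.eb i : Fin n ⊕ Fin n → k) =
        Sum.elim (Pi.single ⟨0, hn⟩ 1 + Pi.single i 1) (0 : Fin n → k) := by
      rw [he, he]
      ext j
      rcases j with j | j
      · rfl
      · simp
    rw [h1]
    exact hup _ _

end gen

/-! ### The normal form -/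

section alt

variable {l : Type} [Fintype l] [DecidableEq l] {k : Type} [Field k]

theorem altNF (h : Matrix (l ⊕ l) (l ⊕ l) k) (halt : ∀ v, v ⬝ᵥ h *ᵥ v = 0)
    (hdet : IsUnit h.det) : ∃ c : Matrix (l ⊕ l) (l ⊕ l) k, IsUnit c.det ∧
      h = cᵀ * J l k * c := by
  set form : LinearMap.BilinForm k (l ⊕ l → k) := Matrix.toBilin' h with hform
  have hfa : ∀ x y, form x y = x ⬝ᵥ h *ᵥ y := fun x y => Matrix.toBilin'_apply' h x y
  have h1 : ∀ x, form x x = 0 := fun x => by rw [hfa, halt]
  have h2 : ∀ x, (∀ y, form x y = 0) → x = 0 := by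
    intro x hx
    have h3 : x ᵥ* h = 0 := by
      ext j
      have h4 := hx (Pi.single j 1)
      rw [hfa, dotProduct_mulVec, dotProduct_single_one] at h4
      exact h4
    have h4 : x ᵥ* h ᵥ* h⁻¹ = x := by
      rw [vecMul_vecMul, mul_nonsing_inv _ hdet, vecMul_one]
    rw [← h4, h3, zero_vecMul]
  obtain ⟨m, e, f, -, -, -, -, -, hef, hee, hff, hspan⟩ :=
    Pool.Agent.Lib.MP_640417_ag.Four.Darboux_claim form h1 Unit id (fun _ => 1) (fun _ => rfl)
      (by simp) (fun _ => rfl) (fun b b' hb => absurd (Subsingleton.elim b b') hb)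
      (fun _ x y => rfl) _ ⊤ rfl (fun _ _ _ => Submodule.mem_top)
      (fun x _ hx => h2 x fun y => hx y Submodule.mem_top)
  have hspan' : Submodule.span k (Set.range (Sum.elim f e)) = ⊤ := by
    rw [Set.Sum.elim_range, Set.union_comm]
    exact top_le_iff.1 hspan
  have hfe : ∀ i j, form (f i) (e j) = if i = j then -1 else 0 := by
    intro i j
    rw [Pool.Agent.Lib.MP_640417_ag.Four.Darboux_anti h1 (e j) (f i), hef]
    by_cases hij : i = j
    · subst hij; simp
    · rw [if_neg hij, if_neg (fun h => hij h.symm), neg_zero]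
  have hli : LinearIndependent k (Sum.elim f e) := by
    rw [Fintype.linearIndependent_iff]
    intro g hg
    have h5 : ∀ j, g (Sum.inl j) = 0 := by
      intro j
      have h6 := congrArg (fun v => form (e j) v) hg
      simp only [map_add, map_sum, map_smul, Fintype.sum_sum_type, Sum.elim_inl, Sum.elim_inr, hef,
        hee, smul_eq_mul, mul_ite, mul_one, mul_zero, Finset.sum_const_zero, add_zero, map_zero,
        Finset.sum_ite_eq, Finset.mem_univ, if_true] at h6
      exact h6
    have h6 : ∀ j, g (Sum.inr j) = 0 := by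
      intro j
      have h7 := congrArg (fun v => form (f j) v) hg
      simp only [map_add, map_sum, map_smul, Fintype.sum_sum_type, Sum.elim_inl, Sum.elim_inr, hfe,
        hff, smul_eq_mul, mul_ite, mul_one, mul_zero, Finset.sum_const_zero, zero_add, map_zero,
        Finset.sum_ite_eq, Finset.mem_univ, if_true, mul_neg, neg_eq_zero] at h7
      exact h7
    rintro (j | j)
    · exact h5 j
    · exact h6 j
  have hcard : Fintype.card l = m := by
    let b := Module.Basis.mk hli hspan'.ge
    have h8 := Module.finrank_eq_card_basis b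
    rw [Module.finrank_fintype_fun_eq_card, Fintype.card_sum, Fintype.card_sum, Fintype.card_fin]
      at h8
    omega
  let ε : l ≃ Fin m := Fintype.equivFinOfCardEq hcard
  set P : Matrix (l ⊕ l) (l ⊕ l) k :=
    Matrix.of fun i j => (Sum.elim (fun a => f (ε a)) (fun a => e (ε a))) j i with hP
  have hgram : Pᵀ * h * P = J l k := by
    ext i j
    have h9 : (Pᵀ * h * P) i j = form ((Sum.elim (fun a => f (ε a)) (fun a => e (ε a))) i)
        ((Sum.elim (fun a => f (ε a)) (fun a => e (ε a))) j) := by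
      rw [hfa, mul_assoc, mul_apply, dotProduct]
      refine Finset.sum_congr rfl fun a _ => ?_
      rw [transpose_apply, mul_apply]
      rfl
    rw [h9]
    rcases i with i | i <;> rcases j with j | j
    · simp [hff, J]
    · simp only [Sum.elim_inl, Sum.elim_inr, hfe, J, fromBlocks_apply₁₂, Matrix.neg_apply,
        Matrix.one_apply, ε.injective.eq_iff]
      split_ifs <;> simp
    · simp only [Sum.elim_inl, Sum.elim_inr, hef, J, fromBlocks_apply₂₁, Matrix.one_apply,
        ε.injective.eq_iff]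
    · simp [hee, J]
  have hPdet : IsUnit P.det := by
    have h10 : IsUnit (Pᵀ * h * P).det := by
      rw [hgram]
      exact isUnit_det_J l k
    rw [det_mul, det_mul] at h10
    exact isUnit_of_mul_isUnit_right h10
  refine ⟨P⁻¹, ?_, ?_⟩
  · exact isUnit_nonsing_inv_det _ hPdet
  · rw [← hgram]
    have h11 : P⁻¹ᵀ * Pᵀ = 1 := by
      rw [← transpose_mul, mul_nonsing_inv _ hPdet, transpose_one]
    have h12 : P * P⁻¹ = 1 := mul_nonsing_inv _ hPdet
    calc h = (P⁻¹ᵀ * Pᵀ) * h * (P * P⁻¹) := by rw [h11, h12, one_mul, mul_one]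
      _ = P⁻¹ᵀ * (Pᵀ * h * P) * P⁻¹ := by simp only [Matrix.mul_assoc]

theorem J_alt {T : Type} [CommRing T] (w : l ⊕ l → T) : w ⬝ᵥ J l T *ᵥ w = 0 := by
  simp only [dotProduct, mulVec, J, Fintype.sum_sum_type, fromBlocks_apply₁₁, fromBlocks_apply₁₂,
    fromBlocks_apply₂₁, fromBlocks_apply₂₂, Matrix.zero_apply, Matrix.neg_apply, Matrix.one_apply]
  simp [mul_comm]

end alt

/-! ### The statements for the types -/

section types

variable {p : ℕ} [Fact p.Prime] {l : Type} [Fintype l] [DecidableEq l]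

theorem J_map {T T' : Type} [CommRing T] [CommRing T'] (f : T →+* T') :
    (J l T).map f = J l T' := by
  ext i j
  rcases i with i | i <;> rcases j with j | j <;>
    simp [J, Matrix.one_apply, apply_ite f]

/-- Lang's theorem for the symplectic groups. -/
theorem langSpf (hGL : LangS p (GLf (l ⊕ l))) : LangS p (Spf l) := by
  intro k _ _ _ m hm g hg
  obtain ⟨x, -, hx⟩ := hGL k m hm g trivial
  set φ : k →+* k := iterateFrobenius k p m with hφ
  have hxm : (x : Matrix (l ⊕ l) (l ⊕ l) k).map φ = (g : Matrix (l ⊕ l) (l ⊕ l) k) * x := by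
    have h1 := congrArg Units.val hx
    exact h1
  set X : Matrix (l ⊕ l) (l ⊕ l) k := (x : Matrix (l ⊕ l) (l ⊕ l) k) with hX
  set G : Matrix (l ⊕ l) (l ⊕ l) k := (g : Matrix (l ⊕ l) (l ⊕ l) k) with hG
  have hGJ : Gᵀ * J l k * G = J l k := SymplecticGroup.mem_iff'.1 (mem_Spf.1 hg)
  set h : Matrix (l ⊕ l) (l ⊕ l) k := Xᵀ * J l k * X with hh
  have hfix : h.map φ = h := by
    rw [hh, Matrix.map_mul, Matrix.map_mul, J_map, Matrix.transpose_map, hxm]
    calc (G * X)ᵀ * J l k * (G * X) = Xᵀ * (Gᵀ * J l k * G) * X := by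
          rw [transpose_mul]; simp only [Matrix.mul_assoc]
      _ = _ := by rw [hGJ]
  let K₀ : Subfield k := φ.eqLocusField (RingHom.id k)
  have hmem : ∀ i j, h i j ∈ K₀ := by
    intro i j
    have h1 := congrFun (congrFun hfix i) j
    exact h1
  let h₀ : Matrix (l ⊕ l) (l ⊕ l) K₀ := Matrix.of fun i j => ⟨h i j, hmem i j⟩
  let ι : K₀ →+* k := K₀.subtype
  have hι : h₀.map ι = h := by
    ext i j
    rfl
  have halt : ∀ v, v ⬝ᵥ h₀ *ᵥ v = 0 := by
    intro v
    apply ι.injective
    rw [map_zero]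
    have h1 : ι (v ⬝ᵥ h₀ *ᵥ v) = (ι ∘ v) ⬝ᵥ h *ᵥ (ι ∘ v) := by
      rw [RingHom.map_dotProduct, ← hι]
      congr 1
      ext i
      exact RingHom.map_mulVec ι h₀ v i
    rw [h1, hh]
    have h2 : (Xᵀ * J l k * X) *ᵥ (ι ∘ v) = Xᵀ *ᵥ (J l k *ᵥ (X *ᵥ (ι ∘ v))) := by
      rw [mulVec_mulVec, mulVec_mulVec, Matrix.mul_assoc]
    rw [h2, dotProduct_mulVec, vecMul_transpose]
    exact J_alt _
  have hXdet : IsUnit X.det := (Matrix.isUnit_iff_isUnit_det _).1 x.isUnit
  have hdet : IsUnit h₀.det := by
    rw [isUnit_iff_ne_zero]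
    intro h0
    have h1 : ι h₀.det = h.det := by
      rw [← hι, RingHom.map_det]
      rfl
    rw [h0, map_zero, hh, det_mul, det_mul, det_transpose] at h1
    have h2 : IsUnit (X.det * (J l k).det * X.det) :=
      (hXdet.mul (isUnit_det_J l k)).mul hXdet
    rw [← h1] at h2
    exact not_isUnit_zero h2
  obtain ⟨c, hc, hnf⟩ := altNF h₀ halt hdet
  have hc' : IsUnit (c.map ι).det := by
    have h1 : (c.map ι).det = ι c.det := by
      rw [RingHom.map_det]
      rfl
    rw [h1]
    exact hc.map ι
  have hnf' : h = (c.map ι)ᵀ * J l k * c.map ι := by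
    rw [← hι, hnf, Matrix.map_mul, Matrix.map_mul, J_map, Matrix.transpose_map]
  let C : GL (l ⊕ l) k := GeneralLinearGroup.mk'' (c.map ι) hc'
  have hC : (C : Matrix (l ⊕ l) (l ⊕ l) k) = c.map ι := rfl
  have hCfix : GeneralLinearGroup.map φ C = C := by
    apply Units.ext
    ext i j
    exact (c i j).2
  refine ⟨x * C⁻¹, ?_, ?_⟩
  · rw [mem_Spf, SymplecticGroup.mem_iff']
    have h1 : (C : Matrix (l ⊕ l) (l ⊕ l) k) * ((C⁻¹ : GL (l ⊕ l) k) : Matrix (l ⊕ l) (l ⊕ l) k) = 1 :=
      congrArg Units.val (mul_inv_cancel C)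
    set D : Matrix (l ⊕ l) (l ⊕ l) k := ((C⁻¹ : GL (l ⊕ l) k) : Matrix (l ⊕ l) (l ⊕ l) k) with hD
    have h2 : ((x * C⁻¹ : GL (l ⊕ l) k) : Matrix (l ⊕ l) (l ⊕ l) k) = X * D := rfl
    rw [h2, transpose_mul]
    calc Dᵀ * Xᵀ * J l k * (X * D) = Dᵀ * h * D := by rw [hh]; simp only [Matrix.mul_assoc]
      _ = (c.map ι * D)ᵀ * J l k * (c.map ι * D) := by
          rw [hnf', transpose_mul]; simp only [Matrix.mul_assoc]
      _ = J l k := by rw [← hC, h1, transpose_one, Matrix.one_mul, Matrix.mul_one]
  · rw [map_mul, map_inv, hCfix, hx, mul_assoc]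

/-- The Siegel blocks as a linear map. -/
def blk (b : Bool) (T : Type) [CommRing T] (l : Type) [Fintype l] [DecidableEq l] :
    Matrix l l T →ₗ[T] Matrix (l ⊕ l) (l ⊕ l) T where
  toFun X := if b then fromBlocks 0 0 X 0 else fromBlocks 0 X 0 0
  map_add' X Y := by cases b <;> simp [fromBlocks_add]
  map_smul' r X := by cases b <;> simp [fromBlocks_smul]

/-- The matrices spanned by the Siegel blocks. -/
theorem mem_ZN_Sp {T : Type} [CommRing T] [Algebra (ZMod p) T] (b : Bool)
    (z : Matrix (l ⊕ l) (l ⊕ l) T) : z ∈ ZN (NSp p l b) T ↔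
      ∃ X : Matrix l l T, Xᵀ = X ∧ z = if b then fromBlocks 0 0 X 0 else fromBlocks 0 X 0 0 := by
  constructor
  · intro hz
    unfold ZN at hz
    induction hz using Submodule.span_induction with
    | mem z hz =>
      obtain ⟨M, ⟨X, hX, rfl⟩, rfl⟩ := hz
      refine ⟨X.map (algebraMap (ZMod p) T), ?_, ?_⟩
      · rw [← Matrix.transpose_map, hX]
      · cases b
        · simp [fromBlocks_map]
        · simp [fromBlocks_map]
    | zero => exact ⟨0, transpose_zero, by cases b <;> simp⟩
    | add z w _ _ hz hw =>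
      obtain ⟨X, hX, rfl⟩ := hz
      obtain ⟨Y, hY, rfl⟩ := hw
      refine ⟨X + Y, by rw [transpose_add, hX, hY], ?_⟩
      cases b <;> simp [fromBlocks_add]
    | smul r z _ hz =>
      obtain ⟨X, hX, rfl⟩ := hz
      refine ⟨r • X, by rw [transpose_smul, hX], ?_⟩
      cases b <;> simp [fromBlocks_smul]
  · rintro ⟨X, hX, rfl⟩
    classical
    let ε := Fintype.equivFin l
    set W : Submodule T (Matrix l l T) := (ZN (NSp p l b) T).comap (blk b T l) with hW
    have hmem : ∀ M : Matrix l l (ZMod p), Mᵀ = M → M.map (algebraMap (ZMod p) T) ∈ W := by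
      intro M hM
      rw [hW, Submodule.mem_comap]
      refine Submodule.subset_span ⟨_, ⟨M, hM, rfl⟩, ?_⟩
      cases b
      · simp [blk, fromBlocks_map]
      · simp [blk, fromBlocks_map]
    let U : Matrix l l T := Matrix.of fun i j => if ε i < ε j then X i j else 0
    have hsing : ∀ i j : l, (Matrix.single i j (1 : ZMod p)).map (algebraMap (ZMod p) T) =
        Matrix.single i j 1 := by
      intro i j
      rw [Matrix.map_single]
      simp
    have hdec : X = (∑ i, X i i • (Matrix.single i i (1 : ZMod p)).map (algebraMap (ZMod p) T)) +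
        ∑ i, ∑ j, U i j •
          (Matrix.single i j (1 : ZMod p) + Matrix.single j i 1).map (algebraMap (ZMod p) T) := by
      have h1 : ∀ i j : l, (Matrix.single i j (1 : ZMod p) + Matrix.single j i 1).map
          (algebraMap (ZMod p) T) = Matrix.single i j (1 : T) + Matrix.single j i 1 := by
        intro i j
        rw [Matrix.map_add _ (map_add _), hsing, hsing]
      have h2 : ∑ i, ∑ j, U i j • (Matrix.single i j (1 : ZMod p) + Matrix.single j i 1).map
          (algebraMap (ZMod p) T) = U + Uᵀ := by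
        have h3 : ∑ i, ∑ j, U i j • Matrix.single i j (1 : T) = U := by
          conv_rhs => rw [Matrix.matrix_eq_sum_single U]
          refine Finset.sum_congr rfl fun i _ => Finset.sum_congr rfl fun j _ => ?_
          rw [Matrix.smul_single, smul_eq_mul, mul_one]
        have h4 : ∑ i, ∑ j, U i j • Matrix.single j i (1 : T) = Uᵀ := by
          conv_rhs => rw [Matrix.matrix_eq_sum_single Uᵀ]
          rw [Finset.sum_comm]
          refine Finset.sum_congr rfl fun i _ => Finset.sum_congr rfl fun j _ => ?_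
          rw [Matrix.smul_single, smul_eq_mul, mul_one, transpose_apply]
        simp only [h1, smul_add, Finset.sum_add_distrib, h3, h4]
      have h5 : ∑ i, X i i • (Matrix.single i i (1 : ZMod p)).map (algebraMap (ZMod p) T) =
          Matrix.diagonal fun i => X i i := by
        simp only [hsing]
        ext a b
        rw [Matrix.sum_apply, Finset.sum_eq_single a]
        · by_cases h : a = b
          · subst h; simp
          · simp [h, Matrix.diagonal_apply_ne _ h]
        · intro i _ hi
          simp [hi]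
        · intro h
          exact absurd (Finset.mem_univ a) h
      rw [h2, h5]
      ext i j
      have hx : X j i = X i j := congrFun (congrFun hX i) j
      rcases lt_trichotomy (ε i) (ε j) with h | h | h
      · have hne : i ≠ j := fun h' => by rw [h'] at h; exact lt_irrefl _ h
        simp [U, h, h.le, not_lt.2 h.le, Matrix.diagonal_apply_ne _ hne]
      · have hij : i = j := ε.injective h
        subst hij
        simp [U]
      · have hne : i ≠ j := fun h' => by rw [h'] at h; exact lt_irrefl _ h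
        simp [U, h, not_lt.2 h.le, Matrix.diagonal_apply_ne _ hne, hx]
    have hXW : X ∈ W := by
      rw [hdec]
      refine Submodule.add_mem _ (Submodule.sum_mem _ fun i _ => ?_)
        (Submodule.sum_mem _ fun i _ => Submodule.sum_mem _ fun j _ => ?_)
      · exact Submodule.smul_mem _ _ (hmem _ (transpose_single _ _ _))
      · refine Submodule.smul_mem _ _ (hmem _ ?_)
        rw [transpose_add, transpose_single, transpose_single, add_comm]
    exact hXW

/-- The elements `1 + z`. -/
theorem sqSpf (b : Bool) : SqZ p (Spf l) (NSp p l b) := by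
  intro T _ _ z hz
  obtain ⟨X, hX, rfl⟩ := (mem_ZN_Sp b z).1 hz
  constructor
  · cases b <;> simp [fromBlocks_multiply]
  · intro u hu
    rw [mem_Spf, hu, ← fromBlocks_one]
    cases b
    · simp only [Bool.false_eq_true, if_false, fromBlocks_add, add_zero, zero_add]
      rw [SymplecticGroup.fromBlocks_mem_iff]
      refine ⟨?_, ?_, ?_⟩
      · rw [mul_zero, transpose_zero, zero_mul]
      · rw [mul_one, transpose_one, one_mul, hX]
      · rw [transpose_one, one_mul, transpose_zero, zero_mul, sub_zero]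
    · simp only [if_true, fromBlocks_add, add_zero, zero_add]
      rw [SymplecticGroup.fromBlocks_mem_iff]
      refine ⟨?_, ?_, ?_⟩
      · rw [mul_one, transpose_one, one_mul, hX]
      · rw [transpose_zero, zero_mul, mul_zero]
      · rw [transpose_one, one_mul, mul_zero, sub_zero]

/-- Generation of the symplectic groups over fields. -/
theorem genSpf (n : ℕ) : GenS p (Spf (Fin n)) (NSp p (Fin n)) := by
  intro k _ _ u hu
  rcases Nat.eq_zero_or_pos n with hn | hn
  · subst hn
    have : u = 1 := by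
      apply Units.ext
      ext i
      rcases i with i | i <;> exact i.elim0
    rw [this]
    exact one_mem _
  · let f : symplecticGroup (Fin n) k →* GL (Fin n ⊕ Fin n) k :=
      { toFun := fun g => ⟨g.1, (g⁻¹).1, by
          have := congrArg Subtype.val (mul_inv_cancel g); exact this, by
          have := congrArg Subtype.val (inv_mul_cancel g); exact this⟩
        map_one' := by apply Units.ext; rfl
        map_mul' := fun g h => by apply Units.ext; rfl }
    have h1 : (⟨(u : Matrix _ _ k), mem_Spf.1 hu⟩ : symplecticGroup (Fin n) k) ∈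
        Subgroup.closure {g : symplecticGroup (Fin n) k |
          (∃ X : Matrix (Fin n) (Fin n) k, Xᵀ = X ∧ g.1 = 1 + upB X) ∨
          ∃ X : Matrix (Fin n) (Fin n) k, Xᵀ = X ∧ g.1 = 1 + loB X} := by
      rw [genSp hn]
      trivial
    have h2 := Subgroup.mem_map_of_mem f h1
    rw [MonoidHom.map_closure] at h2
    have h3 : f ⟨(u : Matrix _ _ k), mem_Spf.1 hu⟩ = u := Units.ext rfl
    rw [h3] at h2
    refine Subgroup.closure_mono ?_ h2
    rintro _ ⟨g, hg, rfl⟩
    rcases hg with ⟨X, hX, hg⟩ | ⟨X, hX, hg⟩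
    · have h4 : ((f g : GL (Fin n ⊕ Fin n) k) : Matrix _ _ k) - 1 = upB X := by
        change g.1 - 1 = upB X
        rw [hg, add_sub_cancel_left]
      refine ⟨?_, false, ?_⟩
      · rw [h4, upB_mul]
      · rw [h4, mem_ZN_Sp]
        exact ⟨X, hX, rfl⟩
    · have h4 : ((f g : GL (Fin n ⊕ Fin n) k) : Matrix _ _ k) - 1 = loB X := by
        change g.1 - 1 = loB X
        rw [hg, add_sub_cancel_left]
      refine ⟨?_, true, ?_⟩
      · rw [h4, loB_mul]
      · rw [h4, mem_ZN_Sp]
        exact ⟨X, hX, rfl⟩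

end types

end MP7Z
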