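import Pool.Agent.Lib.MP_7f581e_Z.Types.SpecA

/-!
# Types, `Sq2`: strictly triangular matrices of size two
-/

set_option autoImplicit false

namespace MP7Z

open TensorProduct MP7fS MP7fU Matrix

theorem tySq2 : Sq2Stmt := by
  intro p _ b T _ _ z hz
  have key : ∃ (i j : Fin 2) (t : T), i ≠ j ∧ z = Matrix.single i j t := by
    have hN : ∃ i j : Fin 2, i ≠ j ∧ ∀ M ∈ NSL p 2 b, M = Matrix.single i j 1 := by
      cases b
      · refine ⟨0, 1, by decide, ?_⟩
        rintro M ⟨i, j, hij, rfl⟩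
        fin_cases i <;> fin_cases j <;> simp at hij ⊢
      · refine ⟨1, 0, by decide, ?_⟩
        rintro M ⟨i, j, hij, rfl⟩
        fin_cases i <;> fin_cases j <;> simp at hij ⊢
    obtain ⟨i, j, hij, hM⟩ := hN
    refine ⟨i, j, ?_⟩
    refine Submodule.span_induction (p := fun z _ => ∃ t : T, i ≠ j ∧ z = Matrix.single i j t)
      ?_ ?_ ?_ ?_ hz
    · rintro _ ⟨M, hMN, rfl⟩
      refine ⟨1, hij, ?_⟩
      rw [hM M hMN]
      ext a c
      simp [Matrix.single, Matrix.map_apply, apply_ite (algebraMap (ZMod p) T)]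
    · exact ⟨0, hij, by simp⟩
    · rintro _ _ _ _ ⟨s, _, rfl⟩ ⟨t, _, rfl⟩
      exact ⟨s + t, hij, by rw [Matrix.single_add]⟩
    · rintro a _ _ ⟨t, _, rfl⟩
      exact ⟨a * t, hij, by rw [Matrix.smul_single, smul_eq_mul]⟩
  obtain ⟨i, j, t, hij, rfl⟩ := key
  refine ⟨Matrix.single_mul_single_of_ne _ _ _ _ hij.symm _, ?_⟩
  intro u hu
  rw [mem_SLf, hu, Matrix.det_fin_two]
  fin_cases i <;> fin_cases j <;> simp at hij ⊢

end MP7Z
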