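import Pool.Agent.Lib.MP_7f581e_Z.Types.SpecA

/-!
# Stability for type II
-/

set_option autoImplicit false

namespace MP7Z

open TensorProduct MP7fS MP7fU Matrix

theorem tyStII (h : FTHStmt) : StIIStmt := by
  intro p _ ι l F _ _ _ _ _ _ S hS D hD Q _ ρ hρ R _ _ q x hx i0
  obtain ⟨π, t, σ, ht, hform⟩ := hρ q
  obtain ⟨i, rfl⟩ := π.surjective i0
  have h1 := h p ι l F (ρ q) π t σ hform R R (RingHom.id R)
    (x : R ⊗[ZMod p] (ι → Matrix l l F)) i
  have hv : GeneralLinearGroup.map (tmap (p := p) (RingHom.id R) (σ i : F →+* F))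
      (cmp (p := p) R i x) ∈ S (R ⊗[ZMod p] F) := hS.map _ _ _ _ (hx i)
  have h2 : cmp (p := p) R (π i) (tu (RingHom.id R) (ρ q : _ →+* _) x) =
      GeneralLinearGroup.map ((Algebra.TensorProduct.includeRight :
        F →ₐ[ZMod p] R ⊗[ZMod p] F) : F →+* R ⊗[ZMod p] F) (t i) *
      GeneralLinearGroup.map (tmap (p := p) (RingHom.id R) (σ i : F →+* F))
        (cmp (p := p) R i x) *
      (GeneralLinearGroup.map ((Algebra.TensorProduct.includeRight :
        F →ₐ[ZMod p] R ⊗[ZMod p] F) : F →+* R ⊗[ZMod p] F) (t i))⁻¹ := by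
    rw [← map_inv]
    apply Units.ext
    exact h1
  rw [h2]
  exact hD (t i) (ht i) _ _ _ hv

end MP7Z
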