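import Pool.Agent.Lib.MP_7f581e_Z.Types.SpecA

/-!
# Step Lie, types: stability of the subspaces
-/

set_option autoImplicit false

namespace MP7Z

open TensorProduct MP7fS MP7fU Matrix

section zst

variable {p : ℕ} [Fact p.Prime]

theorem mem_ZN_NSL {n : ℕ} {b : Bool} {T : Type} [CommRing T] [Algebra (ZMod p) T]
    {z : Matrix (Fin n) (Fin n) T} :
    z ∈ ZN (NSL p n b) T ↔ ∀ i j : Fin n, ¬ (if b then j < i else i < j) → z i j = 0 := by
  constructor
  · intro hz
    induction hz using Submodule.span_induction with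
    | mem x hx =>
      obtain ⟨M, ⟨i, j, hij, rfl⟩, rfl⟩ := hx
      intro i' j' h'
      dsimp only
      rw [Matrix.map_apply, Matrix.single_apply_of_ne, map_zero]
      rintro ⟨rfl, rfl⟩
      exact h' hij
    | zero => intro _ _ _; rfl
    | add x y _ _ hx hy =>
      intro i j h
      rw [Matrix.add_apply, hx i j h, hy i j h, add_zero]
    | smul c x _ hx =>
      intro i j h
      rw [Matrix.smul_apply, hx i j h, smul_zero]
  · intro hz
    rw [Matrix.matrix_eq_sum_single z]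
    refine Submodule.sum_mem _ (fun i _ => Submodule.sum_mem _ (fun j _ => ?_))
    by_cases h : (if b then j < i else i < j)
    · have h1 : Matrix.single i j (z i j) =
          z i j • (Matrix.single i j (1 : ZMod p)).map (algebraMap (ZMod p) T) := by
        ext a c
        rw [Matrix.smul_apply, Matrix.map_apply]
        by_cases hac : i = a ∧ j = c
        · obtain ⟨rfl, rfl⟩ := hac
          rw [Matrix.single_apply_same, Matrix.single_apply_same, map_one, smul_eq_mul, mul_one]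
        · rw [Matrix.single_apply_of_ne (h := hac), Matrix.single_apply_of_ne (h := hac),
            map_zero, smul_zero]
      rw [h1]
      exact Submodule.smul_mem _ _ (Submodule.subset_span ⟨_, ⟨i, j, h, rfl⟩, rfl⟩)
    · rw [hz i j h, Matrix.single_zero]
      exact Submodule.zero_mem _

theorem mem_ZN_NSp {l : Type} [Fintype l] [DecidableEq l] {b : Bool} {F : Type} [Field F]
    [Finite F] [Algebra (ZMod p) F] {z : Matrix (l ⊕ l) (l ⊕ l) F} :
    z ∈ ZN (NSp p l b) F ↔ ∃ X : Matrix l l F, Xᵀ = X ∧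
      z = if b then fromBlocks 0 0 X 0 else fromBlocks 0 X 0 0 := by
  constructor
  · intro hz
    induction hz using Submodule.span_induction with
    | mem x hx =>
      obtain ⟨M, ⟨X, hX, rfl⟩, rfl⟩ := hx
      refine ⟨X.map (algebraMap (ZMod p) F), ?_, ?_⟩
      · rw [← Matrix.transpose_map, hX]
      · cases b
        · simp only [Bool.false_eq_true, if_false]
          rw [Matrix.fromBlocks_map, Matrix.map_zero _ (map_zero _)]
        · simp only [if_true]
          rw [Matrix.fromBlocks_map, Matrix.map_zero _ (map_zero _)]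
    | zero =>
      refine ⟨0, Matrix.transpose_zero, ?_⟩
      cases b <;> simp
    | add x y _ _ hx hy =>
      obtain ⟨X, hX, rfl⟩ := hx
      obtain ⟨Y, hY, rfl⟩ := hy
      refine ⟨X + Y, by rw [Matrix.transpose_add, hX, hY], ?_⟩
      cases b
      · simp [Matrix.fromBlocks_add]
      · simp [Matrix.fromBlocks_add]
    | smul c x _ hx =>
      obtain ⟨X, hX, rfl⟩ := hx
      refine ⟨c • X, by rw [Matrix.transpose_smul, hX], ?_⟩
      cases b
      · simp [Matrix.fromBlocks_smul]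
      · simp [Matrix.fromBlocks_smul]
  · rintro ⟨X, hX, rfl⟩
    let e := Module.finBasis (ZMod p) F
    have key : ∀ a c : l, X a c = ∑ k, e k * algebraMap (ZMod p) F (e.repr (X a c) k) := by
      intro a c
      conv_lhs => rw [← e.sum_repr (X a c)]
      refine Finset.sum_congr rfl (fun k _ => ?_)
      rw [Algebra.smul_def, mul_comm]
    have h1 : (if b then fromBlocks 0 0 X 0 else fromBlocks 0 X 0 0 :
        Matrix (l ⊕ l) (l ⊕ l) F) = ∑ k, e k •
          ((if b then fromBlocks 0 0 (Matrix.of fun a c => e.repr (X a c) k) 0 else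
            fromBlocks 0 (Matrix.of fun a c => e.repr (X a c) k) 0 0 :
              Matrix (l ⊕ l) (l ⊕ l) (ZMod p))).map (algebraMap (ZMod p) F) := by
      ext a c
      rw [Matrix.sum_apply]
      cases b <;> rcases a with a | a <;> rcases c with c | c <;> simp <;> exact key a c
    rw [h1]
    refine Submodule.sum_mem _ (fun k _ => Submodule.smul_mem _ _ (Submodule.subset_span
      ⟨_, ⟨Matrix.of fun a c => e.repr (X a c) k, ?_, rfl⟩, rfl⟩))
    ext a c
    rw [Matrix.transpose_apply, Matrix.of_apply, Matrix.of_apply]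
    have h2 : X c a = X a c := congrFun (congrFun hX a) c
    rw [h2]

/-- The inverse of a diagonal invertible matrix. -/
theorem coe_inv_of_diag {m F : Type} [Fintype m] [DecidableEq m] [Field F] {t : GL m F}
    {v : m → F} (h : (t : Matrix m m F) = Matrix.diagonal v) :
    (∀ i, v i ≠ 0) ∧ ((t⁻¹ : GL m F) : Matrix m m F) = Matrix.diagonal (fun i => (v i)⁻¹) := by
  have h0 : ∀ i, v i ≠ 0 := by
    intro i hi
    have h1 : ((t : Matrix m m F) * ((t⁻¹ : GL m F) : Matrix m m F)) i i = 1 := by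
      rw [Units.mul_inv, Matrix.one_apply_eq]
    rw [h, Matrix.diagonal_mul, hi, zero_mul] at h1
    exact zero_ne_one h1
  refine ⟨h0, ?_⟩
  have h1 : Matrix.diagonal (fun i => (v i)⁻¹) * (t : Matrix m m F) = 1 := by
    rw [h, Matrix.diagonal_mul_diagonal, ← Matrix.diagonal_one]
    congr 1
    funext i
    exact inv_mul_cancel₀ (h0 i)
  calc ((t⁻¹ : GL m F) : Matrix m m F) =
      (Matrix.diagonal (fun i => (v i)⁻¹) * (t : Matrix m m F)) *
        ((t⁻¹ : GL m F) : Matrix m m F) := by rw [h1, Matrix.one_mul]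
    _ = _ := by rw [Matrix.mul_assoc, Units.mul_inv, Matrix.mul_one]

theorem conj_diag_apply {m F : Type} [Fintype m] [DecidableEq m] [Field F] {t : GL m F}
    {v : m → F} (h : (t : Matrix m m F) = Matrix.diagonal v) (M : Matrix m m F) (a c : m) :
    ((t : Matrix m m F) * M * ((t⁻¹ : GL m F) : Matrix m m F)) a c = v a * M a c * (v c)⁻¹ := by
  rw [(coe_inv_of_diag h).2, h, Matrix.mul_diagonal, Matrix.diagonal_mul]

theorem spf_conj {l F T : Type} [Fintype l] [DecidableEq l] [Field F] [CommRing T]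
    {t : GL (l ⊕ l) F} (ht : t ∈ DGSp l F) (f : F →+* T) {u : GL (l ⊕ l) T}
    (hu : u ∈ Spf l T) :
    GeneralLinearGroup.map f t * u * (GeneralLinearGroup.map f t)⁻¹ ∈ Spf l T := by
  obtain ⟨v, w, c, hc, hvw, htd⟩ := ht
  set A : GL (l ⊕ l) T := GeneralLinearGroup.map f t with hA
  have hAm : (A : Matrix (l ⊕ l) (l ⊕ l) T) =
      Matrix.diagonal (Sum.elim (fun i => f (v i)) (fun i => f (w i))) := by
    have h1 : (A : Matrix (l ⊕ l) (l ⊕ l) T) = (t : Matrix (l ⊕ l) (l ⊕ l) F).map f := rfl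
    rw [h1, htd, Matrix.diagonal_map (map_zero f)]
    congr 1
    funext i
    rcases i with i | i <;> rfl
  have hJ : (A : Matrix (l ⊕ l) (l ⊕ l) T) * J l T * (A : Matrix (l ⊕ l) (l ⊕ l) T)ᵀ =
      f c • J l T := by
    have h2 : ∀ i, f (v i) * f (w i) = f c := fun i => by rw [← map_mul, hvw]
    rw [hAm, Matrix.diagonal_transpose]
    ext a b
    rw [Matrix.mul_diagonal, Matrix.diagonal_mul, Matrix.smul_apply, smul_eq_mul]
    rcases a with a | a <;> rcases b with b | b
    · simp [J]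
    · by_cases hab : a = b
      · subst hab
        simp [J, h2]
      · simp [J, hab]
    · by_cases hab : a = b
      · subst hab
        simp [J, mul_comm, h2]
      · simp [J, hab]
    · simp [J]
  have hcu : f c⁻¹ * f c = 1 := by rw [← map_mul, inv_mul_cancel₀ hc, map_one]
  have hJ' : ((A⁻¹ : GL (l ⊕ l) T) : Matrix (l ⊕ l) (l ⊕ l) T) * J l T *
      ((A⁻¹ : GL (l ⊕ l) T) : Matrix (l ⊕ l) (l ⊕ l) T)ᵀ = f c⁻¹ • J l T := by
    have h3 : ((A⁻¹ : GL (l ⊕ l) T) : Matrix (l ⊕ l) (l ⊕ l) T) *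
        ((A : Matrix (l ⊕ l) (l ⊕ l) T) * J l T * (A : Matrix (l ⊕ l) (l ⊕ l) T)ᵀ) *
        ((A⁻¹ : GL (l ⊕ l) T) : Matrix (l ⊕ l) (l ⊕ l) T)ᵀ = J l T := by
      have h4 : (A : Matrix (l ⊕ l) (l ⊕ l) T)ᵀ *
          ((A⁻¹ : GL (l ⊕ l) T) : Matrix (l ⊕ l) (l ⊕ l) T)ᵀ = 1 := by
        rw [← Matrix.transpose_mul, Units.inv_mul, Matrix.transpose_one]
      rw [Matrix.mul_assoc _ _ ((A : Matrix (l ⊕ l) (l ⊕ l) T)ᵀ), ← Matrix.mul_assoc,
        Units.inv_mul, Matrix.one_mul, Matrix.mul_assoc, h4, Matrix.mul_one]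
    rw [hJ, Matrix.mul_smul, Matrix.smul_mul] at h3
    rw [← h3, smul_smul, hcu, one_smul, h3]
  rw [mem_Spf, SymplecticGroup.mem_iff] at hu ⊢
  rw [Units.val_mul, Units.val_mul, Matrix.transpose_mul, Matrix.transpose_mul]
  calc (A : Matrix (l ⊕ l) (l ⊕ l) T) * (u : Matrix (l ⊕ l) (l ⊕ l) T) *
        ((A⁻¹ : GL (l ⊕ l) T) : Matrix (l ⊕ l) (l ⊕ l) T) * J l T *
        (((A⁻¹ : GL (l ⊕ l) T) : Matrix (l ⊕ l) (l ⊕ l) T)ᵀ *
          ((u : Matrix (l ⊕ l) (l ⊕ l) T)ᵀ * (A : Matrix (l ⊕ l) (l ⊕ l) T)ᵀ)) =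
      (A : Matrix (l ⊕ l) (l ⊕ l) T) * (u : Matrix (l ⊕ l) (l ⊕ l) T) *
        (((A⁻¹ : GL (l ⊕ l) T) : Matrix (l ⊕ l) (l ⊕ l) T) * J l T *
          ((A⁻¹ : GL (l ⊕ l) T) : Matrix (l ⊕ l) (l ⊕ l) T)ᵀ) *
          ((u : Matrix (l ⊕ l) (l ⊕ l) T)ᵀ * (A : Matrix (l ⊕ l) (l ⊕ l) T)ᵀ) := by
        simp only [Matrix.mul_assoc]
    _ = f c⁻¹ • ((A : Matrix (l ⊕ l) (l ⊕ l) T) *
          ((u : Matrix (l ⊕ l) (l ⊕ l) T) * J l T * (u : Matrix (l ⊕ l) (l ⊕ l) T)ᵀ) *
            (A : Matrix (l ⊕ l) (l ⊕ l) T)ᵀ) := by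
        rw [hJ', Matrix.mul_smul, Matrix.smul_mul]
        simp only [Matrix.mul_assoc]
    _ = J l T := by rw [hu, hJ, smul_smul, hcu, one_smul]

theorem tyZSt : ZStStmt := by
  intro p _ F _ _ _
  refine ⟨?_, ?_, ?_, ?_⟩
  · intro ι _ n b R hR z hz
    obtain ⟨π, t, σ, ht, h⟩ := hR
    rw [mem_ZII] at hz ⊢
    intro i'
    obtain ⟨i, rfl⟩ := π.surjective i'
    obtain ⟨v, hv⟩ := ht i
    rw [h z i, mem_ZN_NSL]
    intro a c hac
    rw [conj_diag_apply hv, Matrix.map_apply, mem_ZN_NSL.mp (hz i) a c hac, map_zero, mul_zero,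
      zero_mul]
  · intro ι l _ _ _ b R hR z hz
    obtain ⟨π, t, σ, ht, h⟩ := hR
    rw [mem_ZII] at hz ⊢
    intro i'
    obtain ⟨i, rfl⟩ := π.surjective i'
    obtain ⟨v, w, c, hc, hvw, htd⟩ := ht i
    obtain ⟨X, hX, hzX⟩ := mem_ZN_NSp.mp (hz i)
    have hXs : ∀ a a', X a a' = X a' a := fun a a' => congrFun (congrFun hX a') a
    have hw0 : ∀ a, w a = c * (v a)⁻¹ := by
      intro a
      have hv0 : v a ≠ 0 := fun h0 => hc (by rw [← hvw a, h0, zero_mul])
      rw [← hvw a, mul_comm (v a), mul_assoc, mul_inv_cancel₀ hv0, mul_one]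
    have hv0 : ∀ a, v a ≠ 0 := fun a h0 => hc (by rw [← hvw a, h0, zero_mul])
    rw [h z i, mem_ZN_NSp]
    cases b
    · simp only [Bool.false_eq_true, if_false] at hzX ⊢
      refine ⟨Matrix.of fun a a' => v a * v a' * (σ i) (X a a') / c, ?_, ?_⟩
      · ext a a'
        rw [Matrix.transpose_apply, Matrix.of_apply, Matrix.of_apply, hXs a' a, mul_comm (v a')]
      · ext a a'
        rw [conj_diag_apply htd, hzX]
        rcases a with a | a <;> rcases a' with a' | a'
        · simp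
        · simp [hw0]
          ring
        · simp
        · simp
    · simp only [if_true] at hzX ⊢
      refine ⟨Matrix.of fun a a' => w a * w a' * (σ i) (X a a') / c, ?_, ?_⟩
      · ext a a'
        rw [Matrix.transpose_apply, Matrix.of_apply, Matrix.of_apply, hXs a' a, mul_comm (w a')]
      · ext a a'
        rw [conj_diag_apply htd, hzX]
        rcases a with a | a <;> rcases a' with a' | a'
        · simp
        · simp
        · simp [hw0]
          field_simp
        · simp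
  · intro l _ _ t ht T _ f u hu
    exact spf_conj ht f hu
  · intro l _ _ t T _ f u hu
    have := (inferInstance : (GeneralLinearGroup.det : GL l T →* Tˣ).ker.Normal)
    exact this.conj_mem u hu _

end zst

end MP7Z
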