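import Pool.Agent.Lib.MP_7f581e_Z.Types.Co
import Pool.Agent.Lib.MP_7f581e_Z.Types.Evj
import Pool.Agent.Lib.MP_7f581e_Z.Types.FTH
import Pool.Agent.Lib.MP_7f581e_Z.Types.Fn
import Pool.Agent.Lib.MP_7f581e_Z.Types.GII
import Pool.Agent.Lib.MP_7f581e_Z.Types.GSL
import Pool.Agent.Lib.MP_7f581e_Z.Types.L1II
import Pool.Agent.Lib.MP_7f581e_Z.Types.LGL
import Pool.Agent.Lib.MP_7f581e_Z.Types.LII
import Pool.Agent.Lib.MP_7f581e_Z.Types.LMII
import Pool.Agent.Lib.MP_7f581e_Z.Types.LSL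
import Pool.Agent.Lib.MP_7f581e_Z.Types.PII
import Pool.Agent.Lib.MP_7f581e_Z.Types.PtII
import Pool.Agent.Lib.MP_7f581e_Z.Types.Sem1
import Pool.Agent.Lib.MP_7f581e_Z.Types.Sem2
import Pool.Agent.Lib.MP_7f581e_Z.Types.SpMat
import Pool.Agent.Lib.MP_7f581e_Z.Types.Sq2
import Pool.Agent.Lib.MP_7f581e_Z.Types.StII
import Pool.Agent.Lib.MP_7f581e_Z.Types.THb
import Pool.Agent.Lib.MP_7f581e_Z.Types.ZSt
import Pool.Agent.Lib.MP_7f581e_Z.Types.ZTH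

/-!
# Type II, complete: the Lang groups of `SL_2` and `Sp_2n`
-/

namespace MP7Z

open MP7fW MP7fY MP7fP MP7fE

theorem ty_co : CoStmt := tyCo tyTHb tyEvj

theorem ty_lgl : LGLStmt := tyLGL (tySem2 tySem1)

theorem ty_lsl (p : ℕ) [Fact p.Prime] (l : Type) [Fintype l] [DecidableEq l] :
    LangS p (SLf l) := tyLSL p l (ty_lgl p l)

theorem ty_II : StmtsII where
  l1 := tyL1II ty_co
  lm := tyLMII ty_co
  g := tyGII tyEvj ty_co
  p := tyPII tyTHb tyZTH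
  st := tyStII tyFTH
  pt := tyPtII

section

variable {p : ℕ} [Fact p.Prime] {F : Type} [Field F] [Finite F] [Algebra (ZMod p) F]

theorem lang_SL2 : LangOf p (inc2 F) (A2 F).subtype (D2 F) :=
  langOf_SL2 ty_II tyFn (ty_lsl p (Fin 2)) tyGSL tySq2 tyZSt

theorem lang_Sp {n : ℕ} (hn : 2 ≤ n) : LangOf p (incS n F) (AG n F).subtype (DSp n F) :=
  langOf_Sp ty_II tyFn (langSpf (ty_lgl p _)) (genSpf n) (fun b => sqSpf b) tyZSt
    (by omega)

end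

end MP7Z
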