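import Pool.Agent.Lib.MP_7f581e_Z.Types.SpecB

/-!
# Step Lie, types, part B: diagonal unitary matrices with given determinant
-/

set_option autoImplicit false

namespace MP7Z

open TensorProduct MP7fS MP7fU Matrix

theorem dcu_ne {p : ℕ} [Fact p.Prime] {F : Type} [Field F] [Finite F] {s : F →+* F} {e : ℕ}
    (he : 0 < e) (hc : Nat.card F = p ^ (2 * e)) (hs : ∀ c, s c = c ^ p ^ e) :
    s ≠ RingHom.id F := by
  intro h
  have := Fintype.ofFinite F
  have hp : 1 < p := (Fact.out : p.Prime).one_lt
  have hq : 1 < p ^ e := Nat.one_lt_pow he.ne' hp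
  have hdeg := FiniteField.X_pow_card_pow_sub_X_natDegree_eq (K' := F) (n := e) he.ne' hp
  have hne := FiniteField.X_pow_card_pow_sub_X_ne_zero (K' := F) (n := e) he.ne' hp
  have h1 : (Finset.univ : Finset F).card ≤
      (Polynomial.X ^ p ^ e - Polynomial.X : Polynomial F).natDegree := by
    apply Polynomial.card_le_degree_of_subset_roots
    intro x _
    rw [Polynomial.mem_roots hne]
    simp only [Polynomial.IsRoot, Polynomial.eval_sub, Polynomial.eval_pow, Polynomial.eval_X]
    rw [← hs x, h, RingHom.id_apply, sub_self]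
  rw [hdeg, Finset.card_univ, ← Nat.card_eq_fintype_card, hc, two_mul, pow_add] at h1
  nlinarith

theorem dcu_invol {p : ℕ} {F : Type} [Field F] [Finite F] {s : F →+* F} {e : ℕ}
    (hc : Nat.card F = p ^ (2 * e)) (hs : ∀ c, s c = c ^ p ^ e) (c : F) : s (s c) = c := by
  have := Fintype.ofFinite F
  rw [hs (s c), hs c, ← pow_mul, ← pow_add, ← two_mul, ← hc, Nat.card_eq_fintype_card,
    FiniteField.pow_card]

theorem tyDCU : DCUStmt := by
  intro p _ n F _ _ _ s e he hcard hse hn δ hδ
  have hss := dcu_invol hcard hse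
  have hex : ∃ u : F, u + δ * s u ≠ 0 := by
    by_contra hcon
    push Not at hcon
    apply dcu_ne he hcard hse
    ext x
    have h1 := hcon 1
    rw [map_one] at h1
    have h2 := hcon x
    rw [RingHom.id_apply]
    linear_combination (s x) * h1 - h2
  obtain ⟨u, hu⟩ := hex
  set a := u + δ * s u with ha
  have ha1 : δ * s a = a := by
    rw [ha, map_add, map_mul, hss u]
    linear_combination u * hδ
  have hsa : s a ≠ 0 := by
    intro h0
    rw [h0, mul_zero] at ha1
    exact hu ha1.symm
  obtain ⟨m, rfl⟩ : ∃ m, n = m + 1 := ⟨n - 1, by omega⟩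
  have hb1 : s a * (s a)⁻¹ = 1 := mul_inv_cancel₀ hsa
  have hb2 : s (s a)⁻¹ * a = 1 := by
    rw [map_inv₀, hss a]
    exact inv_mul_cancel₀ hu
  have hab : a * (s a)⁻¹ = δ := by
    rw [← ha1, mul_assoc, ha1, hb1, mul_one]
  set v : Fin (m + 1) → F := fun i =>
    (if i = 0 then a else 1) * (if i = Fin.last m then (s a)⁻¹ else 1) with hv
  have hdet : (Matrix.diagonal v).det = δ := by
    rw [Matrix.det_diagonal, hv, Finset.prod_mul_distrib, Finset.prod_ite_eq', Finset.prod_ite_eq']
    simp only [Finset.mem_univ, if_true]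
    exact hab
  have hδ0 : δ ≠ 0 := by
    rintro rfl
    rw [mul_zero] at hδ
    exact zero_ne_one hδ
  have hprod : flipT ((Matrix.diagonal v).map s) * Matrix.diagonal v = 1 := by
    have h1 : flipT ((Matrix.diagonal v).map s) = Matrix.diagonal (fun i => s (v (Fin.rev i))) := by
      ext i j
      rw [flipT_apply, Matrix.map_apply, Matrix.diagonal_apply, Matrix.diagonal_apply]
      by_cases hij : i = j
      · subst hij
        simp
      · have : Fin.rev j ≠ Fin.rev i := fun h => hij (Fin.rev_injective h).symm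
        rw [if_neg hij, if_neg this, map_zero]
    rw [h1, Matrix.diagonal_mul_diagonal, ← Matrix.diagonal_one]
    congr 1
    funext i
    have e1 : (Fin.rev i = 0) ↔ i = Fin.last m := by
      rw [Fin.rev_eq_iff, Fin.rev_zero]
    have e2 : (Fin.rev i = Fin.last m) ↔ i = 0 := by
      rw [Fin.rev_eq_iff, Fin.rev_last]
    simp only [hv, e1, e2, map_mul]
    by_cases h0 : i = 0
    · by_cases h2 : i = Fin.last m
      · simp only [if_pos h0, if_pos h2]
        linear_combination (s a) * (s a)⁻¹ * hb2 + hb1
      · simp only [if_pos h0, if_neg h2, map_one, one_mul, mul_one]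
        exact hb2
    · by_cases h2 : i = Fin.last m
      · simp only [if_pos h2, if_neg h0, map_one, one_mul, mul_one]
        exact hb1
      · simp only [if_neg h0, if_neg h2, map_one, one_mul]
  have hunit : IsUnit (Matrix.diagonal v).det := by
    rw [hdet]
    exact isUnit_iff_ne_zero.mpr hδ0
  refine ⟨Matrix.GeneralLinearGroup.mk'' (Matrix.diagonal v) hunit, ⟨v, rfl⟩, hprod, hdet⟩

end MP7Z
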