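import Pool.Agent.Lib.MP_7f581e_Z.Types.SpecB

/-!
# Determinants of the projection to the unitary group
-/

set_option autoImplicit false

namespace MP7Z

open TensorProduct MP7fS MP7fU Matrix

/-- If `e X = e Y` entrywise, then `e det X = e det Y`. -/
theorem detU_aux {n : ℕ} {T : Type} [CommRing T] (e : T) (X Y : Matrix (Fin n) (Fin n) T)
    (h : ∀ a b, e * X a b = e * Y a b) : e * X.det = e * Y.det := by
  rw [Matrix.det_apply, Matrix.det_apply, Finset.mul_sum, Finset.mul_sum]
  refine Finset.sum_congr rfl (fun σ _ => ?_)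
  rw [mul_smul_comm, mul_smul_comm]
  congr 1
  have key : ∀ S : Finset (Fin n), e * ∏ i ∈ S, X (σ i) i = e * ∏ i ∈ S, Y (σ i) i := by
    intro S
    induction S using Finset.induction_on with
    | empty => rw [Finset.prod_empty, Finset.prod_empty]
    | insert a S ha ih =>
      rw [Finset.prod_insert ha, Finset.prod_insert ha]
      calc e * (X (σ a) a * ∏ i ∈ S, X (σ i) i) =
          X (σ a) a * (e * ∏ i ∈ S, X (σ i) i) := by ring
        _ = X (σ a) a * (e * ∏ i ∈ S, Y (σ i) i) := by rw [ih]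
        _ = (e * X (σ a) a) * ∏ i ∈ S, Y (σ i) i := by ring
        _ = (e * Y (σ a) a) * ∏ i ∈ S, Y (σ i) i := by rw [h]
        _ = _ := by ring
  exact key _

/-- The determinant of `e M + (1 - e) N`, `e` idempotent. -/
theorem detU_lem {n : ℕ} {T : Type} [CommRing T] (e : T) (he : e * e = e)
    (M N : Matrix (Fin n) (Fin n) T) :
    (Matrix.scalar (Fin n) e * M + (1 - Matrix.scalar (Fin n) e) * N).det =
      e * M.det + (1 - e) * N.det := by
  have h0 : ∀ a b, (Matrix.scalar (Fin n) e * M + (1 - Matrix.scalar (Fin n) e) * N) a b =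
      e * M a b + (1 - e) * N a b := by
    intro a b
    have h1 : (1 : Matrix (Fin n) (Fin n) T) - Matrix.scalar (Fin n) e =
        Matrix.scalar (Fin n) (1 - e) := by
      rw [map_sub, map_one]
    rw [h1, Matrix.add_apply, Matrix.scalar_apply, Matrix.scalar_apply,
      Matrix.diagonal_mul, Matrix.diagonal_mul]
  have he' : e * (1 - e) = 0 := by rw [mul_sub, mul_one, he, sub_self]
  have h1 : e * (Matrix.scalar (Fin n) e * M + (1 - Matrix.scalar (Fin n) e) * N).det =
      e * M.det := by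
    refine detU_aux e _ _ (fun a b => ?_)
    rw [h0]
    linear_combination (M a b) * he + (N a b) * he'
  have h2 : (1 - e) * (Matrix.scalar (Fin n) e * M + (1 - Matrix.scalar (Fin n) e) * N).det =
      (1 - e) * N.det := by
    refine detU_aux (1 - e) _ _ (fun a b => ?_)
    rw [h0]
    linear_combination (M a b) * he' + (N a b) * (he)
  linear_combination h1 + h2

theorem tyDetU (h : ScStmt) : DetUStmt := by
  intro p _ ι n F _ _ _ _ α hα s hs R _ _ c hc u v w' hu hw' hv i
  obtain ⟨-, -, -, h4, h5, -⟩ := h p ι n F α hα s hs R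
  obtain ⟨e, he, hee⟩ := h5 c
  have hee' := hee hc i
  have hw : ((cmp (p := p) R i w' : GL (Fin n) (R ⊗[ZMod p] F)) :
      Matrix (Fin n) (Fin n) (R ⊗[ZMod p] F)).det = 1 := by
    rw [coe_cmp, hw', h4, det_flipT]
    have h6 := mem_SLf.mp (hu (α i))
    rw [coe_cmp] at h6
    have h7 := RingHom.map_det (tmap (p := p) (RingHom.id R) s)
      (TH (p := p) R (u : R ⊗[ZMod p] (ι → Matrix (Fin n) (Fin n) F)) (α i))
    rw [h6, map_one] at h7
    exact h7.symm
  have hwi : ((cmp (p := p) R i w'⁻¹ : GL (Fin n) (R ⊗[ZMod p] F)) :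
      Matrix (Fin n) (Fin n) (R ⊗[ZMod p] F)).det = 1 := by
    have h6 : cmp (p := p) R i w'⁻¹ ∈ SLf (Fin n) (R ⊗[ZMod p] F) := by
      rw [map_inv]
      exact inv_mem (mem_SLf.mpr hw)
    exact mem_SLf.mp h6
  rw [mem_SLf, coe_cmp, hv, map_add, map_mul, map_mul, map_sub, map_one]
  change (TH (p := p) R (scR p ι n F R c) i * TH (p := p) R (u : R ⊗[ZMod p] _) i +
    (1 - TH (p := p) R (scR p ι n F R c) i) * TH (p := p) R (((w'⁻¹ : (R ⊗[ZMod p] (ι → Matrix (Fin n) (Fin n) F))ˣ) :
            R ⊗[ZMod p] (ι → Matrix (Fin n) (Fin n) F))) i).det = 1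
  rw [he, detU_lem _ hee', ← coe_cmp, ← coe_cmp, hwi, mem_SLf.mp (hu i)]
  ring

end MP7Z
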