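import Pool.Agent.Lib.MP_7f581e_Z.Types.SpecB

/-!
# Step Lie, types, part B: idempotents for the unitary types
-/

set_option autoImplicit false

namespace MP7Z

open TensorProduct MP7fS MP7fU Matrix

/-- The homomorphism `k ⊗ F → k ⊗ (ι → F)` given by the constant families. -/
noncomputable def esuK (p : ℕ) [Fact p.Prime] (ι F k : Type) [Field F] [Algebra (ZMod p) F]
    [Field k] [Algebra (ZMod p) k] : k ⊗[ZMod p] F →+* k ⊗[ZMod p] (ι → F) :=
  (Algebra.TensorProduct.map (AlgHom.id (ZMod p) k)
    (toAlg (p := p) (Pi.constRingHom ι F))).toRingHom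

theorem esuK_tmul (p : ℕ) [Fact p.Prime] (ι F k : Type) [Field F] [Algebra (ZMod p) F]
    [Field k] [Algebra (ZMod p) k] (a : k) (c : F) :
    esuK p ι F k (a ⊗ₜ c) = a ⊗ₜ (fun _ => c) := rfl

theorem esuK_nat {p : ℕ} [Fact p.Prime] {ι F k : Type} [Finite ι] [Field F] [Finite F]
    [Algebra (ZMod p) F] [Field k] [Algebra (ZMod p) k] (f : k →+* k) (g : F →+* F)
    (G : (ι → F) →+* (ι → F)) (hG : ∀ c : F, G (fun _ => c) = fun _ => g c)
    (x : k ⊗[ZMod p] F) :
    tmap (p := p) f G (esuK p ι F k x) = esuK p ι F k (tmap (p := p) f g x) := by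
  induction x using TensorProduct.induction_on with
  | zero => simp only [map_zero]
  | add x y hx hy => simp only [map_add, hx, hy]
  | tmul a c =>
    rw [esuK_tmul]
    have h1 : tmap (p := p) f g (a ⊗ₜ[ZMod p] c) = f a ⊗ₜ g c := rfl
    rw [h1, esuK_tmul, ← hG c]
    rfl

theorem tyESU (h : EvjStmt) : ESUStmt := by
  intro p _ ι F _ _ _ _ s e he hcard hse
  have hp : 1 < p := (Fact.out : p.Prime).one_lt
  have hfin : Fintype F := Fintype.ofFinite F
  have hd : Module.finrank (ZMod p) F = 2 * e := by
    have h1 : Nat.card F = p ^ Module.finrank (ZMod p) F := by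
      rw [Module.natCard_eq_pow_finrank (K := ZMod p) (V := F), Nat.card_zmod]
    rw [hcard] at h1
    exact (Nat.pow_right_injective hp h1).symm
  have hss : ∀ c, s (s c) = c := by
    intro c
    rw [hse (s c), hse c, ← pow_mul, ← pow_add, ← two_mul, ← hcard, Nat.card_eq_fintype_card,
      FiniteField.pow_card]
  have hne : s ≠ RingHom.id F := by
    intro hid
    have hq : 1 < p ^ e := Nat.one_lt_pow he.ne' hp
    have hdeg := FiniteField.X_pow_card_pow_sub_X_natDegree_eq (K' := F) (n := e) he.ne' hp
    have hne := FiniteField.X_pow_card_pow_sub_X_ne_zero (K' := F) (n := e) he.ne' hp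
    have h1 : (Finset.univ : Finset F).card ≤
        (Polynomial.X ^ p ^ e - Polynomial.X : Polynomial F).natDegree := by
      apply Polynomial.card_le_degree_of_subset_roots
      intro x _
      rw [Polynomial.mem_roots hne]
      simp only [Polynomial.IsRoot, Polynomial.eval_sub, Polynomial.eval_pow, Polynomial.eval_X]
      rw [← hse x, hid, RingHom.id_apply, sub_self]
    rw [hdeg, Finset.card_univ, ← Nat.card_eq_fintype_card, hcard, two_mul, pow_add] at h1
    nlinarith
  constructor
  · intro k _ _ _ _ _ m hm hdm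
    obtain ⟨τ⟩ : Nonempty (F →ₐ[ZMod p] k) := ⟨IsAlgClosed.lift⟩
    obtain ⟨H1, H2, H3, H4, H5⟩ := h p F k (τ : F →+* k)
    have hinj : ∀ z w : k ⊗[ZMod p] F,
        (∀ j < Module.finrank (ZMod p) F, evj (p := p) (τ : F →+* k) j z = evj (τ : F →+* k) j w) →
        z = w := by
      intro z w hzw
      apply H5.1
      funext j
      exact hzw j j.2
    obtain ⟨c₁, hc₁⟩ := H5.2 (fun j => if (j : ℕ) < e then 1 else 0)
    have hc₂ : ∀ j < 2 * e, evj (p := p) (τ : F →+* k) j c₁ = if j < e then 1 else 0 := by
      intro j hj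
      exact congrFun hc₁ ⟨j, by rw [hd]; exact hj⟩
    have hper : ∀ (t j : ℕ) (z : k ⊗[ZMod p] F),
        evj (p := p) (τ : F →+* k) (j + Module.finrank (ZMod p) F * t) z =
          evj (τ : F →+* k) j z := by
      intro t j z
      induction t with
      | zero => rw [mul_zero, add_zero]
      | succ t ih => rw [mul_add, mul_one, ← add_assoc, H1, ih]
    have hidem : c₁ * c₁ = c₁ := by
      apply hinj
      intro j hj
      rw [hd] at hj
      rw [map_mul, hc₂ j hj]
      split_ifs <;> simp
    have hs1 : tmap (p := p) (RingHom.id k) s c₁ = 1 - c₁ := by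
      apply hinj
      intro j hj
      rw [hd] at hj
      rw [H4 s e hse, map_sub, map_one, hc₂ j hj]
      by_cases hje : j < e
      · rw [if_pos hje, hc₂ (j + e) (by omega), if_neg (by omega), sub_self]
      · rw [if_neg hje, sub_zero]
        have h2 : j + e = (j - e) + Module.finrank (ZMod p) F * 1 := by
          rw [hd]
          omega
        rw [h2, hper, hc₂ (j - e) (by omega), if_pos (by omega)]
    have hf1 : tmap (p := p) (iterateFrobenius k p m) (RingHom.id F) c₁ = c₁ := by
      apply hinj
      intro j hj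
      rw [hd] at hj
      obtain ⟨t, rfl⟩ := hdm
      have h2 := H2 (Module.finrank (ZMod p) F * t) j c₁
      rw [hper] at h2
      rw [h2, hc₂ j hj]
      split_ifs
      · rw [one_pow]
      · rw [zero_pow]
        exact pow_ne_zero _ (by omega)
    refine ⟨esuK p ι F k c₁, ?_, ?_, ?_⟩
    · rw [← map_mul, hidem]
    · rw [esuK_nat (RingHom.id k) s (sgC ι F (Equiv.refl ι) s) (fun c => rfl), hs1, map_sub,
        map_one]
    · rw [esuK_nat (iterateFrobenius k p m) (RingHom.id F) (RingHom.id (ι → F)) (fun c => rfl),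
        hf1]
  · have hex : ∃ u : F, u + s u ≠ 0 := by
      by_contra hcon
      push Not at hcon
      apply hne
      ext x
      have h1 := hcon 1
      rw [map_one] at h1
      have h2 := hcon x
      rw [RingHom.id_apply]
      linear_combination h2 - x * h1
    obtain ⟨u, hu⟩ := hex
    refine ⟨fun _ => u / (u + s u), ?_⟩
    funext y
    have h1 : sgC ι F (Equiv.refl ι) s (fun _ => u / (u + s u)) y = s (u / (u + s u)) := rfl
    rw [Pi.add_apply, h1, map_div₀, map_add, hss u, add_comm (s u) u, ← add_div]
    exact div_self hu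

end MP7Z
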