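import Pool.Agent.Lib.MP_7f581e_Z.Types.SpecB
import Pool.Agent.Lib.MP_7f581e_ntL.Y4

/-!
# Step Lie, types, part B: Hermitian forms over finite fields
-/

set_option autoImplicit false

namespace MP7Z

open TensorProduct MP7fS MP7fU Matrix

/-- The permutation matrix of `Fin.rev`. -/
def fcuW (n : ℕ) (F : Type) [Field F] : Matrix (Fin n) (Fin n) F :=
  (1 : Matrix (Fin n) (Fin n) F).submatrix Fin.rev id

theorem fcuW_mul {n : ℕ} {F : Type} [Field F] (X : Matrix (Fin n) (Fin n) F) :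
    fcuW n F * X = X.submatrix Fin.rev id := by
  ext i j
  rw [Matrix.mul_apply]
  simp [fcuW, Matrix.one_apply]

theorem mul_fcuW {n : ℕ} {F : Type} [Field F] (X : Matrix (Fin n) (Fin n) F) :
    X * fcuW n F = X.submatrix id Fin.rev := by
  ext i j
  rw [Matrix.mul_apply]
  simp only [fcuW, Matrix.one_apply, Matrix.submatrix_apply, id, Fin.rev_eq_iff]
  simp

theorem flipT_eq {n : ℕ} {F : Type} [Field F] (X : Matrix (Fin n) (Fin n) F) :
    flipT X = fcuW n F * Xᵀ * fcuW n F := by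
  rw [fcuW_mul, mul_fcuW]
  rfl

theorem fcuW_sq {n : ℕ} {F : Type} [Field F] : fcuW n F * fcuW n F = 1 := by
  rw [fcuW_mul]
  ext i j
  simp [fcuW, Matrix.one_apply]

theorem fcu_aux {n : ℕ} {F : Type} [Field F] {s : F →+* F} (hs : ∀ x, s (s x) = x) {c : F}
    (hc : c + s c = 1) (hN : ∀ t : F, s t = t → ∃ a, s a * a = t) (b : GL (Fin n) F)
    (hb : flipT ((b : Matrix (Fin n) (Fin n) F).map s) = b) :
    ∃ P : GL (Fin n) F, ((P : Matrix (Fin n) (Fin n) F).map s)ᵀ *
      (fcuW n F * (b : Matrix (Fin n) (Fin n) F)) * (P : Matrix (Fin n) (Fin n) F) = 1 := by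
  have h1 : ((fcuW n F * (b : Matrix (Fin n) (Fin n) F)).map s)ᵀ =
      fcuW n F * (b : Matrix (Fin n) (Fin n) F) := by
    rw [fcuW_mul]
    ext i j
    have h := congrFun (congrFun hb (Fin.rev i)) j
    rw [flipT_apply, Fin.rev_rev] at h
    exact h
  have h2 : (fcuW n F * (b : Matrix (Fin n) (Fin n) F)).det ≠ 0 := by
    rw [Matrix.det_mul]
    refine mul_ne_zero ?_ ?_
    · intro h0
      have h3 := congrArg Matrix.det (fcuW_sq (n := n) (F := F))
      rw [Matrix.det_mul, h0, mul_zero, Matrix.det_one] at h3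
      exact zero_ne_one h3
    · exact ((Matrix.isUnit_iff_isUnit_det _).mp b.isUnit).ne_zero
  exact MP7fY.exists_P s hs hc hN h1 h2

theorem tyFCU : FCUStmt := by
  intro p _ n F _ _ _ s e he hcard hse b hb
  have hchar : CharP F p := charP_of_injective_algebraMap (algebraMap (ZMod p) F).injective p
  have hss : ∀ c, s (s c) = c := by
    intro c
    have := Fintype.ofFinite F
    rw [hse (s c), hse c, ← pow_mul, ← pow_add, ← two_mul, ← hcard, Nat.card_eq_fintype_card,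
      FiniteField.pow_card]
  have hsF : s = MP7fY.sF p e F := by
    ext x
    rw [hse x, MP7fY.sF_apply]
  have hne : s ≠ RingHom.id F := by
    intro h
    have := Fintype.ofFinite F
    have hp : 1 < p := (Fact.out : p.Prime).one_lt
    have hq : 1 < p ^ e := Nat.one_lt_pow he.ne' hp
    have hdeg := FiniteField.X_pow_card_pow_sub_X_natDegree_eq (K' := F) (n := e) he.ne' hp
    have hne := FiniteField.X_pow_card_pow_sub_X_ne_zero (K' := F) (n := e) he.ne' hp
    have h1 : (Finset.univ : Finset F).card ≤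
        (Polynomial.X ^ p ^ e - Polynomial.X : Polynomial F).natDegree := by
      apply Polynomial.card_le_degree_of_subset_roots
      intro x _
      rw [Polynomial.mem_roots hne]
      simp only [Polynomial.IsRoot, Polynomial.eval_sub, Polynomial.eval_pow, Polynomial.eval_X]
      rw [← hse x, h, RingHom.id_apply, sub_self]
    rw [hdeg, Finset.card_univ, ← Nat.card_eq_fintype_card, hcard, two_mul, pow_add] at h1
    nlinarith
  obtain ⟨c₀, hc₀⟩ := MP7fV.exists_c0 s hss hne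
  have hN : ∀ t : F, s t = t → ∃ a, s a * a = t := by
    intro t ht
    rw [hsF] at ht ⊢
    exact MP7fY.norm_surj he hcard t ht
  obtain ⟨P, hP⟩ := fcu_aux hss hc₀ hN b hb
  obtain ⟨Q, hQ⟩ := fcu_aux hss hc₀ hN (1 : GL (Fin n) F) (by
    rw [Units.val_one, Matrix.map_one _ (map_zero s) (map_one s), flipT_one])
  rw [Units.val_one, Matrix.mul_one] at hQ
  refine ⟨P * Q⁻¹, ?_⟩
  have hQQ : (Q : Matrix (Fin n) (Fin n) F) * ((Q⁻¹ : GL (Fin n) F) : Matrix (Fin n) (Fin n) F) = 1 :=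
    Units.mul_inv Q
  have h3 : (((Q⁻¹ : GL (Fin n) F) : Matrix (Fin n) (Fin n) F).map s)ᵀ *
      ((Q : Matrix (Fin n) (Fin n) F).map s)ᵀ = 1 := by
    rw [← transpose_mul, ← Matrix.map_mul, hQQ, Matrix.map_one _ (map_zero s) (map_one s),
      transpose_one]
  have h4 : (((Q⁻¹ : GL (Fin n) F) : Matrix (Fin n) (Fin n) F).map s)ᵀ *
      ((Q⁻¹ : GL (Fin n) F) : Matrix (Fin n) (Fin n) F) = fcuW n F := by
    calc (((Q⁻¹ : GL (Fin n) F) : Matrix (Fin n) (Fin n) F).map s)ᵀ *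
          ((Q⁻¹ : GL (Fin n) F) : Matrix (Fin n) (Fin n) F) =
        (((Q⁻¹ : GL (Fin n) F) : Matrix (Fin n) (Fin n) F).map s)ᵀ *
          (((Q : Matrix (Fin n) (Fin n) F).map s)ᵀ * fcuW n F * (Q : Matrix (Fin n) (Fin n) F)) *
          ((Q⁻¹ : GL (Fin n) F) : Matrix (Fin n) (Fin n) F) := by rw [hQ, Matrix.mul_one]
      _ = ((((Q⁻¹ : GL (Fin n) F) : Matrix (Fin n) (Fin n) F).map s)ᵀ *
          ((Q : Matrix (Fin n) (Fin n) F).map s)ᵀ) * fcuW n F *
          ((Q : Matrix (Fin n) (Fin n) F) *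
          ((Q⁻¹ : GL (Fin n) F) : Matrix (Fin n) (Fin n) F)) := by
          simp only [Matrix.mul_assoc]
      _ = fcuW n F := by rw [h3, hQQ, Matrix.one_mul, Matrix.mul_one]
  rw [flipT_eq, Units.val_mul, Matrix.map_mul, Matrix.transpose_mul]
  calc fcuW n F * ((((Q⁻¹ : GL (Fin n) F) : Matrix (Fin n) (Fin n) F).map s)ᵀ *
        ((P : Matrix (Fin n) (Fin n) F).map s)ᵀ) * fcuW n F * (b : Matrix (Fin n) (Fin n) F) *
        ((P : Matrix (Fin n) (Fin n) F) * ((Q⁻¹ : GL (Fin n) F) : Matrix (Fin n) (Fin n) F)) =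
      fcuW n F * ((((Q⁻¹ : GL (Fin n) F) : Matrix (Fin n) (Fin n) F).map s)ᵀ *
        (((P : Matrix (Fin n) (Fin n) F).map s)ᵀ * (fcuW n F * (b : Matrix (Fin n) (Fin n) F)) *
        (P : Matrix (Fin n) (Fin n) F)) * ((Q⁻¹ : GL (Fin n) F) : Matrix (Fin n) (Fin n) F)) := by
        simp only [Matrix.mul_assoc]
    _ = 1 := by rw [hP, Matrix.mul_one, h4, fcuW_sq]

end MP7Z
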