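import Pool.Agent.Lib.MP_7f581e_Z.Types.SpecB
import Pool.Agent.Lib.MP_7f581e_Z.Types.ZSt

/-!
# Step Lie, types: generation for type I
-/

set_option autoImplicit false

namespace MP7Z

open TensorProduct MP7fS MP7fU Matrix

section gni

variable {p : ℕ} [Fact p.Prime] {ι : Type} {n : ℕ} {F : Type} [Finite ι] [Field F]
  [Finite F] [Algebra (ZMod p) F] {α : Equiv.Perm ι} {hα : ∀ y, α (α y) = y} {s : F →+* F}
  {hs : ∀ c, s (s c) = c}

theorem gni_skew {b : Bool} {z : ι → Matrix (Fin n) (Fin n) F}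
    (hz : z ∈ ZII p ι (Fin n) F (NSL p n) b) :
    z - (JI p ι n F α hα s hs).j z ∈ ZI p ι n F α hα s hs b := by
  rw [mem_ZII] at hz
  have hz' : ∀ y a c, (if b then a ≤ c else c ≤ a) → z y a c = 0 := by
    intro y a c hac
    refine (mem_ZN_NSL.1 (hz y)) a c ?_
    cases b
    · simp only [Bool.false_eq_true, if_false] at hac ⊢
      exact not_lt.2 hac
    · simp only [if_true] at hac ⊢
      exact not_lt.2 hac
  rw [mem_ZI]
  refine ⟨?_, ?_⟩
  · rw [map_sub, (JI p ι n F α hα s hs).inv, neg_sub]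
  · intro y a c hac
    change z y a c - (JI p ι n F α hα s hs).j z y a c = 0
    rw [JI_apply, flipT_apply, Matrix.map_apply, hz' y a c hac, hz' (α y) (Fin.rev c) (Fin.rev a),
      map_zero, sub_zero]
    cases b
    · simp only [Bool.false_eq_true, if_false] at hac ⊢
      exact Fin.rev_le_rev.2 hac
    · simp only [if_true] at hac ⊢
      exact Fin.rev_le_rev.2 hac

theorem gni_base {b : Bool} {R : Type} [CommRing R] [Algebra (ZMod p) R]
    {y : R ⊗[ZMod p] (ι → Matrix (Fin n) (Fin n) F)}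
    (hy : y ∈ (ZII p ι (Fin n) F (NSL p n) b).baseChange R) :
    y - jR (JI p ι n F α hα s hs) R y ∈ (ZI p ι n F α hα s hs b).baseChange R := by
  rw [Submodule.baseChange_eq_span] at hy
  induction hy using Submodule.span_induction with
  | mem x hx =>
    obtain ⟨z, hz, rfl⟩ := hx
    have h1 : ((TensorProduct.mk (ZMod p) R (ι → Matrix (Fin n) (Fin n) F)) 1) z -
        jR (JI p ι n F α hα s hs) R
          (((TensorProduct.mk (ZMod p) R (ι → Matrix (Fin n) (Fin n) F)) 1) z) =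
        (1 : R) ⊗ₜ[ZMod p] (z - (JI p ι n F α hα s hs).j z) := by
      rw [tmul_sub]
      rfl
    rw [h1]
    exact Submodule.tmul_mem_baseChange_of_mem 1 (gni_skew hz)
  | zero => rw [map_zero, sub_zero]; exact Submodule.zero_mem _
  | add x y _ _ hx hy =>
    rw [map_add, add_sub_add_comm]
    exact Submodule.add_mem _ hx hy
  | smul c x _ hx =>
    rw [map_smul, ← smul_sub]
    exact Submodule.smul_mem _ _ hx

end gni

theorem tyGnI (h1 : UeStmt) (h2 : ScStmt) : GnIStmt := by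
  intro p _ ι n F _ _ _ _ α hα s hs hSL m₀ hE hGen k _ _ _ _ _ d hd hmd x hx hfix
  obtain ⟨sc1, sc2, sc3, sc4, sc5, sc6⟩ := h2 p ι n F α hα s hs k
  obtain ⟨c, hcc, hc1, hc2⟩ := hE k d hd hmd
  set ε := scR p ι n F k c with hε
  set J := JI p ι n F α hα s hs with hJ
  obtain ⟨U, u1, u2, u3, u4, u5⟩ := h1 (k ⊗[ZMod p] (ι → Matrix (Fin n) (Fin n) F))
    (jR J k).toAddMonoidHom (jR_one J) (fun a b => jR_mul J a b) (fun a => jR_jR J a) ε
    (by rw [hε, ← map_mul, hcc]) (fun a => sc1 c a) (by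
      change jR J k ε = 1 - ε
      rw [hε, sc2, hc1, map_sub, map_one])
  have hU : ∀ w, U (fru d k w) = fru d k (U w) := by
    intro w
    exact u5 (tmap (p := p) (iterateFrobenius k p d)
      (RingHom.id (ι → Matrix (Fin n) (Fin n) F))) (by
        rw [hε, sc3, hc2]) (fun a => (jR_tmap J _ _ (fun _ => rfl) a).symm) w
  have hxU : U x = x := u3 x hx.1
  have hx2 := hGen k d hd hmd x hx.2 hfix
  rw [← hxU]
  have h3 := Subgroup.mem_map_of_mem U hx2
  rw [MonoidHom.map_closure] at h3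
  refine (Subgroup.closure_mono ?_) h3
  rintro _ ⟨w, ⟨hw1, hw2, b, hb⟩, rfl⟩
  have h4 := u4 w ((w : k ⊗[ZMod p] (ι → Matrix (Fin n) (Fin n) F)) - 1) (by
    rw [add_sub_cancel]) hw2
  refine ⟨by rw [← hU, hw1], ?_, b, ?_⟩
  · rw [h4.1, add_sub_cancel_left]
    exact h4.2
  · rw [h4.1, add_sub_cancel_left]
    exact gni_base (sc6 (NSL p n) b c _ hb)

end MP7Z
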