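import Pool.Agent.Lib.MP_7f581e_Z.Types.SpecB

/-!
# Step Lie, types: Lang's theorem for the special unitary groups
-/

set_option autoImplicit false

namespace MP7Z

open TensorProduct MP7fS MP7fU Matrix

section core

theorem l1u_div {A : Type} [Ring A] (J : A →+ A) (hJm : ∀ a b, J (a * b) = J b * J a)
    (hJJ : ∀ a, J (J a) = a) {u v : Aˣ} (hu : J (u : A) * u = 1) (hv : J (v : A) * v = 1) :
    J ((u * v⁻¹ : Aˣ) : A) * ((u * v⁻¹ : Aˣ) : A) = 1 := by
  have h1 : J (v : A) = ((v⁻¹ : Aˣ) : A) := Units.eq_inv_of_mul_eq_one_right hv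
  have h2 : J ((v⁻¹ : Aˣ) : A) = v := by rw [← h1, hJJ]
  rw [Units.val_mul, hJm, h2]
  calc (v : A) * J (u : A) * ((u : A) * ((v⁻¹ : Aˣ) : A)) =
      (v : A) * (J (u : A) * u) * ((v⁻¹ : Aˣ) : A) := by noncomm_ring
    _ = 1 := by rw [hu, mul_one, Units.mul_inv]

end core

section l1u

variable {p : ℕ} [Fact p.Prime]

theorem l1u_fru {B : Type} [Ring B] [Finite B] [Algebra (ZMod p) B] {k : Type} [Field k]
    [Algebra (ZMod p) k] [CharP k p] (y : (k ⊗[ZMod p] B)ˣ) :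
    ((fru 1 k y : (k ⊗[ZMod p] B)ˣ) : k ⊗[ZMod p] B) = frob k (y : k ⊗[ZMod p] B) := by
  rw [fru, coe_tu, iterateFrobenius_one]
  rfl

theorem l1u_cst {B : Type} [Ring B] [Finite B] [Algebra (ZMod p) B] {k : Type} [Field k]
    [Algebra (ZMod p) k] [CharP k p] (b : Bˣ) : fru 1 k (cstu k b) = cstu (p := p) k b := by
  apply Units.ext
  rw [l1u_fru, coe_cstu, frob_one_tmul]

/-- A family of invertible matrices as a unit. -/
def l1u_fam {ι F : Type} {n : ℕ} [Field F] (c : ι → GL (Fin n) F) :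
    (ι → Matrix (Fin n) (Fin n) F)ˣ where
  val := fun i => (c i : Matrix (Fin n) (Fin n) F)
  inv := fun i => (((c i)⁻¹ : GL (Fin n) F) : Matrix (Fin n) (Fin n) F)
  val_inv := funext fun i => Units.mul_inv (c i)
  inv_val := funext fun i => Units.inv_mul (c i)

/-- One component of a unit. -/
def l1u_cmp {ι F : Type} {n : ℕ} [Field F] (b : (ι → Matrix (Fin n) (Fin n) F)ˣ) (i : ι) :
    GL (Fin n) F where
  val := (b : ι → Matrix (Fin n) (Fin n) F) i
  inv := ((b⁻¹ : (ι → Matrix (Fin n) (Fin n) F)ˣ) : ι → Matrix (Fin n) (Fin n) F) i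
  val_inv := congrFun (Units.mul_inv b) i
  inv_val := congrFun (Units.inv_mul b) i

end l1u

theorem tyL1U (h1 : ScStmt) (h2 : FCUStmt) (h3 : DCUStmt) : L1UStmt := by
  intro p _ ι n F _ _ _ _ hα s hs hSL hGL e he hcard hse hn hL k _ _ _ _ g hg
  obtain ⟨sc1, sc2, sc3, sc4, sc5, sc6⟩ := h1 p ι n F (Equiv.refl ι) hα s hs k
  set J := JI p ι n F (Equiv.refl ι) hα s hs with hJ
  obtain ⟨y', _, hy'⟩ := hL k g (fun i => Subgroup.mem_top _)
  have hgJ : jR J k (g : k ⊗[ZMod p] (ι → Matrix (Fin n) (Fin n) F)) *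
      (g : k ⊗[ZMod p] (ι → Matrix (Fin n) (Fin n) F)) = 1 := hg.1
  have hfy : frob k (y' : k ⊗[ZMod p] (ι → Matrix (Fin n) (Fin n) F)) =
      (g : k ⊗[ZMod p] (ι → Matrix (Fin n) (Fin n) F)) * y' := by
    rw [← l1u_fru, hy', Units.val_mul]
  -- the hermitian form
  let Jy : (k ⊗[ZMod p] (ι → Matrix (Fin n) (Fin n) F))ˣ :=
    ⟨jR J k (y' : k ⊗[ZMod p] (ι → Matrix (Fin n) (Fin n) F)),
      jR J k ((y'⁻¹ : (k ⊗[ZMod p] (ι → Matrix (Fin n) (Fin n) F))ˣ) :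
        k ⊗[ZMod p] (ι → Matrix (Fin n) (Fin n) F)),
      by rw [← jR_mul, Units.inv_mul, jR_one], by rw [← jR_mul, Units.mul_inv, jR_one]⟩
  obtain ⟨b, hb⟩ := exists_unit_of_frob_eq (p := p) (Jy * y') (by
    rw [Units.val_mul, map_mul]
    change frob k (jR J k (y' : k ⊗[ZMod p] (ι → Matrix (Fin n) (Fin n) F))) *
      frob k (y' : k ⊗[ZMod p] (ι → Matrix (Fin n) (Fin n) F)) =
        jR J k (y' : k ⊗[ZMod p] (ι → Matrix (Fin n) (Fin n) F)) *
          (y' : k ⊗[ZMod p] (ι → Matrix (Fin n) (Fin n) F))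
    rw [frob, ← jR_tmap J (frobenius k p) (RingHom.id _) (fun _ => rfl), ← frob, hfy, jR_mul]
    calc jR J k (y' : k ⊗[ZMod p] (ι → Matrix (Fin n) (Fin n) F)) *
          jR J k (g : k ⊗[ZMod p] (ι → Matrix (Fin n) (Fin n) F)) *
          ((g : k ⊗[ZMod p] (ι → Matrix (Fin n) (Fin n) F)) * y') =
        jR J k (y' : k ⊗[ZMod p] (ι → Matrix (Fin n) (Fin n) F)) *
          (jR J k (g : k ⊗[ZMod p] (ι → Matrix (Fin n) (Fin n) F)) *
          (g : k ⊗[ZMod p] (ι → Matrix (Fin n) (Fin n) F))) * y' := by noncomm_ring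
      _ = _ := by rw [hgJ, mul_one])
  rw [Units.val_mul] at hb
  have hb' : jR J k (y' : k ⊗[ZMod p] (ι → Matrix (Fin n) (Fin n) F)) *
      (y' : k ⊗[ZMod p] (ι → Matrix (Fin n) (Fin n) F)) = 1 ⊗ₜ (b : ι → _) := hb
  have hJb : J.j (b : ι → Matrix (Fin n) (Fin n) F) = b := by
    apply one_tmul_inj (p := p) (R := k)
    rw [← jR_tmul, ← hb', jR_mul, jR_jR]
  have hfc : ∀ i, ∃ c : GL (Fin n) F, flipT ((c : Matrix (Fin n) (Fin n) F).map s) *
      (b : ι → Matrix (Fin n) (Fin n) F) i * (c : Matrix (Fin n) (Fin n) F) = 1 := by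
    intro i
    exact h2 p n F s e he hcard hse (l1u_cmp b i) (congrFun hJb i)
  choose c hc using hfc
  have hJc : J.j (l1u_fam c : ι → Matrix (Fin n) (Fin n) F) * (b : ι → _) *
      (l1u_fam c : ι → Matrix (Fin n) (Fin n) F) = 1 := by
    funext i
    exact hc i
  set y₁ := y' * cstu (p := p) k (l1u_fam c) with hy₁
  have hJ1 : jR J k (y₁ : k ⊗[ZMod p] (ι → Matrix (Fin n) (Fin n) F)) *
      (y₁ : k ⊗[ZMod p] (ι → Matrix (Fin n) (Fin n) F)) = 1 := by
    rw [hy₁, Units.val_mul, coe_cstu, jR_mul, jR_tmul]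
    calc (1 : k) ⊗ₜ[ZMod p] J.j (l1u_fam c : ι → Matrix (Fin n) (Fin n) F) *
          jR J k (y' : k ⊗[ZMod p] (ι → Matrix (Fin n) (Fin n) F)) *
          ((y' : k ⊗[ZMod p] (ι → Matrix (Fin n) (Fin n) F)) *
            (1 : k) ⊗ₜ[ZMod p] (l1u_fam c : ι → Matrix (Fin n) (Fin n) F)) =
        (1 : k) ⊗ₜ[ZMod p] J.j (l1u_fam c : ι → Matrix (Fin n) (Fin n) F) *
          (jR J k (y' : k ⊗[ZMod p] (ι → Matrix (Fin n) (Fin n) F)) *
          (y' : k ⊗[ZMod p] (ι → Matrix (Fin n) (Fin n) F))) *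
            (1 : k) ⊗ₜ[ZMod p] (l1u_fam c : ι → Matrix (Fin n) (Fin n) F) := by
          simp only [mul_assoc]
      _ = 1 := by
          rw [hb', Algebra.TensorProduct.tmul_mul_tmul, Algebra.TensorProduct.tmul_mul_tmul,
            mul_one, mul_one, hJc, Algebra.TensorProduct.one_def]
  have hF1 : fru 1 k y₁ = g * y₁ := by
    rw [hy₁, map_mul, hy', l1u_cst, mul_assoc]
  -- determinants
  have hdet : ∀ i, ∃ δ : F, ((cmp (p := p) k i y₁ : GL (Fin n) (k ⊗[ZMod p] F)) :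
      Matrix (Fin n) (Fin n) (k ⊗[ZMod p] F)).det = 1 ⊗ₜ δ := by
    intro i
    apply exists_of_frob_eq
    have e1 := cmp_tu (p := p) (iterateFrobenius k p 1) i y₁
    have e2 : tu (iterateFrobenius k p 1) (RingHom.id _) y₁ = g * y₁ := hF1
    rw [e2, map_mul] at e1
    have e3 := congrArg (fun M : GL (Fin n) (k ⊗[ZMod p] F) =>
      (M : Matrix (Fin n) (Fin n) (k ⊗[ZMod p] F)).det) e1
    rw [Units.val_mul, Matrix.det_mul, mem_SLf.1 (hg.2 i), one_mul] at e3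
    refine Eq.trans ?_ e3.symm
    rw [iterateFrobenius_one]
    exact RingHom.map_det (tmap (p := p) (frobenius k p) (RingHom.id F))
      (cmp (p := p) k i y₁ : Matrix (Fin n) (Fin n) (k ⊗[ZMod p] F))
  choose δ hδ using hdet
  have hδ1 : ∀ i, s (δ i) * δ i = 1 := by
    intro i
    have e1 := congrArg (fun x => (TH (p := p) k x i).det) hJ1
    rw [map_mul, map_one, Pi.mul_apply, Pi.one_apply, Matrix.det_mul, Matrix.det_one, sc4,
      det_flipT] at e1
    have e2 : ((TH (p := p) k (y₁ : k ⊗[ZMod p] (ι → Matrix (Fin n) (Fin n) F))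
        ((Equiv.refl ι) i)).map (tmap (p := p) (RingHom.id k) s)).det =
        tmap (p := p) (RingHom.id k) s ((TH (p := p) k
          (y₁ : k ⊗[ZMod p] (ι → Matrix (Fin n) (Fin n) F)) i).det) :=
      (RingHom.map_det _ _).symm
    have e3 : (TH (p := p) k (y₁ : k ⊗[ZMod p] (ι → Matrix (Fin n) (Fin n) F)) i).det =
        1 ⊗ₜ δ i := hδ i
    rw [e2, e3, tmap_tmul, Algebra.TensorProduct.tmul_mul_tmul, map_one, one_mul,
      Algebra.TensorProduct.one_def] at e1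
    exact one_tmul_inj (p := p) (R := k) e1
  have hft : ∀ i, ∃ t : GL (Fin n) F, flipT ((t : Matrix (Fin n) (Fin n) F).map s) *
      (t : Matrix (Fin n) (Fin n) F) = 1 ∧ (t : Matrix (Fin n) (Fin n) F).det = δ i := by
    intro i
    obtain ⟨t, _, h⟩ := h3 p n F s e he hcard hse hn (δ i) (hδ1 i)
    exact ⟨t, h⟩
  choose t ht htd using hft
  refine ⟨y₁ * (cstu (p := p) k (l1u_fam t))⁻¹, ⟨?_, ?_⟩, ?_⟩
  · refine l1u_div (jR J k).toAddMonoidHom (fun a b => jR_mul J a b) (fun a => jR_jR J a) hJ1 ?_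
    change (1 : k) ⊗ₜ[ZMod p] J.j (l1u_fam t : ι → Matrix (Fin n) (Fin n) F) *
      (1 : k) ⊗ₜ[ZMod p] (l1u_fam t : ι → Matrix (Fin n) (Fin n) F) = 1
    rw [Algebra.TensorProduct.tmul_mul_tmul, one_mul, Algebra.TensorProduct.one_def]
    congr 1
    funext i
    exact ht i
  · intro i
    rw [map_mul, map_inv, SLf, MonoidHom.mem_ker, map_mul, map_inv, mul_inv_eq_one]
    apply Units.ext
    have e1 : (cmp (p := p) k i y₁ : Matrix (Fin n) (Fin n) (k ⊗[ZMod p] F)).det =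
        (cmp (p := p) k i (cstu k (l1u_fam t)) : Matrix (Fin n) (Fin n) (k ⊗[ZMod p] F)).det := by
      rw [hδ i, coe_cmp, coe_cstu, TH_tmul, ← htd i]
      exact RingHom.map_det (Algebra.TensorProduct.includeRight :
        F →ₐ[ZMod p] k ⊗[ZMod p] F).toRingHom _
    exact e1
  · rw [map_mul, map_inv, hF1, l1u_cst, mul_assoc]

end MP7Z
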