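import Pool.Agent.Lib.MP_7f581e_Z.Types.SpecB

/-! # Step Lie, types: Lang's theorem for the powers of the Frobenius, type I (`LMIStmt`) -/

set_option autoImplicit false

namespace MP7Z

open TensorProduct MP7fS MP7fU Matrix

theorem tyLMI (h1 : UeStmt) (h2 : ScStmt) (h3 : DetUStmt) : LMIStmt := by
  intro p _ ι n F _ _ _ _ α hα s hs hSL m₀ hE hL k _ _ _ _ _ m hm hdm b hb
  obtain ⟨c₁, hc1, hc2, hc3⟩ := hE k m hm hdm
  obtain ⟨s1, s2, s3, -, -, -⟩ := h2 p ι n F α hα s hs k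
  set J := JI p ι n F α hα s hs with hJ
  obtain ⟨U, u1, u2, u3, -, u5⟩ := h1 (k ⊗[ZMod p] (ι → Matrix (Fin n) (Fin n) F))
    (jR J k).toAddMonoidHom (jR_one J) (jR_mul J) (jR_jR J) (scR p ι n F k c₁)
    (by rw [← map_mul, hc1]) (s1 c₁) (by
      change jR J k (scR p ι n F k c₁) = 1 - scR p ι n F k c₁
      rw [s2 c₁, hc2, map_sub, map_one])
  have hbII : b ∈ (GII p ι (Fin n) F (SLf (Fin n)) hSL).pts := hb.2
  obtain ⟨y', hy', hfy'⟩ := hL k m hm hdm b hbII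
  have hbk : cstu k b ∈ (GI p ι n F α hα s hs hSL).H k := by
    have h4 := (GI p ι n F α hα s hs hSL).map (ZMod p) k (algebraMap (ZMod p) k) _ hb
    have h5 : tu (p := p) (algebraMap (ZMod p) k) (RingHom.id (ι → Matrix (Fin n) (Fin n) F))
        (cstu (ZMod p) b) = cstu k b := by
      apply Units.ext
      change (algebraMap (ZMod p) k 1) ⊗ₜ[ZMod p] (b : ι → Matrix (Fin n) (Fin n) F) =
        (1 : k) ⊗ₜ[ZMod p] (b : ι → Matrix (Fin n) (Fin n) F)
      rw [map_one]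
    rw [h5] at h4
    exact h4
  refine ⟨U y', ⟨u2 y', ?_⟩, ?_⟩
  · obtain ⟨w', hw', hUw⟩ := u1 y'
    exact h3 p ι n F α hα s hs k c₁ hc1 y' (U y') w' hy' hw' hUw
  · have h6 := u5 (tmap (p := p) (iterateFrobenius k p m)
      (RingHom.id (ι → Matrix (Fin n) (Fin n) F))) (by rw [s3, hc3])
      (fun a => (jR_tmap J _ _ (fun _ => rfl) a).symm) y'
    have h7 : fru m k (U y') = U (fru m k y') := h6.symm
    have h8 : U (cstu k b) = cstu k b := u3 _ hbk.1
    rw [h7, hfy', map_mul, h8]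

end MP7Z
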