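import Pool.Agent.Lib.MP_7f581e_Z.Types.SpecB
import Pool.Agent.Lib.MP_7f581e_Z.Types.TDSU

/-!
# Types: the Lang groups of the special unitary groups
-/

set_option autoImplicit false
set_option linter.unusedSectionVars false

namespace MP7Z

open TensorProduct MP7fS MP7fU Matrix MP7fY MP7fW MP7fH

namespace SUJ

section form

variable {F : Type} [Field F] {N : ℕ} {s : F →+* F}

theorem flipT_eq (M : Matrix (Fin N) (Fin N) F) : flipT M = Jm N F * Mᵀ * Jm N F := by
  ext a b
  rw [flipT_apply, Matrix.mul_apply, Finset.sum_eq_single (Fin.rev b),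
    Matrix.mul_apply, Finset.sum_eq_single (Fin.rev a), Jm_apply, Jm_apply, if_pos rfl,
    if_pos (Fin.rev_rev b).symm, one_mul, mul_one, Matrix.transpose_apply]
  · intro c _ hc
    rw [Jm_apply, if_neg hc, zero_mul]
  · intro h
    exact absurd (Finset.mem_univ _) h
  · intro c _ hc
    rw [Jm_apply, if_neg, mul_zero]
    intro h
    apply hc
    rw [h, Fin.rev_rev]
  · intro h
    exact absurd (Finset.mem_univ _) h

theorem unit_iff (M : Matrix (Fin N) (Fin N) F) :
    flipT (M.map s) * M = 1 ↔ (M.map s)ᵀ * Jm N F * M = Jm N F := by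
  rw [flipT_eq]
  constructor
  · intro h
    calc (M.map s)ᵀ * Jm N F * M = (Jm N F * Jm N F) * (M.map s)ᵀ * Jm N F * M := by
          rw [Jm_sq, Matrix.one_mul]
      _ = Jm N F * (Jm N F * (M.map s)ᵀ * Jm N F * M) := by simp only [Matrix.mul_assoc]
      _ = Jm N F := by rw [h, Matrix.mul_one]
  · intro h
    calc Jm N F * (M.map s)ᵀ * Jm N F * M = Jm N F * ((M.map s)ᵀ * Jm N F * M) := by
          simp only [Matrix.mul_assoc]
      _ = 1 := by rw [h, Jm_sq]

/-- Unitary matrices: `flipT (g.map s) = g⁻¹`. -/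
theorem flip_UG {g : GL (Fin N) F} (hg : g ∈ UG s (Jm N F)) :
    flipT (g.1.map s) = (g⁻¹).1 := by
  have h1 : flipT (g.1.map s) * g.1 = 1 := (unit_iff _).2 hg
  calc flipT (g.1.map s) = flipT (g.1.map s) * (g.1 * (g⁻¹).1) := by
        rw [gl_mul_inv, Matrix.mul_one]
    _ = (g⁻¹).1 := by rw [← Matrix.mul_assoc, h1, Matrix.one_mul]

/-- The involution commutes with semilinear conjugations by unitary matrices. -/
theorem flip_cjR {g : GL (Fin N) F} (hg : g ∈ UG s (Jm N F))
    (σ : F ≃+* F) (hσ : ∀ x, σ (s x) = s (σ x)) (M : Matrix (Fin N) (Fin N) F) :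
    flipT ((cjR g σ M).map s) = cjR g σ (flipT (M.map s)) := by
  have h1 := flip_UG hg
  have h2 := flip_UG (inv_mem hg)
  rw [inv_inv] at h2
  rw [cjR_apply, cjR_apply, map_mulR, map_mulR, flipT_mul, flipT_mul, h1, h2]
  have h3 : flipT ((M.map σ).map s) = (flipT (M.map s)).map σ := by
    rw [← flipT_map]
    congr 1
    ext a b
    exact (hσ _).symm
  rw [h3]
  simp only [Matrix.mul_assoc]

/-- Points: membership in the special unitary group. -/
theorem mem_inc_iff (M : Matrix (Fin N) (Fin N) F) :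
    (∃ h : SG s (Jm N F), incJ s N h = M) ↔ flipT (M.map s) * M = 1 ∧ M.det = 1 := by
  constructor
  · rintro ⟨h, rfl⟩
    exact ⟨(unit_iff _).2 h.2.1, h.2.2⟩
  · rintro ⟨h1, h2⟩
    have h3 : M.det ≠ 0 := by rw [h2]; exact one_ne_zero
    exact ⟨⟨Matrix.GeneralLinearGroup.mkOfDetNeZero M h3, (unit_iff _).1 h1, h2⟩, rfl⟩

end form

end SUJ

open SUJ in
/-- **The Lang groups of `SU_N(F)`.** -/
theorem langOf_SU (hFn : FnStmt) (hLGL : LGLStmt) (hLSL : LSLStmt) (hGSL : GSLStmt)
    (hL1II : L1IIStmt) (hLMII : LMIIStmt) (hGII : GIIStmt) (hLMI : LMIStmt) (hGnI : GnIStmt)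
    (hZI1 : ZI1Stmt) (hPI : PIStmt) (hStI : StIStmt) (hPtI : PtIStmt) (hESU : ESUStmt)
    (hL1U : L1UStmt) {p : ℕ} [Fact p.Prime] {m N : ℕ} {F : Type}
    [Field F] [CharP F p] [Finite F] [Algebra (ZMod p) F] (hm : 0 < m)
    (hcard : Nat.card F = p ^ (2 * m)) (h2 : 2 ≤ N) :
    LangOf p (incJ (sF p m F) N)
      (AJ (s := sF p m F) (N := N) (sF_comm (p := p) (m := m))).subtype
      (DJ (s := sF p m F) (N := N) (sF_comm (p := p) (m := m))) := by
  intro κ _
  have hs : ∀ c, sF p m F (sF p m F c) = c := sF_sF (p := p) (m := m) hcard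
  have hα : ∀ y, Equiv.refl κ (Equiv.refl κ y) = y := fun _ => rfl
  obtain ⟨hSL, hGL, -⟩ := hFn (Fin N)
  have hpow : ∀ c, sF p m F c = c ^ p ^ m := fun c => sF_apply c
  obtain ⟨hEps, hθ⟩ := hESU p κ F (sF p m F) m hm hcard hpow
  refine ⟨GI p κ N F (Equiv.refl κ) hα (sF p m F) hs hSL, ?_, ?_, ?_⟩
  · intro b
    rw [hPtI]
    have h1 : ∀ k, (∃ h, incJ (sF p m F) N h = (b : κ → Matrix (Fin N) (Fin N) F) k) ↔
        flipT (((b : κ → Matrix (Fin N) (Fin N) F) k).map (sF p m F)) *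
          (b : κ → Matrix (Fin N) (Fin N) F) k = 1 ∧
          ((b : κ → Matrix (Fin N) (Fin N) F) k).det = 1 := fun k => mem_inc_iff _
    constructor
    · rintro ⟨h3, h4⟩ k
      rw [h1]
      exact ⟨congrFun h3 k, h4 k⟩
    · intro h3
      refine ⟨?_, fun k => ((h1 k).1 (h3 k)).2⟩
      funext k
      exact ((h1 k).1 (h3 k)).1
  · exact hL1U p κ N F hα (sF p m F) hs hSL hGL m hm hcard hpow h2
      (hL1II p κ (Fin N) F (GLf (Fin N)) hGL (hLGL p (Fin N)))
  · intro Q _ _ ρ hρ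
    have hform : ∀ q, FormG (DG (Fin N) F) (ρ q) := by
      intro q
      obtain ⟨π, x, hx, hx'⟩ := hρ q
      have h3 : ∀ k, ∃ (g : GL (Fin N) F) (σ : F ≃+* F), g ∈ UG (sF p m F) (Jm N F) ∧
          (∀ i j, i ≠ j → g.1 i j = 0) ∧
          ((x k : AJ (s := sF p m F) (N := N) (sF_comm (p := p) (m := m))) :
            RingAut (Matrix (Fin N) (Fin N) F)) = cjR g σ := by
        intro k
        obtain ⟨g, hg, hg', σ, hσ⟩ := mem_DJ.1 (hx k)
        exact ⟨g, σ, hg, hg', hσ⟩
      choose g σ hg hg' hσ using h3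
      refine ⟨π, g, σ, ?_, ?_⟩
      · intro i
        refine ⟨fun a => (g i).1 a a, ?_⟩
        ext a b
        rw [Matrix.diagonal_apply]
        split_ifs with h
        · rw [h]
        · exact hg' i a b h
      · intro z i
        rw [hx']
        change ((x i : AJ (s := sF p m F) (N := N) (sF_comm (p := p) (m := m))) :
            RingAut (Matrix (Fin N) (Fin N) F)) (z i) = _
        rw [hσ]
        rfl
    have hform' : ∀ q, FormG Set.univ (ρ q) := by
      intro q
      obtain ⟨π, t, σ, -, h⟩ := hform q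
      exact ⟨π, t, σ, fun _ => Set.mem_univ _, h⟩
    have hcomm : ∀ q z, ρ q ((JI p κ N F (Equiv.refl κ) hα (sF p m F) hs).j z) =
        (JI p κ N F (Equiv.refl κ) hα (sF p m F) hs).j (ρ q z) := by
      intro q z
      obtain ⟨π, x, hx, hx'⟩ := hρ q
      funext y
      obtain ⟨k, rfl⟩ := π.surjective y
      rw [hx', JI_apply, JI_apply]
      change ((x k : AJ (s := sF p m F) (N := N) (sF_comm (p := p) (m := m))) :
            RingAut (Matrix (Fin N) (Fin N) F)) (flipT ((z k).map (sF p m F))) =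
        flipT ((ρ q z (π k)).map (sF p m F))
      rw [hx']
      obtain ⟨g, hg, hg', σ, hσ⟩ := mem_DJ.1 (hx k)
      change _ = flipT ((((x k : AJ (s := sF p m F) (N := N) (sF_comm (p := p) (m := m))) :
            RingAut (Matrix (Fin N) (Fin N) F)) (z k)).map (sF p m F))
      rw [hσ, flip_cjR hg σ (sF_comm (p := p) (m := m) σ)]
    refine ⟨hStI p κ N F (Equiv.refl κ) hα (sF p m F) hs hSL Q ρ hform' hcomm,
      Module.finrank (ZMod p) F, Bool, ZI p κ N F (Equiv.refl κ) hα (sF p m F) hs,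
      Module.finrank_pos, ?_, ?_, ?_, ?_⟩
    · exact hLMI p κ N F (Equiv.refl κ) hα (sF p m F) hs hSL _ hEps
        (hLMII p κ (Fin N) F (SLf (Fin N)) hSL (hLSL p (Fin N) (hLGL p (Fin N))))
    · exact hGnI p κ N F (Equiv.refl κ) hα (sF p m F) hs hSL _ hEps
        (hGII p κ (Fin N) F (SLf (Fin N)) hSL (NSL p N) (hGSL p N h2))
    · intro t q b hb
      exact (hZI1 p κ N F (Equiv.refl κ) hα (sF p m F) hs t).2 (ρ q) (hform q) (hcomm q) b hb
    · intro t
      exact hPI p κ N F (Equiv.refl κ) hα (sF p m F) hs hSL t hθ Q ρ hform hcomm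

end MP7Z
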