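import Pool.Agent.Lib.MP_7f581e_Z.Types.SpecB

/-!
# Types, `Sc`: scalars and the involution
-/

set_option autoImplicit false
set_option linter.unusedSectionVars false

namespace MP7Z

open TensorProduct MP7fS MP7fU Matrix

section

variable {p : ℕ} [Fact p.Prime] {ι : Type} {n : ℕ} {F : Type} [Finite ι] [Field F]
  [Finite F] [Algebra (ZMod p) F] {α : Equiv.Perm ι} {s : F →+* F}

theorem sc_scF_comm (c : ι → F) (b : ι → Matrix (Fin n) (Fin n) F) :
    scF ι n F c * b = b * scF ι n F c := by
  funext i
  exact Matrix.scalar_commute (c i) (fun r' => mul_comm _ _) (b i)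

theorem sc_J_scF (hα : ∀ y, α (α y) = y) (hs : ∀ c, s (s c) = c) (c : ι → F) :
    (JI p ι n F α hα s hs).j (scF ι n F c) = scF ι n F (sgC ι F α s c) := by
  funext y
  rw [JI_apply]
  ext a b
  rw [flipT_apply, Matrix.map_apply, scF_apply, scF_apply, Matrix.scalar_apply,
    Matrix.scalar_apply, Matrix.diagonal_apply, Matrix.diagonal_apply, sgC_apply]
  by_cases h : a = b
  · subst h
    rw [if_pos rfl, if_pos rfl]
  · have h1 : ¬ Fin.rev b = Fin.rev a := fun h2 => h (Fin.rev_injective h2).symm
    rw [if_neg h, if_neg h1, map_zero]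

theorem sc_comm (R : Type) [CommRing R] [Algebra (ZMod p) R] (c : R ⊗[ZMod p] (ι → F))
    (x : R ⊗[ZMod p] (ι → Matrix (Fin n) (Fin n) F)) :
    scR p ι n F R c * x = x * scR p ι n F R c := by
  induction c using TensorProduct.induction_on with
  | zero => rw [map_zero, zero_mul, mul_zero]
  | add c d hc hd => rw [map_add, add_mul, mul_add, hc, hd]
  | tmul r c =>
    induction x using TensorProduct.induction_on with
    | zero => rw [zero_mul, mul_zero]
    | add x y hx hy => rw [mul_add, add_mul, hx, hy]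
    | tmul s b =>
      rw [scR_tmul, Algebra.TensorProduct.tmul_mul_tmul, Algebra.TensorProduct.tmul_mul_tmul,
        mul_comm r s, sc_scF_comm]

theorem sc_J (hα : ∀ y, α (α y) = y) (hs : ∀ c, s (s c) = c) (R : Type) [CommRing R]
    [Algebra (ZMod p) R] (c : R ⊗[ZMod p] (ι → F)) :
    jR (JI p ι n F α hα s hs) R (scR p ι n F R c) =
      scR p ι n F R (tmap (p := p) (RingHom.id R) (sgC ι F α s) c) := by
  induction c using TensorProduct.induction_on with
  | zero => simp only [map_zero]
  | add c d hc hd => rw [map_add, map_add, map_add, map_add, hc, hd]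
  | tmul r c => rw [scR_tmul, jR_tmul, tmap_tmul, scR_tmul, sc_J_scF, RingHom.id_apply]

theorem sc_tmap {R R' : Type} [CommRing R] [Algebra (ZMod p) R] [CommRing R']
    [Algebra (ZMod p) R'] (f : R →+* R') (c : R ⊗[ZMod p] (ι → F)) :
    tmap (p := p) f (RingHom.id (ι → Matrix (Fin n) (Fin n) F)) (scR p ι n F R c) =
      scR p ι n F R' (tmap (p := p) f (RingHom.id (ι → F)) c) := by
  induction c using TensorProduct.induction_on with
  | zero => simp only [map_zero]
  | add c d hc hd => rw [map_add, map_add, map_add, map_add, hc, hd]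
  | tmul r c => rw [scR_tmul, tmap_tmul, tmap_tmul, scR_tmul, RingHom.id_apply, RingHom.id_apply]

theorem sc_TH_J (hα : ∀ y, α (α y) = y) (hs : ∀ c, s (s c) = c) (R : Type) [CommRing R]
    [Algebra (ZMod p) R] (x : R ⊗[ZMod p] (ι → Matrix (Fin n) (Fin n) F)) (i : ι) :
    TH (p := p) R (jR (JI p ι n F α hα s hs) R x) i =
      flipT ((TH (p := p) R x (α i)).map (tmap (p := p) (RingHom.id R) s)) := by
  induction x using TensorProduct.induction_on with
  | zero =>
    rw [map_zero, map_zero]
    ext a b
    exact (map_zero (tmap (p := p) (RingHom.id R) s)).symm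
  | add x y hx hy =>
    rw [map_add, map_add, map_add, Pi.add_apply, hx, hy]
    ext a b
    exact (map_add (tmap (p := p) (RingHom.id R) s) _ _).symm
  | tmul r z =>
    rw [jR_tmul, TH_tmul, TH_tmul]
    ext a b
    rfl

/-- Evaluation at an index on the centre. -/
noncomputable def scE (R : Type) [CommRing R] [Algebra (ZMod p) R] (i : ι) :
    R ⊗[ZMod p] (ι → F) →+* R ⊗[ZMod p] F :=
  (Algebra.TensorProduct.map (AlgHom.id (ZMod p) R)
    (toAlg (p := p) (Pi.evalRingHom (fun _ : ι => F) i))).toRingHom

theorem scE_tmul (R : Type) [CommRing R] [Algebra (ZMod p) R] (i : ι) (r : R) (c : ι → F) :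
    scE (p := p) R i (r ⊗ₜ c) = r ⊗ₜ c i := rfl

theorem sc_TH_scR (R : Type) [CommRing R] [Algebra (ZMod p) R] (c : R ⊗[ZMod p] (ι → F))
    (i : ι) :
    TH (p := p) R (scR p ι n F R c) i = Matrix.scalar (Fin n) (scE (p := p) R i c) := by
  induction c using TensorProduct.induction_on with
  | zero =>
    rw [map_zero, map_zero, map_zero, map_zero]
    rfl
  | add c d hc hd => rw [map_add, map_add, map_add, map_add, Pi.add_apply, hc, hd]
  | tmul r c =>
    rw [scR_tmul, TH_tmul, scE_tmul]
    ext a b
    change r ⊗ₜ[ZMod p] (Matrix.scalar (Fin n) (c i) a b) =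
      Matrix.scalar (Fin n) (r ⊗ₜ[ZMod p] c i) a b
    rw [Matrix.scalar_apply, Matrix.scalar_apply, Matrix.diagonal_apply, Matrix.diagonal_apply]
    by_cases h : a = b
    · rw [if_pos h, if_pos h]
    · rw [if_neg h, if_neg h, TensorProduct.tmul_zero]

theorem sc_ZII (R : Type) [CommRing R] [Algebra (ZMod p) R]
    (N : Bool → Set (Matrix (Fin n) (Fin n) (ZMod p))) (b : Bool)
    (c : R ⊗[ZMod p] (ι → F)) (z : R ⊗[ZMod p] (ι → Matrix (Fin n) (Fin n) F))
    (hz : z ∈ (ZII p ι (Fin n) F N b).baseChange R) :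
    scR p ι n F R c * z ∈ (ZII p ι (Fin n) F N b).baseChange R := by
  induction c using TensorProduct.induction_on with
  | zero =>
    rw [map_zero, zero_mul]
    exact Submodule.zero_mem _
  | add c d hc hd =>
    rw [map_add, add_mul]
    exact Submodule.add_mem _ hc hd
  | tmul r c =>
    rw [scR_tmul]
    rw [Submodule.baseChange_eq_span] at hz
    induction hz using Submodule.span_induction with
    | mem x hx =>
      obtain ⟨y, hy, rfl⟩ := hx
      rw [TensorProduct.mk_apply, Algebra.TensorProduct.tmul_mul_tmul]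
      refine Submodule.tmul_mem_baseChange_of_mem _ ?_
      rw [mem_ZII]
      intro i
      have h1 : (scF ι n F c * y) i = c i • y i := by
        change Matrix.scalar (Fin n) (c i) * y i = c i • y i
        rw [Matrix.scalar_apply, ← Matrix.smul_eq_diagonal_mul]
      rw [h1]
      exact Submodule.smul_mem _ _ ((mem_ZII p ι (Fin n) F).mp hy i)
    | zero =>
      rw [mul_zero]
      exact Submodule.zero_mem _
    | add x y _ _ hx hy =>
      rw [mul_add]
      exact Submodule.add_mem _ hx hy
    | smul a x _ hx =>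
      rw [mul_smul_comm]
      exact Submodule.smul_mem _ _ hx

end

theorem tySc : ScStmt := by
  intro p _ ι n F _ _ _ _ α hα s hs R _ _
  refine ⟨sc_comm R, sc_J hα hs R, fun R' _ _ f c => sc_tmap f c, sc_TH_J hα hs R, ?_,
    sc_ZII R⟩
  intro c
  refine ⟨fun i => scE (p := p) R i c, sc_TH_scR R c, ?_⟩
  intro hc i
  rw [← map_mul, hc]

end MP7Z
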