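import Pool.Agent.Lib.MP_7f581e_Z.Types.SpecB

/-!
# Step Lie, types: StI
-/

set_option autoImplicit false
set_option linter.unusedSectionVars false

namespace MP7Z

open TensorProduct MP7fS MP7fU Matrix

theorem tyStI (h1 : StIIStmt) (h2 : ZStStmt) : StIStmt := by
  intro p _ ι n F _ _ _ _ α hα s hs hSL Q _ ρ hρ hJ R _ _ q x hx
  have h3 : (GII p ι (Fin n) F (SLf (Fin n)) hSL).Stable ρ :=
    h1 p ι (Fin n) F (SLf (Fin n)) hSL Set.univ
      (fun t _ T _ f u hu => (h2 p F).2.2.2 (Fin n) t T f u hu) Q ρ hρ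
  refine ⟨?_, h3 R q x hx.2⟩
  rw [coe_tu, jR_tmap _ (RingHom.id R) _ (fun b => hJ q b), ← map_mul, hx.1, map_one]

end MP7Z
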