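import Pool.Agent.Lib.MP_7f581e_Z.Types.SpecB

/-! # Step Lie, types: unipotent elements (`UTStmt`) -/

set_option autoImplicit false

namespace MP7Z

open TensorProduct MP7fS MP7fU Matrix

/-- The determinant of one plus a strictly triangular matrix. -/
theorem det_one_add_tri {n : ℕ} {T : Type} [CommRing T] (t : Bool) (M : Matrix (Fin n) (Fin n) T)
    (h : ∀ a b, (if t then a ≤ b else b ≤ a) → M a b = 0) : (1 + M).det = 1 := by
  have hd : ∀ a, (1 + M) a a = 1 := by
    intro a
    rw [Matrix.add_apply, Matrix.one_apply_eq, h a a (by cases t <;> simp), add_zero]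
  cases t with
  | false =>
    have h1 : (1 + M).BlockTriangular id := by
      intro a b hab
      have hab' : b < a := hab
      rw [Matrix.add_apply, Matrix.one_apply_ne hab'.ne', h a b (by simpa using hab'.le), add_zero]
    rw [Matrix.det_of_upperTriangular h1]
    exact Finset.prod_eq_one fun a _ => hd a
  | true =>
    have h1 : (1 + M).BlockTriangular OrderDual.toDual := by
      intro a b hab
      have hab' : a < b := hab
      rw [Matrix.add_apply, Matrix.one_apply_ne hab'.ne, h a b (by simpa using hab'.le), add_zero]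
    rw [Matrix.det_of_lowerTriangular _ h1]
    exact Finset.prod_eq_one fun a _ => hd a

theorem tyUT (h1 : THbStmt) (h2 : ScStmt) : UTStmt := by
  intro p _ ι n F _ _ _ _ t R _ _ c z hz
  obtain ⟨-, -, -, -, s5, -⟩ := h2 p ι n F (Equiv.refl ι) (fun _ => rfl) (RingHom.id F)
    (fun _ => rfl) R
  obtain ⟨e, he, -⟩ := s5 c
  have hb := h1 p ι (Fin n) F R
  have hX : ∀ y, TH (p := p) R (1 + scR p ι n F R c * z) y =
      1 + Matrix.scalar (Fin n) (e y) * TH (p := p) R z y := by
    intro y
    rw [map_add, map_one, map_mul, Pi.add_apply, Pi.mul_apply, he y]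
    rfl
  have hdet : ∀ y, (TH (p := p) R (1 + scR p ι n F R c * z) y).det = 1 := by
    intro y
    rw [hX]
    refine det_one_add_tri t _ fun a b hab => ?_
    rw [Matrix.scalar_apply, Matrix.diagonal_mul, hz y a b hab, mul_zero]
  have hU1 : IsUnit (TH (p := p) R (1 + scR p ι n F R c * z)) := by
    rw [Pi.isUnit_iff]
    intro y
    rw [Matrix.isUnit_iff_isUnit_det, hdet y]
    exact isUnit_one
  have hU2 : IsUnit (1 + scR p ι n F R c * z) := by
    have h3 := hU1.map (RingEquiv.ofBijective (TH (p := p) (ι := ι) (l := Fin n) (F := F) R) hb).symm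
    have h4 : (RingEquiv.ofBijective (TH (p := p) (ι := ι) (l := Fin n) (F := F) R) hb).symm
        (TH (p := p) R (1 + scR p ι n F R c * z)) = 1 + scR p ι n F R c * z :=
      (RingEquiv.ofBijective (TH (p := p) (ι := ι) (l := Fin n) (F := F) R) hb).symm_apply_apply _
    rw [h4] at h3
    exact h3
  obtain ⟨u, hu⟩ := hU2
  refine ⟨u, hu, fun i => ?_⟩
  rw [mem_SLf, coe_cmp, hu]
  exact hdet i

end MP7Z
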