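import Pool.Agent.Lib.MP_7f581e_Z.Types.SpecB

/-!
# Types, `Ue`: the projection to the unitary group defined by a central idempotent
-/

set_option autoImplicit false

namespace MP7Z

open TensorProduct MP7fS MP7fU Matrix

theorem ue_mul {A : Type} [Ring A] {ε : A} (hε : ε * ε = ε) (hc : ∀ a, ε * a = a * ε)
    (a b c d : A) :
    (ε * a + (1 - ε) * b) * (ε * c + (1 - ε) * d) = ε * (a * c) + (1 - ε) * (b * d) := by
  have hee : ∀ x, ε * (ε * x) = ε * x := fun x => by rw [← mul_assoc, hε]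
  have ha : ∀ x, a * (ε * x) = ε * (a * x) := fun x => by rw [← mul_assoc, ← hc a, mul_assoc]
  have hb : ∀ x, b * (ε * x) = ε * (b * x) := fun x => by rw [← mul_assoc, ← hc b, mul_assoc]
  simp only [add_mul, mul_add, sub_mul, mul_sub, one_mul, mul_assoc, ha, hb, hee]
  abel

theorem tyUe : UeStmt := by
  intro A _ J hJ1 hJm hJJ ε hε hc hJε
  have hsum : ε * 1 + (1 - ε) * 1 = (1 : A) := by rw [mul_one, mul_one]; abel
  have hJu : ∀ w : Aˣ, J ((w⁻¹ : Aˣ) : A) * J (w : A) = 1 := by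
    intro w
    rw [← hJm, Units.mul_inv, hJ1]
  have hJu' : ∀ w : Aˣ, J (w : A) * J ((w⁻¹ : Aˣ) : A) = 1 := by
    intro w
    rw [← hJm, Units.inv_mul, hJ1]
  have hJs : ∀ a : A, J (ε * a) = (1 - ε) * J a := by
    intro a
    rw [hJm, hJε, mul_sub, sub_mul, mul_one, one_mul, hc]
  have hJs' : ∀ a : A, J ((1 - ε) * a) = ε * J a := by
    intro a
    rw [sub_mul, one_mul, map_sub, hJs, sub_mul, one_mul]
    abel
  let f : Aˣ →* A :=
    { toFun := fun w => ε * w + (1 - ε) * J ((w⁻¹ : Aˣ) : A)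
      map_one' := by
        rw [inv_one, Units.val_one, hJ1]
        exact hsum
      map_mul' := by
        intro w v
        rw [_root_.mul_inv_rev, Units.val_mul, Units.val_mul, hJm, ue_mul hε hc] }
  have hf : ∀ w : Aˣ, f w = ε * w + (1 - ε) * J ((w⁻¹ : Aˣ) : A) := fun w => rfl
  refine ⟨f.toHomUnits, ?_, ?_, ?_, ?_, ?_⟩
  · intro w
    refine ⟨⟨J (w : A), J ((w⁻¹ : Aˣ) : A), hJu' w, hJu w⟩, rfl, rfl⟩
  · intro w
    rw [MonoidHom.coe_toHomUnits, hf, map_add, hJs, hJs', hJJ, add_comm, ue_mul hε hc, hJu',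
      Units.inv_mul, hsum]
  · intro w hw
    apply Units.ext
    have h1 : J (w : A) = ((w⁻¹ : Aˣ) : A) := by
      calc J (w : A) = J (w : A) * ((w : A) * ((w⁻¹ : Aˣ) : A)) := by rw [Units.mul_inv, mul_one]
        _ = _ := by rw [← mul_assoc, hw, one_mul]
    rw [MonoidHom.coe_toHomUnits, hf, ← h1, hJJ, sub_mul, one_mul]
    abel
  · intro w z hw hz
    have h1 : ((w⁻¹ : Aˣ) : A) = 1 - z := by
      have h2 : (w : A) * (1 - z) = 1 := by
        rw [hw, add_mul, one_mul, mul_sub, mul_one, hz]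
        abel
      calc ((w⁻¹ : Aˣ) : A) = ((w⁻¹ : Aˣ) : A) * ((w : A) * (1 - z)) := by rw [h2, mul_one]
        _ = _ := by rw [← mul_assoc, Units.inv_mul, one_mul]
    refine ⟨?_, ?_⟩
    · rw [MonoidHom.coe_toHomUnits, hf, h1, hw, map_sub, hJ1, hJs]
      simp only [mul_add, mul_sub, sub_mul, one_mul, mul_one]
      abel
    · have h3 : J z * J z = 0 := by rw [← hJm, hz, map_zero]
      have h4 : ε * z - J (ε * z) = ε * z + (1 - ε) * (-(J z)) := by
        rw [hJs, mul_neg]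
        abel
      rw [h4, ue_mul hε hc, hz, neg_mul_neg, h3, mul_zero, mul_zero, add_zero]
  · intro Θ hΘ hΘJ w
    apply Units.ext
    rw [MonoidHom.coe_toHomUnits, hf]
    change ε * Θ (w : A) + (1 - ε) * J (Θ ((w⁻¹ : Aˣ) : A)) =
      Θ (ε * w + (1 - ε) * J ((w⁻¹ : Aˣ) : A))
    rw [map_add, map_mul, map_mul, map_sub, map_one, hΘ, hΘJ]

end MP7Z
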