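import Pool.Agent.Lib.MP_7f581e_Z.Types.SpecB

/-! # Step Lie, types: elements of `R ⊗ ZI` (`ZI1Stmt`) -/

set_option autoImplicit false

namespace MP7Z

open TensorProduct MP7fS MP7fU Matrix

theorem tyZI1 : ZI1Stmt := by
  intro p _ ι n F _ _ _ _ α hα s hs t
  constructor
  · intro R _ _ z hz
    rw [Submodule.baseChange_eq_span] at hz
    refine Submodule.span_induction (p := fun (z : R ⊗[ZMod p] (ι → Matrix (Fin n) (Fin n) F)) _ =>
      jR (JI p ι n F α hα s hs) R z = -z ∧
          ∀ y a b, (if t then a ≤ b else b ≤ a) → TH (p := p) R z y a b = 0) ?_ ?_ ?_ ?_ hz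
    · rintro _ ⟨z₀, hz₀, rfl⟩
      have h0 := (mem_ZI p ι n F α hα s hs).1 hz₀
      change jR (JI p ι n F α hα s hs) R (1 ⊗ₜ z₀) = -(1 ⊗ₜ z₀) ∧
        ∀ y a b, (if t then a ≤ b else b ≤ a) → TH (p := p) R (1 ⊗ₜ z₀) y a b = 0
      refine ⟨?_, ?_⟩
      · rw [jR_tmul, h0.1, TensorProduct.tmul_neg]
      · intro y a b hab
        rw [TH_tmul]
        change (1 : R) ⊗ₜ[ZMod p] (z₀ y a b) = 0
        rw [h0.2 y a b hab, TensorProduct.tmul_zero]
    · refine ⟨by rw [map_zero, neg_zero], ?_⟩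
      intro y a b _
      rw [map_zero]
      rfl
    · rintro x w _ _ ⟨hx, hx'⟩ ⟨hw, hw'⟩
      refine ⟨by rw [map_add, hx, hw, neg_add], ?_⟩
      intro y a b hab
      rw [map_add]
      change TH (p := p) R x y a b + TH (p := p) R w y a b = 0
      rw [hx' y a b hab, hw' y a b hab, add_zero]
    · rintro r x _ ⟨hx, hx'⟩
      refine ⟨by rw [map_smul, hx, smul_neg], ?_⟩
      intro y a b hab
      have h1 : TH (p := p) R (r • x) = r • TH (p := p) R x := map_smul (THa (p := p) R) r x
      rw [h1]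
      change r • (TH (p := p) R x y a b) = 0
      rw [hx' y a b hab, smul_zero]
  · rintro R ⟨π, T, σ, hT, hR⟩ hJ z hz
    obtain ⟨h1, h2⟩ := (mem_ZI p ι n F α hα s hs).1 hz
    refine (mem_ZI p ι n F α hα s hs).2 ⟨?_, ?_⟩
    · rw [← hJ, h1, map_neg]
    · intro y a b hab
      obtain ⟨i, rfl⟩ := π.surjective y
      obtain ⟨v, hv⟩ := hT i
      have h3 : R z (π i) * (T i : Matrix (Fin n) (Fin n) F) =
          (T i : Matrix (Fin n) (Fin n) F) * (z i).map (σ i) := by
        rw [hR, Matrix.mul_assoc, Units.inv_mul, Matrix.mul_one]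
      have h4 : R z (π i) a b * v b = 0 := by
        have h5 := congrFun (congrFun h3 a) b
        rw [hv, Matrix.mul_diagonal, Matrix.diagonal_mul, Matrix.map_apply, h2 i a b hab,
          map_zero, mul_zero] at h5
        exact h5
      have h6 : v b ≠ 0 := by
        intro h0
        have h7 : ((((T i)⁻¹ : GL (Fin n) F) : Matrix (Fin n) (Fin n) F) *
            (T i : Matrix (Fin n) (Fin n) F)) b b = 1 := by
          rw [Units.inv_mul, Matrix.one_apply_eq]
        rw [hv, Matrix.mul_diagonal, h0, mul_zero] at h7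
        exact zero_ne_one h7
      exact (mul_eq_zero.1 h4).resolve_right h6

end MP7Z
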