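import Pool.Agent.Lib.MP_7f581e_Z.Types.AllII
import Pool.Agent.Lib.MP_7f581e_Z.Types.LSU
import Pool.Agent.Lib.MP_7f581e_Z.Types.Ue
import Pool.Agent.Lib.MP_7f581e_Z.Types.Sc
import Pool.Agent.Lib.MP_7f581e_Z.Types.DetU
import Pool.Agent.Lib.MP_7f581e_Z.Types.LMI
import Pool.Agent.Lib.MP_7f581e_Z.Types.GnI
import Pool.Agent.Lib.MP_7f581e_Z.Types.ZI1
import Pool.Agent.Lib.MP_7f581e_Z.Types.UT
import Pool.Agent.Lib.MP_7f581e_Z.Types.PI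
import Pool.Agent.Lib.MP_7f581e_Z.Types.StI
import Pool.Agent.Lib.MP_7f581e_Z.Types.ESU
import Pool.Agent.Lib.MP_7f581e_Z.Types.FCU
import Pool.Agent.Lib.MP_7f581e_Z.Types.DCU
import Pool.Agent.Lib.MP_7f581e_Z.Types.L1U

/-!
# The Lang groups of `SU_n`, complete up to `PtI`
-/

namespace MP7Z

open MP7fY MP7fE

/-- **The Lang groups of `SU_N(F)`.** -/
theorem lang_SU_of (hPtI : PtIStmt) {p : ℕ} [Fact p.Prime] {m N : ℕ} {F : Type} [Field F]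
    [CharP F p] [Finite F] [Algebra (ZMod p) F] (hm : 0 < m) (hcard : Nat.card F = p ^ (2 * m))
    (h2 : 2 ≤ N) :
    LangOf p (SUJ.incJ (sF p m F) N)
      (SUJ.AJ (s := sF p m F) (N := N) (sF_comm (p := p) (m := m))).subtype
      (SUJ.DJ (s := sF p m F) (N := N) (sF_comm (p := p) (m := m))) :=
  langOf_SU tyFn ty_lgl tyLSL tyGSL ty_II.l1 ty_II.lm ty_II.g (tyLMI tyUe tySc (tyDetU tySc))
    (tyGnI tyUe tySc) tyZI1 (tyPI tySc tyZI1 (tyUT tyTHb tySc)) (tyStI ty_II.st tyZSt) hPtI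
    (tyESU tyEvj) (tyL1U tySc tyFCU tyDCU) hm hcard h2

end MP7Z
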