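import Pool.Agent.Lib.MP_7f581e_Z.Types.SpecA

/-! # Step Lie, types: coordinates of the units (`CoStmt`) -/

set_option autoImplicit false

namespace MP7Z

open TensorProduct MP7fS MP7fU Matrix

namespace CoP

section

variable {p : ℕ} [Fact p.Prime] {ι l F : Type} [Finite ι] [Fintype l] [DecidableEq l] [Field F]
  [Finite F] [Algebra (ZMod p) F] {k : Type} [Field k] [Algebra (ZMod p) k] [CharP k p]

theorem coe_co (τ : F →+* k) (i : ι) (j : ℕ) (u : (k ⊗[ZMod p] (ι → Matrix l l F))ˣ) :
    ((co (p := p) τ i j u : GL l k) : Matrix l l k) =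
      (TH (p := p) k (u : k ⊗[ZMod p] (ι → Matrix l l F)) i).map (evj (p := p) τ j) := rfl

/-- All coordinates. -/
noncomputable def E (τ : F →+* k) :
    k ⊗[ZMod p] (ι → Matrix l l F) →+*
      (ι → Fin (Module.finrank (ZMod p) F) → Matrix l l k) where
  toFun z := fun i j => (TH (p := p) k z i).map (evj (p := p) τ j)
  map_one' := by
    rw [map_one]
    funext i j
    exact Matrix.map_one _ (map_zero _) (map_one _)
  map_zero' := by
    rw [map_zero]
    funext i j
    exact Matrix.map_zero _ (map_zero _)
  map_add' a b := by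
    rw [map_add]
    funext i j
    exact Matrix.map_add _ (map_add _) _ _
  map_mul' a b := by
    rw [map_mul]
    funext i j
    exact Matrix.map_mul

theorem E_apply (τ : F →+* k) (z : k ⊗[ZMod p] (ι → Matrix l l F)) (i : ι)
    (j : Fin (Module.finrank (ZMod p) F)) :
    E (p := p) τ z i j = (TH (p := p) k z i).map (evj (p := p) τ j) := rfl

theorem E_bij (h1 : THbStmt) (h2 : EvjStmt) (τ : F →+* k) :
    Function.Bijective (E (p := p) (ι := ι) (l := l) (F := F) τ) := by
  have hT := h1 p ι l F k
  have hE := (h2 p F k τ).2.2.2.2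
  constructor
  · intro z z' h
    apply hT.1
    funext i
    ext a b
    apply hE.1
    funext j
    exact congrFun (congrFun (congrFun (congrFun h i) j) a) b
  · intro w
    choose c hc using fun (i : ι) (a b : l) => hE.2 (fun j => w i j a b)
    obtain ⟨z, hz⟩ := hT.2 (fun i => Matrix.of (fun a b => c i a b))
    refine ⟨z, ?_⟩
    funext i j
    rw [E_apply, hz]
    ext a b
    exact congrFun (hc i a b) j

end

end CoP

open CoP in
theorem tyCo (h1 : THbStmt) (h2 : EvjStmt) : CoStmt := by
  intro p _ ι l F _ _ _ _ _ _ k _ _ _ τ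
  obtain ⟨e1, e2, e3, -, e5⟩ := h2 p F k τ
  have hb : Function.Bijective (E (p := p) (ι := ι) (l := l) (F := F) τ) := E_bij h1 h2 τ
  have p1 : ∀ (u : (k ⊗[ZMod p] (ι → Matrix l l F))ˣ) (i : ι) (j : ℕ),
      co (p := p) τ i (j + Module.finrank (ZMod p) F) u = co τ i j u := by
    intro u i j
    apply Units.ext
    rw [coe_co, coe_co]
    ext a b
    exact e1 j _
  refine ⟨p1, ?_, ?_, ?_, ?_, ?_⟩
  · intro u i j m
    apply Units.ext
    have h3 : TH (p := p) k ((fru m k u : (k ⊗[ZMod p] (ι → Matrix l l F))ˣ) :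
        k ⊗[ZMod p] (ι → Matrix l l F)) = fun i =>
        (TH (p := p) k (u : k ⊗[ZMod p] (ι → Matrix l l F)) i).map
          (tmap (p := p) (iterateFrobenius k p m) (RingHom.id F)) := TH_tmap _ _
    rw [coe_co, h3]
    ext a b
    exact (e2 m j _).trans (iterateFrobenius_def (R := k) p m _).symm
  · intro w
    let W : ι → Fin (Module.finrank (ZMod p) F) → Matrix l l k := fun i j => (w i j : Matrix l l k)
    let W' : ι → Fin (Module.finrank (ZMod p) F) → Matrix l l k :=
      fun i j => (((w i j)⁻¹ : GL l k) : Matrix l l k)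
    have hWW' : W * W' = 1 := by
      funext i j
      exact Units.mul_inv (w i j)
    have hW'W : W' * W = 1 := by
      funext i j
      exact Units.inv_mul (w i j)
    obtain ⟨z, hz⟩ := hb.2 W
    obtain ⟨z', hz'⟩ := hb.2 W'
    have h3 : z * z' = 1 := by
      apply hb.1
      rw [map_mul, hz, hz', hWW', map_one]
    have h4 : z' * z = 1 := by
      apply hb.1
      rw [map_mul, hz, hz', hW'W, map_one]
    refine ⟨⟨z, z', h3, h4⟩, ?_, ?_⟩
    · intro i j
      apply Units.ext
      exact congrFun (congrFun hz i) j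
    · intro u hu
      apply Units.ext
      apply hb.1
      change E (p := p) τ (u : k ⊗[ZMod p] (ι → Matrix l l F)) = E (p := p) τ z
      rw [hz]
      funext i j
      exact congrArg Units.val (hu i j)
  · intro b i j
    rw [coe_co]
    have h3 : ((cstu k b : (k ⊗[ZMod p] (ι → Matrix l l F))ˣ) :
        k ⊗[ZMod p] (ι → Matrix l l F)) = 1 ⊗ₜ (b : ι → Matrix l l F) := rfl
    rw [h3, TH_tmul]
    ext a c
    exact e3 j _
  · intro S hS u
    rw [mem_GII]
    constructor
    · intro h i j
      exact hS.map _ _ (evj (p := p) τ j) _ (h i)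
    · intro h i
      refine hS.inj (k ⊗[ZMod p] F) (Fin (Module.finrank (ZMod p) F)) (fun _ => k)
        (fun j => evj (p := p) τ j) ?_ _ (fun j => h i j)
      intro a b hab
      apply e5.1
      funext j
      exact hab j
  · intro z z' h
    apply hb.1
    funext i j
    exact h i j

end MP7Z
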