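import Pool.Agent.Lib.MP_7f581e_Z.Lie.Defs

/-!
# Step Lie, types: definitions

`F` a finite field, `B = ι → Matrix l l F`.  Type II: products of `SL_2` or `Sp_2n` over `R ⊗ F`.
Type I: products of `SL_n` (with the exchange involution) or `SU_n`.
-/

set_option autoImplicit false
set_option linter.unusedSectionVars false

namespace MP7Z

open TensorProduct MP7fS MP7fU Matrix

section TH

variable {p : ℕ} [Fact p.Prime] {ι l F : Type} [Fintype l] [DecidableEq l] [Field F]
  [Algebra (ZMod p) F]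

/-- Families of constant matrices as families of matrices over `R ⊗ F`. -/
noncomputable def THc (R : Type) [CommRing R] [Algebra (ZMod p) R] :
    (ι → Matrix l l F) →+* (ι → Matrix l l (R ⊗[ZMod p] F)) where
  toFun z := fun i => (z i).map
    (Algebra.TensorProduct.includeRight : F →ₐ[ZMod p] R ⊗[ZMod p] F)
  map_one' := by
    funext i
    exact Matrix.map_one _ (map_zero _) (map_one _)
  map_zero' := by
    funext i
    exact Matrix.map_zero _ (map_zero _)
  map_add' a b := by
    funext i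
    exact Matrix.map_add _ (map_add _) _ _
  map_mul' a b := by
    funext i
    exact Matrix.map_mul

/-- The components `R ⊗ (ι → Matrix l l F) → (ι → Matrix l l (R ⊗ F))`, as an `R`-algebra
homomorphism. -/
noncomputable def THa (R : Type) [CommRing R] [Algebra (ZMod p) R] :
    R ⊗[ZMod p] (ι → Matrix l l F) →ₐ[R] (ι → Matrix l l (R ⊗[ZMod p] F)) :=
  Algebra.TensorProduct.lift (Algebra.ofId R (ι → Matrix l l (R ⊗[ZMod p] F)))
    (toAlg (p := p) (THc (p := p) (ι := ι) (l := l) (F := F) R))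
    (fun x _ => Algebra.commute_algebraMap_left x _)

theorem THa_tmul (R : Type) [CommRing R] [Algebra (ZMod p) R] (r : R) (z : ι → Matrix l l F) :
    THa (p := p) R (r ⊗ₜ z) = fun i => (z i).map (fun c => r ⊗ₜ[ZMod p] c) := by
  refine (Algebra.TensorProduct.lift_tmul _ _ _ _ _).trans ?_
  funext i
  ext a b
  rw [Algebra.ofId_apply, ← Algebra.smul_def]
  change r • ((1 : R) ⊗ₜ[ZMod p] (z i a b)) = r ⊗ₜ[ZMod p] (z i a b)
  rw [smul_tmul', smul_eq_mul, mul_one]

/-- The components `R ⊗ (ι → Matrix l l F) → (ι → Matrix l l (R ⊗ F))`. -/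
noncomputable def TH (R : Type) [CommRing R] [Algebra (ZMod p) R] :
    R ⊗[ZMod p] (ι → Matrix l l F) →+* (ι → Matrix l l (R ⊗[ZMod p] F)) :=
  (THa (p := p) R).toRingHom

theorem TH_tmul (R : Type) [CommRing R] [Algebra (ZMod p) R] (r : R) (z : ι → Matrix l l F) :
    TH (p := p) R (r ⊗ₜ z) = fun i => (z i).map (fun c => r ⊗ₜ[ZMod p] c) := THa_tmul R r z

/-- Naturality of the components. -/
theorem TH_tmap {R R' : Type} [CommRing R] [Algebra (ZMod p) R] [CommRing R']
    [Algebra (ZMod p) R'] (f : R →+* R') (x : R ⊗[ZMod p] (ι → Matrix l l F)) :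
    TH (p := p) R' (tmap f (RingHom.id _) x) =
      fun i => (TH R x i).map (tmap (p := p) f (RingHom.id F)) := by
  induction x using TensorProduct.induction_on with
  | zero =>
    rw [map_zero, map_zero, map_zero]
    funext i
    exact (Matrix.map_zero _ (map_zero _)).symm
  | add x y hx hy =>
    rw [map_add, map_add, hx, hy, map_add]
    funext i
    exact (Matrix.map_add _ (map_add _) _ _).symm
  | tmul r z =>
    have h1 : tmap (p := p) f (RingHom.id (ι → Matrix l l F)) (r ⊗ₜ z) = f r ⊗ₜ z := rfl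
    rw [h1, TH_tmul, TH_tmul]
    funext i
    ext a b
    rfl

/-- One component of a unit. -/
noncomputable def cmp (R : Type) [CommRing R] [Algebra (ZMod p) R] (i : ι) :
    (R ⊗[ZMod p] (ι → Matrix l l F))ˣ →* GL l (R ⊗[ZMod p] F) :=
  Units.map ((Pi.evalRingHom (fun _ : ι => Matrix l l (R ⊗[ZMod p] F)) i).comp
    (TH (p := p) R) : R ⊗[ZMod p] (ι → Matrix l l F) →* Matrix l l (R ⊗[ZMod p] F))

theorem coe_cmp (R : Type) [CommRing R] [Algebra (ZMod p) R] (i : ι)
    (u : (R ⊗[ZMod p] (ι → Matrix l l F))ˣ) :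
    ((cmp (p := p) R i u : GL l (R ⊗[ZMod p] F)) : Matrix l l (R ⊗[ZMod p] F)) =
      TH (p := p) R (u : R ⊗[ZMod p] (ι → Matrix l l F)) i := rfl

theorem cmp_tu [Finite ι] [Finite F] {R R' : Type} [CommRing R] [Algebra (ZMod p) R] [CommRing R']
    [Algebra (ZMod p) R'] (f : R →+* R') (i : ι) (u : (R ⊗[ZMod p] (ι → Matrix l l F))ˣ) :
    cmp (p := p) R' i (tu f (RingHom.id _) u) =
      GeneralLinearGroup.map (tmap (p := p) f (RingHom.id F)) (cmp R i u) := by
  apply Units.ext
  exact congrFun (TH_tmap (p := p) f (u : R ⊗[ZMod p] (ι → Matrix l l F))) i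

/-- The homomorphism `a ⊗ c ↦ a τ(c) ^ (p ^ j)` from `k ⊗ F` to `k`, as a `k`-algebra
homomorphism. -/
noncomputable def evja {k : Type} [Field k] [Algebra (ZMod p) k] [CharP k p] (τ : F →+* k) (j : ℕ) :
    k ⊗[ZMod p] F →ₐ[k] k :=
  Algebra.TensorProduct.lift (Algebra.ofId k k)
    (toAlg (p := p) ((iterateFrobenius k p j).comp τ)) (fun _ _ => mul_comm _ _)

theorem evja_tmul {k : Type} [Field k] [Algebra (ZMod p) k] [CharP k p] (τ : F →+* k) (j : ℕ)
    (a : k) (c : F) : evja (p := p) τ j (a ⊗ₜ c) = a * τ c ^ p ^ j := by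
  exact Algebra.TensorProduct.lift_tmul _ _ _ _ _

/-- The embeddings of `F` in a field `k` and the powers of the Frobenius: the homomorphisms
`a ⊗ c ↦ a τ(c) ^ (p ^ j)` from `k ⊗ F` to `k`. -/
noncomputable def evj {k : Type} [Field k] [Algebra (ZMod p) k] [CharP k p] (τ : F →+* k) (j : ℕ) :
    k ⊗[ZMod p] F →+* k := (evja (p := p) τ j).toRingHom

theorem evj_tmul {k : Type} [Field k] [Algebra (ZMod p) k] [CharP k p] (τ : F →+* k) (j : ℕ)
    (a : k) (c : F) : evj (p := p) τ j (a ⊗ₜ c) = a * τ c ^ p ^ j := evja_tmul τ j a c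

end TH

section fam

variable {l : Type} [Fintype l] [DecidableEq l]

/-- A family of subgroups of the general linear groups over all commutative rings. -/
abbrev SFam (l : Type) [Fintype l] [DecidableEq l] : Type 1 :=
  ∀ (T : Type) [CommRing T], Subgroup (GL l T)

/-- Functoriality; membership can be tested with a jointly injective family of homomorphisms. -/
structure SFunc (S : SFam l) : Prop where
  map : ∀ (T T' : Type) [CommRing T] [CommRing T'] (f : T →+* T') (u : GL l T), u ∈ S T →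
    GeneralLinearGroup.map f u ∈ S T'
  inj : ∀ (T I : Type) (T' : I → Type) [CommRing T] [∀ i, CommRing (T' i)] (f : ∀ i, T →+* T' i),
    (∀ a b, (∀ i, f i a = f i b) → a = b) →
    ∀ u : GL l T, (∀ i, GeneralLinearGroup.map (f i) u ∈ S (T' i)) → u ∈ S T

/-- Lang's theorem for matrices over separably closed fields and the Frobenius of `𝔽_q`,
`q = p ^ m`. -/
def LangS (p : ℕ) [Fact p.Prime] (S : SFam l) : Prop :=
  ∀ (k : Type) [Field k] [CharP k p] [IsSepClosed k] (m : ℕ), 0 < m → ∀ g ∈ S k, ∃ y ∈ S k,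
    GeneralLinearGroup.map (iterateFrobenius k p m) y = g * y

/-- The matrices over `T` which are combinations of given matrices over the prime field. -/
def ZN {p : ℕ} (N : Set (Matrix l l (ZMod p))) (T : Type) [CommRing T] [Algebra (ZMod p) T] :
    Submodule T (Matrix l l T) :=
  Submodule.span T ((fun M => M.map (algebraMap (ZMod p) T)) '' N)

/-- Generation by elements `1 + z`, `z ^ 2 = 0`, over fields. -/
def GenS (p : ℕ) [Fact p.Prime] (S : SFam l) (N : Bool → Set (Matrix l l (ZMod p))) : Prop :=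
  ∀ (k : Type) [Field k] [Algebra (ZMod p) k], S k ≤ Subgroup.closure {w : GL l k |
    ((w : Matrix l l k) - 1) * ((w : Matrix l l k) - 1) = 0 ∧
      ∃ b, (w : Matrix l l k) - 1 ∈ ZN (N b) k}

/-- The elements `1 + z` belong to the group, and `z ^ 2 = 0` (over all commutative rings). -/
def SqZ (p : ℕ) [Fact p.Prime] (S : SFam l) (N : Set (Matrix l l (ZMod p))) : Prop :=
  ∀ (T : Type) [CommRing T] [Algebra (ZMod p) T], ∀ z ∈ ZN N T, z * z = 0 ∧
    ∀ u : GL l T, (u : Matrix l l T) = 1 + z → u ∈ S T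

/-- The special linear groups. -/
def SLf (l : Type) [Fintype l] [DecidableEq l] : SFam l := fun T _ =>
  (GeneralLinearGroup.det : GL l T →* Tˣ).ker

theorem mem_SLf {T : Type} [CommRing T] {u : GL l T} :
    u ∈ SLf l T ↔ (u : Matrix l l T).det = 1 := by
  rw [SLf, MonoidHom.mem_ker, Units.ext_iff]
  rfl

/-- All invertible matrices. -/
def GLf (l : Type) [Fintype l] [DecidableEq l] : SFam l := fun _ _ => ⊤

/-- The symplectic groups. -/
def Spf (l : Type) [Fintype l] [DecidableEq l] : SFam (l ⊕ l) := fun T _ =>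
  { carrier := {u | (u : Matrix (l ⊕ l) (l ⊕ l) T) ∈ symplecticGroup l T}
    one_mem' := (symplecticGroup l T).one_mem
    mul_mem' := fun ha hb => (symplecticGroup l T).mul_mem ha hb
    inv_mem' := by
      intro u hu
      have h1 : ((u⁻¹ : GL (l ⊕ l) T) : Matrix (l ⊕ l) (l ⊕ l) T) =
          (((⟨_, hu⟩ : symplecticGroup l T)⁻¹ : symplecticGroup l T) :
            Matrix (l ⊕ l) (l ⊕ l) T) := by
        have h2 : (u : Matrix (l ⊕ l) (l ⊕ l) T) *
            (((⟨_, hu⟩ : symplecticGroup l T)⁻¹ : symplecticGroup l T) :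
              Matrix (l ⊕ l) (l ⊕ l) T) = 1 :=
          congrArg Subtype.val (mul_inv_cancel (⟨_, hu⟩ : symplecticGroup l T))
        calc ((u⁻¹ : GL (l ⊕ l) T) : Matrix (l ⊕ l) (l ⊕ l) T) =
            ((u⁻¹ : GL (l ⊕ l) T) : Matrix (l ⊕ l) (l ⊕ l) T) *
              ((u : Matrix (l ⊕ l) (l ⊕ l) T) *
                (((⟨_, hu⟩ : symplecticGroup l T)⁻¹ : symplecticGroup l T) :
                  Matrix (l ⊕ l) (l ⊕ l) T)) := by rw [h2, Matrix.mul_one]
          _ = _ := by rw [← Matrix.mul_assoc, Units.inv_mul, Matrix.one_mul]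
      change ((u⁻¹ : GL (l ⊕ l) T) : Matrix (l ⊕ l) (l ⊕ l) T) ∈ symplecticGroup l T
      rw [h1]
      exact Subtype.prop _ }

theorem mem_Spf {T : Type} [CommRing T] {u : GL (l ⊕ l) T} :
    u ∈ Spf l T ↔ (u : Matrix (l ⊕ l) (l ⊕ l) T) ∈ symplecticGroup l T := Iff.rfl

/-- The strictly upper (`false`) and strictly lower (`true`) elementary matrices. -/
def NSL (p n : ℕ) : Bool → Set (Matrix (Fin n) (Fin n) (ZMod p)) := fun b =>
  {M | ∃ i j : Fin n, (if b then j < i else i < j) ∧ M = Matrix.single i j 1}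

/-- The Siegel blocks: `(0 X; 0 0)` (`false`), `(0 0; X 0)` (`true`), `X` symmetric. -/
def NSp (p : ℕ) (l : Type) [Fintype l] [DecidableEq l] :
    Bool → Set (Matrix (l ⊕ l) (l ⊕ l) (ZMod p)) := fun b =>
  {M | ∃ X : Matrix l l (ZMod p), Xᵀ = X ∧
    M = if b then fromBlocks 0 0 X 0 else fromBlocks 0 X 0 0}

end fam

section typeII

variable (p : ℕ) [Fact p.Prime] (ι l F : Type) [Finite ι] [Fintype l] [DecidableEq l] [Field F]
  [Finite F] [Algebra (ZMod p) F]

instance finMat {l F : Type} [Finite l] [Finite F] : Finite (Matrix l l F) :=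
  inferInstanceAs (Finite (l → l → F))

/-- **Type II**: all components are in `S(R ⊗ F)`. -/
noncomputable def GII (S : SFam l) (hS : SFunc S) : LangGp p (ι → Matrix l l F) where
  H R _ _ :=
    { carrier := {u | ∀ i, cmp (p := p) R i u ∈ S (R ⊗[ZMod p] F)}
      one_mem' := fun i => by
        rw [map_one]
        exact one_mem _
      mul_mem' := fun ha hb i => by
        rw [map_mul]
        exact mul_mem (ha i) (hb i)
      inv_mem' := fun ha i => by
        rw [map_inv]
        exact inv_mem (ha i) }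
  map R R' _ _ _ _ f x hx := by
    intro i
    rw [cmp_tu]
    exact hS.map _ _ _ _ (hx i)
  inj R R' _ _ _ _ f hf x hx := by
    intro i
    refine hS.inj (R ⊗[ZMod p] F) Unit (fun _ => R' ⊗[ZMod p] F)
      (fun _ => tmap (p := p) f (RingHom.id F)) ?_ _ ?_
    · intro a b hab
      exact tmap_injective f hf (hab ())
    · intro _
      have h1 := hx i
      rw [cmp_tu] at h1
      exact h1

theorem mem_GII {S : SFam l} {hS : SFunc S} {R : Type} [CommRing R] [Algebra (ZMod p) R]
    {u : (R ⊗[ZMod p] (ι → Matrix l l F))ˣ} :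
    u ∈ (GII p ι l F S hS).H R ↔ ∀ i, cmp (p := p) R i u ∈ S (R ⊗[ZMod p] F) := Iff.rfl

/-- The subspaces of constants. -/
def ZII (N : Bool → Set (Matrix l l (ZMod p))) : Bool → Submodule (ZMod p) (ι → Matrix l l F) :=
  fun b => Submodule.pi Set.univ (fun _ => (ZN (N b) F).restrictScalars (ZMod p))

theorem mem_ZII {N : Bool → Set (Matrix l l (ZMod p))} {b : Bool} {z : ι → Matrix l l F} :
    z ∈ ZII p ι l F N b ↔ ∀ i, z i ∈ ZN (N b) F := by
  simp [ZII]

variable {p ι l F}

/-- All coordinates of a unit of `k ⊗ B`: the matrices `evj τ j` of the components. -/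
noncomputable def co {k : Type} [Field k] [Algebra (ZMod p) k] [CharP k p] (τ : F →+* k)
    (i : ι) (j : ℕ) : (k ⊗[ZMod p] (ι → Matrix l l F))ˣ →* GL l k :=
  (GeneralLinearGroup.map (evj (p := p) τ j)).comp (cmp (p := p) k i)

/-- The shape of the ring automorphisms: permutation of the factors, field automorphisms, and
conjugation by elements of `D`. -/
def FormG (D : Set (GL l F)) (R : (ι → Matrix l l F) ≃+* (ι → Matrix l l F)) : Prop :=
  ∃ (π : Equiv.Perm ι) (t : ι → GL l F) (σ : ι → (F ≃+* F)), (∀ i, t i ∈ D) ∧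
    ∀ z i, R z (π i) = (t i : Matrix l l F) * (z i).map (σ i) *
      (((t i)⁻¹ : GL l F) : Matrix l l F)

/-- Diagonal matrices. -/
def DG (l F : Type) [Fintype l] [DecidableEq l] [Field F] : Set (GL l F) :=
  {t | ∃ v : l → F, (t : Matrix l l F) = Matrix.diagonal v}

/-- Diagonal similitudes of the symplectic form. -/
def DGSp (l F : Type) [Fintype l] [DecidableEq l] [Field F] : Set (GL (l ⊕ l) F) :=
  {t | ∃ (v w : l → F) (c : F), c ≠ 0 ∧ (∀ i, v i * w i = c) ∧
    (t : Matrix (l ⊕ l) (l ⊕ l) F) = Matrix.diagonal (Sum.elim v w)}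

end typeII

section typeI

/-- The matrix `w₀ Mᵀ w₀`, `w₀` the permutation matrix of `Fin.rev`. -/
def flipT {n : ℕ} {T : Type} (M : Matrix (Fin n) (Fin n) T) : Matrix (Fin n) (Fin n) T :=
  Mᵀ.submatrix Fin.rev Fin.rev

theorem flipT_apply {n : ℕ} {T : Type} (M : Matrix (Fin n) (Fin n) T) (a b : Fin n) :
    flipT M a b = M (Fin.rev b) (Fin.rev a) := rfl

theorem flipT_flipT {n : ℕ} {T : Type} (M : Matrix (Fin n) (Fin n) T) : flipT (flipT M) = M := by
  ext a b
  rw [flipT_apply, flipT_apply, Fin.rev_rev, Fin.rev_rev]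

theorem flipT_mul {n : ℕ} {T : Type} [CommRing T] (M N : Matrix (Fin n) (Fin n) T) :
    flipT (M * N) = flipT N * flipT M := by
  rw [flipT, Matrix.transpose_mul, flipT, flipT]
  exact Matrix.submatrix_mul _ _ _ _ _ Fin.rev_bijective

theorem flipT_one {n : ℕ} {T : Type} [CommRing T] :
    flipT (1 : Matrix (Fin n) (Fin n) T) = 1 := by
  rw [flipT, Matrix.transpose_one]
  exact Matrix.submatrix_one _ Fin.rev_injective

theorem flipT_map {n : ℕ} {T T' : Type} (f : T → T') (M : Matrix (Fin n) (Fin n) T) :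
    flipT (M.map f) = (flipT M).map f := rfl

theorem det_flipT {n : ℕ} {T : Type} [CommRing T] (M : Matrix (Fin n) (Fin n) T) :
    (flipT M).det = M.det := by
  rw [flipT]
  have h := Matrix.det_submatrix_equiv_self (Fin.revPerm : Equiv.Perm (Fin n)) (Mᵀ)
  rw [Matrix.det_transpose] at h
  exact h

variable (p : ℕ) [Fact p.Prime] (ι : Type) (n : ℕ) (F : Type) [Finite ι] [Field F]
  [Finite F] [Algebra (ZMod p) F] (α : Equiv.Perm ι) (hα : ∀ y, α (α y) = y) (s : F →+* F)
  (hs : ∀ c, s (s c) = c)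

/-- The involution of type I: `J(z)(y) = w₀ (s (z (α y)))ᵀ w₀`. -/
def JI : AInv p (ι → Matrix (Fin n) (Fin n) F) where
  j :=
    { toFun := fun z y => flipT ((z (α y)).map s)
      map_add' := fun z w => by
        funext y
        ext a b
        exact map_add s _ _
      map_smul' := fun r z => by
        funext y
        ext a b
        exact map_smul (toAlg (p := p) s) r _ }
  one := by
    funext y
    change flipT ((1 : Matrix (Fin n) (Fin n) F).map s) = 1
    rw [Matrix.map_one _ (map_zero s) (map_one s), flipT_one]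
  mul z w := by
    funext y
    change flipT ((z (α y) * w (α y)).map s) = flipT ((w (α y)).map s) * flipT ((z (α y)).map s)
    rw [← flipT_mul, Matrix.map_mul]
  inv z := by
    funext y
    change flipT ((flipT ((z (α (α y))).map s)).map s) = z y
    rw [hα, ← flipT_map, flipT_flipT, Matrix.map_map]
    ext a b
    exact hs _

theorem JI_apply (z : ι → Matrix (Fin n) (Fin n) F) (y : ι) :
    (JI p ι n F α hα s hs).j z y = flipT ((z (α y)).map s) := rfl

/-- **Type I**: `J(u) u = 1` and all components have determinant `1`. -/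
noncomputable def GI (hSL : SFunc (SLf (Fin n))) : LangGp p (ι → Matrix (Fin n) (Fin n) F) where
  H R _ _ :=
    { carrier := {u | jR (JI p ι n F α hα s hs) R (u : R ⊗[ZMod p] _) * (u : R ⊗[ZMod p] _) = 1 ∧
        u ∈ (GII p ι (Fin n) F (SLf (Fin n)) hSL).H R}
      one_mem' := ⟨by rw [Units.val_one, jR_one, mul_one], one_mem _⟩
      mul_mem' := by
        rintro u v ⟨hu, hu'⟩ ⟨hv, hv'⟩
        refine ⟨?_, mul_mem hu' hv'⟩
        rw [Units.val_mul, jR_mul]
        set X := jR (JI p ι n F α hα s hs) R (v : R ⊗[ZMod p] (ι → Matrix (Fin n) (Fin n) F))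
        set Y := jR (JI p ι n F α hα s hs) R (u : R ⊗[ZMod p] (ι → Matrix (Fin n) (Fin n) F))
        set U := (u : R ⊗[ZMod p] (ι → Matrix (Fin n) (Fin n) F))
        set W := (v : R ⊗[ZMod p] (ι → Matrix (Fin n) (Fin n) F))
        calc X * Y * (U * W) = X * (Y * U) * W := by simp only [mul_assoc]
          _ = 1 := by rw [hu, mul_one, hv]
      inv_mem' := by
        rintro u ⟨hu, hu'⟩
        refine ⟨?_, inv_mem hu'⟩
        have h1 : jR (JI p ι n F α hα s hs) R (u : R ⊗[ZMod p] _) =
            ((u⁻¹ : (R ⊗[ZMod p] (ι → Matrix (Fin n) (Fin n) F))ˣ) : R ⊗[ZMod p] _) := by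
          rw [← mul_one (jR (JI p ι n F α hα s hs) R (u : R ⊗[ZMod p] _)), ← Units.mul_inv u,
            ← mul_assoc, hu, one_mul]
        rw [← h1, jR_jR, h1, Units.mul_inv] }
  map R R' _ _ _ _ f x hx := by
    refine ⟨?_, (GII p ι (Fin n) F (SLf (Fin n)) hSL).map R R' f x hx.2⟩
    rw [coe_tu, jR_tmap _ f (RingHom.id _) (fun _ => rfl), ← map_mul, hx.1, map_one]
  inj R R' _ _ _ _ f hf x hx := by
    refine ⟨?_, (GII p ι (Fin n) F (SLf (Fin n)) hSL).inj R R' f hf x hx.2⟩
    apply tmap_injective (p := p) f hf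
    rw [map_mul, map_one, ← jR_tmap _ f (RingHom.id _) (fun _ => rfl)]
    exact hx.1

theorem mem_GI {hSL : SFunc (SLf (Fin n))} {R : Type} [CommRing R] [Algebra (ZMod p) R]
    {u : (R ⊗[ZMod p] (ι → Matrix (Fin n) (Fin n) F))ˣ} :
    u ∈ (GI p ι n F α hα s hs hSL).H R ↔
      jR (JI p ι n F α hα s hs) R (u : R ⊗[ZMod p] _) * (u : R ⊗[ZMod p] _) = 1 ∧
        ∀ i, cmp (p := p) R i u ∈ SLf (Fin n) (R ⊗[ZMod p] F) := Iff.rfl

/-- The subspaces of constants of type I: skew and strictly upper (`false`) or strictly lower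
(`true`) triangular. -/
def ZI : Bool → Submodule (ZMod p) (ι → Matrix (Fin n) (Fin n) F) := fun t =>
  { carrier := {z | (JI p ι n F α hα s hs).j z = -z ∧
      ∀ y a b, (if t then a ≤ b else b ≤ a) → z y a b = 0}
    zero_mem' := ⟨by rw [map_zero, neg_zero], fun _ _ _ _ => rfl⟩
    add_mem' := by
      rintro z w ⟨hz, hz'⟩ ⟨hw, hw'⟩
      refine ⟨by rw [map_add, hz, hw, neg_add], ?_⟩
      intro y a b hab
      change z y a b + w y a b = 0
      rw [hz' y a b hab, hw' y a b hab, add_zero]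
    smul_mem' := by
      rintro r z ⟨hz, hz'⟩
      refine ⟨by rw [map_smul, hz, smul_neg], ?_⟩
      intro y a b hab
      change r • z y a b = 0
      rw [hz' y a b hab, smul_zero] }

theorem mem_ZI {t : Bool} {z : ι → Matrix (Fin n) (Fin n) F} :
    z ∈ ZI p ι n F α hα s hs t ↔ (JI p ι n F α hα s hs).j z = -z ∧
      ∀ y a b, (if t then a ≤ b else b ≤ a) → z y a b = 0 := Iff.rfl

end typeI

end MP7Z
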