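import Pool.Agent.Lib.MP_7f581e_Z.Types.SpecA

/-!
# Types, `LSL`: the theorem of Lang for the special linear groups
-/

set_option autoImplicit false

namespace MP7Z

open TensorProduct MP7fS MP7fU Matrix

theorem tyLSL : LSLStmt := by
  intro p _ l _ _ hG k _ _ _ m hm g hg
  obtain ⟨y, _, hy⟩ := hG k m hm g trivial
  have hg1 : (g : Matrix l l k).det = 1 := mem_SLf.mp hg
  rcases isEmpty_or_nonempty l with hl | ⟨⟨i0⟩⟩
  · refine ⟨y, ?_, hy⟩
    rw [mem_SLf]
    exact Matrix.det_isEmpty
  · set f : k →+* k := iterateFrobenius k p m with hf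
    set d : k := (y : Matrix l l k).det with hd
    have hd0 : d ≠ 0 := by
      intro h
      have h1 : IsUnit (y : Matrix l l k).det := (Matrix.isUnit_iff_isUnit_det _).mp y.isUnit
      rw [← hd, h] at h1
      exact not_isUnit_zero h1
    have hfd : f d = d := by
      have h1 := congrArg (fun u : GL l k => (u : Matrix l l k).det) hy
      change ((y : Matrix l l k).map f).det = ((g : Matrix l l k) * (y : Matrix l l k)).det at h1
      rw [Matrix.det_mul, hg1, one_mul, ← hd] at h1
      exact (RingHom.map_det f (y : Matrix l l k)).trans h1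
    have hfi : f d⁻¹ = d⁻¹ := by rw [map_inv₀, hfd]
    have hv1 : (Matrix.diagonal (Function.update (1 : l → k) i0 d⁻¹)) *
        (Matrix.diagonal (Function.update (1 : l → k) i0 d)) = 1 := by
      rw [Matrix.diagonal_mul_diagonal, ← Matrix.diagonal_one]
      congr 1
      funext i
      by_cases h : i = i0
      · subst h
        simp [hd0]
      · simp [h]
    have hv2 : (Matrix.diagonal (Function.update (1 : l → k) i0 d)) *
        (Matrix.diagonal (Function.update (1 : l → k) i0 d⁻¹)) = 1 := by
      rw [Matrix.diagonal_mul_diagonal, ← Matrix.diagonal_one]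
      congr 1
      funext i
      by_cases h : i = i0
      · subst h
        simp [hd0]
      · simp [h]
    let D : GL l k := ⟨_, _, hv1, hv2⟩
    have hDd : (D : Matrix l l k).det = d⁻¹ := by
      change (Matrix.diagonal (Function.update (1 : l → k) i0 d⁻¹)).det = d⁻¹
      rw [Matrix.det_diagonal, Finset.prod_update_of_mem (Finset.mem_univ _)]
      simp
    have hDf : GeneralLinearGroup.map f D = D := by
      apply Units.ext
      change (Matrix.diagonal (Function.update (1 : l → k) i0 d⁻¹)).map f =
        Matrix.diagonal (Function.update (1 : l → k) i0 d⁻¹)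
      rw [Matrix.diagonal_map (map_zero f)]
      congr 1
      funext i
      by_cases h : i = i0
      · subst h
        simp [hfi]
      · simp [h]
    refine ⟨y * D, ?_, ?_⟩
    · rw [mem_SLf]
      change ((y : Matrix l l k) * (D : Matrix l l k)).det = 1
      rw [Matrix.det_mul, hDd, ← hd, mul_inv_cancel₀ hd0]
    · rw [map_mul, hy, hDf, mul_assoc]

end MP7Z
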