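import Pool.Agent.Lib.MP_7f581e_Z.Types.SpecB

/-!
# Step Lie, types: parametrization for type I
-/

set_option autoImplicit false

namespace MP7Z

open TensorProduct MP7fS MP7fU Matrix

section core

variable {A : Type} [Ring A]

/-- The Cayley type element is unitary. -/
theorem pi_core (J : A →+ A) (hJ1 : J 1 = 1) (hJm : ∀ a b, J (a * b) = J b * J a)
    {z T T' : A} (hz : J z = -z) (hT : J T = T') (hT' : J T' = T)
    (c1 : ∀ x, T * x = x * T) (c2 : ∀ x, T' * x = x * T') {X Y : Aˣ}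
    (hX : (X : A) = 1 - T' * z) (hY : (Y : A) = 1 + T * z) :
    J ((Y * X⁻¹ : Aˣ) : A) * ((Y * X⁻¹ : Aˣ) : A) = 1 := by
  have jX : J (X : A) = Y := by
    rw [hX, map_sub, hJ1, hJm, hz, hT', hY, c1, neg_mul, sub_neg_eq_add]
  have jY : J (Y : A) = X := by
    rw [hY, map_add, hJ1, hJm, hz, hT, hX, c2, neg_mul, sub_eq_add_neg]
  have hc : (X : A) * Y = Y * X := by
    have e1 : T' * z * (T * z) = T * z * (T' * z) := by
      calc T' * z * (T * z) = T' * (z * T) * z := by noncomm_ring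
        _ = T' * (T * z) * z := by rw [c1]
        _ = (T' * T) * (z * z) := by noncomm_ring
        _ = (T * T') * (z * z) := by rw [c2]
        _ = T * (T' * z) * z := by noncomm_ring
        _ = T * (z * T') * z := by rw [c2]
        _ = T * z * (T' * z) := by noncomm_ring
    rw [hX, hY, sub_mul, one_mul, mul_add, mul_one, e1, add_mul, one_mul, mul_sub, mul_one]
    abel
  have hc' : X * Y = Y * X := Units.ext hc
  have jXi : J ((X⁻¹ : Aˣ) : A) = ((Y⁻¹ : Aˣ) : A) := by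
    have e1 : J ((X⁻¹ : Aˣ) : A) * Y = 1 := by
      rw [← jX, ← hJm, Units.mul_inv, hJ1]
    exact Units.eq_inv_of_mul_eq_one_right e1
  rw [Units.val_mul, hJm, jXi, jY, ← Units.val_mul, ← Units.val_mul, ← Units.val_mul,
    ← Units.val_one]
  congr 1
  rw [mul_assoc, ← mul_assoc X, hc', mul_assoc Y, mul_inv_cancel, mul_one, inv_mul_cancel]

/-- The value at a point. -/
theorem pi_point {z T T' : A} (h : T + T' = 1) (hz : z * z = 0) (c2 : ∀ x, T' * x = x * T')
    {g X Y : A} {X' : A} (hX' : X * X' = 1) (hX : X = 1 - T' * z) (hY : Y = 1 + T * z)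
    (hg : g = Y * X') : g = 1 + z := by
  have e1 : (1 + z) * X = Y := by
    have e2 : z * (T' * z) = 0 := by rw [← mul_assoc, ← c2, mul_assoc, hz, mul_zero]
    rw [hX, hY, mul_sub, mul_one, add_mul, one_mul, e2, add_zero]
    have e3 : T * z = z - T' * z := by
      rw [eq_sub_iff_add_eq, ← add_mul, h, one_mul]
    rw [e3]
    abel
  rw [hg, ← e1, mul_assoc, hX', mul_one]

end core

section pi

variable {p : ℕ} [Fact p.Prime] {ι : Type} {n : ℕ} {F : Type} [Finite ι] [Field F]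
  [Finite F] [Algebra (ZMod p) F] {α : Equiv.Perm ι} {hα : ∀ y, α (α y) = y} {s : F →+* F}
  {hs : ∀ c, s (s c) = c}

theorem pi_form {R : (ι → Matrix (Fin n) (Fin n) F) ≃+* (ι → Matrix (Fin n) (Fin n) F)}
    (hR : FormG (DG (Fin n) F) R) (θ : ι → F) : ∃ θ' : ι → F, R (scF ι n F θ) = scF ι n F θ' := by
  obtain ⟨π, t, σ, _, h⟩ := hR
  refine ⟨fun y => σ (π.symm y) (θ (π.symm y)), ?_⟩
  funext y
  obtain ⟨i, rfl⟩ := π.surjective y
  rw [h, scF_apply, scF_apply, Equiv.symm_apply_apply]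
  have e1 : (Matrix.scalar (Fin n) (θ i)).map (σ i) = Matrix.scalar (Fin n) (σ i (θ i)) := by
    rw [Matrix.scalar_apply, Matrix.scalar_apply, Matrix.diagonal_map (map_zero _)]
  rw [e1, ← (Matrix.scalar_commute (σ i (θ i)) (fun r => mul_comm _ r)
    ((t i : GL (Fin n) F) : Matrix (Fin n) (Fin n) F)).eq, mul_assoc, Units.mul_inv, mul_one]

theorem pi_Jsc (θ : ι → F) (hθ : θ + sgC ι F α s θ = 1) :
    (JI p ι n F α hα s hs).j (scF ι n F θ) = 1 - scF ι n F θ := by
  have e1 : (JI p ι n F α hα s hs).j (scF ι n F θ) = scF ι n F (sgC ι F α s θ) := by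
    funext y
    ext a b
    rw [JI_apply, flipT_apply, Matrix.map_apply, scF_apply, scF_apply, sgC_apply,
      Matrix.scalar_apply, Matrix.scalar_apply, Matrix.diagonal_apply, Matrix.diagonal_apply]
    by_cases h : a = b
    · subst h
      rw [if_pos rfl, if_pos rfl]
    · rw [if_neg h, if_neg (fun h' => h (Fin.rev_injective h').symm), map_zero]
  rw [e1, eq_sub_iff_add_eq, add_comm, ← map_add, hθ, map_one]

end pi

theorem tyPI (h1 : ScStmt) (h2 : ZI1Stmt) (h3 : UTStmt) : PIStmt := by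
  intro p _ ι n F _ _ _ _ α hα s hs hSL t ⟨θ, hθ⟩ Q _ _ ρ hρ hρJ R _ _ a c₀ z hz hinv
  set J := JI p ι n F α hα s hs with hJ
  obtain ⟨sc1, sc2, sc3, sc4, sc5, sc6⟩ := h1 p ι n F α hα s hs R
  choose θq hθq using fun q => pi_form (hρ q) θ
  set c : R ⊗[ZMod p] (ι → F) := ∑ q, (a q c₀) ⊗ₜ[ZMod p] (θq q) with hc
  set c' : R ⊗[ZMod p] (ι → F) := tmap (p := p) (RingHom.id R) (sgC ι F α s) c with hc'
  obtain ⟨jz, tz⟩ := (h2 p ι n F α hα s hs t).1 R z hz
  set T := scR p ι n F R c with hT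
  set T' := scR p ι n F R c' with hT'
  have hTsum : T = ∑ q, (a q c₀) ⊗ₜ[ZMod p] (ρ q (scF ι n F θ)) := by
    rw [hT, hc, map_sum]
    exact Finset.sum_congr rfl fun q _ => by rw [scR_tmul, hθq]
  have jT : jR J R T = T' := sc2 c
  have jT' : jR J R T' = T := by rw [← jT, jR_jR]
  obtain ⟨Y, hY, hYd⟩ := h3 p ι n F t R c z tz
  obtain ⟨X, hX, hXd⟩ := h3 p ι n F t R (-c') z tz
  have hneg : scR p ι n F R (-c') * z = -(T' * z) := by
    rw [eq_neg_iff_add_eq_zero, ← add_mul, ← map_add, neg_add_cancel, map_zero, zero_mul]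
  rw [hneg, ← sub_eq_add_neg] at hX
  have hsum : T + T' = (∑ q, a q c₀) ⊗ₜ[ZMod p] (1 : ι → Matrix (Fin n) (Fin n) F) := by
    rw [← jT, hTsum, map_sum, ← Finset.sum_add_distrib, sum_tmul]
    refine Finset.sum_congr rfl fun q _ => ?_
    rw [jR_tmul, ← hρJ, pi_Jsc θ hθ, map_sub, map_one, ← tmul_add, add_sub_cancel]
  have invT : ∀ q, tmap (p := p) (a q : R →+* R)
      (ρ q : (ι → Matrix (Fin n) (Fin n) F) →+* (ι → Matrix (Fin n) (Fin n) F)) T = T := by
    intro q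
    rw [hTsum, map_sum]
    rw [← Equiv.sum_comp (Equiv.mulLeft q)
      (fun q' => (a q' c₀) ⊗ₜ[ZMod p] (ρ q' (scF ι n F θ)))]
    refine Finset.sum_congr rfl fun q' _ => ?_
    rw [tmap_tmul, Equiv.coe_mulLeft, map_mul, map_mul]
    rfl
  have invT' : ∀ q, tmap (p := p) (a q : R →+* R)
      (ρ q : (ι → Matrix (Fin n) (Fin n) F) →+* (ι → Matrix (Fin n) (Fin n) F)) T' = T' := by
    intro q
    rw [← jT, ← jR_tmap J (a q : R →+* R) (ρ q : _ →+* _) (hρJ q), invT]
  refine ⟨Y * X⁻¹, ⟨?_, ?_⟩, ?_, ?_⟩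
  · exact pi_core (jR J R).toAddMonoidHom (jR_one J) (fun a b => jR_mul J a b) jz jT jT'
      (sc1 c) (sc1 c') hX hY
  · exact mul_mem hYd (inv_mem hXd)
  · intro q
    have e1 : tu (p := p) (a q : R →+* R)
        (ρ q : (ι → Matrix (Fin n) (Fin n) F) →+* (ι → Matrix (Fin n) (Fin n) F)) Y = Y := by
      apply Units.ext
      rw [coe_tu, hY, map_add, map_one, map_mul, invT, hinv]
    have e2 : tu (p := p) (a q : R →+* R)
        (ρ q : (ι → Matrix (Fin n) (Fin n) F) →+* (ι → Matrix (Fin n) (Fin n) F)) X = X := by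
      apply Units.ext
      rw [coe_tu, hX, map_sub, map_one, map_mul, invT', hinv]
    rw [map_mul, map_inv, e1, e2]
  · intro k _ _ π hπ hzz
    obtain ⟨ksc1, _, _, _, _, _⟩ := h1 p ι n F α hα s hs k
    set P := tmap (p := p) π (RingHom.id (ι → Matrix (Fin n) (Fin n) F)) with hP
    refine pi_point (T := P T) (T' := P T') (X := P X) (Y := P Y)
      (X' := P ((X⁻¹ : (R ⊗[ZMod p] (ι → Matrix (Fin n) (Fin n) F))ˣ) :
        R ⊗[ZMod p] (ι → Matrix (Fin n) (Fin n) F))) ?_ hzz ?_ ?_ ?_ ?_ ?_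
    · rw [← map_add, hsum, hP, tmap_tmul, hπ, map_one]
      rfl
    · intro x
      rw [hT', hP, sc3]
      exact ksc1 _ x
    · rw [← map_mul, Units.mul_inv, map_one]
    · rw [hX, map_sub, map_one, map_mul]
    · rw [hY, map_add, map_one, map_mul]
    · rw [← map_mul, ← Units.val_mul]

end MP7Z
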