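import Pool.Agent.Lib.MP_7f581e_Z.Types.SpecA

/-!
# Step Lie, types, part B: type I

Each `def XStmt : Prop` is one Lean task: file `Types/X.lean`, import this file (and files named in
the task), `theorem tyX : XStmt`; statements listed under *Uses* are hypotheses `(h : YStmt)`.

`B = ι → Matrix (Fin n) (Fin n) F`, `J = JI` the involution `J(z)(y) = flipT((z (α y)).map s)`, `J_R = jR J R`
on `R ⊗ B`; `C = ι → F` the centre, with the involution `σC(c)(y) = s(c(α y))`.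
-/

set_option autoImplicit false
set_option linter.unusedSectionVars false

namespace MP7Z

open TensorProduct MP7fS MP7fU Matrix

section defs

variable (p : ℕ) [Fact p.Prime] (ι : Type) (n : ℕ) (F : Type) [Finite ι] [Field F]
  [Finite F] [Algebra (ZMod p) F] (α : Equiv.Perm ι) (s : F →+* F)

/-- The involution of the centre. -/
def sgC : (ι → F) →+* (ι → F) where
  toFun c := fun y => s (c (α y))
  map_one' := by
    funext y
    exact map_one s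
  map_zero' := by
    funext y
    exact map_zero s
  map_add' _ _ := by
    funext y
    exact map_add s _ _
  map_mul' _ _ := by
    funext y
    exact map_mul s _ _

theorem sgC_apply (c : ι → F) (y : ι) : sgC ι F α s c y = s (c (α y)) := rfl

/-- The scalar matrices. -/
def scF : (ι → F) →+* (ι → Matrix (Fin n) (Fin n) F) where
  toFun c := fun y => Matrix.scalar (Fin n) (c y)
  map_one' := by
    funext y
    exact map_one (Matrix.scalar (Fin n))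
  map_zero' := by
    funext y
    exact map_zero (Matrix.scalar (Fin n))
  map_add' _ _ := by
    funext y
    exact map_add (Matrix.scalar (Fin n)) _ _
  map_mul' _ _ := by
    funext y
    exact map_mul (Matrix.scalar (Fin n)) _ _

theorem scF_apply (c : ι → F) (y : ι) : scF ι n F c y = Matrix.scalar (Fin n) (c y) := rfl

/-- The scalar matrices over `R`: `R ⊗ C → R ⊗ B`. -/
noncomputable def scR (R : Type) [CommRing R] [Algebra (ZMod p) R] :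
    R ⊗[ZMod p] (ι → F) →+* R ⊗[ZMod p] (ι → Matrix (Fin n) (Fin n) F) :=
  (Algebra.TensorProduct.map (AlgHom.id (ZMod p) R) (toAlg (p := p) (scF ι n F))).toRingHom

theorem scR_tmul (R : Type) [CommRing R] [Algebra (ZMod p) R] (r : R) (c : ι → F) :
    scR p ι n F R (r ⊗ₜ c) = r ⊗ₜ scF ι n F c := rfl

/-- There are idempotents `c` of the centre with `σC c = 1 - c`, over algebraically closed fields,
invariant under the powers `m`, `m₀ ∣ m`, of the Frobenius. -/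
def HasEps (m₀ : ℕ) : Prop :=
  ∀ (k : Type) [Field k] [Algebra (ZMod p) k] [CharP k p] [IsAlgClosed k]
    [Algebra.IsAlgebraic (ZMod p) k] (m : ℕ), 0 < m → m₀ ∣ m →
    ∃ c : k ⊗[ZMod p] (ι → F), c * c = c ∧
      tmap (p := p) (RingHom.id k) (sgC ι F α s) c = 1 - c ∧
      tmap (p := p) (iterateFrobenius k p m) (RingHom.id (ι → F)) c = c

end defs

/-- **Ue.** The projection to the unitary group defined by a central idempotent.

*Proof.*  For `w ∈ Aˣ` `J(w)` is a unit with inverse `J(w⁻¹)` (`J(w⁻¹) J(w) = J(w w⁻¹) = 1`).  Put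
`U(w) = ε w + (1 - ε) J(w)⁻¹`.  `ε`, `1 - ε` are orthogonal central idempotents, so
`U(w) U(v) = ε w v + (1 - ε) J(w)⁻¹ J(v)⁻¹ = U(w v)` because `J(w v) = J(v) J(w)`; `U(1) = 1`; so `U(w)` is a unit and
`U` is a homomorphism.  `J(U w) = J(w) J(ε) + J(J(w)⁻¹) J(1 - ε) = (1 - ε) J(w) + ε w⁻¹` (`J(J(w)⁻¹) = J(J(w⁻¹)) =
w⁻¹`), times `U(w)`: `(1 - ε) + ε = 1`.  If `J(w) w = 1` then `J(w)⁻¹ = w` and `U(w) = w`.  If `w = 1 + z`, `z z = 0`:
`J(z) J(z) = 0`, `J(w)⁻¹ = 1 - J(z)`, `U(w) = 1 + ε z - (1 - ε) J(z)` and `J(ε z) = J(z) J(ε) = (1 - ε) J(z)`; the square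
of `ε z - (1 - ε) J(z)` is `ε z z + (1 - ε) J(z) J(z) = 0`.  Last: apply `Θ` to the formula. -/
def UeStmt : Prop :=
  ∀ (A : Type) [Ring A] (J : A →+ A), J 1 = 1 → (∀ a b, J (a * b) = J b * J a) →
    (∀ a, J (J a) = a) →
    ∀ ε : A, ε * ε = ε → (∀ a, ε * a = a * ε) → J ε = 1 - ε →
    ∃ U : Aˣ →* Aˣ,
      (∀ w : Aˣ, ∃ w' : Aˣ, (w' : A) = J (w : A) ∧
        (U w : A) = ε * w + (1 - ε) * ((w'⁻¹ : Aˣ) : A)) ∧
      (∀ w, J (U w : A) * (U w : A) = 1) ∧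
      (∀ w : Aˣ, J (w : A) * w = 1 → U w = w) ∧
      (∀ (w : Aˣ) (z : A), (w : A) = 1 + z → z * z = 0 →
        (U w : A) = 1 + (ε * z - J (ε * z)) ∧
          (ε * z - J (ε * z)) * (ε * z - J (ε * z)) = 0) ∧
      (∀ Θ : A →+* A, Θ ε = ε → (∀ a, Θ (J a) = J (Θ a)) →
        ∀ w : Aˣ, U (Units.map (Θ : A →* A) w) = Units.map (Θ : A →* A) (U w))

/-- **Sc.** Scalars and the involution.

*Proof.*  (1)-(4): both sides are additive (in each variable), check on pure tensors: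
`scF c * b = b * scF c`; `J(scF c) = scF(σC c)`: `flipT((scalar (c (α y))).map s) = scalar(s(c(α y)))` (the scalar
matrix is diagonal; `flipT` of a scalar matrix is itself).  (4): `TH R (r ⊗ z)(i) = r ⊗ z(i)` entrywise,
`J(z)(i) = flipT((z(α i)).map s)`.  (5) For `c = r ⊗ c'`: `TH R (scR c) i` is the scalar matrix of `r ⊗ c'(i)`; so
`e i = (id ⊗ ev_i)(c)`, the image of `c` under the ring homomorphism `R ⊗ (ι → F) → R ⊗ F`; if `c c = c` then
`e i e i = e i`.  (6) span induction on `z`: `(r ⊗ c')(r' ⊗ z') = r r' ⊗ (scF c' z')` and `scF c' z'` has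
components `c'(i) z'(i) ∈ ZN (N b) F`. -/
def ScStmt : Prop :=
  ∀ (p : ℕ) [Fact p.Prime] (ι : Type) (n : ℕ) (F : Type) [Finite ι] [Field F]
    [Finite F] [Algebra (ZMod p) F] (α : Equiv.Perm ι) (hα : ∀ y, α (α y) = y) (s : F →+* F)
    (hs : ∀ c, s (s c) = c) (R : Type) [CommRing R] [Algebra (ZMod p) R],
    (∀ (c : R ⊗[ZMod p] (ι → F)) (x : R ⊗[ZMod p] (ι → Matrix (Fin n) (Fin n) F)),
      scR p ι n F R c * x = x * scR p ι n F R c) ∧
    (∀ c : R ⊗[ZMod p] (ι → F), jR (JI p ι n F α hα s hs) R (scR p ι n F R c) =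
      scR p ι n F R (tmap (p := p) (RingHom.id R) (sgC ι F α s) c)) ∧
    (∀ (R' : Type) [CommRing R'] [Algebra (ZMod p) R'] (f : R →+* R')
      (c : R ⊗[ZMod p] (ι → F)),
      tmap (p := p) f (RingHom.id (ι → Matrix (Fin n) (Fin n) F)) (scR p ι n F R c) =
        scR p ι n F R' (tmap (p := p) f (RingHom.id (ι → F)) c)) ∧
    (∀ (x : R ⊗[ZMod p] (ι → Matrix (Fin n) (Fin n) F)) (i : ι),
      TH (p := p) R (jR (JI p ι n F α hα s hs) R x) i =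
        flipT ((TH (p := p) R x (α i)).map (tmap (p := p) (RingHom.id R) s))) ∧
    (∀ c : R ⊗[ZMod p] (ι → F), ∃ e : ι → R ⊗[ZMod p] F,
      (∀ i, TH (p := p) R (scR p ι n F R c) i = Matrix.scalar (Fin n) (e i)) ∧
        (c * c = c → ∀ i, e i * e i = e i)) ∧
    (∀ (N : Bool → Set (Matrix (Fin n) (Fin n) (ZMod p))) (b : Bool)
      (c : R ⊗[ZMod p] (ι → F)) (z : R ⊗[ZMod p] (ι → Matrix (Fin n) (Fin n) F)),
      z ∈ (ZII p ι (Fin n) F N b).baseChange R →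
        scR p ι n F R c * z ∈ (ZII p ι (Fin n) F N b).baseChange R)

/-- **DetU.** Determinants of the projection.

*Proof.*  LEMMA: `T` a commutative ring, `e e = e`, `M, N` matrices: `det(e M + (1 - e) N) = e det M +
(1 - e) det N`.  Proof: `e X = e Y` entrywise implies `e det X = e det Y` (in `T / (1 - e)` the matrices `X` and
`Y` are equal, so `det X - det Y ∈ (1 - e)`); so `e det(e M + (1 - e) N) = e det M` and
`(1 - e) det(..) = (1 - e) det N`; add.  Now let `w' = J_R(u)` (a unit); by *Sc* (4) its components are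
`flipT((cmp u (α i)).map (id ⊗ s))`, of determinant `(id ⊗ s)(1) = 1` (`det_flipT`), so the components of
`w'⁻¹` have determinant `1`; by *Sc* (5) the component `i` of `ε u + (1 - ε) w'⁻¹` is `e_i M + (1 - e_i) N` with
`det M = det N = 1`, `e_i` idempotent.
*Uses*: Sc. -/
def DetUStmt : Prop :=
  ∀ (p : ℕ) [Fact p.Prime] (ι : Type) (n : ℕ) (F : Type) [Finite ι] [Field F]
    [Finite F] [Algebra (ZMod p) F] (α : Equiv.Perm ι) (hα : ∀ y, α (α y) = y) (s : F →+* F)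
    (hs : ∀ c, s (s c) = c) (R : Type) [CommRing R] [Algebra (ZMod p) R]
    (c : R ⊗[ZMod p] (ι → F)), c * c = c →
    ∀ u v w' : (R ⊗[ZMod p] (ι → Matrix (Fin n) (Fin n) F))ˣ,
      (∀ i, cmp (p := p) R i u ∈ SLf (Fin n) (R ⊗[ZMod p] F)) →
      (w' : R ⊗[ZMod p] (ι → Matrix (Fin n) (Fin n) F)) =
        jR (JI p ι n F α hα s hs) R (u : R ⊗[ZMod p] (ι → Matrix (Fin n) (Fin n) F)) →
      (v : R ⊗[ZMod p] (ι → Matrix (Fin n) (Fin n) F)) =
        scR p ι n F R c * u + (1 - scR p ι n F R c) *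
          ((w'⁻¹ : (R ⊗[ZMod p] (ι → Matrix (Fin n) (Fin n) F))ˣ) :
            R ⊗[ZMod p] (ι → Matrix (Fin n) (Fin n) F)) →
      ∀ i, cmp (p := p) R i v ∈ SLf (Fin n) (R ⊗[ZMod p] F)

/-- **L1E.** Lang's theorem for type I if the centre has a constant idempotent `c` with `σC c = 1 - c`.

*Proof.*  `k` separably closed, `g ∈ H_I(k) ≤ H_II(k)`.  By `Lang1` for type II there is `y' ∈ H_II(k)` with
`F y' = g y'`.  `ε = scR k (1 ⊗ c)`: central idempotent (*Sc* (1)), `J ε = 1 - ε` (*Sc* (2)),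
`(φ ⊗ 1) ε = ε`.  Let `U` be as in *Ue* for `A = k ⊗ B`, `J = jR J k` (as additive map; `jR_one`, `jR_mul`, `jR_jR`).
`y = U(y')`: `J(y) y = 1`, determinants by *DetU*.  `F y = U(F y')` (*Ue*, last, `Θ = tmap φ id`, `jR_tmap`)
`= U(g y') = U(g) U(y') = g y` since `J(g) g = 1`.
*Uses*: Ue, Sc, DetU. -/
def L1EStmt : Prop :=
  ∀ (p : ℕ) [Fact p.Prime] (ι : Type) (n : ℕ) (F : Type) [Finite ι] [Field F]
    [Finite F] [Algebra (ZMod p) F] (α : Equiv.Perm ι) (hα : ∀ y, α (α y) = y) (s : F →+* F)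
    (hs : ∀ c, s (s c) = c) (hSL : SFunc (SLf (Fin n))),
    (∃ c : ι → F, c * c = c ∧ sgC ι F α s c = 1 - c) →
    (GII p ι (Fin n) F (SLf (Fin n)) hSL).Lang1 → (GI p ι n F α hα s hs hSL).Lang1

/-- **LMI.** Lang's theorem for the powers of the Frobenius, type I.

*Proof.*  As *L1E*: let `m₀ ∣ m`, `c₁` the idempotent of `HasEps`, `ε = scR k c₁`, `(φ^m ⊗ 1) ε = ε` (*Sc* (3)).
For a point `b` of type I (`b ∈ pts` of type II as well, by definition of `GI`) there is `y' ∈ H_II(k)` with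
`fru m y' = y' cstu b`.  `y = U(y')`: `fru m y = U(fru m y') = U(y') U(cstu b) = y cstu b`, because
`J(cstu b) cstu b = 1` (`cstu k b` is the image of `cstu (ZMod p) b ∈ H_I(ZMod p)` under
`algebraMap (ZMod p) k`, `𝒢.map`).
*Uses*: Ue, Sc, DetU. -/
def LMIStmt : Prop :=
  ∀ (p : ℕ) [Fact p.Prime] (ι : Type) (n : ℕ) (F : Type) [Finite ι] [Field F]
    [Finite F] [Algebra (ZMod p) F] (α : Equiv.Perm ι) (hα : ∀ y, α (α y) = y) (s : F →+* F)
    (hs : ∀ c, s (s c) = c) (hSL : SFunc (SLf (Fin n))) (m₀ : ℕ),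
    HasEps p ι F α s m₀ →
    (GII p ι (Fin n) F (SLf (Fin n)) hSL).LangM m₀ → (GI p ι n F α hα s hs hSL).LangM m₀

/-- **GnI.** Generation for type I.

*Proof.*  `k, m, c₁, ε, U` as in *LMI*; `x ∈ H_I(k)`, `fru m x = x`.  `x ∈ H_II(k)`, so `x` is in the subgroup
generated by the `w` with `fru m w = w`, `(w - 1)^2 = 0`, `w - 1 ∈ (ZII b).baseChange k`.  `U` is a homomorphism
and `U(x) = x`, so it is enough that `U(w)` is a generator for type I: `z = w - 1`: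
`U(w) - 1 = ε z - J(ε z)`, of square zero (*Ue*); `fru m (U w) = U(fru m w) = U w`.  `ε z ∈ (ZII b).baseChange k`
(*Sc* (6)), so `ε z = Σ r_a ⊗ z_a`, `z_a ∈ ZII b` (span), and `ε z - J(ε z) = Σ r_a ⊗ (z_a - J z_a)` with
`z_a - J z_a ∈ ZI b`: skew, and strictly triangular because `flipT` preserves strictly upper (lower)
triangular matrices (`b ≤ a ↔ rev a ≤ rev b`).
*Uses*: Ue, Sc. -/
def GnIStmt : Prop :=
  ∀ (p : ℕ) [Fact p.Prime] (ι : Type) (n : ℕ) (F : Type) [Finite ι] [Field F]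
    [Finite F] [Algebra (ZMod p) F] (α : Equiv.Perm ι) (hα : ∀ y, α (α y) = y) (s : F →+* F)
    (hs : ∀ c, s (s c) = c) (hSL : SFunc (SLf (Fin n))) (m₀ : ℕ),
    HasEps p ι F α s m₀ →
    (GII p ι (Fin n) F (SLf (Fin n)) hSL).Gen m₀ (ZII p ι (Fin n) F (NSL p n)) →
    (GI p ι n F α hα s hs hSL).Gen m₀ (ZI p ι n F α hα s hs)

/-- **ZI1.** Elements of `R ⊗ ZI` are skew and strictly triangular.

*Proof.*  Span induction on `Submodule.baseChange` (spanned by `1 ⊗ z`, `z ∈ ZI t`); `jR J R (r ⊗ z) = r ⊗ J z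
= -(r ⊗ z)`, `TH_tmul`.  Last claim: by *FTH*-free direct computation: `R z` for an automorphism of diagonal
shape: `(R z)(π y) = t_y (z y)^σ t_y⁻¹` has the entries `v_a σ(z y a b) v_b⁻¹`, zero where `z y a b` is zero;
`J (R z) = R (J z) = -R z`. -/
def ZI1Stmt : Prop :=
  ∀ (p : ℕ) [Fact p.Prime] (ι : Type) (n : ℕ) (F : Type) [Finite ι] [Field F]
    [Finite F] [Algebra (ZMod p) F] (α : Equiv.Perm ι) (hα : ∀ y, α (α y) = y) (s : F →+* F)
    (hs : ∀ c, s (s c) = c) (t : Bool),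
    (∀ (R : Type) [CommRing R] [Algebra (ZMod p) R]
      (z : R ⊗[ZMod p] (ι → Matrix (Fin n) (Fin n) F)),
      z ∈ (ZI p ι n F α hα s hs t).baseChange R →
        jR (JI p ι n F α hα s hs) R z = -z ∧
          ∀ y a b, (if t then a ≤ b else b ≤ a) → TH (p := p) R z y a b = 0) ∧
    (∀ R : (ι → Matrix (Fin n) (Fin n) F) ≃+* (ι → Matrix (Fin n) (Fin n) F),
      FormG (DG (Fin n) F) R →
      (∀ z, R ((JI p ι n F α hα s hs).j z) = (JI p ι n F α hα s hs).j (R z)) →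
      ∀ z ∈ ZI p ι n F α hα s hs t, R z ∈ ZI p ι n F α hα s hs t)

/-- **UT.** Unipotent elements `1 + Θ z`.

*Proof.*  `Θ = scR c` is central and `TH R Θ y` is a scalar matrix (*Sc* (1), (5)), so `X = Θ z` is
strictly triangular in all components: `TH R X y a b = e_y TH R z y a b`.  A strictly triangular
`n × n` matrix has `n`-th power `0` (`TH R (X ^ n) = 0`, so `X ^ n = 0` by *THb*; or: the characteristic
polynomial is `T^n`), so `X` is nilpotent and `1 + X` is a unit; `det(1 + X_y) = 1` (triangular with ones on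
the diagonal: `Matrix.det_of_upperTriangular`, `Matrix.det_of_lowerTriangular`).
*Uses*: THb, Sc. -/
def UTStmt : Prop :=
  ∀ (p : ℕ) [Fact p.Prime] (ι : Type) (n : ℕ) (F : Type) [Finite ι] [Field F]
    [Finite F] [Algebra (ZMod p) F] (t : Bool) (R : Type) [CommRing R] [Algebra (ZMod p) R]
    (c : R ⊗[ZMod p] (ι → F)) (z : R ⊗[ZMod p] (ι → Matrix (Fin n) (Fin n) F)),
    (∀ y a b, (if t then a ≤ b else b ≤ a) → TH (p := p) R z y a b = 0) →
    ∃ u : (R ⊗[ZMod p] (ι → Matrix (Fin n) (Fin n) F))ˣ,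
      (u : R ⊗[ZMod p] (ι → Matrix (Fin n) (Fin n) F)) = 1 + scR p ι n F R c * z ∧
        ∀ i, cmp (p := p) R i u ∈ SLf (Fin n) (R ⊗[ZMod p] F)

/-- **PI.** Parametrization for type I.

*Proof.*  Let `θ ∈ C` with `θ + σC θ = 1`, `z ∈ (ZI t).baseChange R` invariant, `c₀ ∈ R`.  (1) By the shape of
`ρ q`: `ρ q (scF θ) = scF θ_q` with `θ_q(π y) = σ_y(θ y)` (`t_y` commutes with scalar matrices), and
`scF(σC θ_q) = J(ρ q (scF θ)) = ρ q (scF (σC θ)) = ρ q (1 - scF θ) = scF(1 - θ_q)`, so `σC θ_q = 1 - θ_q` (if `n = 0`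
everything is trivial: the ring `B` is zero).  Put `c = Σ_q (a q c₀) ⊗ θ_q ∈ R ⊗ C`, `T = Σ_q a q c₀ ∈ R`,
`Θ = scR c`, `Θ' = scR(tmap id σC c) = J_R Θ` (*Sc* (2)); `tmap id σC c = T ⊗ 1 - c`, so `Θ + Θ' = T • 1`.
(2) `Θ` is invariant: `tmap (a q') (ρ q') (Σ_q a q c₀ ⊗ ρ q (scF θ)) = Σ_q a (q' q) c₀ ⊗ ρ (q' q)(scF θ) = Θ`
(`Equiv.sum_comp` for left multiplication); `Θ'` also (`J_R` commutes with `tmap (a q) (ρ q)`, `jR_tmap`).
(3) By *ZI1* and *UT* there are units `X = 1 - Θ' z` and `Y = 1 + Θ z` (use `-z` for `X`), all components of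
determinant `1`.  `g = Y X⁻¹`.  `J_R(Y) = 1 + J(z) J(Θ) = 1 - z Θ' = X` and `J_R(X) = 1 - J(z) J(Θ') = 1 + z Θ = Y`
(`Θ, Θ'` central); `X` and `Y` commute.  `J_R(g) = J_R(X⁻¹) J_R(Y) = Y⁻¹ X`, so `J_R(g) g = Y⁻¹ X Y X⁻¹ = 1`.
So `g ∈ H_I(R)`.  (4) `X`, `Y` are invariant, so `g` is.  (5) `π : R → k`, `π(T) = 1`, `ζ = π(z)`, `ζ ζ = 0`;
`Θ₁ = π(Θ)`, `Θ₂ = π(Θ')` central, `Θ₁ + Θ₂ = 1`.  `π(X) = 1 - Θ₂ ζ` has the inverse `1 + Θ₂ ζ`, so
`π(g) = (1 + Θ₁ ζ)(1 + Θ₂ ζ) = 1 + (Θ₁ + Θ₂) ζ = 1 + ζ`.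
*Uses*: Sc, ZI1, UT. -/
def PIStmt : Prop :=
  ∀ (p : ℕ) [Fact p.Prime] (ι : Type) (n : ℕ) (F : Type) [Finite ι] [Field F]
    [Finite F] [Algebra (ZMod p) F] (α : Equiv.Perm ι) (hα : ∀ y, α (α y) = y) (s : F →+* F)
    (hs : ∀ c, s (s c) = c) (hSL : SFunc (SLf (Fin n))) (t : Bool),
    (∃ θ : ι → F, θ + sgC ι F α s θ = 1) →
    ∀ (Q : Type) [Group Q] [Fintype Q]
      (ρ : Q →* ((ι → Matrix (Fin n) (Fin n) F) ≃+* (ι → Matrix (Fin n) (Fin n) F))),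
      (∀ q, FormG (DG (Fin n) F) (ρ q)) →
      (∀ q z, ρ q ((JI p ι n F α hα s hs).j z) = (JI p ι n F α hα s hs).j (ρ q z)) →
      (GI p ι n F α hα s hs hSL).Par ρ (ZI p ι n F α hα s hs t)

/-- **StI.** Stability for type I.

*Proof.*  The second condition is *StII* for `S = SL`, `D` all matrices (`SL` is normal: *ZSt* (4)); the first:
`jR J R (tmap id (ρ q) u) = tmap id (ρ q) (jR J R u)` (`jR_tmap`).
*Uses*: StII, ZSt. -/
def StIStmt : Prop :=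
  ∀ (p : ℕ) [Fact p.Prime] (ι : Type) (n : ℕ) (F : Type) [Finite ι] [Field F]
    [Finite F] [Algebra (ZMod p) F] (α : Equiv.Perm ι) (hα : ∀ y, α (α y) = y) (s : F →+* F)
    (hs : ∀ c, s (s c) = c) (hSL : SFunc (SLf (Fin n))) (Q : Type) [Group Q]
    (ρ : Q →* ((ι → Matrix (Fin n) (Fin n) F) ≃+* (ι → Matrix (Fin n) (Fin n) F))),
    (∀ q, FormG Set.univ (ρ q)) →
    (∀ q z, ρ q ((JI p ι n F α hα s hs).j z) = (JI p ι n F α hα s hs).j (ρ q z)) →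
    (GI p ι n F α hα s hs hSL).Stable ρ

/-- **PtI.** The points of type I.

*Proof.*  `jR J (ZMod p) (1 ⊗ b) = 1 ⊗ J b`, and `b ↦ 1 ⊗ b` is injective (`one_tmul_inj`); the determinants by
*PtII* and `mem_SLf`.
*Uses*: PtII. -/
def PtIStmt : Prop :=
  ∀ (p : ℕ) [Fact p.Prime] (ι : Type) (n : ℕ) (F : Type) [Finite ι] [Field F]
    [Finite F] [Algebra (ZMod p) F] (α : Equiv.Perm ι) (hα : ∀ y, α (α y) = y) (s : F →+* F)
    (hs : ∀ c, s (s c) = c) (hSL : SFunc (SLf (Fin n))) (b : (ι → Matrix (Fin n) (Fin n) F)ˣ),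
    b ∈ (GI p ι n F α hα s hs hSL).pts ↔
      (JI p ι n F α hα s hs).j (b : ι → Matrix (Fin n) (Fin n) F) *
          (b : ι → Matrix (Fin n) (Fin n) F) = 1 ∧
        ∀ i, ((b : ι → Matrix (Fin n) (Fin n) F) i).det = 1

/-- **ESU.** Idempotents for `α = 1`, `s(c) = c ^ (p ^ e)`, `|F| = p ^ (2 e)`, and an element of trace `1`.

*Proof.*  `d = finrank (ZMod p) F = 2 e`.  (1) `k` algebraically closed, `τ : F → k`; by *Evj* (5) there is
`c₁ ∈ k ⊗ F` with `evj τ j c₁ = 1` for `j < e` and `0` for `e ≤ j < 2 e`.  `c₁ c₁ = c₁`;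
`evj τ j (tmap id s c₁) = evj τ (j + e) c₁ = 1 - evj τ j c₁` (*Evj* (4), (1)), so `tmap id s c₁ = 1 - c₁`; for
`2 e ∣ m`: `evj τ (j + m) (tmap φ^m id c₁) = (evj τ j c₁)^(p^m) = evj τ j c₁` and `evj τ (j + m) = evj τ j`, so
`tmap φ^m id c₁ = c₁`.  Let `c` be the image of `c₁` under `k ⊗ F → k ⊗ (ι → F)`, `id ⊗ (const)` (a ring
homomorphism compatible with everything).  (2) the trace form `c ↦ c + s(c)` of `F` is not zero on `F` or
its values are not... choose `u ∈ F` with `u + s(u) ≠ 0` (otherwise `s(u) = -u` for all `u`, `s(1) = 1 = -1`,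
so `s = id`, but `s ≠ id` because `e < 2 e` and `|F| = p^{2e}` elements cannot all satisfy
`c^{p^e} = c`); `t = u + s(u)`, `s(t) = t`, `θ = u / t`.  (Library: `MP7fV.exists_c0` in
`MP_7f581e_ntL/V11`.)
*Uses*: Evj. -/
def ESUStmt : Prop :=
  ∀ (p : ℕ) [Fact p.Prime] (ι : Type) (F : Type) [Finite ι] [Field F] [Finite F]
    [Algebra (ZMod p) F] (s : F →+* F) (e : ℕ), 0 < e → Nat.card F = p ^ (2 * e) →
    (∀ c, s c = c ^ p ^ e) →
    HasEps p ι F (Equiv.refl ι) s (Module.finrank (ZMod p) F) ∧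
      ∃ θ : ι → F, θ + sgC ι F (Equiv.refl ι) s θ = 1

/-- **FCU.** Hermitian forms over finite fields.

*Proof.*  `w₀` = permutation matrix of `Fin.rev`: `flipT M = w₀ Mᵀ w₀`, `w₀ w₀ = 1`, `w₀ᵀ = w₀`.  `Φ = w₀ b`:
`(Φ.map s)ᵀ = (b.map s)ᵀ w₀ = w₀ flipT(b.map s) w₀ w₀ = w₀ b = Φ` (hypothesis `flipT(b.map s) = b`), `det Φ ≠ 0`.
`w₀` is hermitian too.  Library `MP_7f581e_ntL/Y4`: `MP7fY.exists_P` (with `c + s c = 1`, norm surjective:
`MP7fY.norm_surj`, `sF p e F = s`) gives `P`, `P'` in `GL_n(F)` with `(P.map s)ᵀ Φ P = 1`, `(P'.map s)ᵀ w₀ P' = 1`.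
`c = P P'⁻¹`: `(c.map s)ᵀ Φ c = w₀`, so `flipT(c.map s) b c = w₀ (c.map s)ᵀ w₀ b c = w₀ w₀ = 1`. -/
def FCUStmt : Prop :=
  ∀ (p : ℕ) [Fact p.Prime] (n : ℕ) (F : Type) [Field F] [Finite F] [Algebra (ZMod p) F]
    (s : F →+* F) (e : ℕ), 0 < e → Nat.card F = p ^ (2 * e) → (∀ c, s c = c ^ p ^ e) →
    ∀ b : GL (Fin n) F, flipT ((b : Matrix (Fin n) (Fin n) F).map s) = b →
      ∃ c : GL (Fin n) F, flipT ((c : Matrix (Fin n) (Fin n) F).map s) *
        (b : Matrix (Fin n) (Fin n) F) * (c : Matrix (Fin n) (Fin n) F) = 1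

/-- **DCU.** Diagonal unitary matrices with given determinant (`n ≥ 2`).

*Proof.*  Hilbert 90: `δ s(δ) = 1`.  Choose `u ∈ F` with `a = u + δ s(u) ≠ 0` (otherwise `s(u) = -δ⁻¹ u` for all
`u`; `u = 1` gives `δ = -1`, so `s(u) = u` for all `u`, impossible since `|F| = p^{2e} > p^e`).  `δ s(a) =
δ s(u) + δ s(δ) u = a`, so `δ = a / s(a)`.  `t = diag(a, 1, .., 1, s(a)⁻¹)` (entries at `0`, .., `n - 1`):
`flipT(diag v) = diag(v ∘ rev)`; `t.map s = diag(s(a), 1, .., a⁻¹)`, `flipT = diag(a⁻¹, 1, .., s(a))`, product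
with `t` is `1`.  `det t = a / s(a) = δ`. -/
def DCUStmt : Prop :=
  ∀ (p : ℕ) [Fact p.Prime] (n : ℕ) (F : Type) [Field F] [Finite F] [Algebra (ZMod p) F]
    (s : F →+* F) (e : ℕ), 0 < e → Nat.card F = p ^ (2 * e) → (∀ c, s c = c ^ p ^ e) → 2 ≤ n →
    ∀ δ : F, s δ * δ = 1 → ∃ t ∈ DG (Fin n) F,
      flipT ((t : Matrix (Fin n) (Fin n) F).map s) * (t : Matrix (Fin n) (Fin n) F) = 1 ∧
        (t : Matrix (Fin n) (Fin n) F).det = δ

/-- **L1U.** Lang's theorem for `SU_n`.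

*Proof.*  `g ∈ H_I(k)`; `Lang1` for type II with `S = GL` (`H(k)` = all units) gives `y' ∈ (k ⊗ B)ˣ` with
`F y' = g y'`.  `h = J(y') y'` (`J = jR J k`): `F h = J(F y') F y' = J(y') J(g) g y' = h`, so `h = 1 ⊗ b` with
`b ∈ Bˣ` (`exists_unit_of_frob_eq`, `fru 1 k` is `frob`), and `J(h) = h` gives `J b = b`, that is
`flipT((b i).map s) = b i`.  By *FCU* there is `c ∈ Bˣ` with `J(c) b c = 1`.  `y₁ = y' (1 ⊗ c)`: `F y₁ = g y₁`,
`J(y₁) y₁ = J(c) J(y') y' c = 1`.  Let `δ_i ∈ k ⊗ F` be the determinant of the component `i` of `y₁`: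
`(φ ⊗ 1)(δ_i) = det(g_i) δ_i = δ_i` (`cmp_tu`, determinant of the components of `F y₁ = g y₁`), so
`δ_i = 1 ⊗ δ_i'` with `δ_i' ∈ F` (`exists_of_frob_eq` for the ring `F`), and
`(id ⊗ s)(δ_i) δ_i = 1` (determinants in `J(y₁) y₁ = 1`, *Sc* (4), `det_flipT`), so `s(δ_i') δ_i' = 1`.  By *DCU*
there are `t_i ∈ GL_n(F)` with `flipT(t_i.map s) t_i = 1`, `det t_i = δ_i'`; `t = (t_i)_i ∈ Bˣ`, `J(t) t = 1`.
`y = y₁ (1 ⊗ t⁻¹)`: `F y = g y`, `J(y) y = 1`, all determinants `1`.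
*Uses*: Sc, FCU, DCU. -/
def L1UStmt : Prop :=
  ∀ (p : ℕ) [Fact p.Prime] (ι : Type) (n : ℕ) (F : Type) [Finite ι] [Field F]
    [Finite F] [Algebra (ZMod p) F] (hα : ∀ y, Equiv.refl ι (Equiv.refl ι y) = y) (s : F →+* F)
    (hs : ∀ c, s (s c) = c) (hSL : SFunc (SLf (Fin n))) (hGL : SFunc (GLf (Fin n))) (e : ℕ),
    0 < e → Nat.card F = p ^ (2 * e) → (∀ c, s c = c ^ p ^ e) → 2 ≤ n →
    (GII p ι (Fin n) F (GLf (Fin n)) hGL).Lang1 →
    (GI p ι n F (Equiv.refl ι) hα s hs hSL).Lang1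

/-- **Trp.** Transport of a group functor along a ring isomorphism of the coefficient rings.

*Proof.*  Let `Ξ_R = id ⊗ Ξ : R ⊗ B → R ⊗ B'` (`Algebra.TensorProduct.map` with `toAlg Ξ`), a ring isomorphism,
natural in `R`: `Ξ_{R'} ∘ tmap f id = tmap f id ∘ Ξ_R`, `Ξ_R ∘ tmap f (ρ) = tmap f (Ξ ρ Ξ⁻¹) ∘ Ξ_R`.  `H'(R)` = the
preimage of `H(R)` under `Units.map Ξ_R`.  All properties are transported; `fru`, `cstu` commute with
`Ξ_R`; `Z'_i = Ξ⁻¹(Z_i)`, `(Z'_i).baseChange R` is mapped onto `(Z_i).baseChange R` (span). -/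
def TrpStmt : Prop :=
  ∀ (p : ℕ) [Fact p.Prime] (B B' : Type) [Ring B] [Finite B] [Algebra (ZMod p) B] [Ring B']
    [Finite B'] [Algebra (ZMod p) B'] (Ξ : B ≃+* B') (𝒢 : LangGp p B'),
    ∃ 𝒢' : LangGp p B,
      (∀ b : Bˣ, b ∈ 𝒢'.pts ↔ Units.map (Ξ : B →* B') b ∈ 𝒢.pts) ∧
      (𝒢.Lang1 → 𝒢'.Lang1) ∧ (∀ m₀, 𝒢.LangM m₀ → 𝒢'.LangM m₀) ∧
      (∀ (m₀ : ℕ) (ι : Type) (Z : ι → Submodule (ZMod p) B') (Z' : ι → Submodule (ZMod p) B),
        (∀ i b, b ∈ Z' i ↔ Ξ b ∈ Z i) → 𝒢.Gen m₀ Z → 𝒢'.Gen m₀ Z') ∧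
      (∀ (Q : Type) [Group Q] (ρ : Q →* (B ≃+* B)) (ρ' : Q →* (B' ≃+* B')),
        (∀ q b, Ξ (ρ q b) = ρ' q (Ξ b)) → 𝒢.Stable ρ' → 𝒢'.Stable ρ) ∧
      (∀ (Q : Type) [Group Q] [Fintype Q] (ρ : Q →* (B ≃+* B)) (ρ' : Q →* (B' ≃+* B'))
        (Z : Submodule (ZMod p) B') (Z' : Submodule (ZMod p) B),
        (∀ q b, Ξ (ρ q b) = ρ' q (Ξ b)) → (∀ b, b ∈ Z' ↔ Ξ b ∈ Z) → 𝒢.Par ρ' Z → 𝒢'.Par ρ Z')

end MP7Z
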