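import Pool.Agent.Lib.MP_7f581e_Z.Types.SpecA

/-! # Step Lie, types: components of elements of `R ⊗ ZII` (`ZTHStmt`) -/

set_option autoImplicit false

namespace MP7Z

open TensorProduct MP7fS MP7fU Matrix

theorem tyZTH : ZTHStmt := by
  intro p _ ι l F _ _ _ _ _ _ N b R _ _ z hz i
  have key : ∀ M : Matrix l l F, M ∈ ZN (N b) F →
      M.map (fun c => (1 : R) ⊗ₜ[ZMod p] c) ∈ ZN (N b) (R ⊗[ZMod p] F) := by
    intro M hM
    refine Submodule.span_induction (p := fun (M : Matrix l l F) _ =>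
      M.map (fun c => (1 : R) ⊗ₜ[ZMod p] c) ∈ ZN (N b) (R ⊗[ZMod p] F)) ?_ ?_ ?_ ?_ hM
    · rintro _ ⟨M₀, hM₀, rfl⟩
      refine Submodule.subset_span ⟨M₀, hM₀, ?_⟩
      ext a c
      exact ((Algebra.TensorProduct.includeRight : F →ₐ[ZMod p] R ⊗[ZMod p] F).commutes
        (M₀ a c)).symm
    · have h : (0 : Matrix l l F).map (fun c => (1 : R) ⊗ₜ[ZMod p] c) =
          (0 : Matrix l l (R ⊗[ZMod p] F)) := by
        ext a c
        exact TensorProduct.tmul_zero _ _
      rw [h]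
      exact Submodule.zero_mem _
    · intro x y _ _ hx hy
      have h : (x + y).map (fun c => (1 : R) ⊗ₜ[ZMod p] c) =
          x.map (fun c => (1 : R) ⊗ₜ[ZMod p] c) + y.map (fun c => (1 : R) ⊗ₜ[ZMod p] c) := by
        ext a c
        exact TensorProduct.tmul_add _ _ _
      rw [h]
      exact Submodule.add_mem _ hx hy
    · intro t x _ hx
      have h : (t • x).map (fun c => (1 : R) ⊗ₜ[ZMod p] c) =
          ((1 : R) ⊗ₜ[ZMod p] t) • x.map (fun c => (1 : R) ⊗ₜ[ZMod p] c) := by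
        ext a c
        change (1 : R) ⊗ₜ[ZMod p] (t * x a c) = ((1 : R) ⊗ₜ[ZMod p] t) * ((1 : R) ⊗ₜ[ZMod p] x a c)
        rw [Algebra.TensorProduct.tmul_mul_tmul, one_mul]
      rw [h]
      exact Submodule.smul_mem _ _ hx
  rw [Submodule.baseChange_eq_span] at hz
  refine Submodule.span_induction (p := fun (z : R ⊗[ZMod p] (ι → Matrix l l F)) _ =>
    TH (p := p) R z i ∈ ZN (N b) (R ⊗[ZMod p] F)) ?_ ?_ ?_ ?_ hz
  · rintro _ ⟨z₀, hz₀, rfl⟩
    change TH (p := p) R (1 ⊗ₜ z₀) i ∈ _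
    rw [TH_tmul]
    exact key (z₀ i) ((mem_ZII p ι l F).1 hz₀ i)
  · rw [map_zero]
    exact Submodule.zero_mem _
  · intro x y _ _ hx hy
    rw [map_add]
    exact Submodule.add_mem _ hx hy
  · intro r x _ hx
    have h : TH (p := p) R (r • x) i = (algebraMap R (R ⊗[ZMod p] F) r) • TH (p := p) R x i := by
      have h1 : TH (p := p) R (r • x) = r • TH (p := p) R x := map_smul (THa (p := p) R) r x
      rw [h1]
      ext a c
      change r • (TH (p := p) R x i a c) = (algebraMap R (R ⊗[ZMod p] F) r) * TH (p := p) R x i a c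
      rw [Algebra.smul_def]
    rw [h]
    exact Submodule.smul_mem _ _ hx

end MP7Z
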